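import Pool.Agent.Lib.MP_ca0fc2_an.Mg.G054
import Pool.Agent.Lib.MP_ca0fc2_an.Mg.G045

/-! The second order Taylor formula for `δ`, curves and discs in the domain, and the lemma of Hopf. -/

set_option autoImplicit false

open Metric Set MeasureTheory Filter Topology

namespace Pool.Agent.MPca0fc2.FD

variable {n : ℕ}

/-- Q1 helper: `h(a, a)` is Lipschitz near `z`. -/
private theorem Q1_hlip {n : ℕ} {c C : ℝ} {U : Set (Ec n)} {δ : Ec n → ℝ}
    {h : Ec n → Ec n → Fin n → ℂ} (hg : Geo U δ h c C) {z : Ec n} (hz : z ∈ Om U δ) {a : Ec n}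
    (ha : a ∈ ball z c) : ‖h a a - h z z‖ ≤ C * ‖a - z‖ := by
  have hsub : ball z c ⊆ U := hg.nb z hz.1 hz.2
  have hzb : z ∈ ball z c := mem_ball_self hg.c0
  have hconv : Convex ℝ (ball z c ×ˢ ball z c : Set (Ec n × Ec n)) :=
    (convex_ball z c).prod (convex_ball z c)
  have hopn : IsOpen (U ×ˢ U : Set (Ec n × Ec n)) := hg.opn.prod hg.opn
  have hdiff : ∀ p ∈ (ball z c ×ˢ ball z c : Set (Ec n × Ec n)),
      DifferentiableAt ℝ (fun p : Ec n × Ec n => h p.1 p.2) p := by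
    intro p hp
    have hp' : p ∈ (U ×ˢ U : Set (Ec n × Ec n)) := ⟨hsub hp.1, hsub hp.2⟩
    exact (hg.dh.differentiableOn (by norm_num)).differentiableAt (hopn.mem_nhds hp')
  have h1 := hconv.norm_image_sub_le_of_norm_fderiv_le (𝕜 := ℝ) (C := C) hdiff
    (fun p hp => by
      have := hg.bdh p.1 (hsub hp.1) p.2 (hsub hp.2)
      exact this)
    (x := (z, z)) (y := (a, a)) ⟨hzb, hzb⟩ ⟨ha, ha⟩
  have h2 : ‖((a, a) : Ec n × Ec n) - (z, z)‖ = ‖a - z‖ := by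
    rw [Prod.mk_sub_mk, Prod.norm_mk, max_self]
  rw [h2] at h1
  exact h1

/-- PROOF. `z + Y ∈ ball z c ⊆ U` (`Geo.nb`). `f t = δ (z + t Y)` is differentiable on `[0, 1]` with the derivative
`f' t = -2 Re (h(z + t Y, z + t Y) Y)` (`Geo.grad`), and `|f' t - f' 0| ≤ 2 n ‖h(a, a) - h(z, z)‖ ‖Y‖`, `a = z + t Y`, with
`‖h(a, a) - h(z, z)‖ ≤ 2 C t ‖Y‖` by the mean value theorem on the convex set `ball z c ×ˢ ball z c ⊆ U ×ˢ U`
(`Geo.bdh`). Then the mean value theorem for `f t - t f' 0` (`Convex.norm_image_sub_le_of_norm_deriv_le` or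
`norm_image_sub_le_of_norm_deriv_le_segment`). -/
theorem δ_taylor (n : ℕ) (c C : ℝ) : ∃ K : ℝ, 0 < K ∧ ∀ (U : Set (Ec n)) (δ : Ec n → ℝ)
    (h : Ec n → Ec n → Fin n → ℂ), Geo U δ h c C → ∀ z ∈ Om U δ, ∀ Y : Ec n, ‖Y‖ < c →
    z + Y ∈ U ∧ |δ (z + Y) - δ z + 2 * (∑ k, h z z k * Y k).re| ≤ K * ‖Y‖ ^ 2 := by
  refine ⟨2 * n * |C| + 1, by positivity, ?_⟩
  intro U δ h hg z hz Y hY
  have hC0 : 0 ≤ C := zero_le_one.trans hg.C1
  have hCa : |C| = C := abs_of_nonneg hC0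
  have hsub : ball z c ⊆ U := hg.nb z hz.1 hz.2
  have hzY : z + Y ∈ ball z c := by
    rw [mem_ball, dist_eq_norm, add_sub_cancel_left]
    exact hY
  refine ⟨hsub hzY, ?_⟩
  set s : Set (Ec n) := closedBall z ‖Y‖ with hs
  have hsc : s ⊆ ball z c := closedBall_subset_ball hY
  have hdiff : ∀ a ∈ s, HasFDerivWithinAt δ (fderiv ℝ δ a) s a := by
    intro a ha
    exact ((hg.dδ.differentiableOn (by norm_num)).differentiableAt
      (hg.opn.mem_nhds (hsub (hsc ha)))).hasFDerivAt.hasFDerivWithinAt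
  have hbound : ∀ a ∈ s, ‖fderiv ℝ δ a - fderiv ℝ δ z‖ ≤ 2 * n * C * ‖Y‖ := by
    intro a ha
    refine ContinuousLinearMap.opNorm_le_bound _ (by positivity) ?_
    intro X
    have e1 : (fderiv ℝ δ a - fderiv ℝ δ z) X = -2 * (∑ k, (h a a - h z z) k * X k).re := by
      have e0 : ∑ k, (h a a - h z z) k * X k = ∑ k, h a a k * X k - ∑ k, h z z k * X k := by
        rw [← Finset.sum_sub_distrib]
        refine Finset.sum_congr rfl fun k _ => ?_
        rw [Pi.sub_apply, sub_mul]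
      rw [e0, sub_apply, hg.grad a (hsub (hsc ha)) X, hg.grad z hz.1 X,
        Complex.sub_re]
      ring
    rw [e1, Real.norm_eq_abs, abs_mul, abs_neg, abs_two]
    have h1 := lin_le (h a a - h z z) X
    have h2 := Q1_hlip hg hz (hsc ha)
    have h3 : ‖a - z‖ ≤ ‖Y‖ := by
      have := mem_closedBall.mp ha
      rwa [dist_eq_norm] at this
    have h4 : |(∑ k, (h a a - h z z) k * X k).re| ≤ n * (C * ‖Y‖) * ‖X‖ := by
      refine (Complex.abs_re_le_norm _).trans (h1.trans ?_)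
      have h5 : ‖h a a - h z z‖ ≤ C * ‖Y‖ := h2.trans (mul_le_mul_of_nonneg_left h3 hC0)
      exact mul_le_mul_of_nonneg_right (mul_le_mul_of_nonneg_left h5 (Nat.cast_nonneg n))
        (norm_nonneg X)
    calc 2 * |(∑ k, (h a a - h z z) k * X k).re| ≤ 2 * (n * (C * ‖Y‖) * ‖X‖) := by linarith
      _ = 2 * n * C * ‖Y‖ * ‖X‖ := by ring
  have hz' : z ∈ s := mem_closedBall_self (norm_nonneg Y)
  have hY' : z + Y ∈ s := by
    rw [hs, mem_closedBall, dist_eq_norm, add_sub_cancel_left]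
  have h6 := (convex_closedBall z ‖Y‖).norm_image_sub_le_of_norm_hasFDerivWithin_le' hdiff hbound
    hz' hY'
  rw [add_sub_cancel_left, hg.grad z hz.1 Y] at h6
  have h7 : δ (z + Y) - δ z - -2 * (∑ k, h z z k * Y k).re =
      δ (z + Y) - δ z + 2 * (∑ k, h z z k * Y k).re := by ring
  rw [h7, Real.norm_eq_abs] at h6
  refine h6.trans ?_
  rw [hCa]
  nlinarith [sq_nonneg ‖Y‖]

/-- the normal vector -/
noncomputable def nv (h : Ec n → Ec n → Fin n → ℂ) (z : Ec n) : Ec n :=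
  (WithLp.toLp 2 (fun k => (starRingEnd ℂ) (h z z k)) : EuclideanSpace ℂ (Fin n))

/-- PROOF. `nv h z k = conj (h z z k)`, `‖nv‖² = ∑ |h z z k|²` (`EuclideanSpace.norm_sq_eq`); the sup norm of
`h z z` is at most the euclidean norm, which is at most `√n` times the sup norm. -/
theorem nv_prop (h : Ec n → Ec n → Fin n → ℂ) (z : Ec n) :
    (∑ k, h z z k * (nv h z) k = ((‖nv h z‖ ^ 2 : ℝ) : ℂ)) ∧ ‖h z z‖ ≤ ‖nv h z‖ ∧
      ‖nv h z‖ ≤ Real.sqrt n * ‖h z z‖ := by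
  have hk : ∀ k, (nv h z) k = (starRingEnd ℂ) (h z z k) := fun k => rfl
  have hnk : ∀ k, ‖(nv h z) k‖ = ‖h z z k‖ := fun k => by
    rw [hk, RCLike.norm_conj]
  have hsq : ‖nv h z‖ ^ 2 = ∑ k, ‖h z z k‖ ^ 2 := by
    rw [EuclideanSpace.norm_sq_eq]
    exact Finset.sum_congr rfl fun k _ => by rw [hnk]
  refine ⟨?_, ?_, ?_⟩
  · rw [hsq]
    push_cast
    refine Finset.sum_congr rfl fun k _ => ?_
    rw [hk, Complex.mul_conj, Complex.normSq_eq_norm_sq]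
    push_cast
    rfl
  · refine (pi_norm_le_iff_of_nonneg (norm_nonneg _)).mpr fun k => ?_
    rw [← hnk]
    exact PiLp.norm_apply_le (nv h z) k
  · refine abs_le_of_sq_le_sq' ?_ (by positivity) |>.2
    rw [hsq, mul_pow, Real.sq_sqrt (Nat.cast_nonneg n)]
    calc ∑ k, ‖h z z k‖ ^ 2 ≤ ∑ _k : Fin n, ‖h z z‖ ^ 2 := by
          refine Finset.sum_le_sum fun k _ => ?_
          exact pow_le_pow_left₀ (norm_nonneg _) (norm_le_pi_norm (h z z) k) 2
      _ = n * ‖h z z‖ ^ 2 := by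
          rw [Finset.sum_const, Finset.card_univ, Fintype.card_fin, nsmul_eq_mul]

/-- Curves in the domain, tangential at `z`.
PROOF. Let `K₀` be the constant of `δ_taylor`, `Y = t X - K t² nv`. `gY = -K t² ‖nv‖²` (`g = h(z, z)`), `‖nv‖ ≥ c`,
so `δ (z + Y) ≥ δ z + 2 K c² t² - K₀ ‖Y‖²`, and `‖Y‖ ≤ |t| + K t² ‖nv‖ ≤ 2 |t|` if `K t₀ √n C ≤ 1`. So
`δ (z + Y) ≥ δ z + (2 K c² - 4 K₀) t² ≥ δ z > 0` with `K = 2 K₀ / c²`; `t₀` small, `2 t₀ < c`. -/
theorem curve_in (n : ℕ) (c C : ℝ) (hc : 0 < c) : ∃ K t₀ : ℝ, 0 < K ∧ 0 < t₀ ∧ ∀ (U : Set (Ec n))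
    (δ : Ec n → ℝ) (h : Ec n → Ec n → Fin n → ℂ), Geo U δ h c C → ∀ z ∈ Om U δ, δ z < c →
    ∀ X : Ec n, ∑ k, h z z k * X k = 0 → ‖X‖ ≤ 1 → ∀ t : ℝ, |t| ≤ t₀ →
      z + ((t : ℂ) • X - ((K * t ^ 2 : ℝ) : ℂ) • nv h z) ∈ Om U δ := by
  obtain ⟨K₀, hK₀, hT⟩ := δ_taylor n c C
  set S : ℝ := Real.sqrt n * |C| with hS
  have hS0 : 0 ≤ S := by positivity
  set K : ℝ := 2 * K₀ / c ^ 2 with hK
  have hKpos : 0 < K := by positivity
  refine ⟨K, min (1 / (K * S + 1)) (c / 4), hKpos, lt_min (by positivity) (by positivity), ?_⟩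
  intro U δ h hg z hz hzc X hX hX1 t ht
  have hC0 : 0 ≤ C := zero_le_one.trans hg.C1
  have hCa : |C| = C := abs_of_nonneg hC0
  obtain ⟨hn1, hn2, hn3⟩ := nv_prop h z
  have hc1 : c ≤ ‖nv h z‖ := (hg.nd z hz.1 hz.2 hzc).trans hn2
  have hc2 : ‖nv h z‖ ≤ S := by
    refine hn3.trans ?_
    rw [hS, hCa]
    exact mul_le_mul_of_nonneg_left (hg.bh z hz.1 z hz.1) (Real.sqrt_nonneg _)
  have ht1 : |t| ≤ 1 / (K * S + 1) := ht.trans (min_le_left _ _)
  have ht2 : |t| ≤ c / 4 := ht.trans (min_le_right _ _)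
  set Y : Ec n := (t : ℂ) • X - ((K * t ^ 2 : ℝ) : ℂ) • nv h z with hYdef
  have hta : |t| ^ 2 = t ^ 2 := sq_abs t
  have hYn : ‖Y‖ ≤ 2 * |t| := by
    have e1 : ‖Y‖ ≤ |t| * ‖X‖ + K * t ^ 2 * ‖nv h z‖ := by
      refine (norm_sub_le _ _).trans (le_of_eq ?_)
      rw [norm_smul, norm_smul, Complex.norm_real, Complex.norm_real, Real.norm_eq_abs,
        Real.norm_eq_abs, abs_of_nonneg (show 0 ≤ K * t ^ 2 by positivity)]
    have e2 : |t| * ‖X‖ ≤ |t| := mul_le_of_le_one_right (abs_nonneg t) hX1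
    have e3 : K * t ^ 2 * ‖nv h z‖ ≤ |t| := by
      have e4 : K * t ^ 2 * ‖nv h z‖ ≤ K * t ^ 2 * S :=
        mul_le_mul_of_nonneg_left hc2 (by positivity)
      have e5 : |t| * (K * S) ≤ 1 := by
        have e6 : |t| * (K * S + 1) ≤ 1 := by
          rw [le_div_iff₀ (by positivity)] at ht1
          exact ht1
        nlinarith [abs_nonneg t]
      have e7 : K * t ^ 2 * S = |t| * (|t| * (K * S)) := by
        rw [← hta]
        ring
      rw [e7] at e4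
      refine e4.trans ?_
      exact mul_le_of_le_one_right (abs_nonneg t) e5
    linarith
  have hYc : ‖Y‖ < c := by linarith
  obtain ⟨hU, hδ⟩ := hT U δ h hg z hz Y hYc
  refine ⟨hU, ?_⟩
  have hgY : ∑ k, h z z k * Y k = -((K * t ^ 2 * ‖nv h z‖ ^ 2 : ℝ) : ℂ) := by
    have e1 : ∀ k, h z z k * Y k = (t : ℂ) * (h z z k * X k) -
        ((K * t ^ 2 : ℝ) : ℂ) * (h z z k * (nv h z) k) := by
      intro k
      have : Y k = (t : ℂ) * X k - ((K * t ^ 2 : ℝ) : ℂ) * (nv h z) k := rfl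
      rw [this]
      ring
    rw [Finset.sum_congr rfl fun k _ => e1 k, Finset.sum_sub_distrib, ← Finset.mul_sum,
      ← Finset.mul_sum, hX, hn1]
    push_cast
    ring
  rw [hgY, Complex.neg_re, Complex.ofReal_re] at hδ
  have h1 := (abs_le.mp hδ).1
  have h2 : ‖Y‖ ^ 2 ≤ 4 * t ^ 2 := by
    have := pow_le_pow_left₀ (norm_nonneg Y) hYn 2
    rw [mul_pow, hta] at this
    linarith
  have h3 : K * t ^ 2 * c ^ 2 ≤ K * t ^ 2 * ‖nv h z‖ ^ 2 :=
    mul_le_mul_of_nonneg_left (pow_le_pow_left₀ hc.le hc1 2) (by positivity)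
  have h4 : K * c ^ 2 = 2 * K₀ := by
    rw [hK]
    field_simp
  have h5 : K * t ^ 2 * c ^ 2 = 2 * K₀ * t ^ 2 := by
    rw [← h4]
    ring
  have h6 : K₀ * ‖Y‖ ^ 2 ≤ K₀ * (4 * t ^ 2) := mul_le_mul_of_nonneg_left h2 hK₀.le
  have h7 := hz.2
  linarith

/-- PROOF. Let `x = ‖g lam‖`, `a = g 0`, `‖a‖ < 1`. The function `(g - a) / (1 - conj a g)` maps `ball 0 R` to the
unit disc and vanishes at `0`, so its norm at `lam` is at most `‖lam‖ / R =: y` (Schwarz lemma: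
`Complex.dist_le_div_mul_dist_of_mapsTo_ball` or `Complex.norm_dslope_le_div_of_mapsTo_ball`). Hence
`‖g lam‖ ≤ (‖a‖ + y) / (1 + ‖a‖ y)`, which gives `1 - ‖g lam‖ ≥ (1 - ‖a‖) (1 - y) / (1 + ‖a‖ y)`. -/
theorem pick_lb {g : ℂ → ℂ} {R : ℝ} (hR : 0 < R) (hg : DifferentiableOn ℂ g (ball 0 R))
    (h1 : ∀ lam ∈ ball (0 : ℂ) R, ‖g lam‖ < 1) {lam : ℂ} (hl : lam ∈ ball (0 : ℂ) R) :
    (1 - ‖g 0‖) * (1 - ‖lam‖ / R) / 2 ≤ 1 - ‖g lam‖ := by
  set a : ℂ := g 0 with ha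
  have h00 : (0 : ℂ) ∈ ball (0 : ℂ) R := mem_ball_self hR
  have ha1 : ‖a‖ < 1 := h1 0 h00
  have hden : ∀ w ∈ ball (0 : ℂ) R, 1 - (starRingEnd ℂ) a * g w ≠ 0 := by
    intro w hw h0
    have e1 : (starRingEnd ℂ) a * g w = 1 := (sub_eq_zero.mp h0).symm
    have e2 : ‖(starRingEnd ℂ) a * g w‖ < 1 := by
      rw [norm_mul, RCLike.norm_conj]
      have := h1 w hw
      nlinarith [norm_nonneg a, norm_nonneg (g w)]
    rw [e1, norm_one] at e2
    exact lt_irrefl _ e2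
  -- the identity
  have hid : ∀ w : ℂ, ‖1 - (starRingEnd ℂ) a * w‖ ^ 2 - ‖w - a‖ ^ 2 =
      (1 - ‖a‖ ^ 2) * (1 - ‖w‖ ^ 2) := by
    intro w
    simp only [← Complex.normSq_eq_norm_sq, Complex.normSq_apply, Complex.sub_re, Complex.sub_im,
      Complex.mul_re, Complex.mul_im, Complex.conj_re, Complex.conj_im, Complex.one_re,
      Complex.one_im]
    ring
  set φ : ℂ → ℂ := fun w => (g w - a) / (1 - (starRingEnd ℂ) a * g w) with hφ
  have hφd : DifferentiableOn ℂ φ (ball 0 R) :=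
    (hg.sub_const a).div ((differentiableOn_const _).sub ((differentiableOn_const _).mul hg)) hden
  have hφ0 : φ 0 = 0 := by
    rw [hφ]
    simp only [← ha, sub_self, zero_div]
  have hφm : MapsTo φ (ball 0 R) (ball (φ 0) 1) := by
    intro w hw
    rw [hφ0, mem_ball_zero_iff, hφ]
    simp only
    rw [norm_div, div_lt_one (norm_pos_iff.mpr (hden w hw))]
    have e1 := hid (g w)
    have e2 : 0 < (1 - ‖a‖ ^ 2) * (1 - ‖g w‖ ^ 2) := by
      have := h1 w hw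
      apply mul_pos <;> nlinarith [norm_nonneg a, norm_nonneg (g w)]
    exact lt_of_pow_lt_pow_left₀ 2 (norm_nonneg _) (by linarith)
  have hS := Complex.dist_le_div_mul_dist_of_mapsTo_ball hφd
    (fun w hw => ball_subset_closedBall (hφm hw)) hl
  rw [hφ0, dist_zero_right, dist_zero_right] at hS
  set y : ℝ := ‖lam‖ / R with hy
  have hy0 : 0 ≤ y := by positivity
  have hy1 : y < 1 := by
    rw [hy, div_lt_one hR]
    exact mem_ball_zero_iff.mp hl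
  have hS' : ‖φ lam‖ ≤ y := by
    rw [hy]
    calc ‖φ lam‖ ≤ 1 / R * ‖lam‖ := hS
      _ = ‖lam‖ / R := by ring
  have hne : 0 < ‖1 - (starRingEnd ℂ) a * g lam‖ := norm_pos_iff.mpr (hden lam hl)
  have e1 : ‖g lam - a‖ ≤ y * ‖1 - (starRingEnd ℂ) a * g lam‖ := by
    have : ‖φ lam‖ = ‖g lam - a‖ / ‖1 - (starRingEnd ℂ) a * g lam‖ := by
      rw [hφ]
      exact norm_div _ _
    rw [this, div_le_iff₀ hne] at hS'
    exact hS'
  have e2 := hid (g lam)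
  set γ : ℝ := ‖g lam‖ with hγ
  set α : ℝ := ‖a‖ with hα
  set N : ℝ := ‖1 - (starRingEnd ℂ) a * g lam‖ with hN
  have hγ1 : γ < 1 := h1 lam hl
  have hγ0 : 0 ≤ γ := norm_nonneg _
  have hα0 : 0 ≤ α := norm_nonneg _
  have e3 : 1 - α * γ ≤ N := by
    have : ‖(1 : ℂ)‖ - ‖(starRingEnd ℂ) a * g lam‖ ≤ N := norm_sub_norm_le _ _
    rw [norm_one, norm_mul, RCLike.norm_conj] at this
    exact this
  have e4 : 0 ≤ 1 - α * γ := by nlinarith
  have e5 : ‖g lam - a‖ ^ 2 ≤ y ^ 2 * N ^ 2 := by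
    have := pow_le_pow_left₀ (norm_nonneg _) e1 2
    rwa [mul_pow] at this
  have e6 : (1 - y ^ 2) * N ^ 2 ≤ (1 - α ^ 2) * (1 - γ ^ 2) := by nlinarith
  have e7 : (1 - y ^ 2) * (1 - α * γ) ^ 2 ≤ (1 - y ^ 2) * N ^ 2 := by
    refine mul_le_mul_of_nonneg_left (pow_le_pow_left₀ e4 e3 2) ?_
    nlinarith
  have e8 : (γ - α) ^ 2 ≤ (y * (1 - α * γ)) ^ 2 := by nlinarith
  have e9 : γ - α ≤ y * (1 - α * γ) := (abs_le_of_sq_le_sq' e8 (mul_nonneg hy0 e4)).2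
  have e10 : (1 - α) * (1 - y) ≤ (1 - γ) * (1 + α * y) := by nlinarith
  have e11 : (1 - γ) * (1 + α * y) ≤ (1 - γ) * 2 := by
    refine mul_le_mul_of_nonneg_left ?_ (by linarith)
    nlinarith
  linarith

end Pool.Agent.MPca0fc2.FD
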