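import Pool.Agent.Lib.MP_ca0fc2_an.Mg.G052
import Pool.Agent.Lib.MP_ca0fc2_an.Mg.G048
import Pool.Agent.Lib.MP_ca0fc2_an.Mg.G051

/-! The weighted homotopy formula. -/

set_option autoImplicit false

open Metric Set MeasureTheory Filter Topology

namespace Pool.Agent.MPca0fc2.FD

variable {n : ℕ} {V : Type*} [NormedAddCommGroup V] [NormedSpace ℂ V] [FiniteDimensional ℂ V]
variable {U : Set (Ec n)} {δ : Ec n → ℝ} {h : Ec n → Ec n → Fin n → ℂ} {c C A : ℝ} {P : PD n}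

/-- a function which does not depend on `τ` -/
theorem B11_cd_dt {W : Type*} [NormedAddCommGroup W] [NormedSpace ℂ W] (F : Tn n → W)
    (hF : ∀ (z : Ec n) (τ τ' : ℝ) (ζ : Ec n), F (z, τ, ζ) = F (z, τ', ζ)) (y : Tn n) :
    cd F y (dt n) = 0 := by
  obtain ⟨z, τ, ζ⟩ := y
  by_cases hd : DifferentiableAt ℝ F (z, τ, ζ)
  · have h1 := cd_dt hd
    have h2 : HasDerivAt (fun τ' => F (z, τ', ζ)) 0 τ := by
      have h3 : (fun τ' => F (z, τ', ζ)) = fun _ => F (z, τ, ζ) := by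
        funext τ'
        exact hF z τ' τ ζ
      rw [h3]
      exact hasDerivAt_const _ _
    exact h1.unique h2
  · unfold cd
    rw [fderiv_zero_of_not_differentiableAt hd]
    simp

theorem B11_app (v : Fin n → ℂ) (w : Fin 0 → ℂ) (i : Fin n) :
    (Fin.append v w : Fin (n + 0) → ℂ) i = v i := Fin.append_left v w i

theorem B11_πv (i : Fin (n + 0 + 1)) : πv n 0 i = 1 := by
  unfold πv sn
  refine Fin.lastCases ?_ (fun j => ?_) i
  · simp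
  · rw [Fin.snoc_castSucc]
    refine Fin.addCases (m := n) (n := 0) (fun k => ?_) (fun k => ?_) j
    · rw [Fin.append_left]
    · exact k.elim0

theorem B11_GG (p : Tn n) (ε : ℝ) :
    GG δ h ε (Fin.elim0 : Fin 0 → Fin n) p = rx δ h ε 0 p.2.1 p.1 p.2.2 := by
  rw [← GG_x δ h ε (Fin.elim0 : Fin 0 → Fin n) p.1 p.2.2 p.2.1]
  funext i
  rw [Pi.mul_apply, B11_πv, one_mul]

/-- the weight section -/
noncomputable def B11_Q (P : PD n) (δ : Ec n → ℝ) (κ : ℝ) (p : Tn n) : Fin (n + 0 + 1) → ℂ :=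
  sn (Fin.append (Qh P δ κ p.1 p.2.2) (0 : Fin 0 → ℂ)) 0

theorem B11_comp {T : Type*} [NormedAddCommGroup T] [NormedSpace ℝ T] {q : ℕ}
    {v : T → Fin n → ℂ} {p : T} {r : WithTop ℕ∞} (hv : ∀ k, ContDiffAt ℝ r (fun y => v y k) p)
    (i : Fin (n + q + 1)) : ContDiffAt ℝ r (fun y =>
      (sn (Fin.append (v y) (0 : Fin q → ℂ)) 0 : Fin (n + q + 1) → ℂ) i) p := by
  refine Fin.lastCases ?_ (fun i => ?_) i
  · simp only [sn, Fin.snoc_last]
    exact contDiffAt_const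
  · refine Fin.addCases (fun k => ?_) (fun j => ?_) i
    · simp only [sn, Fin.snoc_castSucc, Fin.append_left]
      exact hv k
    · simp only [sn, Fin.snoc_castSucc, Fin.append_right, Pi.zero_apply]
      exact contDiffAt_const

theorem B11_Qh_c2 (hg : Geo U δ h c C) (hP : PG P U δ h c C A) (κ : ℝ) {z ζ : Ec n} (τ : ℝ)
    (hz : z ∈ Wq P U) (hζ : ζ ∈ Wq P U) (k : Fin n) :
    ContDiffAt ℝ 2 (fun p : Tn n => Qh P δ κ p.1 p.2.2 k) (z, τ, ζ) := by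
  have hW := Wq_open hg hP
  have h1 : ContDiffAt ℝ 2 (fun p : Ec n × Ec n => Qh P δ κ p.1 p.2 k) (z, ζ) :=
    (Qh_c2 hg hP κ k).contDiffAt ((hW.prod hW).mem_nhds ⟨hz, hζ⟩)
  have h5 : ContDiffAt ℝ 2 (fun p : Tn n => ((p.1, p.2.2) : Ec n × Ec n)) (z, τ, ζ) := by
    apply ContDiff.contDiffAt
    fun_prop
  exact ContDiffAt.comp (z, τ, ζ) (g := fun p : Ec n × Ec n => Qh P δ κ p.1 p.2 k)
    (f := fun p : Tn n => ((p.1, p.2.2) : Ec n × Ec n)) h1 h5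

theorem B11_Ex_c2 (hg : Geo U δ h c C) (hP : PG P U δ h c C A) (κ : ℝ) {z ζ : Ec n} (τ : ℝ)
    (hz : z ∈ Wq P U) (hζ : ζ ∈ Wq P U) :
    ContDiffAt ℝ 2 (fun p : Tn n => Ex P δ κ p.1 p.2.2) (z, τ, ζ) := by
  have hW := Wq_open hg hP
  have h1 : ContDiffAt ℝ 2 (fun p : Ec n × Ec n => Ex P δ κ p.1 p.2) (z, ζ) :=
    (Ex_c2 hg hP κ).contDiffAt ((hW.prod hW).mem_nhds ⟨hz, hζ⟩)
  have h5 : ContDiffAt ℝ 2 (fun p : Tn n => ((p.1, p.2.2) : Ec n × Ec n)) (z, τ, ζ) := by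
    apply ContDiff.contDiffAt
    fun_prop
  exact ContDiffAt.comp (z, τ, ζ) (g := fun p : Ec n × Ec n => Ex P δ κ p.1 p.2)
    (f := fun p : Tn n => ((p.1, p.2.2) : Ec n × Ec n)) h1 h5

theorem B11_Q_c2 (hg : Geo U δ h c C) (hP : PG P U δ h c C A) (κ : ℝ) {z ζ : Ec n} (τ : ℝ)
    (hz : z ∈ Wq P U) (hζ : ζ ∈ Wq P U) : ContDiffAt ℝ 2 (B11_Q P δ κ) (z, τ, ζ) := by
  rw [contDiffAt_pi]
  intro i
  unfold B11_Q
  exact B11_comp (q := 0) (fun k => B11_Qh_c2 hg hP κ τ hz hζ k) i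

theorem B11_cd_Q (hg : Geo U δ h c C) (hP : PG P U δ h c C A) (κ : ℝ) {z ζ : Ec n} (τ : ℝ)
    (hz : z ∈ Wq P U) (hζ : ζ ∈ Wq P U) (X : Ec n) :
    cd (B11_Q P δ κ) (z, τ, ζ) (dζ X) = rq P δ κ z ζ X := by
  funext i
  rw [← cd_apply ((B11_Q_c2 hg hP κ τ hz hζ).differentiableAt (by norm_num))]
  unfold B11_Q rq
  refine Fin.lastCases ?_ (fun j => ?_) i
  · simp only [sn, Fin.snoc_last]
    simp [cd]
  · refine Fin.addCases (m := n) (n := 0) (fun k => ?_) (fun k => ?_) j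
    · simp only [sn, Fin.snoc_castSucc, Fin.append_left]
      exact cd_dζ (F := fun p : Tn n => Qh P δ κ p.1 p.2.2 k)
        ((B11_Qh_c2 hg hP κ τ hz hζ k).differentiableAt (by norm_num)) X
    · exact k.elim0

theorem B11_sum (a v : Fin n → ℂ) :
    ∑ i, (sn (Fin.append a (0 : Fin 0 → ℂ)) 0 : Fin (n + 0 + 1) → ℂ) i *
      (sn (Fin.append v (0 : Fin 0 → ℂ)) 0 : Fin (n + 0 + 1) → ℂ) i = ∑ k, a k * v k := by
  rw [Fin.sum_univ_castSucc]
  simp only [sn, Fin.snoc_castSucc, Fin.snoc_last, mul_zero, add_zero]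
  exact Finset.sum_congr rfl fun k _ => congrArg₂ (· * ·) (B11_app a 0 k) (B11_app v 0 k)

/-- The weighted kernel is closed.
PROOF. `closed_wker` with `T = Tn n`, `m = n`, `κ := 2 n + 8`, `G = GG δ h ε (Fin.elim0)`
(`q = 0`; `πv n 0 = 1`, so `GG = rx` by `GG_x`),
`Q p = sn (Fin.append (Qh P δ κ p.1 p.2.2) 0) 0`, `E p = Ex P δ κ p.1 p.2.2`,
`F₀ = F0`, `F₁ = F1`, `d l = dζ (ee l)`, `t = dt n`,
`ℓ = sn (Fin.append (fun k => ζ k - z k) 0) 0`, `ϑ l = db (fun y => (δ y : ℂ)) ζ (ee l)`,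
`R = sn (Fin.append (Rv P δ κ z ζ) 0) 0`.
Hypotheses: `GG_c2`, `Qh_c2`, `F0_c2`, `F1_c2`, `Ex_c2`; `Q` and `E` do not depend on `τ`;
`cd Q (dζ X) = rq P δ κ z ζ X` (`cd_apply`, `cd_dζ`), `rq_eq`; `db_Ex`; `pow_rel` with
`a = n + 8`, `b = 2 n + 9` (`a - b = -(n + 1)`) and with `b = 2 n + 8` (`a - b = -n`); the third part
of `pow_rel` for `F₁` gives `h1Q`: `-(2 n + 8) * (w0^(n+8) / aa^(2n+9)) * ∑ ..= -κ F₀ ∑ ...`.
Then `cd_congr` as in `kr0_closed`, `cd_dt`, `cd_dζ`. -/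
theorem ke0_closed (hg : Geo U δ h c C) (hP : PG P U δ h c C A) (κ ε : ℝ) {z ζ : Ec n}
    (hz : z ∈ Wq P U) (hζ : ζ ∈ Wq P U) (τ : ℝ) (ha : aa δ h ε τ z ζ ≠ 0) :
    HasDerivAt (fun τ' => KE0 P δ h κ ε τ' z ζ)
      (∑ k, db (fun ζ' => KEk P δ h κ ε τ z ζ' k) ζ (ee k)) τ := by
  have hW := Wq_open hg hP
  have hT : TsetE P U δ h ε ∈ 𝓝 ((z, τ, ζ) : Tn n) :=
    (TsetE_open hg hP ε).mem_nhds ⟨hz, hζ, ha⟩
  have hdf : ∀ {K : Tn n → ℂ}, ContDiffOn ℝ 1 K (TsetE P U δ h ε) →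
      DifferentiableAt ℝ K (z, τ, ζ) := fun hK =>
    (hK.contDiffAt hT).differentiableAt (by norm_num)
  obtain ⟨μ, hμ1, hμ2, -⟩ := pow_rel hg ε (Fin.elim0 : Fin 0 → Fin n) hz.1 hζ.1 τ ha
    (n + 8) (2 * n + 9) (by omega)
  obtain ⟨ν, hν1, hν2, hν3⟩ := pow_rel hg ε (Fin.elim0 : Fin 0 → Fin n) hz.1 hζ.1 τ ha
    (n + 8) (2 * n + 8) (by omega)
  have hN : ∀ᶠ p : Tn n in 𝓝 (z, τ, ζ), p.1 ∈ Wq P U ∧ p.2.2 ∈ Wq P U :=
    ((continuous_fst.tendsto _).eventually (hW.mem_nhds hz)).and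
      (((continuous_snd.comp continuous_snd).tendsto _).eventually (hW.mem_nhds hζ))
  have hrow : ∀ p : Tn n, p.1 ∈ Wq P U → p.2.2 ∈ Wq P U → ∀ l : Fin n,
      cd (GG δ h ε (Fin.elim0 : Fin 0 → Fin n)) p (dζ (ee l)) =
      rζ δ h ε (Fin.elim0 : Fin 0 → Fin n) p.2.1 p.1 p.2.2 (ee l) := by
    intro p h1 h2 l
    exact GG_ζ hg ε Fin.elim0 h1.1 h2.1 p.2.1 (ee l)
  have hrq : ∀ p : Tn n, p.1 ∈ Wq P U → p.2.2 ∈ Wq P U → ∀ l : Fin n,
      cd (B11_Q P δ κ) p (dζ (ee l)) = rq P δ κ p.1 p.2.2 (ee l) := by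
    intro p h1 h2 l
    exact B11_cd_Q hg hP κ p.2.1 h1 h2 (ee l)
  have ht : ∀ p : Tn n, p.1 ∈ Wq P U → p.2.2 ∈ Wq P U →
      cd (GG δ h ε (Fin.elim0 : Fin 0 → Fin n)) p (dt n) = rτ δ h ε 0 p.1 p.2.2 :=
    fun p h1 h2 => GG_t hg ε Fin.elim0 h1.1 h2.1 p.2.1
  have hck := closed_wker (T := Tn n) (m := n) (G := GG δ h ε (Fin.elim0 : Fin 0 → Fin n))
    (Q := B11_Q P δ κ) (F₀ := fun p => F0 δ h ε p.2.1 p.1 p.2.2)
    (F₁ := fun p => F1 δ h ε p.2.1 p.1 p.2.2) (E := fun p => Ex P δ κ p.1 p.2.2)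
    (p := (z, τ, ζ)) (2 * n + 8) (GG_c2 hg ε Fin.elim0 hz.1 hζ.1 τ)
    (B11_Q_c2 hg hP κ τ hz hζ)
    ((F0_c2 hg ε hz.1 hζ.1 τ ha).differentiableAt (by norm_num))
    ((F1_c2 hg ε hz.1 hζ.1 τ ha).differentiableAt (by norm_num))
    ((B11_Ex_c2 hg hP κ τ hz hζ).differentiableAt (by norm_num))
    (fun l => dζ (ee l)) (dt n) (sn (Fin.append (fun k => ζ k - z k) (0 : Fin 0 → ℂ)) 0) μ ν
    (fun l => db (fun y => (δ y : ℂ)) ζ (ee l))
    (sn (Fin.append (Rv P δ κ z ζ) (0 : Fin 0 → ℂ)) 0)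
    (Eventually.of_forall fun y => B11_cd_dt _ (fun _ _ _ _ => rfl) y)
    (fun b => (hrq (z, τ, ζ) hz hζ b).trans (rq_eq hg hP κ hz hζ (ee b)))
    (B11_cd_dt _ (fun _ _ _ _ => rfl) _)
    ?_ (hμ1 (dt n) (Or.inr (Or.inr rfl))) (fun b => hμ1 _ (Or.inl ⟨_, rfl⟩)) ?_
    (hν1 (dt n) (Or.inr (Or.inr rfl))) (fun b => hν1 _ (Or.inl ⟨_, rfl⟩)) ?_ ?_
  · -- the closedness
    have h0 : cd (fun p : Tn n => KE0 P δ h κ ε p.2.1 p.1 p.2.2) (z, τ, ζ) (dt n) =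
        ∑ k, db (fun ζ' => KEk P δ h κ ε τ z ζ' k) ζ (ee k) := by
      have e1 : (fun p : Tn n => KE0 P δ h κ ε p.2.1 p.1 p.2.2) =ᶠ[𝓝 (z, τ, ζ)]
          (fun y => Complex.exp ((fun p : Tn n => Ex P δ κ p.1 p.2.2) y) *
            ((2 * n + 8) * (fun p : Tn n => F0 δ h ε p.2.1 p.1 p.2.2) y *
            Matrix.det (cn (GG δ h ε (Fin.elim0 : Fin 0 → Fin n) y) (fun b : Fin n =>
              cd (GG δ h ε (Fin.elim0 : Fin 0 → Fin n)) y ((fun l => dζ (ee l)) b))) +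
            (fun p : Tn n => F1 δ h ε p.2.1 p.1 p.2.2) y * ∑ j : Fin n,
              Matrix.det (cn (GG δ h ε (Fin.elim0 : Fin 0 → Fin n) y)
                (Function.update (fun b : Fin n => cd (GG δ h ε (Fin.elim0 : Fin 0 → Fin n)) y
                  ((fun l => dζ (ee l)) b)) j (cd (B11_Q P δ κ) y
                    ((fun l => dζ (ee l)) j)))))) := by
        filter_upwards [hN] with p hp
        have e2 : (fun b : Fin n => cd (GG δ h ε (Fin.elim0 : Fin 0 → Fin n)) p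
            ((fun l => dζ (ee l)) b)) =
            fun l => rζ δ h ε (Fin.elim0 : Fin 0 → Fin n) p.2.1 p.1 p.2.2 (ee l) := by
          funext l
          exact hrow p hp.1 hp.2 l
        have e3 : ∀ j : Fin n, cd (B11_Q P δ κ) p ((fun l => dζ (ee l)) j) =
            rq P δ κ p.1 p.2.2 (ee j) := fun j => hrq p hp.1 hp.2 j
        rw [e2, B11_GG p ε]
        simp only [e3]
        rfl
      rw [cd_congr e1]
      refine hck.trans ?_
      refine Finset.sum_congr rfl fun k _ => ?_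
      rw [← cd_dζ (F := fun p : Tn n => KEk P δ h κ ε p.2.1 p.1 p.2.2 k)
        (hdf (KEk_c1 hg hP κ ε k))]
      refine cd_congr ?_ _
      filter_upwards [hN] with p hp
      have e2 : (fun b : Fin n => cd (GG δ h ε (Fin.elim0 : Fin 0 → Fin n)) p
          ((fun l => dζ (ee l)) b)) =
          fun l => rζ δ h ε (Fin.elim0 : Fin 0 → Fin n) p.2.1 p.1 p.2.2 (ee l) := by
        funext l
        exact hrow p hp.1 hp.2 l
      have e3 : ∀ j : Fin n, cd (B11_Q P δ κ) p ((fun l => dζ (ee l)) j) =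
          rq P δ κ p.1 p.2.2 (ee j) := fun j => hrq p hp.1 hp.2 j
      rw [e2, B11_GG p ε, ht p hp.1 hp.2]
      simp only [e3]
      rfl
    rw [← h0]
    exact cd_dt (F := fun p : Tn n => KE0 P δ h κ ε p.2.1 p.1 p.2.2) (hdf (KE0_c1 hg hP κ ε))
  · -- `E` and `Q`
    intro b
    rw [cd_dζ ((B11_Ex_c2 hg hP κ τ hz hζ).differentiableAt (by norm_num))]
    have h1 : cd (B11_Q P δ κ) (z, τ, ζ) (dζ (ee b)) = rq P δ κ z ζ (ee b) :=
      hrq (z, τ, ζ) hz hζ b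
    rw [h1]
    refine (db_Ex hg hP κ hz hζ (ee b)).trans ?_
    congr 1
    exact (B11_sum (fun k => ζ k - z k) (fun k => db (fun y => Qh P δ κ z y k) ζ (ee b))).symm
  · -- Euler for `F₀`
    have h1 : ∑ i, μ i * GG δ h ε (Fin.elim0 : Fin 0 → Fin n) (z, τ, ζ) i =
        ∑ i, μ i * (πv n 0 i * GG δ h ε (Fin.elim0 : Fin 0 → Fin n) (z, τ, ζ) i) := by
      refine Finset.sum_congr rfl fun i _ => ?_
      rw [B11_πv, one_mul]
    refine h1.trans (hμ2.trans ?_)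
    unfold F0
    push_cast
    ring
  · -- Euler for `F₁`
    have h1 : ∑ i, ν i * GG δ h ε (Fin.elim0 : Fin 0 → Fin n) (z, τ, ζ) i =
        ∑ i, ν i * (πv n 0 i * GG δ h ε (Fin.elim0 : Fin 0 → Fin n) (z, τ, ζ) i) := by
      refine Finset.sum_congr rfl fun i _ => ?_
      rw [B11_πv, one_mul]
    refine h1.trans (hν2.trans ?_)
    unfold F1
    push_cast
    ring
  · -- `ν` on the rows of the weight
    intro b
    have h1 : cd (B11_Q P δ κ) (z, τ, ζ) (dζ (ee b)) = rq P δ κ z ζ (ee b) :=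
      hrq (z, τ, ζ) hz hζ b
    rw [h1]
    have h2 := hν3 (fun k => db (fun y => Qh P δ κ z y k) ζ (ee b))
    refine h2.trans ?_
    have h3 := B11_sum (fun k => ζ k - z k) (fun k => db (fun y => Qh P δ κ z y k) ζ (ee b))
    rw [← h3]
    unfold F0
    push_cast
    rfl

theorem B11_Kc (hP : PG P U δ h c C A) : Kc (Wq P U) δ = Kc U δ := by
  apply Subset.antisymm
  · intro z hz
    exact ⟨hz.1.1, hz.2⟩
  · intro z hz
    exact ⟨Kc_sub_Wq hP hz, hz.2⟩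

theorem B11_Om (hP : PG P U δ h c C A) : Om (Wq P U) δ = Om U δ := by
  apply Subset.antisymm
  · intro z hz
    exact ⟨hz.1.1, hz.2⟩
  · intro z hz
    exact ⟨Kc_sub_Wq hP ⟨hz.1, hz.2.le⟩, hz.2⟩

/-- the smaller set `Wq P U` satisfies the geometric hypotheses, with a smaller constant -/
theorem B11_geo (hg : Geo U δ h c C) (hP : PG P U δ h c C A) : ∃ c', Geo (Wq P U) δ h c' C := by
  have hW := Wq_open hg hP
  have hsub : Wq P U ⊆ U := fun z hz => hz.1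
  obtain ⟨r, hr0, hr⟩ : ∃ r > 0, ∀ z ∈ Kc U δ, ball z r ⊆ Wq P U := by
    obtain ⟨r, hr0, hr⟩ := hg.cpt.exists_thickening_subset_open hW (Kc_sub_Wq hP)
    refine ⟨r, hr0, fun z hz => ?_⟩
    refine Subset.trans ?_ hr
    exact ball_subset_thickening hz r
  refine ⟨min c r, ?_⟩
  have hc' : min c r ≤ c := min_le_left _ _
  exact
    { c0 := lt_min hg.c0 hr0
      c1 := hc'.trans hg.c1
      C1 := hg.C1
      opn := hW
      nb := fun z hz hδ => (ball_subset_ball (min_le_right _ _)).trans (hr z ⟨hz.1, hδ.le⟩)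
      bz := fun z hz => hg.bz z hz.1
      cpt := by
        have h1 : {z | z ∈ Wq P U ∧ 0 ≤ δ z} = Kc U δ := B11_Kc hP
        rw [h1]
        exact hg.cpt
      dδ := hg.dδ.mono hsub
      dh := hg.dh.mono (prod_mono hsub hsub)
      hol := fun ζ hζ => (hg.hol ζ hζ.1).mono hsub
      bδ := fun z hz => hg.bδ z hz.1
      bh := fun z hz ζ hζ => hg.bh z hz.1 ζ hζ.1
      bdh := fun z hz ζ hζ => hg.bdh z hz.1 ζ hζ.1
      grad := fun z hz X => hg.grad z hz.1 X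
      pos := fun z hz ζ hζ => by
        refine le_trans ?_ (hg.pos z hz.1 ζ hζ.1)
        have := mul_le_mul_of_nonneg_right hc' (sq_nonneg ‖ζ - z‖)
        linarith
      nd := fun z hz h0 h1 => hc'.trans (hg.nd z hz.1 h0 (h1.trans_le hc')) }

theorem B11_upd {T : Type*} [NormedAddCommGroup T] [NormedSpace ℝ T] {α : Type*}
    [NormedAddCommGroup α] [NormedSpace ℝ α] {m : ℕ} {Y : T → Fin m → α} {R : T → α} {p : T}
    {r : WithTop ℕ∞} (hY : ∀ l, ContDiffAt ℝ r (fun y => Y y l) p) (hR : ContDiffAt ℝ r R p)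
    (j l : Fin m) : ContDiffAt ℝ r (fun y => Function.update (Y y) j (R y) l) p := by
  rcases eq_or_ne l j with rfl | hl
  · simp only [Function.update_self]
    exact hR
  · simp only [Function.update_of_ne hl]
    exact hY l

theorem B11_det {T : Type*} [NormedAddCommGroup T] [NormedSpace ℝ T] {m : ℕ}
    {x : T → Fin (m + 1) → ℂ} {Y : T → Fin m → Fin (m + 1) → ℂ} {p : T}
    {r : WithTop ℕ∞} (hx : ContDiffAt ℝ r x p) (hY : ∀ l, ContDiffAt ℝ r (fun y => Y y l) p) :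
    ContDiffAt ℝ r (fun y => Matrix.det (cn (x y) (Y y))) p := by
  apply det_c1
  intro i
  refine Fin.cases ?_ (fun l => ?_) i
  · exact hx
  · exact hY l

theorem B11_rq_c1 (hg : Geo U δ h c C) (hP : PG P U δ h c C A) (κ : ℝ) {z ζ : Ec n} (τ : ℝ)
    (hz : z ∈ Wq P U) (hζ : ζ ∈ Wq P U) (X : Ec n) :
    ContDiffAt ℝ 1 (fun p : Tn n => rq P δ κ p.1 p.2.2 X) (z, τ, ζ) := by
  have hW := Wq_open hg hP
  have hWW : Wq P U ×ˢ Wq P U ∈ 𝓝 (z, ζ) := (hW.prod hW).mem_nhds ⟨hz, hζ⟩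
  have hmain : ∀ k : Fin n, ContDiffAt ℝ 1
      (fun p : Tn n => db (fun y => Qh P δ κ p.1 y k) p.2.2 X) (z, τ, ζ) := by
    intro k
    have h1 : ContDiffAt ℝ 2 (fun p : Ec n × Ec n => Qh P δ κ p.1 p.2 k) (z, ζ) :=
      (Qh_c2 hg hP κ k).contDiffAt hWW
    have h2 : ContDiffAt ℝ 1 (fderiv ℝ fun p : Ec n × Ec n => Qh P δ κ p.1 p.2 k) (z, ζ) :=
      h1.fderiv_right (by norm_num)
    have h3 : ∀ Y : Ec n, ContDiffAt ℝ 1 (fun p : Ec n × Ec n =>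
        fderiv ℝ (fun p : Ec n × Ec n => Qh P δ κ p.1 p.2 k) p (0, Y)) (z, ζ) := fun Y =>
      h2.clm_apply contDiffAt_const
    have h4 : ContDiffAt ℝ 1 (fun p : Ec n × Ec n => (2⁻¹ : ℂ) *
        (fderiv ℝ (fun p : Ec n × Ec n => Qh P δ κ p.1 p.2 k) p (0, X) + Complex.I *
        fderiv ℝ (fun p : Ec n × Ec n => Qh P δ κ p.1 p.2 k) p (0, Complex.I • X))) (z, ζ) :=
      contDiffAt_const.mul ((h3 X).add (contDiffAt_const.mul (h3 (Complex.I • X))))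
    have h5 : ContDiffAt ℝ 1 (fun p : Tn n => ((p.1, p.2.2) : Ec n × Ec n)) (z, τ, ζ) := by
      apply ContDiff.contDiffAt
      fun_prop
    have h6 := ContDiffAt.comp (z, τ, ζ) (g := fun p : Ec n × Ec n => (2⁻¹ : ℂ) *
        (fderiv ℝ (fun p : Ec n × Ec n => Qh P δ κ p.1 p.2 k) p (0, X) + Complex.I *
        fderiv ℝ (fun p : Ec n × Ec n => Qh P δ κ p.1 p.2 k) p (0, Complex.I • X)))
        (f := fun p : Tn n => ((p.1, p.2.2) : Ec n × Ec n)) h4 h5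
    refine h6.congr_of_eventuallyEq ?_
    have h7 : ∀ᶠ p in 𝓝 ((z, τ, ζ) : Tn n), p.1 ∈ Wq P U ∧ p.2.2 ∈ Wq P U :=
      ((continuous_fst.tendsto _).eventually (hW.mem_nhds hz)).and
        (((continuous_snd.comp continuous_snd).tendsto _).eventually (hW.mem_nhds hζ))
    filter_upwards [h7] with p hp
    have h8 : DifferentiableAt ℝ (fun p : Ec n × Ec n => Qh P δ κ p.1 p.2 k) (p.1, p.2.2) :=
      ((Qh_c2 hg hP κ k).contDiffAt ((hW.prod hW).mem_nhds hp)).differentiableAt two_ne_zero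
    have h9 : HasFDerivAt (fun y => Qh P δ κ p.1 y k)
        ((fderiv ℝ (fun p : Ec n × Ec n => Qh P δ κ p.1 p.2 k) (p.1, p.2.2)).comp
          (ContinuousLinearMap.inr ℝ (Ec n) (Ec n))) p.2.2 :=
      h8.hasFDerivAt.comp p.2.2 (hasFDerivAt_prodMk_right p.1 p.2.2)
    unfold db
    rw [h9.fderiv]
    rfl
  rw [contDiffAt_pi]
  intro i
  unfold rq
  exact B11_comp (q := 0) hmain i

/-- the kernel divided by `δ²` -/
noncomputable def B11_g (P : PD n) (δ : Ec n → ℝ) (h : Ec n → Ec n → Fin n → ℂ) (κ ε τ : ℝ)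
    (z ζ : Ec n) (k : Fin n) : ℂ :=
  Complex.exp (Ex P δ κ z ζ) * ((2 * n + 8) *
      (((δ ζ : ℂ) ^ (n + 6) * ((1 - τ) * (ε ^ 2 * δ ζ) + τ : ℂ) ^ (n + 8)) /
        aa δ h ε τ z ζ ^ (2 * n + 9)) *
      Matrix.det (cn (rx δ h ε 0 τ z ζ) (Function.update
        (fun l : Fin n => rζ δ h ε Fin.elim0 τ z ζ (ee l)) k (rτ δ h ε 0 z ζ))) +
    (((δ ζ : ℂ) ^ (n + 6) * ((1 - τ) * (ε ^ 2 * δ ζ) + τ : ℂ) ^ (n + 8)) /
        aa δ h ε τ z ζ ^ (2 * n + 8)) *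
      ∑ j ∈ Finset.univ.erase k, Matrix.det (cn (rx δ h ε 0 τ z ζ)
      (Function.update (Function.update (fun l : Fin n => rζ δ h ε Fin.elim0 τ z ζ (ee l)) j
        (rq P δ κ z ζ (ee j))) k (rτ δ h ε 0 z ζ))))

theorem B11_w0 (δ : Ec n → ℝ) (ε τ : ℝ) (ζ : Ec n) :
    (w0 δ ε τ ζ : ℂ) ^ (n + 8) = (δ ζ : ℂ) ^ 2 *
      ((δ ζ : ℂ) ^ (n + 6) * ((1 - τ) * (ε ^ 2 * δ ζ) + τ : ℂ) ^ (n + 8)) := by
  have h1 : (w0 δ ε τ ζ : ℂ) = (δ ζ : ℂ) * ((1 - τ) * (ε ^ 2 * δ ζ) + τ : ℂ) := by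
    unfold w0
    push_cast
    ring
  rw [h1, mul_pow]
  have h2 : (δ ζ : ℂ) ^ (n + 8) = (δ ζ : ℂ) ^ 2 * (δ ζ : ℂ) ^ (n + 6) := by
    rw [← pow_add]
    congr 1
    omega
  rw [h2]
  ring

theorem B11_KEk (P : PD n) (δ : Ec n → ℝ) (h : Ec n → Ec n → Fin n → ℂ) (κ ε τ : ℝ)
    (z ζ : Ec n) (k : Fin n) :
    KEk P δ h κ ε τ z ζ k = (δ ζ : ℂ) ^ 2 * B11_g P δ h κ ε τ z ζ k := by
  unfold KEk B11_g F0 F1
  rw [B11_w0]
  ring

theorem B11_g_c1 (hg : Geo U δ h c C) (hP : PG P U δ h c C A) (κ ε τ : ℝ) {z ζ : Ec n}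
    (hz : z ∈ Wq P U) (hζ : ζ ∈ Wq P U) (ha : aa δ h ε τ z ζ ≠ 0) (k : Fin n) :
    ContDiffAt ℝ 1 (fun ζ' => B11_g P δ h κ ε τ z ζ' k) ζ := by
  have hi : ContDiffAt ℝ 1 (fun ζ' : Ec n => ((z, τ, ζ') : Tn n)) ζ := by
    apply ContDiff.contDiffAt
    fun_prop
  have hcomp : ∀ {E : Type} [NormedAddCommGroup E] [NormedSpace ℝ E] {K : Tn n → E},
      ContDiffAt ℝ 1 K (z, τ, ζ) → ContDiffAt ℝ 1 (fun ζ' => K (z, τ, ζ')) ζ :=
    fun {E} _ _ {K} hK => ContDiffAt.comp ζ (g := K) (f := fun ζ' : Ec n => ((z, τ, ζ') : Tn n))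
      hK hi
  have hE : ContDiffAt ℝ 1 (fun ζ' => Complex.exp (Ex P δ κ z ζ')) ζ :=
    (hcomp ((B11_Ex_c2 hg hP κ τ hz hζ).of_le one_le_two)).cexp
  have hδ0 : ContDiffAt ℝ 1 δ ζ :=
    (hg.dδ.contDiffAt (hg.opn.mem_nhds hζ.1)).of_le one_le_two
  have hδ : ContDiffAt ℝ 1 (fun ζ' => (δ ζ' : ℂ)) ζ :=
    Complex.ofRealCLM.contDiff.contDiffAt.comp ζ hδ0
  have hs : ContDiffAt ℝ 1 (fun ζ' => ((1 - τ) * (ε ^ 2 * δ ζ') + τ : ℂ)) ζ :=
    (contDiffAt_const.mul (contDiffAt_const.mul hδ)).add contDiffAt_const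
  have hnum : ContDiffAt ℝ 1 (fun ζ' => (δ ζ' : ℂ) ^ (n + 6) *
      ((1 - τ) * (ε ^ 2 * δ ζ') + τ : ℂ) ^ (n + 8)) ζ := (hδ.pow _).mul (hs.pow _)
  have haa : ContDiffAt ℝ 1 (fun ζ' => aa δ h ε τ z ζ') ζ :=
    hcomp ((aa_c2 hg ε hz.1 hζ.1 τ).of_le one_le_two)
  have hx := (rx_c2 hg ε 0 hz.1 hζ.1 τ).of_le one_le_two
  have ht := rτ_c1 hg ε 0 hz.1 hζ.1 τ
  have hr : ∀ l : Fin n, ContDiffAt ℝ 1
      (fun p : Tn n => rζ δ h ε Fin.elim0 p.2.1 p.1 p.2.2 (ee l)) (z, τ, ζ) := fun l =>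
    rζ_c1 hg ε Fin.elim0 hz.1 hζ.1 τ (ee l)
  have hq : ∀ l : Fin n, ContDiffAt ℝ 1 (fun p : Tn n => rq P δ κ p.1 p.2.2 (ee l)) (z, τ, ζ) :=
    fun l => B11_rq_c1 hg hP κ τ hz hζ (ee l)
  have hd1 := hcomp (B11_det hx (B11_upd hr ht k))
  have hd2 := hcomp (ContDiffAt.sum (s := Finset.univ.erase k)
    fun j _ => B11_det hx (B11_upd (B11_upd hr (hq j) j) ht k))
  have hquo : ∀ b : ℕ, ContDiffAt ℝ 1 (fun ζ' => ((δ ζ' : ℂ) ^ (n + 6) *
      ((1 - τ) * (ε ^ 2 * δ ζ') + τ : ℂ) ^ (n + 8)) / aa δ h ε τ z ζ' ^ b) ζ := by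
    intro b
    simp only [div_eq_mul_inv]
    exact hnum.mul ((haa.pow b).inv (pow_ne_zero _ ha))
  unfold B11_g
  exact hE.mul (ContDiffAt.add ((contDiffAt_const.mul (hquo (2 * n + 9))).mul hd1)
    ((hquo (2 * n + 8)).mul hd2))

omit [FiniteDimensional ℂ V] in
theorem B11_db_smul {F : Ec n → ℂ} {N : Ec n → V} {z : Ec n} (hF : DifferentiableAt ℝ F z)
    (hN : DifferentiableAt ℝ N z) (X : Ec n) :
    db (fun y => F y • N y) z X = db F z X • N z + F z • db N z X := by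
  have h1 := (hF.hasFDerivAt.smul hN.hasFDerivAt).fderiv
  have h2 : (fun y => F y • N y) = F • N := rfl
  unfold db
  rw [h2, h1]
  simp only [add_apply, smul_apply, ContinuousLinearMap.smulRight_apply, smul_eq_mul]
  module

omit [FiniteDimensional ℂ V] in
theorem B11_db_cont {W : Set (Ec n)} (hW : IsOpen W) {η : Ec n → V} (hη : ContDiffOn ℝ 1 η W)
    (X : Ec n) : ContinuousOn (fun ζ => db η ζ X) W := by
  have h1 : ContinuousOn (fderiv ℝ η) W := hη.continuousOn_fderiv_of_isOpen hW le_rfl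
  unfold db
  exact continuousOn_const.smul ((h1.clm_apply continuousOn_const).add
    (continuousOn_const.smul (h1.clm_apply continuousOn_const)))

/-- Integration by parts with the weighted kernel.
PROOF. As `ibp_KA`: `KEk` is `δ²` times a function of `ζ` which is `C¹` on the open set
`{ζ ∈ Wq P U | aa ≠ 0}`, which contains `Kc U δ`: both `F0` and `F1` have the factor
`w0^(n+8) = δ^(n+8) ((1 - τ) ε² δ + τ)^(n+8)`. -/
theorem ibp_KE (hg : Geo U δ h c C) (hP : PG P U δ h c C A) (κ : ℝ) {ε : ℝ} (hε : 0 < ε) {τ : ℝ}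
    (hτ : τ ∈ Icc (0 : ℝ) 1) (k : Fin n) {z : Ec n} (hz : z ∈ Om U δ)
    {W : Set (Ec n)} (hW : IsOpen W) (hK : Kc U δ ⊆ W) {N : Ec n → V} (hN : ContDiffOn ℝ 1 N W) :
    ∫ ζ in Om U δ, KEk P δ h κ ε τ z ζ k • db N ζ (ee k) =
      -∫ ζ in Om U δ, db (fun ζ' => KEk P δ h κ ε τ z ζ' k) ζ (ee k) • N ζ := by
  have hsubOK : Om U δ ⊆ Kc U δ := fun z hz => ⟨hz.1, hz.2.le⟩
  have hzW : z ∈ Wq P U := Kc_sub_Wq hP (hsubOK hz)
  set D : Set (Ec n) := {ζ | ((z, τ, ζ) : Tn n) ∈ TsetE P U δ h ε} with hD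
  have hDo : IsOpen D := by
    have h1 : Continuous fun ζ : Ec n => ((z, τ, ζ) : Tn n) := by fun_prop
    exact (TsetE_open hg hP ε).preimage h1
  have hDK : Kc U δ ⊆ D := fun ζ hζ =>
    ⟨hzW, Kc_sub_Wq hP hζ, aa_ne hg hε hτ hz hζ⟩
  have hW' : IsOpen (W ∩ D) := hW.inter hDo
  have hK' : Kc U δ ⊆ W ∩ D := subset_inter hK hDK
  have hgc : ContDiffOn ℝ 1 (fun ζ => B11_g P δ h κ ε τ z ζ k) (W ∩ D) := fun ζ hζ =>
    (B11_g_c1 hg hP κ ε τ hzW hζ.2.2.1 hζ.2.2.2 k).contDiffWithinAt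
  have hNc : ContDiffOn ℝ 1 N (W ∩ D) := hN.mono inter_subset_left
  have hδc : ContDiffOn ℝ 1 (fun ζ => (δ ζ : ℂ)) (W ∩ D) := by
    intro ζ hζ
    have hδ0 : ContDiffAt ℝ 1 δ ζ :=
      (hg.dδ.contDiffAt (hg.opn.mem_nhds hζ.2.2.1.1)).of_le one_le_two
    exact (Complex.ofRealCLM.contDiff.contDiffAt.comp ζ hδ0).contDiffWithinAt
  have hKc : ContDiffOn ℝ 1 (fun ζ => KEk P δ h κ ε τ z ζ k) (W ∩ D) := by
    simp only [B11_KEk]
    exact (hδc.pow 2).mul hgc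
  have hz0 := ibp_zero hg hW' hK' (hgc.smul hNc) (ee k)
  have e1 : (fun ζ => ((δ ζ : ℂ) ^ 2) • (B11_g P δ h κ ε τ z ζ k • N ζ)) =
      fun ζ => KEk P δ h κ ε τ z ζ k • N ζ := by
    funext ζ
    rw [smul_smul, ← B11_KEk]
  have hz1 : ∫ ζ in Om U δ, db (fun ζ => KEk P δ h κ ε τ z ζ k • N ζ) ζ (ee k) = 0 := by
    rw [← e1]
    exact hz0
  have hmeas : MeasurableSet (Om U δ) := (Om_open hg).measurableSet
  have hint : ∀ (f : Ec n → V), ContinuousOn f (W ∩ D) → IntegrableOn f (Om U δ) := by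
    intro f hf
    exact ((hf.mono hK').integrableOn_compact hg.cpt).mono_set hsubOK
  have e2 : ∫ ζ in Om U δ, db (fun ζ => KEk P δ h κ ε τ z ζ k • N ζ) ζ (ee k) =
      ∫ ζ in Om U δ, (db (fun ζ' => KEk P δ h κ ε τ z ζ' k) ζ (ee k) • N ζ +
        KEk P δ h κ ε τ z ζ k • db N ζ (ee k)) := by
    refine setIntegral_congr_fun hmeas fun ζ hζ => ?_
    have hζW : ζ ∈ W ∩ D := hK' (hsubOK hζ)
    exact B11_db_smul ((hKc.contDiffAt (hW'.mem_nhds hζW)).differentiableAt (by norm_num))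
      ((hNc.contDiffAt (hW'.mem_nhds hζW)).differentiableAt (by norm_num)) (ee k)
  have hi1 : IntegrableOn (fun ζ => db (fun ζ' => KEk P δ h κ ε τ z ζ' k) ζ (ee k) • N ζ)
      (Om U δ) := hint _ ((B11_db_cont hW' hKc (ee k)).smul hNc.continuousOn)
  have hi2 : IntegrableOn (fun ζ => KEk P δ h κ ε τ z ζ k • db N ζ (ee k)) (Om U δ) :=
    hint _ (hKc.continuousOn.smul (B11_db_cont hW' hNc (ee k)))
  rw [e2, integral_add hi1 hi2] at hz1
  rw [add_comm] at hz1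
  exact eq_neg_of_add_eq_zero_left hz1

theorem B11_KE0_one (P : PD n) (δ : Ec n → ℝ) (h : Ec n → Ec n → Fin n → ℂ) (κ ε : ℝ)
    (z ζ : Ec n) : KE0 P δ h κ ε 1 z ζ = KE0 P δ h κ 1 1 z ζ := by
  have hw : w0 δ ε 1 ζ = w0 δ 1 1 ζ := by
    unfold w0
    ring
  have ha : aa δ h ε 1 z ζ = aa δ h 1 1 z ζ := by
    unfold aa
    rw [hw]
  have hF : F0 δ h ε 1 z ζ = F0 δ h 1 1 z ζ := by
    unfold F0
    rw [hw, ha]
  have hF1 : F1 δ h ε 1 z ζ = F1 δ h 1 1 z ζ := by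
    unfold F1
    rw [hw, ha]
  have hx : rx δ h ε 0 1 z ζ = rx δ h 1 0 1 z ζ := by
    unfold rx
    rw [hw]
  have hr : (fun l : Fin n => rζ δ h ε (Fin.elim0 : Fin 0 → Fin n) 1 z ζ (ee l)) =
      fun l => rζ δ h 1 (Fin.elim0 : Fin 0 → Fin n) 1 z ζ (ee l) := by
    funext l
    unfold rζ
    have h3 : (((1 - ((1 : ℝ) : ℂ)) * (2 * (ε : ℂ) ^ 2 * (δ ζ : ℂ)) + ((1 : ℝ) : ℂ)) *
        db (fun y => (δ y : ℂ)) ζ (ee l)) =
        (((1 - ((1 : ℝ) : ℂ)) * (2 * ((1 : ℝ) : ℂ) ^ 2 * (δ ζ : ℂ)) + ((1 : ℝ) : ℂ)) *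
        db (fun y => (δ y : ℂ)) ζ (ee l)) := by
      rw [Complex.ofReal_one, sub_self, zero_mul, zero_mul]
    rw [h3]
  unfold KE0
  rw [hF, hF1, hx, hr]

/-- The weighted homotopy formula.
PROOF. As `koppelman0`: Fubini, `ibp_KE`, `ke0_closed` and the fundamental theorem of calculus give
`SE = (kn / (2n + 8)) ∑_k ∫∫ KEk db N (ee k) = -(kn / (2n+8)) ∫∫ ∂_τ KE0 N =
(kn / (2n+8)) (∫ KE0(τ = 0) N - ∫ KE0(τ = 1) N) = RE - PE`. For `τ = 1` the kernel does not depend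
on `ε`. For the integrability: the kernels are continuous on the compact set
`{z} ×ˢ Icc 0 1 ×ˢ Kc U δ ⊆ TsetE`. -/
theorem wkoppelman (hg : Geo U δ h c C) (hP : PG P U δ h c C A) (κ : ℝ) {ε : ℝ} (hε : 0 < ε)
    {z : Ec n} (hz : z ∈ Om U δ) {W : Set (Ec n)} (hW : IsOpen W) (hK : Kc U δ ⊆ W)
    {N : Ec n → V} (hN : ContDiffOn ℝ 1 N W) :
    RE P U δ h κ ε N z = PE P U δ h κ N z + SE P U δ h κ ε N z := by
  obtain ⟨c', hg'⟩ := B11_geo hg hP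
  have hOm := B11_Om (P := P) hP
  have hKc := B11_Kc (P := P) hP
  have hms : MeasurableSet (Icc (0 : ℝ) 1 ×ˢ Om U δ) :=
    measurableSet_Icc.prod (Om_open hg).measurableSet
  have hsubOK : Om U δ ⊆ Kc U δ := fun z hz => ⟨hz.1, hz.2.le⟩
  have hz' : z ∈ Om (Wq P U) δ := by
    rw [hOm]
    exact hz
  have hK' : Kc (Wq P U) δ ⊆ W := by
    rw [hKc]
    exact hK
  have hT : ∀ {τ : ℝ}, τ ∈ Icc (0 : ℝ) 1 → ∀ {ζ}, ζ ∈ Kc U δ → ((z, τ, ζ) : Tn n) ∈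
      TsetE P U δ h ε := by
    intro τ hτ ζ hζ
    exact ⟨Kc_sub_Wq hP (hsubOK hz), Kc_sub_Wq hP hζ, aa_ne hg hε hτ hz hζ⟩
  have hTo := TsetE_open hg hP ε
  have hpi : ∀ {K : Tn n → ℂ}, ContinuousOn K (TsetE P U δ h ε) → ∀ {η : Ec n → V},
      ContinuousOn η W → IntegrableOn (fun p : ℝ × Ec n => K (z, p) • η p.2)
        (Icc (0 : ℝ) 1 ×ˢ Om U δ) := by
    intro K hKK η hη
    have h1 := param_int hg' hε (k := K) hKK (int_snd hg' hK' hη).1 hz'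
    rw [hOm] at h1
    exact h1
  have hdbc : ∀ k : Fin n, ContinuousOn (fun q : Tn n =>
      cd (fun p : Tn n => KEk P δ h κ ε p.2.1 p.1 p.2.2 k) q (dζ (ee k))) (TsetE P U δ h ε) := by
    intro k
    have h1 := (KEk_c1 hg hP κ ε k).continuousOn_fderiv_of_isOpen hTo le_rfl
    unfold cd
    exact (h1.clm_apply continuousOn_const).add
      ((h1.clm_apply continuousOn_const).const_smul Complex.I)
  have hcdz : ∀ (k : Fin n) {τ : ℝ} {ζ : Ec n}, ((z, τ, ζ) : Tn n) ∈ TsetE P U δ h ε →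
      cd (fun p : Tn n => KEk P δ h κ ε p.2.1 p.1 p.2.2 k) (z, τ, ζ) (dζ (ee k)) =
      db (fun ζ' => KEk P δ h κ ε τ z ζ' k) ζ (ee k) := by
    intro k τ ζ hq
    exact cd_dζ (F := fun p : Tn n => KEk P δ h κ ε p.2.1 p.1 p.2.2 k)
      (((KEk_c1 hg hP κ ε k).contDiffAt (hTo.mem_nhds hq)).differentiableAt (by norm_num)) (ee k)
  have hint1 : ∀ k : Fin n, IntegrableOn (fun p : ℝ × Ec n =>
      KEk P δ h κ ε p.1 z p.2 k • db N p.2 (ee k)) (Icc (0 : ℝ) 1 ×ˢ Om U δ) := fun k =>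
    hpi (K := fun p : Tn n => KEk P δ h κ ε p.2.1 p.1 p.2.2 k) (KEk_c1 hg hP κ ε k).continuousOn
      (B11_db_cont hW hN (ee k))
  have hint2 : ∀ k : Fin n, IntegrableOn (fun p : ℝ × Ec n =>
      db (fun ζ' => KEk P δ h κ ε p.1 z ζ' k) p.2 (ee k) • N p.2) (Icc (0 : ℝ) 1 ×ˢ Om U δ) := by
    intro k
    refine IntegrableOn.congr_fun (hpi (hdbc k) hN.continuousOn) ?_ hms
    intro p hp
    have h3 := hcdz k (hT hp.1 (hsubOK hp.2))
    show cd (fun p : Tn n => KEk P δ h κ ε p.2.1 p.1 p.2.2 k) (z, p.1, p.2) (dζ (ee k)) • N p.2 =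
      db (fun ζ' => KEk P δ h κ ε p.1 z ζ' k) p.2 (ee k) • N p.2
    rw [h3]
  have hdouble : ∀ k : Fin n, ∫ p in Icc (0 : ℝ) 1 ×ˢ Om U δ,
      KEk P δ h κ ε p.1 z p.2 k • db N p.2 (ee k) =
      -∫ p in Icc (0 : ℝ) 1 ×ˢ Om U δ,
        db (fun ζ' => KEk P δ h κ ε p.1 z ζ' k) p.2 (ee k) • N p.2 := by
    intro k
    have e1 : ∫ p in Icc (0 : ℝ) 1 ×ˢ Om U δ, KEk P δ h κ ε p.1 z p.2 k • db N p.2 (ee k) =
        ∫ τ in Icc (0 : ℝ) 1, ∫ ζ in Om U δ, KEk P δ h κ ε τ z ζ k • db N ζ (ee k) :=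
      setIntegral_prod _ (hint1 k)
    have e2 : ∫ p in Icc (0 : ℝ) 1 ×ˢ Om U δ,
        db (fun ζ' => KEk P δ h κ ε p.1 z ζ' k) p.2 (ee k) • N p.2 =
        ∫ τ in Icc (0 : ℝ) 1, ∫ ζ in Om U δ,
          db (fun ζ' => KEk P δ h κ ε τ z ζ' k) ζ (ee k) • N ζ :=
      setIntegral_prod _ (hint2 k)
    rw [e1, e2, ← integral_neg]
    refine setIntegral_congr_fun measurableSet_Icc ?_
    intro τ hτ
    exact ibp_KE hg hP κ hε hτ k hz hW hK hN
  have hk0 : ContDiffOn ℝ 1 (fun p : Tn n => KE0 P δ h κ ε p.2.1 p.1 p.2.2)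
      (Tset (Wq P U) δ h ε) := KE0_c1 hg hP κ ε
  have e3 := int_dt hg' hε hk0 hK' hN.continuousOn hz'
  rw [hOm] at e3
  have e4 : ∫ p in Icc (0 : ℝ) 1 ×ˢ Om U δ, ∑ k : Fin n,
        db (fun ζ' => KEk P δ h κ ε p.1 z ζ' k) p.2 (ee k) • N p.2 =
      ∫ p in Icc (0 : ℝ) 1 ×ˢ Om U δ,
        fderiv ℝ (fun p : Tn n => KE0 P δ h κ ε p.2.1 p.1 p.2.2) (z, p) (0, 1, 0) • N p.2 := by
    refine setIntegral_congr_fun hms ?_
    intro p hp
    have h1 := hT hp.1 (hsubOK hp.2)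
    have h2 := ke0_closed hg hP κ ε h1.1 h1.2.1 p.1 h1.2.2
    have h5 : HasFDerivAt (fun p : Tn n => KE0 P δ h κ ε p.2.1 p.1 p.2.2)
        (fderiv ℝ (fun p : Tn n => KE0 P δ h κ ε p.2.1 p.1 p.2.2) (z, p.1, p.2)) (z, p.1, p.2) :=
      (((KE0_c1 hg hP κ ε).contDiffAt (hTo.mem_nhds h1)).differentiableAt
        (by norm_num)).hasFDerivAt
    have h6 : HasDerivAt (fun τ : ℝ => ((z, τ, p.2) : Tn n)) (0, 1, 0) p.1 :=
      (hasDerivAt_const p.1 z).prodMk ((hasDerivAt_id p.1).prodMk (hasDerivAt_const p.1 p.2))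
    have h7 := HasFDerivAt.comp_hasDerivAt (f := fun τ : ℝ => ((z, τ, p.2) : Tn n)) p.1 h5 h6
    have h8 := h2.unique h7
    show ∑ l : Fin n, db (fun ζ' => KEk P δ h κ ε p.1 z ζ' l) p.2 (ee l) • N p.2 =
      fderiv ℝ (fun p : Tn n => KE0 P δ h κ ε p.2.1 p.1 p.2.2) (z, p) (0, 1, 0) • N p.2
    rw [← Finset.sum_smul]
    congr 1
  have e5 : ∫ p in Icc (0 : ℝ) 1 ×ˢ Om U δ, ∑ k : Fin n,
      KEk P δ h κ ε p.1 z p.2 k • db N p.2 (ee k) =
      (∫ ζ in Om U δ, KE0 P δ h κ ε 0 z ζ • N ζ) - ∫ ζ in Om U δ, KE0 P δ h κ 1 1 z ζ • N ζ := by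
    rw [integral_finsetSum _ (fun k _ => hint1 k), Finset.sum_congr rfl fun k _ => hdouble k,
      Finset.sum_neg_distrib, ← integral_finsetSum _ (fun k _ => hint2 k), e4, e3]
    have e6 : ∫ ζ in Om U δ, KE0 P δ h κ ε 1 z ζ • N ζ =
        ∫ ζ in Om U δ, KE0 P δ h κ 1 1 z ζ • N ζ := by
      refine integral_congr_ae (Filter.Eventually.of_forall fun ζ => ?_)
      show KE0 P δ h κ ε 1 z ζ • N ζ = _
      rw [B11_KE0_one P δ h κ ε z ζ]
    have e7 : ∫ ζ in Om U δ, (fun p : Tn n => KE0 P δ h κ ε p.2.1 p.1 p.2.2) (z, 1, ζ) • N ζ =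
        ∫ ζ in Om U δ, KE0 P δ h κ ε 1 z ζ • N ζ := rfl
    have e8 : ∫ ζ in Om U δ, (fun p : Tn n => KE0 P δ h κ ε p.2.1 p.1 p.2.2) (z, 0, ζ) • N ζ =
        ∫ ζ in Om U δ, KE0 P δ h κ ε 0 z ζ • N ζ := rfl
    rw [e7, e8, e6]
    abel
  unfold RE PE SE
  rw [e5, smul_sub]
  abel

/-- the determinant of a matrix with differentiable entries -/
theorem B11_hdet {T : Type*} [NormedAddCommGroup T] [NormedSpace ℂ T] {m : ℕ}
    {R : T → Fin m → Fin m → ℂ} {p : T}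
    (hR : ∀ i j, DifferentiableAt ℂ (fun y => R y i j) p) :
    DifferentiableAt ℂ (fun y => Matrix.det (R y)) p := by
  have h1 : (fun y => Matrix.det (R y)) = fun y => ∑ σ : Equiv.Perm (Fin m),
      ((Equiv.Perm.sign σ : ℤ) : ℂ) * ∏ i, R y (σ i) i := by
    funext y
    exact Matrix.det_apply' _
  rw [h1]
  refine DifferentiableAt.fun_sum fun σ _ => ?_
  refine DifferentiableAt.const_mul ?_ _
  exact (HasFDerivAt.finsetProd (u := Finset.univ) (g := fun i y => R y (σ i) i)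
    (fun i _ => (hR (σ i) i).hasFDerivAt)).differentiableAt

theorem B11_aa_one (δ : Ec n → ℝ) (h : Ec n → Ec n → Fin n → ℂ) (ε : ℝ) (z ζ : Ec n) :
    aa δ h ε 1 z ζ = vv δ h z ζ := by
  rw [aa_eq]
  simp

theorem B11_vv_hol (hg : Geo U δ h c C) {z ζ : Ec n} (hz : z ∈ U) (hζ : ζ ∈ U) :
    DifferentiableAt ℂ (fun z => vv δ h z ζ) z := by
  unfold vv
  have h3 : DifferentiableAt ℂ (fun z => h z ζ) z :=
    (hg.hol ζ hζ).differentiableAt (hg.opn.mem_nhds hz)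
  have h4 : ∀ k, DifferentiableAt ℂ (fun z => h z ζ k) z := fun k => (differentiableAt_pi.1 h3) k
  refine DifferentiableAt.const_add _ ?_
  refine DifferentiableAt.fun_sum fun k _ => ?_
  refine (h4 k).mul ?_
  refine DifferentiableAt.const_sub ?_ _
  exact (EuclideanSpace.proj (𝕜 := ℂ) k).differentiableAt

theorem B11_rx_hol (hg : Geo U δ h c C) (ε : ℝ) (q : ℕ) {z ζ : Ec n} (hz : z ∈ U) (hζ : ζ ∈ U)
    (j : Fin (n + q + 1)) : DifferentiableAt ℂ (fun z => rx δ h ε q 1 z ζ j) z := by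
  have h3 : DifferentiableAt ℂ (fun z => h z ζ) z :=
    (hg.hol ζ hζ).differentiableAt (hg.opn.mem_nhds hz)
  have h4 : ∀ k, DifferentiableAt ℂ (fun z => h z ζ k) z := fun k => (differentiableAt_pi.1 h3) k
  unfold rx sn
  refine Fin.lastCases ?_ (fun j => ?_) j
  · simp only [Fin.snoc_last]
    exact differentiableAt_const _
  · simp only [Fin.snoc_castSucc]
    refine Fin.addCases (fun k => ?_) (fun k => ?_) j
    · simp only [Fin.append_left, wk]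
      simpa using h4 k
    · simp only [Fin.append_right]
      exact differentiableAt_const _

theorem B11_rζ_hol (hg : Geo U δ h c C) (ε : ℝ) {q : ℕ} (I : Fin q → Fin n) {z ζ : Ec n}
    (hz : z ∈ U) (hζ : ζ ∈ U) (X : Ec n)
    (j : Fin (n + q + 1)) : DifferentiableAt ℂ (fun z => rζ δ h ε I 1 z ζ X j) z := by
  have h4 : ∀ k, DifferentiableAt ℂ (fun z => db (fun y => h z y k) ζ X) z := fun k =>
    (dbh_hol hg hζ X k).differentiableAt (hg.opn.mem_nhds hz)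
  unfold rζ sn
  refine Fin.lastCases ?_ (fun j => ?_) j
  · simp only [Fin.snoc_last]
    exact differentiableAt_const _
  · simp only [Fin.snoc_castSucc]
    refine Fin.addCases (fun k => ?_) (fun k => ?_) j
    · simp only [Fin.append_left]
      simpa using h4 k
    · simp only [Fin.append_right]
      exact differentiableAt_const _

theorem B11_ne {η x : ℂ} (hη : ‖η‖ < 1) (hx : ‖x‖ < 1) : 1 - (starRingEnd ℂ) η * x ≠ 0 := by
  intro h0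
  have h1 : (starRingEnd ℂ) η * x = 1 := (sub_eq_zero.1 h0).symm
  have h2 : ‖(starRingEnd ℂ) η * x‖ = 1 := by
    rw [h1]
    exact norm_one
  rw [norm_mul, RCLike.norm_conj] at h2
  have h3 : ‖η‖ * ‖x‖ < 1 := mul_lt_one_of_nonneg_of_lt_one_left (norm_nonneg _) hη hx.le
  linarith

theorem B11_q_hol (hg : Geo U δ h c C) (hP : PG P U δ h c C A) (r : Fin P.R) {z : Ec n}
    (hz : z ∈ Wq P U) : DifferentiableAt ℂ (P.q r) z :=
  ((hP.qm r).hol).differentiableAt (hg.opn.mem_nhds hz.1)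

theorem B11_den_hol (hg : Geo U δ h c C) (hP : PG P U δ h c C A) (r : Fin P.R) {z : Ec n}
    (hz : z ∈ Wq P U) {η : ℂ} (hη : η ∈ P.S r) :
    DifferentiableAt ℂ (fun z => (1 - (starRingEnd ℂ) η * P.q r z)⁻¹) z := by
  refine DifferentiableAt.fun_inv ?_ (B11_ne (hP.sub r η hη) (hz.2 r))
  exact DifferentiableAt.const_sub ((B11_q_hol hg hP r hz).const_mul _) _

theorem B11_Ex_hol (hg : Geo U δ h c C) (hP : PG P U δ h c C A) (κ : ℝ) {z ζ : Ec n}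
    (hz : z ∈ Wq P U) : DifferentiableAt ℂ (fun z => Ex P δ κ z ζ) z := by
  unfold Ex
  refine DifferentiableAt.const_mul ?_ _
  refine DifferentiableAt.fun_sum fun r _ => ?_
  refine DifferentiableAt.fun_sum fun η hη => ?_
  refine DifferentiableAt.const_mul ?_ _
  refine DifferentiableAt.sub_const ?_ _
  unfold Hf
  simp only [div_eq_mul_inv]
  exact (B11_den_hol hg hP r hz hη).const_mul _

theorem B11_H_hol (hg : Geo U δ h c C) (hP : PG P U δ h c C A) (r : Fin P.R) {z ζ : Ec n}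
    (hz : z ∈ U) (hζ : ζ ∈ U) (k : Fin n) :
    DifferentiableAt ℂ (fun z => P.H r z ζ k) z := by
  have h1 : DifferentiableAt ℂ (fun p : Ec n × Ec n => P.H r p.1 p.2) (z, ζ) :=
    ((hP.qm r).Hhol).differentiableAt ((hg.opn.prod hg.opn).mem_nhds ⟨hz, hζ⟩)
  have h2 : DifferentiableAt ℂ (fun z : Ec n => ((z, ζ) : Ec n × Ec n)) z := by fun_prop
  have h3 : DifferentiableAt ℂ (fun z => P.H r z ζ) z :=
    DifferentiableAt.comp z (g := fun p : Ec n × Ec n => P.H r p.1 p.2) h1 h2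
  exact (differentiableAt_pi.1 h3) k

theorem B11_Rv_hol (hg : Geo U δ h c C) (hP : PG P U δ h c C A) (κ : ℝ) {z ζ : Ec n}
    (hz : z ∈ Wq P U) (hζ : ζ ∈ Wq P U) (k : Fin n) :
    DifferentiableAt ℂ (fun z => Rv P δ κ z ζ k) z := by
  unfold Rv
  refine DifferentiableAt.const_mul ?_ _
  refine DifferentiableAt.fun_sum fun r _ => ?_
  refine DifferentiableAt.fun_sum fun η hη => ?_
  refine DifferentiableAt.mul ?_ (B11_H_hol hg hP r hz.1 hζ.1 k)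
  refine DifferentiableAt.const_mul ?_ _
  simp only [div_eq_mul_inv, mul_inv]
  refine DifferentiableAt.const_mul ?_ _
  exact (B11_den_hol hg hP r hz hη).mul_const _

theorem B11_rq_hol (hg : Geo U δ h c C) (hP : PG P U δ h c C A) (κ : ℝ) {z ζ : Ec n}
    (hz : z ∈ Wq P U) (hζ : ζ ∈ Wq P U) (X : Ec n) (j : Fin (n + 0 + 1)) :
    DifferentiableAt ℂ (fun z => rq P δ κ z ζ X j) z := by
  have hW := Wq_open hg hP
  have h1 : (fun z => rq P δ κ z ζ X j) =ᶠ[𝓝 z] fun z => db (fun y => (δ y : ℂ)) ζ X *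
      (sn (Fin.append (Rv P δ κ z ζ) (0 : Fin 0 → ℂ)) 0 : Fin (n + 0 + 1) → ℂ) j := by
    filter_upwards [hW.mem_nhds hz] with z' hz'
    rw [rq_eq hg hP κ hz' hζ X]
    rfl
  refine DifferentiableAt.congr_of_eventuallyEq ?_ h1
  refine DifferentiableAt.const_mul ?_ _
  refine Fin.lastCases ?_ (fun i => ?_) j
  · simp only [sn, Fin.snoc_last]
    exact differentiableAt_const _
  · refine Fin.addCases (m := n) (n := 0) (fun k => ?_) (fun k => ?_) i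
    · simp only [sn, Fin.snoc_castSucc, Fin.append_left]
      exact B11_Rv_hol hg hP κ hz hζ k
    · exact k.elim0

theorem B11_KE0_hol (hg : Geo U δ h c C) (hP : PG P U δ h c C A) (κ : ℝ) {ζ : Ec n}
    (hζ : ζ ∈ Kc U δ) : DifferentiableOn ℂ (fun z => KE0 P δ h κ 1 1 z ζ) (Om U δ) := by
  intro z hz
  refine DifferentiableAt.differentiableWithinAt ?_
  have hzU : z ∈ U := hz.1
  have hζU : ζ ∈ U := hζ.1
  have hzW : z ∈ Wq P U := Kc_sub_Wq hP ⟨hz.1, hz.2.le⟩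
  have hζW : ζ ∈ Wq P U := Kc_sub_Wq hP hζ
  have hne : vv δ h z ζ ≠ 0 := by
    have := aa_ne hg (one_pos) (τ := 1) ⟨zero_le_one, le_refl 1⟩ hz hζ
    rwa [B11_aa_one] at this
  have hF : ∀ b : ℕ, DifferentiableAt ℂ (fun z => (w0 δ 1 1 ζ : ℂ) ^ (n + 8) /
      aa δ h 1 1 z ζ ^ b) z := by
    intro b
    simp only [B11_aa_one, div_eq_mul_inv]
    exact DifferentiableAt.mul (differentiableAt_const _)
      (DifferentiableAt.fun_inv ((B11_vv_hol hg hzU hζU).fun_pow _) (pow_ne_zero _ hne))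
  have hd1 : DifferentiableAt ℂ (fun z => Matrix.det (cn (rx δ h 1 0 1 z ζ)
      (fun l : Fin n => rζ δ h 1 Fin.elim0 1 z ζ (ee l)))) z := by
    refine B11_hdet fun i j => ?_
    unfold cn
    refine Fin.cases ?_ (fun i => ?_) i
    · simp only [Fin.cons_zero]
      exact B11_rx_hol hg 1 0 hzU hζU j
    · simp only [Fin.cons_succ]
      exact B11_rζ_hol hg 1 (q := 0) Fin.elim0 hzU hζU _ j
  have hd2 : ∀ j : Fin n, DifferentiableAt ℂ (fun z => Matrix.det (cn (rx δ h 1 0 1 z ζ)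
      (Function.update (fun l : Fin n => rζ δ h 1 Fin.elim0 1 z ζ (ee l)) j
        (rq P δ κ z ζ (ee j))))) z := by
    intro j
    refine B11_hdet fun i m => ?_
    unfold cn
    refine Fin.cases ?_ (fun i => ?_) i
    · simp only [Fin.cons_zero]
      exact B11_rx_hol hg 1 0 hzU hζU m
    · simp only [Fin.cons_succ]
      rcases eq_or_ne i j with rfl | hij
      · simp only [Function.update_self]
        exact B11_rq_hol hg hP κ hzW hζW _ m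
      · simp only [Function.update_of_ne hij]
        exact B11_rζ_hol hg 1 (q := 0) Fin.elim0 hzU hζU _ m
  unfold KE0
  refine DifferentiableAt.mul ?_ ?_
  · exact (B11_Ex_hol hg hP κ hzW).cexp
  · refine DifferentiableAt.add ?_ ?_
    · exact ((hF (2 * n + 9)).const_mul _).mul hd1
    · exact (hF (2 * n + 8)).mul (DifferentiableAt.fun_sum fun j _ => hd2 j)

/-- PROOF. As `Pop_hol`: for `τ = 1` all the entries are holomorphic in `z`; the entries of `rq`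
are `db δ ζ X * Rv k` (`rq_eq`), and `Rv`, `Ex` are holomorphic in `z` on `Om U δ`
(`QM.hol`, `QM.Hhol`). (You may follow `int_hol` with `TsetE` instead of `Tset`.) -/
theorem PE_hol (hg : Geo U δ h c C) (hP : PG P U δ h c C A) (κ : ℝ) {W : Set (Ec n)}
    (hK : Kc U δ ⊆ W) {N : Ec n → V} (hN : ContinuousOn N W) :
    DifferentiableOn ℂ (PE P U δ h κ N) (Om U δ) := by
  obtain ⟨c', hg'⟩ := B11_geo hg hP
  have hOm := B11_Om (P := P) hP
  have hKc := B11_Kc (P := P) hP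
  have hK' : Kc (Wq P U) δ ⊆ W := by
    rw [hKc]
    exact hK
  have h1 : ContDiffOn ℝ 1 (fun p : Ec n × Ec n => KE0 P δ h κ 1 1 p.1 p.2)
      {p | p.1 ∈ Wq P U ∧ p.2 ∈ Wq P U ∧ aa δ h 1 1 p.1 p.2 ≠ 0} := by
    have h2 : ContDiffOn ℝ 1 (fun p : Ec n × Ec n => ((p.1, (1 : ℝ), p.2) : Tn n))
        {p | p.1 ∈ Wq P U ∧ p.2 ∈ Wq P U ∧ aa δ h 1 1 p.1 p.2 ≠ 0} := by
      fun_prop
    have h4 := KE0_c1 hg hP κ 1
    have h5 : MapsTo (fun p : Ec n × Ec n => ((p.1, (1 : ℝ), p.2) : Tn n))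
        {p | p.1 ∈ Wq P U ∧ p.2 ∈ Wq P U ∧ aa δ h 1 1 p.1 p.2 ≠ 0} (TsetE P U δ h 1) :=
      fun p hp => ⟨hp.1, hp.2.1, hp.2.2⟩
    have h6 := ContDiffOn.comp h4 h2 h5
    exact h6
  have h2 : ∀ ζ ∈ Kc (Wq P U) δ, DifferentiableOn ℂ (fun z => KE0 P δ h κ 1 1 z ζ)
      (Om (Wq P U) δ) := by
    intro ζ hζ
    rw [hOm]
    rw [hKc] at hζ
    exact B11_KE0_hol hg hP κ hζ
  have h3 := int_hol hg' (k := fun z ζ => KE0 P δ h κ 1 1 z ζ) h1 h2 hK' hN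
  rw [hOm] at h3
  exact h3.const_smul (kn n / (2 * n + 8))

end Pool.Agent.MPca0fc2.FD
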