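import Pool.Agent.Lib.MP_ca0fc2_an.FD.B11
import Pool.Agent.Lib.MP_ca0fc2_an.Mg.G052

/-! The limits of the approximate identities. -/

set_option autoImplicit false

open Metric Set MeasureTheory Filter Topology

namespace Pool.Agent.MPca0fc2.FD

variable {n : ℕ} {V : Type*} [NormedAddCommGroup V] [NormedSpace ℂ V] [FiniteDimensional ℂ V]
variable {U : Set (Ec n)} {δ : Ec n → ℝ} {h : Ec n → Ec n → Fin n → ℂ} {c C A : ℝ}

private lemma B13_gradb (hg : Geo U δ h c C) {z : Ec n} (hz : z ∈ U) :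
    ‖fderiv ℝ δ z‖ ≤ 2 * n * C := by
  have hC := hg.C1
  refine ContinuousLinearMap.opNorm_le_bound _ (by positivity) fun X => ?_
  rw [hg.grad z hz X]
  have h1 : |(∑ k, h z z k * X k).re| ≤ n * C * ‖X‖ := by
    calc |(∑ k, h z z k * X k).re| ≤ ‖∑ k, h z z k * X k‖ := Complex.abs_re_le_norm _
    _ ≤ ∑ k, ‖h z z k * X k‖ := norm_sum_le _ _
    _ ≤ ∑ k : Fin n, C * ‖X‖ := Finset.sum_le_sum fun k _ => by
        rw [norm_mul]
        exact mul_le_mul ((norm_le_pi_norm _ k).trans (hg.bh z hz z hz))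
          (PiLp.norm_apply_le X k) (norm_nonneg _) (by linarith)
    _ = n * C * ‖X‖ := by simp; ring
  rw [Real.norm_eq_abs, abs_mul]
  have : |(-2 : ℝ)| = 2 := by norm_num
  rw [this]
  nlinarith

private lemma B13_lip_ball (hg : Geo U δ h c C) {z ζ : Ec n} (hz : z ∈ Om U δ)
    (hζ : ‖ζ - z‖ < c) : |δ ζ - δ z| ≤ (2 * n * C) * ‖ζ - z‖ := by
  have hb := hg.nb z hz.1 hz.2
  have := (convex_ball z c).norm_image_sub_le_of_norm_fderiv_le (f := δ) (𝕜 := ℝ)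
    (C := 2 * n * C)
    (fun x hx => (hg.dδ.contDiffAt (hg.opn.mem_nhds (hb hx))).differentiableAt (by norm_num))
    (fun x hx => B13_gradb hg (hb hx)) (mem_ball_self hg.c0)
    (show ζ ∈ ball z c by rwa [mem_ball, dist_eq_norm])
  simpa [Real.norm_eq_abs] using this

/-- `δ` is Lipschitz on the domain.
PROOF. `Geo.grad`, `Geo.bh`: `‖fderiv ℝ δ z‖ ≤ C₁ := 2 n C` on `U`. If `‖ζ - z‖ < c` then the segment is in
`ball z c ⊆ U` (`Geo.nb`) and the mean value theorem applies (`Convex.norm_image_sub_le_of_norm_fderiv_le`).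
If `‖ζ - z‖ ≥ c` then `|δ ζ - δ z| ≤ C ≤ (C / c) ‖ζ - z‖` (both values are in `(0, C]`). -/
theorem δ_lip (n : ℕ) (c C : ℝ) : ∃ L : ℝ, 0 < L ∧ ∀ (U : Set (Ec n))
    (δ : Ec n → ℝ) (h : Ec n → Ec n → Fin n → ℂ), Geo U δ h c C → ∀ z ∈ Om U δ, ∀ ζ ∈ Om U δ,
    |δ ζ - δ z| ≤ L * ‖ζ - z‖ := by
  refine ⟨max 1 (2 * n * C + C / c), by positivity, fun U δ h hg z hz ζ hζ => ?_⟩
  have hc := hg.c0
  have hC := hg.C1
  refine le_trans ?_ (mul_le_mul_of_nonneg_right (le_max_right _ _) (norm_nonneg _))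
  by_cases hd : ‖ζ - z‖ < c
  · refine (B13_lip_ball hg hz hd).trans ?_
    have : 0 ≤ C / c * ‖ζ - z‖ := by positivity
    nlinarith
  · rw [not_lt] at hd
    have h1 : |δ ζ - δ z| ≤ C := by
      rw [abs_le]
      constructor
      · linarith [hζ.2, hg.bδ z hz.1]
      · linarith [hz.2, hg.bδ ζ hζ.1]
    have h2 : C ≤ C / c * ‖ζ - z‖ := by
      rw [div_mul_eq_mul_div, le_div_iff₀ hc]
      exact mul_le_mul_of_nonneg_left hd (by linarith)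
    have h3 : 0 ≤ 2 * n * C * ‖ζ - z‖ := by positivity
    nlinarith

/-- comparison of the kernels with the kernels frozen at `z` -/
private lemma B13_cmp (hg : Geo U δ h c C) {s : ℝ} (hs : 0 < s) : ∃ κ : ℝ, 0 < κ ∧ κ ≤ 1 ∧
    ∀ ε : ℝ, 0 < ε → ε ≤ 1 → ∀ z ∈ Om U δ, s ≤ δ z → ∀ ζ ∈ Om U δ,
      κ * ((ε * δ z) ^ 2 + ‖ζ - z‖ ^ 2) ≤ ε ^ 2 * δ ζ ^ 2 + ‖ζ - z‖ ^ 2 := by
  obtain ⟨L, hL, hlip⟩ := δ_lip n c C
  have hC := hg.C1
  set r := s / (2 * L) with hr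
  have hr0 : 0 < r := by positivity
  refine ⟨min (1 / 4) (r ^ 2 / (2 * C ^ 2)), by positivity, ?_, ?_⟩
  · exact (min_le_left _ _).trans (by norm_num)
  intro ε hε hε1 z hz hsz ζ hζ
  set κ := min (1 / 4 : ℝ) (r ^ 2 / (2 * C ^ 2)) with hκ
  have hκ0 : 0 < κ := by positivity
  have k1 : κ ≤ 1 / 4 := min_le_left _ _
  have k2 : κ ≤ r ^ 2 / (2 * C ^ 2) := min_le_right _ _
  have hd : 0 ≤ ‖ζ - z‖ := norm_nonneg _
  by_cases hdr : ‖ζ - z‖ ≤ r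
  · have h1 := hlip U δ h hg z hz ζ hζ
    have h2 : L * ‖ζ - z‖ ≤ s / 2 := by
      calc L * ‖ζ - z‖ ≤ L * r := mul_le_mul_of_nonneg_left hdr hL.le
        _ = s / 2 := by rw [hr]; field_simp
    have h3 : δ z / 2 ≤ δ ζ := by linarith [(abs_le.1 h1).1]
    have h4 : (δ z / 2) ^ 2 ≤ δ ζ ^ 2 := pow_le_pow_left₀ (by linarith [hz.2]) h3 2
    have h5 : κ * (ε * δ z) ^ 2 ≤ ε ^ 2 * δ ζ ^ 2 := by
      calc κ * (ε * δ z) ^ 2 ≤ 1 / 4 * (ε * δ z) ^ 2 :=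
            mul_le_mul_of_nonneg_right k1 (by positivity)
        _ = ε ^ 2 * (δ z / 2) ^ 2 := by ring
        _ ≤ _ := mul_le_mul_of_nonneg_left h4 (by positivity)
    have h6 : κ * ‖ζ - z‖ ^ 2 ≤ 1 * ‖ζ - z‖ ^ 2 :=
      mul_le_mul_of_nonneg_right (by linarith) (by positivity)
    linarith
  · rw [not_le] at hdr
    have h1 : r ^ 2 ≤ ‖ζ - z‖ ^ 2 := pow_le_pow_left₀ hr0.le hdr.le 2
    have h2 : (ε * δ z) ^ 2 ≤ C ^ 2 := by
      have : ε * δ z ≤ C := by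
        calc ε * δ z ≤ 1 * C := mul_le_mul hε1 (hg.bδ z hz.1) hz.2.le (by norm_num)
          _ = C := one_mul _
      exact pow_le_pow_left₀ (by have := hz.2; positivity) this 2
    have h3 : κ * (ε * δ z) ^ 2 ≤ r ^ 2 / 2 := by
      calc κ * (ε * δ z) ^ 2 ≤ r ^ 2 / (2 * C ^ 2) * C ^ 2 :=
            mul_le_mul k2 h2 (by positivity) (by positivity)
        _ = r ^ 2 / 2 := by field_simp
    have h4 : κ * ‖ζ - z‖ ^ 2 ≤ 1 / 2 * ‖ζ - z‖ ^ 2 :=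
      mul_le_mul_of_nonneg_right (by linarith) (by positivity)
    have h5 : 0 ≤ ε ^ 2 * δ ζ ^ 2 := by positivity
    linarith

private lemma B13_num (hg : Geo U δ h c C) {s : ℝ} (hs : 0 < s) {ε : ℝ} {z ζ : Ec n}
    (hsz : s ≤ δ z) (hζ : ζ ∈ Om U δ) :
    ε ^ 2 * δ ζ ^ 2 ≤ (C / s) ^ 2 * (ε * δ z) ^ 2 := by
  have hC := hg.C1
  have h1 : δ ζ ≤ C / s * δ z := by
    calc δ ζ ≤ C := hg.bδ ζ hζ.1
      _ = C / s * s := by field_simp
      _ ≤ _ := mul_le_mul_of_nonneg_left hsz (by positivity)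
  have h2 : δ ζ ^ 2 ≤ (C / s * δ z) ^ 2 := pow_le_pow_left₀ hζ.2.le h1 2
  calc ε ^ 2 * δ ζ ^ 2 ≤ ε ^ 2 * (C / s * δ z) ^ 2 := mul_le_mul_of_nonneg_left h2 (by positivity)
    _ = _ := by ring

private lemma B13_pt {x y D K κ : ℝ} (a b : ℕ) (hx : 0 ≤ x) (hy : 0 < y) (hD : 0 ≤ D)
    (hκ : 0 < κ) (h1 : x ≤ K * y) (h2 : κ * (y + D) ≤ x + D) :
    x ^ a / (x + D) ^ b ≤ (K ^ a / κ ^ b) * (y ^ a / (y + D) ^ b) := by
  have h3 : x ^ a ≤ K ^ a * y ^ a := by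
    rw [← mul_pow]; exact pow_le_pow_left₀ hx h1 a
  have h4 : κ ^ b * (y + D) ^ b ≤ (x + D) ^ b := by
    rw [← mul_pow]; exact pow_le_pow_left₀ (by positivity) h2 b
  calc x ^ a / (x + D) ^ b ≤ (K ^ a * y ^ a) / (κ ^ b * (y + D) ^ b) :=
        div_le_div₀ ((pow_nonneg hx a).trans h3) h3 (by positivity) h4
    _ = _ := by rw [mul_div_mul_comm]

private lemma B13_fin (n : ℕ) : Module.finrank ℝ (Ec n) = 2 * n := by
  rw [finrank_real_of_complex, finrank_euclideanSpace_fin]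

private lemma B13_int (n m : ℕ) (hm : 1 ≤ m) :
    Integrable (fun x : Ec n => ((1 + ‖x‖ ^ 2) ^ (n + m))⁻¹) := by
  have := integrable_rpow_neg_one_add_norm_sq (E := Ec n) (μ := volume)
    (r := 2 * ((n + m : ℕ) : ℝ)) (by rw [B13_fin]; push_cast; have : (1 : ℝ) ≤ m := by
                                       exact_mod_cast hm
                                     linarith)
  refine this.congr (ae_of_all _ fun x => ?_)
  have h1 : (0 : ℝ) ≤ 1 + ‖x‖ ^ 2 := by positivity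
  show (1 + ‖x‖ ^ 2) ^ (-(2 * ((n + m : ℕ) : ℝ)) / 2) = _
  rw [show -(2 * ((n + m : ℕ) : ℝ)) / 2 = -((n + m : ℕ) : ℝ) by ring, Real.rpow_neg h1,
    Real.rpow_natCast]

private lemma B13_scale (n m : ℕ) (hm : 1 ≤ m) {ρ : ℝ} (hρ : 0 < ρ) (z : Ec n) :
    Integrable (fun ζ : Ec n => (ρ ^ 2) ^ m / (ρ ^ 2 + ‖ζ - z‖ ^ 2) ^ (n + m)) ∧
    ∫ ζ : Ec n, (ρ ^ 2) ^ m / (ρ ^ 2 + ‖ζ - z‖ ^ 2) ^ (n + m) =
      ∫ x : Ec n, ((1 + ‖x‖ ^ 2) ^ (n + m))⁻¹ := by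
  have h1 : (fun ζ : Ec n => (ρ ^ 2) ^ m / (ρ ^ 2 + ‖ζ - z‖ ^ 2) ^ (n + m)) =
      fun ζ => (ρ ^ (2 * n))⁻¹ * ((1 + ‖ρ⁻¹ • (ζ - z)‖ ^ 2) ^ (n + m))⁻¹ := by
    funext ζ
    rw [norm_smul, Real.norm_of_nonneg (by positivity)]
    have : 1 + (ρ⁻¹ * ‖ζ - z‖) ^ 2 = (ρ ^ 2 + ‖ζ - z‖ ^ 2) / ρ ^ 2 := by field_simp
    rw [this, div_pow, inv_div, ← pow_mul, ← pow_mul]
    have h2 : ρ ^ (2 * (n + m)) = ρ ^ (2 * n) * ρ ^ (2 * m) := by rw [← pow_add]; ring_nf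
    rw [h2]
    have h3 : ρ ^ (2 * n) ≠ 0 := by positivity
    have h4 : (ρ ^ 2 + ‖ζ - z‖ ^ 2) ^ (n + m) ≠ 0 := by positivity
    field_simp
  rw [h1]
  have hi : Integrable (fun ζ : Ec n => ((1 + ‖ρ⁻¹ • (ζ - z)‖ ^ 2) ^ (n + m))⁻¹) :=
    ((B13_int n m hm).comp_smul (inv_ne_zero hρ.ne')).comp_sub_right z
  refine ⟨hi.const_mul _, ?_⟩
  rw [integral_const_mul]
  have h5 := integral_sub_right_eq_self (μ := (volume : Measure (Ec n)))
    (fun ζ : Ec n => ((1 + ‖ρ⁻¹ • ζ‖ ^ 2) ^ (n + m))⁻¹) z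
  rw [h5]
  have h6 := Measure.integral_comp_inv_smul_of_nonneg (volume : Measure (Ec n))
    (fun ζ : Ec n => ((1 + ‖ζ‖ ^ 2) ^ (n + m))⁻¹) hρ.le
  rw [h6, B13_fin, smul_eq_mul, ← mul_assoc, inv_mul_cancel₀ (by positivity), one_mul]

private lemma B13_nn (n m : ℕ) : 0 ≤ ∫ x : Ec n, ((1 + ‖x‖ ^ 2) ^ (n + m))⁻¹ :=
  integral_nonneg fun x => by positivity

/-- integrals of functions bounded by the frozen kernels -/
private lemma B13_le (hg : Geo U δ h c C) {m : ℕ} (hm : 1 ≤ m) {ρ : ℝ} (hρ : 0 < ρ) (z : Ec n)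
    {f : Ec n → ℝ} {M : ℝ} (hM : 0 ≤ M) (h0 : ∀ ζ ∈ Om U δ, 0 ≤ f ζ)
    (h1 : ∀ ζ ∈ Om U δ, f ζ ≤ M * ((ρ ^ 2) ^ m / (ρ ^ 2 + ‖ζ - z‖ ^ 2) ^ (n + m))) :
    ∫ ζ in Om U δ, f ζ ≤ M * ∫ x : Ec n, ((1 + ‖x‖ ^ 2) ^ (n + m))⁻¹ := by
  have hm1 := (Om_open hg).measurableSet
  obtain ⟨hi, he⟩ := B13_scale n m hm hρ z
  calc ∫ ζ in Om U δ, f ζ
      ≤ ∫ ζ in Om U δ, M * ((ρ ^ 2) ^ m / (ρ ^ 2 + ‖ζ - z‖ ^ 2) ^ (n + m)) :=
        integral_mono_of_nonneg (ae_restrict_of_forall_mem hm1 h0) (hi.const_mul M).integrableOn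
          (ae_restrict_of_forall_mem hm1 h1)
    _ ≤ ∫ ζ, M * ((ρ ^ 2) ^ m / (ρ ^ 2 + ‖ζ - z‖ ^ 2) ^ (n + m)) :=
        setIntegral_le_integral (hi.const_mul M) (ae_of_all _ fun ζ => by positivity)
    _ = _ := by rw [integral_const_mul, he]

private lemma B13_K (hg : Geo U δ h c C) {s : ℝ} (hs : 0 < s) (a b : ℕ) : ∃ K : ℝ, 0 < K ∧
    ∀ ε : ℝ, 0 < ε → ε ≤ 1 → ∀ z ∈ Om U δ, s ≤ δ z → ∀ ζ ∈ Om U δ,
      (ε ^ 2 * δ ζ ^ 2) ^ a / (ε ^ 2 * δ ζ ^ 2 + ‖ζ - z‖ ^ 2) ^ b ≤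
        K * (((ε * δ z) ^ 2) ^ a / ((ε * δ z) ^ 2 + ‖ζ - z‖ ^ 2) ^ b) := by
  obtain ⟨κ, hκ, -, hk⟩ := B13_cmp hg hs
  have hC := hg.C1
  refine ⟨((C / s) ^ 2) ^ a / κ ^ b, by positivity, fun ε hε hε1 z hz hsz ζ hζ => ?_⟩
  have hz2 := hz.2
  exact B13_pt a b (by positivity) (by positivity) (by positivity) hκ
    (B13_num hg hs hsz hζ) (hk ε hε hε1 z hz hsz ζ hζ)

private lemma B13_sq {y D : ℝ} (n a : ℕ) (hy : 0 < y) (hD : 0 ≤ D) :
    D * ((y ^ 2) ^ (a + 1) / (y ^ 2 + D ^ 2) ^ (n + (a + 1))) ≤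
      y * ((y ^ 2) ^ a / (y ^ 2 + D ^ 2) ^ (n + a)) := by
  have h1 : D * y ≤ y ^ 2 + D ^ 2 := by nlinarith [sq_nonneg (D - y), sq_nonneg (D + y)]
  have h2 : 0 < y ^ 2 + D ^ 2 := by positivity
  rw [mul_div_assoc', mul_div_assoc', div_le_div_iff₀ (by positivity) (by positivity)]
  calc D * (y ^ 2) ^ (a + 1) * (y ^ 2 + D ^ 2) ^ (n + a)
      = (y * (y ^ 2) ^ a * (y ^ 2 + D ^ 2) ^ (n + a)) * (D * y) := by ring
    _ ≤ (y * (y ^ 2) ^ a * (y ^ 2 + D ^ 2) ^ (n + a)) * (y ^ 2 + D ^ 2) :=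
        mul_le_mul_of_nonneg_left h1 (by positivity)
    _ = _ := by ring

theorem err_bd (hg : Geo U δ h c C) {s : ℝ} (hs : 0 < s) : ∃ B : ℝ, ∀ ε : ℝ, 0 < ε → ε ≤ 1 →
    ∀ z ∈ Om U δ, s ≤ δ z →
    ∫ ζ in Om U δ, (ε ^ 2 * δ ζ ^ 2) ^ (n + 8) /
      (ε ^ 2 * δ ζ ^ 2 + ‖ζ - z‖ ^ 2) ^ (2 * n + 8) ≤ B := by
  obtain ⟨K, hK, hk⟩ := B13_K hg hs (n + 8) (2 * n + 8)
  refine ⟨K * ∫ x : Ec n, ((1 + ‖x‖ ^ 2) ^ (n + (n + 8)))⁻¹, fun ε hε hε1 z hz hsz => ?_⟩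
  have hρ : 0 < ε * δ z := mul_pos hε hz.2
  refine B13_le hg (by omega) hρ z hK.le (fun ζ hζ => by positivity) fun ζ hζ => ?_
  have := hk ε hε hε1 z hz hsz ζ hζ
  rw [show 2 * n + 8 = n + (n + 8) by ring] at this ⊢
  exact this

theorem err_lim (hg : Geo U δ h c C) {s : ℝ} (hs : 0 < s) : ∃ B : ℝ, ∀ ε : ℝ, 0 < ε → ε ≤ 1 →
    ∀ z ∈ Om U δ, s ≤ δ z →
    ∫ ζ in Om U δ, (‖ζ - z‖ + ε ^ 2 * δ ζ ^ 2) * ((ε ^ 2 * δ ζ ^ 2) ^ (n + 8) /
      (ε ^ 2 * δ ζ ^ 2 + ‖ζ - z‖ ^ 2) ^ (2 * n + 8)) ≤ B * ε := by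
  obtain ⟨K, hK, hk⟩ := B13_K hg hs (n + 8) (2 * n + 8)
  have hC := hg.C1
  set I7 := ∫ x : Ec n, ((1 + ‖x‖ ^ 2) ^ (n + (n + 7)))⁻¹ with hI7
  have h7 : 0 ≤ I7 := B13_nn n (n + 7)
  refine ⟨K * C * (1 + (C / s) ^ 2 * C) * I7, fun ε hε hε1 z hz hsz => ?_⟩
  have hρ : 0 < ε * δ z := mul_pos hε hz.2
  have hρC : ε * δ z ≤ C * ε := by
    have := hg.bδ z hz.1
    nlinarith
  have hρC' : ε * δ z ≤ C := by nlinarith
  have key : ∫ ζ in Om U δ, (‖ζ - z‖ + ε ^ 2 * δ ζ ^ 2) * ((ε ^ 2 * δ ζ ^ 2) ^ (n + 8) /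
      (ε ^ 2 * δ ζ ^ 2 + ‖ζ - z‖ ^ 2) ^ (2 * n + 8)) ≤
      (K * (ε * δ z) * (1 + (C / s) ^ 2 * C)) * I7 := by
    refine B13_le hg (by omega) hρ z (by positivity) (fun ζ hζ => by positivity) fun ζ hζ => ?_
    have h1 := hk ε hε hε1 z hz hsz ζ hζ
    have h2 := B13_num hg hs (ε := ε) hsz hζ
    rw [show 2 * n + 8 = n + ((n + 7) + 1) by ring, show n + 8 = (n + 7) + 1 by ring] at h1 ⊢
    set y := ε * δ z with hy
    set D := ‖ζ - z‖ with hD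
    have hD0 : 0 ≤ D := norm_nonneg _
    have h3 := B13_sq (D := D) n (n + 7) hρ hD0
    have h4 : (y ^ 2) ^ (n + 7 + 1) / (y ^ 2 + D ^ 2) ^ (n + (n + 7 + 1)) ≤
        (y ^ 2) ^ (n + 7) / (y ^ 2 + D ^ 2) ^ (n + (n + 7)) := by
      rw [div_le_div_iff₀ (by positivity) (by positivity)]
      calc (y ^ 2) ^ (n + 7 + 1) * (y ^ 2 + D ^ 2) ^ (n + (n + 7))
          = ((y ^ 2) ^ (n + 7) * (y ^ 2 + D ^ 2) ^ (n + (n + 7))) * y ^ 2 := by ring
        _ ≤ ((y ^ 2) ^ (n + 7) * (y ^ 2 + D ^ 2) ^ (n + (n + 7))) * (y ^ 2 + D ^ 2) :=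
            mul_le_mul_of_nonneg_left (by nlinarith [sq_nonneg D]) (by positivity)
        _ = _ := by ring
    set q1 := (y ^ 2) ^ (n + 7 + 1) / (y ^ 2 + D ^ 2) ^ (n + (n + 7 + 1)) with hq1
    set q0 := (y ^ 2) ^ (n + 7) / (y ^ 2 + D ^ 2) ^ (n + (n + 7)) with hq0
    have q10 : 0 ≤ q1 := by positivity
    have q00 : 0 ≤ q0 := by positivity
    calc (D + ε ^ 2 * δ ζ ^ 2) * ((ε ^ 2 * δ ζ ^ 2) ^ (n + 7 + 1) /
          (ε ^ 2 * δ ζ ^ 2 + D ^ 2) ^ (n + (n + 7 + 1)))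
        ≤ (D + (C / s) ^ 2 * y ^ 2) * (K * q1) := by
          refine mul_le_mul (by linarith) h1 (by positivity) (by positivity)
      _ = K * (D * q1) + K * (C / s) ^ 2 * y * (y * q1) := by ring
      _ ≤ K * (y * q0) + K * (C / s) ^ 2 * y * (C * q0) := by
          refine add_le_add (mul_le_mul_of_nonneg_left h3 hK.le)
            (mul_le_mul_of_nonneg_left (mul_le_mul hρC' h4 q10 (by linarith)) (by positivity))
      _ = K * y * (1 + (C / s) ^ 2 * C) * q0 := by ring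
  refine key.trans ?_
  calc (K * (ε * δ z) * (1 + (C / s) ^ 2 * C)) * I7
      ≤ (K * (C * ε) * (1 + (C / s) ^ 2 * C)) * I7 := by
        refine mul_le_mul_of_nonneg_right (mul_le_mul_of_nonneg_right
          (mul_le_mul_of_nonneg_left hρC hK.le) (by positivity)) h7
    _ = _ := by ring

/-- the difference of the kernel and the frozen kernel -/
private lemma B13_diff {x y D d K K2 κ : ℝ} (a b : ℕ) (hx : 0 ≤ x) (hy : 0 < y)
    (hD : 0 ≤ D) (hd : 0 ≤ d) (hκ : 0 < κ) (hK : 1 ≤ K) (hK2 : 0 ≤ K2) (h1 : x ≤ K * y)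
    (h2 : κ * (y + D) ≤ x + D) (h3 : |x - y| ≤ K2 * y * d) :
    |x ^ (a + 1) / (x + D) ^ (b + 1) - y ^ (a + 1) / (y + D) ^ (b + 1)| ≤
      (((a + 1 : ℕ) : ℝ) * K2 * K ^ a / κ ^ (b + 1) + ((b + 1 : ℕ) : ℝ) * K2 * K ^ b / κ ^ (b + 1)) *
        (d * (y ^ (a + 1) / (y + D) ^ (b + 1))) := by
  have hyD : 0 < y + D := by linarith
  have hxD : 0 < x + D := lt_of_lt_of_le (mul_pos hκ hyD) h2
  have hK0 : 0 < K := by linarith
  have e1 : |x ^ (a + 1) - y ^ (a + 1)| ≤ (K2 * y * d) * ((a + 1 : ℕ) : ℝ) * (K * y) ^ a := by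
    have := abs_pow_sub_pow_le (a := x) (b := y) (n := a + 1)
    refine this.trans ?_
    rw [Nat.add_sub_cancel]
    have hmax : max |x| |y| ≤ K * y := by
      rw [abs_of_nonneg hx, abs_of_pos hy]
      exact max_le h1 (by nlinarith)
    exact mul_le_mul (mul_le_mul_of_nonneg_right h3 (by positivity))
      (pow_le_pow_left₀ (le_max_of_le_left (abs_nonneg x)) hmax a) (by positivity) (by positivity)
  have e2 : |(y + D) ^ (b + 1) - (x + D) ^ (b + 1)| ≤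
      (K2 * y * d) * ((b + 1 : ℕ) : ℝ) * (K * (y + D)) ^ b := by
    have := abs_pow_sub_pow_le (a := y + D) (b := x + D) (n := b + 1)
    refine this.trans ?_
    rw [Nat.add_sub_cancel]
    have hmax : max |y + D| |x + D| ≤ K * (y + D) := by
      rw [abs_of_pos hxD, abs_of_pos hyD]
      exact max_le (by nlinarith) (by nlinarith)
    have h4 : |y + D - (x + D)| ≤ K2 * y * d := by
      rw [show y + D - (x + D) = -(x - y) by ring, abs_neg]; exact h3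
    exact mul_le_mul (mul_le_mul_of_nonneg_right h4 (by positivity))
      (pow_le_pow_left₀ (le_max_of_le_left (abs_nonneg _)) hmax b) (by positivity) (by positivity)
  have e3 : κ ^ (b + 1) * (y + D) ^ (b + 1) ≤ (x + D) ^ (b + 1) := by
    rw [← mul_pow]; exact pow_le_pow_left₀ (by positivity) h2 _
  have e4 : x ^ (a + 1) / (x + D) ^ (b + 1) - y ^ (a + 1) / (y + D) ^ (b + 1) =
      (x ^ (a + 1) - y ^ (a + 1)) / (x + D) ^ (b + 1) +
        y ^ (a + 1) * ((y + D) ^ (b + 1) - (x + D) ^ (b + 1)) /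
          ((x + D) ^ (b + 1) * (y + D) ^ (b + 1)) := by
    field_simp
    ring
  rw [e4]
  refine (abs_add_le _ _).trans ?_
  rw [abs_div, abs_div, abs_mul, abs_of_pos (pow_pos hxD (b + 1)),
    abs_of_pos (mul_pos (pow_pos hxD (b + 1)) (pow_pos hyD (b + 1))),
    abs_of_pos (pow_pos hy (a + 1)), add_mul]
  refine add_le_add ?_ ?_
  · calc |x ^ (a + 1) - y ^ (a + 1)| / (x + D) ^ (b + 1)
        ≤ ((K2 * y * d) * ((a + 1 : ℕ) : ℝ) * (K * y) ^ a) / (κ ^ (b + 1) * (y + D) ^ (b + 1)) :=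
          div_le_div₀ (by positivity) e1 (by positivity) e3
      _ = _ := by
          rw [mul_pow]
          field_simp
          ring
  · calc y ^ (a + 1) * |(y + D) ^ (b + 1) - (x + D) ^ (b + 1)| /
          ((x + D) ^ (b + 1) * (y + D) ^ (b + 1))
        ≤ (y ^ (a + 1) * ((K2 * (y + D) * d) * ((b + 1 : ℕ) : ℝ) * (K * (y + D)) ^ b)) /
          ((κ ^ (b + 1) * (y + D) ^ (b + 1)) * (y + D) ^ (b + 1)) := by
          refine div_le_div₀ (by positivity) (mul_le_mul_of_nonneg_left (e2.trans ?_)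
            (by positivity)) (by positivity) (mul_le_mul_of_nonneg_right e3 (by positivity))
          have : K2 * y * d ≤ K2 * (y + D) * d :=
            mul_le_mul_of_nonneg_right (mul_le_mul_of_nonneg_left (by linarith) hK2) hd
          exact mul_le_mul_of_nonneg_right (mul_le_mul_of_nonneg_right this (by positivity))
            (by positivity)
      _ = _ := by
          rw [mul_pow]
          field_simp
          ring

private lemma B13_kdiff (hg : Geo U δ h c C) {s : ℝ} (hs : 0 < s) : ∃ K : ℝ, 0 < K ∧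
    ∀ ε : ℝ, 0 < ε → ε ≤ 1 → ∀ z ∈ Om U δ, s ≤ δ z → ∀ ζ ∈ Om U δ,
      |(ε ^ 2 * δ ζ ^ 2) ^ (n + 9) / (ε ^ 2 * δ ζ ^ 2 + ‖ζ - z‖ ^ 2) ^ (2 * n + 9) -
        ((ε * δ z) ^ 2) ^ (n + 9) / ((ε * δ z) ^ 2 + ‖ζ - z‖ ^ 2) ^ (2 * n + 9)| ≤
      K * ε * (((ε * δ z) ^ 2) ^ (n + 8) / ((ε * δ z) ^ 2 + ‖ζ - z‖ ^ 2) ^ (n + (n + 8))) := by
  obtain ⟨κ, hκ, -, hk⟩ := B13_cmp hg hs
  obtain ⟨L, hL, hlip⟩ := δ_lip n c C
  have hC := hg.C1
  set K := max 1 ((C / s) ^ 2) with hK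
  have hK1 : 1 ≤ K := le_max_left _ _
  set K2 := 2 * C * L / s ^ 2 with hK2
  have hK20 : 0 ≤ K2 := by positivity
  set K3 := ((n + 8 + 1 : ℕ) : ℝ) * K2 * K ^ (n + 8) / κ ^ (2 * n + 8 + 1) +
    ((2 * n + 8 + 1 : ℕ) : ℝ) * K2 * K ^ (2 * n + 8) / κ ^ (2 * n + 8 + 1) with hK3
  have hK30 : 0 ≤ K3 := by positivity
  refine ⟨K3 * C + 1, by positivity, fun ε hε hε1 z hz hsz ζ hζ => ?_⟩
  have hz2 := hz.2
  have hζ2 := hζ.2
  have hρ : 0 < ε * δ z := mul_pos hε hz2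
  have h1 : ε ^ 2 * δ ζ ^ 2 ≤ K * (ε * δ z) ^ 2 :=
    (B13_num hg hs hsz hζ).trans (mul_le_mul_of_nonneg_right (le_max_right _ _) (by positivity))
  have h2 := hk ε hε hε1 z hz hsz ζ hζ
  have h3 : |ε ^ 2 * δ ζ ^ 2 - (ε * δ z) ^ 2| ≤ K2 * (ε * δ z) ^ 2 * ‖ζ - z‖ := by
    have e1 : ε ^ 2 * δ ζ ^ 2 - (ε * δ z) ^ 2 = ε ^ 2 * (δ ζ + δ z) * (δ ζ - δ z) := by ring
    rw [e1, abs_mul, abs_of_pos (by positivity)]
    have e2 := hlip U δ h hg z hz ζ hζ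
    have e3 : δ ζ + δ z ≤ 2 * C := by linarith [hg.bδ z hz.1, hg.bδ ζ hζ.1]
    have e4 : ε ^ 2 ≤ (ε * δ z) ^ 2 / s ^ 2 := by
      rw [le_div_iff₀ (by positivity), mul_pow]
      exact mul_le_mul_of_nonneg_left (pow_le_pow_left₀ hs.le hsz 2) (by positivity)
    calc ε ^ 2 * (δ ζ + δ z) * |δ ζ - δ z|
        ≤ ((ε * δ z) ^ 2 / s ^ 2) * (2 * C) * (L * ‖ζ - z‖) := by
          refine mul_le_mul (mul_le_mul e4 e3 (by positivity) (by positivity)) e2 (abs_nonneg _)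
            (by positivity)
      _ = K2 * (ε * δ z) ^ 2 * ‖ζ - z‖ := by rw [hK2]; ring
  have h4 := B13_diff (n + 8) (2 * n + 8) (by positivity : 0 ≤ ε ^ 2 * δ ζ ^ 2)
    (by positivity : 0 < (ε * δ z) ^ 2) (by positivity : 0 ≤ ‖ζ - z‖ ^ 2) (norm_nonneg (ζ - z))
    hκ hK1 hK20 h1 h2 h3
  refine h4.trans ?_
  have h5 := B13_sq (D := ‖ζ - z‖) n (n + 8) hρ (norm_nonneg _)
  rw [show n + (n + 8 + 1) = 2 * n + 8 + 1 by ring] at h5
  calc K3 * (‖ζ - z‖ * (((ε * δ z) ^ 2) ^ (n + 8 + 1) /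
        ((ε * δ z) ^ 2 + ‖ζ - z‖ ^ 2) ^ (2 * n + 8 + 1)))
      ≤ K3 * (ε * δ z * (((ε * δ z) ^ 2) ^ (n + 8) /
        ((ε * δ z) ^ 2 + ‖ζ - z‖ ^ 2) ^ (n + (n + 8)))) := mul_le_mul_of_nonneg_left h5 hK30
    _ = (K3 * (ε * δ z)) * (((ε * δ z) ^ 2) ^ (n + 8) /
        ((ε * δ z) ^ 2 + ‖ζ - z‖ ^ 2) ^ (n + (n + 8))) := by ring
    _ ≤ _ := by
        refine mul_le_mul_of_nonneg_right ?_ (by positivity)
        have : ε * δ z ≤ C * ε := by nlinarith [hg.bδ z hz.1]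
        nlinarith [mul_le_mul_of_nonneg_left this hK30]

private lemma B13_sub (U : Set (Ec n)) (δ : Ec n → ℝ) : Om U δ ⊆ Kc U δ := fun _ hz =>
  ⟨hz.1, hz.2.le⟩

private lemma B13_δc (hg : Geo U δ h c C) : ContinuousOn δ (Kc U δ) :=
  (hg.dδ.continuousOn).mono fun _ hz => hz.1

private lemma B13_den (hg : Geo U δ h c C) {ε : ℝ} (hε : 0 < ε) {z ζ : Ec n} (hz : z ∈ Om U δ)
    (hζ : ζ ∈ Kc U δ) : 0 < ε ^ 2 * δ ζ ^ 2 + ‖ζ - z‖ ^ 2 := by
  by_cases h1 : ζ = z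
  · subst h1
    have := hz.2
    positivity
  · have : 0 < ‖ζ - z‖ := norm_pos_iff.2 (sub_ne_zero.2 h1)
    positivity

private lemma B13_kc (hg : Geo U δ h c C) {ε : ℝ} (hε : 0 < ε) {z : Ec n} (hz : z ∈ Om U δ)
    (a b : ℕ) : ContinuousOn (fun ζ => (ε ^ 2 * δ ζ ^ 2) ^ a /
      (ε ^ 2 * δ ζ ^ 2 + ‖ζ - z‖ ^ 2) ^ b) (Kc U δ) := by
  have h1 := B13_δc hg
  refine ContinuousOn.div ?_ ?_ fun ζ hζ => (pow_pos (B13_den hg hε hz hζ) b).ne'
  · exact ((continuousOn_const.mul (h1.pow 2)).pow a)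
  · exact ((continuousOn_const.mul (h1.pow 2)).add (by fun_prop)).pow b

private lemma B13_io (hg : Geo U δ h c C) {W : Type*} [NormedAddCommGroup W] {f : Ec n → W}
    (hf : ContinuousOn f (Kc U δ)) : IntegrableOn f (Om U δ) :=
  (hf.integrableOn_compact hg.cpt).mono_set (B13_sub U δ)

private lemma B13_bdd (hg : Geo U δ h c C) {W : Type*} [NormedAddCommGroup W] {f : Ec n → W}
    (hf : ContinuousOn f (Kc U δ)) : ∃ G : ℝ, 0 < G ∧ ∀ ζ ∈ Kc U δ, ‖f ζ‖ ≤ G := by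
  obtain ⟨G, hG⟩ := hg.cpt.exists_bound_of_continuousOn hf
  exact ⟨max G 1, by positivity, fun ζ hζ => (hG ζ hζ).trans (le_max_left _ _)⟩

/-- The main term. -/
theorem main_lim (hg : Geo U δ h c C) {W : Set (Ec n)} (hK : Kc U δ ⊆ W) {g : Ec n → V}
    (hgc : ContinuousOn g W) {s : ℝ} (hs : 0 < s) {e : ℝ} (he : 0 < e) :
    ∃ ε₀ : ℝ, 0 < ε₀ ∧ ε₀ ≤ 1 ∧ ∀ ε : ℝ, 0 < ε → ε ≤ ε₀ → ∀ z ∈ Om U δ, s ≤ δ z →
      ‖((cst n : ℂ)⁻¹) • (∫ ζ in Om U δ, (((ε ^ 2 * δ ζ ^ 2) ^ (n + 9) /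
        (ε ^ 2 * δ ζ ^ 2 + ‖ζ - z‖ ^ 2) ^ (2 * n + 9) : ℝ) : ℂ) • g ζ) - g z‖ ≤ e := by
  have hC := hg.C1
  have hc := hg.c0
  have hcst := cst_pos n
  have hgK : ContinuousOn g (Kc U δ) := hgc.mono hK
  obtain ⟨G, hG, hGb⟩ := B13_bdd hg hgK
  obtain ⟨K, hK0, hkd⟩ := B13_kdiff (n := n) hg hs
  set I8 := ∫ x : Ec n, ((1 + ‖x‖ ^ 2) ^ (n + (n + 8)))⁻¹ with hI8
  have h8 : 0 ≤ I8 := B13_nn n (n + 8)
  set e' := e * cst n / (2 * (cst n + 3 * G)) with he'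
  have he'0 : 0 < e' := by positivity
  obtain ⟨r1, hr1, hun⟩ := Metric.uniformContinuousOn_iff.1
    (hg.cpt.uniformContinuousOn_of_continuous hgK) e' he'0
  obtain ⟨R, hR, htail⟩ := int_tail n e' he'0
  set r := min (min c r1) (s / (2 * n * C + 1)) with hr
  have hr0 : 0 < r := by positivity
  have hrc : r ≤ c := (min_le_left _ _).trans (min_le_left _ _)
  have hrr : r ≤ r1 := (min_le_left _ _).trans (min_le_right _ _)
  have hrs : r ≤ s / (2 * n * C + 1) := min_le_right _ _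
  set ε₀ := min (min 1 (r / (R * C))) (e * cst n / (2 * (G * K * I8 + 1))) with hε₀
  refine ⟨ε₀, by positivity, (min_le_left _ _).trans (min_le_left _ _),
    fun ε hε hεle z hz hsz => ?_⟩
  have hε1 : ε ≤ 1 := hεle.trans ((min_le_left _ _).trans (min_le_left _ _))
  have hε2 : ε ≤ r / (R * C) := hεle.trans ((min_le_left _ _).trans (min_le_right _ _))
  have hε3 : ε ≤ e * cst n / (2 * (G * K * I8 + 1)) := hεle.trans (min_le_right _ _)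
  have hz2 := hz.2
  set ρ := ε * δ z with hρd
  have hρ : 0 < ρ := mul_pos hε hz2
  -- the ball
  have hball : ∀ ζ : Ec n, ‖ζ - z‖ < r → ζ ∈ Om U δ := by
    intro ζ hζ
    have h1 := B13_lip_ball hg hz (hζ.trans_le hrc)
    have h2 : ζ ∈ U := hg.nb z hz.1 hz.2 (by rw [mem_ball, dist_eq_norm]; exact hζ.trans_le hrc)
    refine ⟨h2, ?_⟩
    have h3 : (2 * n * C) * ‖ζ - z‖ < s := by
      have h4 : ‖ζ - z‖ < s / (2 * n * C + 1) := hζ.trans_le hrs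
      rw [lt_div_iff₀ (by positivity)] at h4
      nlinarith [norm_nonneg (ζ - z)]
    linarith [(abs_le.1 h1).1]
  have htl := htail (ρ ^ 2) r z (by positivity) (by
    rw [Real.sqrt_sq hρ.le]
    calc R * ρ ≤ R * (r / (R * C) * C) := by
          refine mul_le_mul_of_nonneg_left ?_ hR.le
          exact mul_le_mul hε2 (hg.bδ z hz.1) hz2.le (by positivity)
      _ = r := by field_simp)
  have hfull := int_scale (n := n) (show 0 < ρ ^ 2 by positivity) z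
  obtain ⟨hi, -⟩ := B13_scale n (n + 9) (by omega) hρ z
  rw [show n + (n + 9) = 2 * n + 9 by ring] at hi
  set k0 : Ec n → ℝ := fun ζ => (ρ ^ 2) ^ (n + 9) / (ρ ^ 2 + ‖ζ - z‖ ^ 2) ^ (2 * n + 9) with hk0
  set k : Ec n → ℝ := fun ζ => (ε ^ 2 * δ ζ ^ 2) ^ (n + 9) /
        (ε ^ 2 * δ ζ ^ 2 + ‖ζ - z‖ ^ 2) ^ (2 * n + 9) with hk
  have hk0n : ∀ ζ, 0 ≤ k0 ζ := fun ζ => by simp only [hk0]; positivity
  have hOm := (Om_open hg).measurableSet
  have hk0c : Continuous k0 := by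
    refine Continuous.div (by fun_prop) (by fun_prop) fun ζ => ?_
    positivity
  have hkc : ContinuousOn k (Kc U δ) := B13_kc hg hε hz (n + 9) (2 * n + 9)
  -- integrals
  have hkg : IntegrableOn (fun ζ => (k ζ : ℂ) • g ζ) (Om U δ) :=
    B13_io hg ((Complex.continuous_ofReal.comp_continuousOn hkc).smul hgK)
  have hk0g : IntegrableOn (fun ζ => (k0 ζ : ℂ) • g ζ) (Om U δ) :=
    B13_io hg ((Complex.continuous_ofReal.comp_continuousOn hk0c.continuousOn).smul hgK)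
  have hk0z : IntegrableOn (fun ζ => (k0 ζ : ℂ) • g z) (Om U δ) :=
    B13_io hg ((Complex.continuous_ofReal.comp_continuousOn hk0c.continuousOn).smul
      continuousOn_const)
  have hcompl : ∫ ζ in (Om U δ)ᶜ, k0 ζ ≤ e' := by
    refine le_trans (setIntegral_mono_set hi.integrableOn (ae_of_all _ fun ζ => hk0n ζ) ?_) htl
    refine LE.le.eventuallyLE fun ζ hζ => ?_
    simp only [mem_compl_iff, mem_ball, dist_eq_norm] at hζ ⊢
    exact fun h' => hζ (hball ζ h')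
  have hsplit : ∫ ζ in Om U δ, k0 ζ = cst n - ∫ ζ in (Om U δ)ᶜ, k0 ζ := by
    have := integral_add_compl hOm hi
    rw [← hfull]
    linarith
  -- three terms
  have t1 : ‖∫ ζ in Om U δ, ((k ζ : ℂ) • g ζ - (k0 ζ : ℂ) • g ζ)‖ ≤ G * K * I8 * ε := by
    have a1 : ∀ ζ ∈ Om U δ, ‖(k ζ : ℂ) • g ζ - (k0 ζ : ℂ) • g ζ‖ ≤
        (G * (K * ε)) * ((ρ ^ 2) ^ (n + 8) / (ρ ^ 2 + ‖ζ - z‖ ^ 2) ^ (n + (n + 8))) := by
      intro ζ hζ
      rw [← sub_smul, norm_smul, ← Complex.ofReal_sub, Complex.norm_real, Real.norm_eq_abs]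
      have b1 := hkd ε hε hε1 z hz hsz ζ hζ
      have b2 := hGb ζ (B13_sub U δ hζ)
      calc |k ζ - k0 ζ| * ‖g ζ‖ ≤ (K * ε * ((ρ ^ 2) ^ (n + 8) /
            (ρ ^ 2 + ‖ζ - z‖ ^ 2) ^ (n + (n + 8)))) * G :=
            mul_le_mul b1 b2 (norm_nonneg _) (by positivity)
        _ = _ := by ring
    refine (norm_integral_le_integral_norm _).trans ?_
    refine (B13_le hg (by omega) hρ z (by positivity) (fun ζ _ => norm_nonneg _) a1).trans ?_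
    rw [← hI8]
    exact le_of_eq (by ring)
  have t2 : ‖∫ ζ in Om U δ, ((k0 ζ : ℂ) • g ζ - (k0 ζ : ℂ) • g z)‖ ≤ e' * cst n + 2 * G * e' := by
    have a1 : ∀ ζ ∈ Om U δ, ‖(k0 ζ : ℂ) • g ζ - (k0 ζ : ℂ) • g z‖ ≤
        e' * k0 ζ + (ball z r)ᶜ.indicator (fun ζ => 2 * G * k0 ζ) ζ := by
      intro ζ hζ
      rw [← smul_sub, norm_smul, Complex.norm_real, Real.norm_of_nonneg (hk0n ζ)]
      by_cases hζr : ζ ∈ ball z r
      · rw [indicator_of_notMem (by simpa using hζr), add_zero]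
        have b1 := hun ζ (B13_sub U δ hζ) z (B13_sub U δ hz) (by
          rw [mem_ball] at hζr; exact hζr.trans_le hrr)
        rw [dist_eq_norm] at b1
        calc k0 ζ * ‖g ζ - g z‖ ≤ k0 ζ * e' := mul_le_mul_of_nonneg_left b1.le (hk0n ζ)
          _ = _ := mul_comm _ _
      · rw [indicator_of_mem (by simpa using hζr)]
        have b1 : ‖g ζ - g z‖ ≤ 2 * G := by
          refine (norm_sub_le _ _).trans ?_
          linarith [hGb ζ (B13_sub U δ hζ), hGb z (B13_sub U δ hz)]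
        have b2 : 0 ≤ e' * k0 ζ := mul_nonneg he'0.le (hk0n ζ)
        calc k0 ζ * ‖g ζ - g z‖ ≤ k0 ζ * (2 * G) := mul_le_mul_of_nonneg_left b1 (hk0n ζ)
          _ ≤ _ := by linarith [mul_comm (k0 ζ) (2 * G)]
    have hbm : MeasurableSet (ball z r)ᶜ := measurableSet_ball.compl
    have hi2 : Integrable ((ball z r)ᶜ.indicator (fun ζ => 2 * G * k0 ζ)) :=
      (hi.const_mul _).indicator hbm
    have hi3 : Integrable (fun ζ => e' * k0 ζ +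
        (ball z r)ᶜ.indicator (fun ζ => 2 * G * k0 ζ) ζ) := (hi.const_mul _).add hi2
    refine (norm_integral_le_integral_norm _).trans ?_
    calc ∫ ζ in Om U δ, ‖(k0 ζ : ℂ) • g ζ - (k0 ζ : ℂ) • g z‖
        ≤ ∫ ζ in Om U δ, (e' * k0 ζ + (ball z r)ᶜ.indicator (fun ζ => 2 * G * k0 ζ) ζ) :=
          integral_mono_of_nonneg (ae_of_all _ fun ζ => norm_nonneg _) hi3.integrableOn
            (ae_restrict_of_forall_mem hOm a1)
      _ ≤ ∫ ζ, (e' * k0 ζ + (ball z r)ᶜ.indicator (fun ζ => 2 * G * k0 ζ) ζ) := by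
          refine setIntegral_le_integral hi3 (ae_of_all _ fun ζ => ?_)
          have b2 : 0 ≤ e' * k0 ζ := mul_nonneg he'0.le (hk0n ζ)
          have b3 : 0 ≤ (ball z r)ᶜ.indicator (fun ζ => 2 * G * k0 ζ) ζ :=
            indicator_nonneg (fun x _ => mul_nonneg (by positivity) (hk0n x)) ζ
          exact add_nonneg b2 b3
      _ = e' * cst n + 2 * G * ∫ ζ in (ball z r)ᶜ, k0 ζ := by
          rw [integral_add (hi.const_mul _) hi2, integral_const_mul, integral_indicator hbm,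
            integral_const_mul, hfull]
      _ ≤ _ := by
          have := mul_le_mul_of_nonneg_left htl (show 0 ≤ 2 * G by positivity)
          linarith
  have t3 : ‖(((∫ ζ in Om U δ, k0 ζ) - cst n : ℝ) : ℂ) • g z‖ ≤ G * e' := by
    rw [norm_smul, Complex.norm_real, hsplit, Real.norm_eq_abs]
    have a1 : 0 ≤ ∫ ζ in (Om U δ)ᶜ, k0 ζ := integral_nonneg hk0n
    rw [show cst n - (∫ ζ in (Om U δ)ᶜ, k0 ζ) - cst n = -∫ ζ in (Om U δ)ᶜ, k0 ζ by ring, abs_neg,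
      abs_of_nonneg a1, mul_comm]
    exact mul_le_mul (hGb z (B13_sub U δ hz)) hcompl a1 hG.le
  have hsum : (∫ ζ in Om U δ, (k ζ : ℂ) • g ζ) - (cst n : ℂ) • g z =
      (∫ ζ in Om U δ, ((k ζ : ℂ) • g ζ - (k0 ζ : ℂ) • g ζ)) +
      (∫ ζ in Om U δ, ((k0 ζ : ℂ) • g ζ - (k0 ζ : ℂ) • g z)) +
      (((∫ ζ in Om U δ, k0 ζ) - cst n : ℝ) : ℂ) • g z := by
    rw [integral_sub hkg hk0g, integral_sub hk0g hk0z, integral_smul_const, integral_complex_ofReal,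
      Complex.ofReal_sub, sub_smul]
    abel
  have hfin : ‖(∫ ζ in Om U δ, (k ζ : ℂ) • g ζ) - (cst n : ℂ) • g z‖ ≤ e * cst n := by
    rw [hsum]
    refine (norm_add₃_le).trans ?_
    have f1 : G * K * I8 * ε ≤ e * cst n / 2 := by
      have f2 : (G * K * I8 + 1) * ε ≤ e * cst n / 2 := by
        calc (G * K * I8 + 1) * ε ≤ (G * K * I8 + 1) * (e * cst n / (2 * (G * K * I8 + 1))) :=
              mul_le_mul_of_nonneg_left hε3 (by positivity)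
          _ = _ := by field_simp
      nlinarith
    have f3 : e' * cst n + 2 * G * e' + G * e' = e * cst n / 2 := by
      rw [he']; field_simp; ring
    linarith
  have hcne : (cst n : ℂ) ≠ 0 := by exact_mod_cast hcst.ne'
  have hlast : ((cst n : ℂ)⁻¹) • (∫ ζ in Om U δ, (k ζ : ℂ) • g ζ) - g z =
      ((cst n : ℂ)⁻¹) • ((∫ ζ in Om U δ, (k ζ : ℂ) • g ζ) - (cst n : ℂ) • g z) := by
    rw [smul_sub, smul_smul, inv_mul_cancel₀ hcne, one_smul]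
  rw [hlast, norm_smul, norm_inv, Complex.norm_real, Real.norm_of_nonneg hcst.le]
  rw [inv_mul_le_iff₀ hcst, mul_comm]
  exact hfin

private lemma B13_fam {ι : Type*} [Fintype ι] {p : ι → ℝ → Prop}
    (H : ∀ i, ∃ ε₀ : ℝ, 0 < ε₀ ∧ ε₀ ≤ 1 ∧ ∀ ε, 0 < ε → ε ≤ ε₀ → p i ε) :
    ∃ ε₀ : ℝ, 0 < ε₀ ∧ ε₀ ≤ 1 ∧ ∀ ε, 0 < ε → ε ≤ ε₀ → ∀ i, p i ε := by
  choose f hf hf1 hp using H
  have hs : 0 ≤ ∑ i, (f i)⁻¹ := Finset.sum_nonneg fun i _ => (inv_pos.2 (hf i)).le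
  refine ⟨(1 + ∑ i, (f i)⁻¹)⁻¹, by positivity, ?_, fun ε h0 h1 i => hp i ε h0 (h1.trans ?_)⟩
  · rw [inv_le_one_iff₀]; right; linarith
  · rw [inv_le_comm₀ (by positivity) (hf i)]
    have : (f i)⁻¹ ≤ ∑ i, (f i)⁻¹ :=
      Finset.single_le_sum (f := fun i => (f i)⁻¹) (fun j _ => (inv_pos.2 (hf j)).le)
        (Finset.mem_univ i)
    linarith

private lemma B13_Kr0c (hg : Geo U δ h c C) {ε : ℝ} (hε : 0 < ε) {z : Ec n} (hz : z ∈ Om U δ)
    {q : ℕ} (I : Fin q → Fin n) (Y : Fin q → Ec n) :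
    ContinuousOn (fun ζ => Kr0 δ h ε I Y 0 z ζ) (Kc U δ) := by
  have h1 := (Kr0_c1 hg ε I Y).continuousOn
  have h2 : ContinuousOn (fun ζ : Ec n => ((z, (0 : ℝ), ζ) : Tn n)) (Kc U δ) :=
    continuousOn_const.prodMk (continuousOn_const.prodMk continuousOn_id)
  have h3 : MapsTo (fun ζ : Ec n => ((z, (0 : ℝ), ζ) : Tn n)) (Kc U δ) (Tset U δ h ε) :=
    fun ζ hζ => Tset_mem hg hε (left_mem_Icc.2 zero_le_one) hz hζ
  have h4 := h1.comp h2 h3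
  exact h4

private lemma B13_err1 (hg : Geo U δ h c C) (q : ℕ) : ∃ C' : ℝ, 0 < C' ∧ ∀ (ε : ℝ), 0 < ε →
    ε ≤ 1 → ∀ (I J : Fin q → Fin n), ∀ z ∈ Om U δ, ∀ ζ ∈ Om U δ,
    ‖Kr0 δ h ε I (fun i => ee (J i)) 0 z ζ - ((-1) ^ (n + q) * Matrix.det (fun i j : Fin q =>
        (starRingEnd ℂ) ((ee (J i) : Ec n) (I j)))) *
          ((ε ^ 2 * δ ζ ^ 2) ^ (n + 9) / (ε ^ 2 * δ ζ ^ 2 + ‖ζ - z‖ ^ 2) ^ (2 * n + 9) : ℝ)‖ ≤
      C' * ε * ((ε ^ 2 * δ ζ ^ 2) ^ (n + 8) /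
        (ε ^ 2 * δ ζ ^ 2 + ‖ζ - z‖ ^ 2) ^ (2 * n + 8)) := by
  obtain ⟨C', hC', H⟩ := Kr0_zero_est n c C q
  refine ⟨C', hC', fun ε hε hε1 I J z hz ζ hζ => (H U δ h hg ε hε hε1 I J z hz ζ hζ).trans ?_⟩
  have hζ2 := hζ.2
  have hden : 0 < ε ^ 2 * δ ζ ^ 2 + ‖ζ - z‖ ^ 2 := by positivity
  have h1 : ‖ζ - z‖ * ε ^ 2 * δ ζ ≤ ε * (ε ^ 2 * δ ζ ^ 2 + ‖ζ - z‖ ^ 2) := by
    have : ‖ζ - z‖ * (ε * δ ζ) ≤ ε ^ 2 * δ ζ ^ 2 + ‖ζ - z‖ ^ 2 := by
      nlinarith [sq_nonneg (‖ζ - z‖ - ε * δ ζ), sq_nonneg (‖ζ - z‖ + ε * δ ζ)]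
    calc ‖ζ - z‖ * ε ^ 2 * δ ζ = ε * (‖ζ - z‖ * (ε * δ ζ)) := by ring
      _ ≤ _ := mul_le_mul_of_nonneg_left this hε.le
  calc C' * (‖ζ - z‖ * ε ^ 2 * δ ζ) * ((ε ^ 2 * δ ζ ^ 2) ^ (n + 8) /
        (ε ^ 2 * δ ζ ^ 2 + ‖ζ - z‖ ^ 2) ^ (2 * n + 9))
      ≤ C' * (ε * (ε ^ 2 * δ ζ ^ 2 + ‖ζ - z‖ ^ 2)) * ((ε ^ 2 * δ ζ ^ 2) ^ (n + 8) /
        (ε ^ 2 * δ ζ ^ 2 + ‖ζ - z‖ ^ 2) ^ (2 * n + 9)) :=
        mul_le_mul_of_nonneg_right (mul_le_mul_of_nonneg_left h1 hC'.le) (by positivity)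
    _ = _ := by
        rw [show 2 * n + 9 = (2 * n + 8) + 1 by ring, pow_succ (_ + _)]
        field_simp

/-- The approximate identity converges, uniformly on the sets `{δ ≥ s}`. -/
theorem Rop_lim (hg : Geo U δ h c C) {W : Set (Ec n)} (hK : Kc U δ ⊆ W) {q : ℕ} {η : Fm n q V}
    (hη : ∀ I, ContinuousOn (η I) W) (hA : AltF η) {s : ℝ} (hs : 0 < s) {e : ℝ} (he : 0 < e) :
    ∃ ε₀ : ℝ, 0 < ε₀ ∧ ε₀ ≤ 1 ∧ ∀ ε : ℝ, 0 < ε → ε ≤ ε₀ → ∀ J : Fin q → Fin n,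
      ∀ z ∈ Om U δ, s ≤ δ z → ‖Rop U δ h ε η J z - η J z‖ ≤ e := by
  have hcst := cst_pos n
  obtain ⟨ε₁, hε₁, hε₁1, H1⟩ := B13_fam (ι := Fin q → Fin n)
    (fun J => main_lim hg hK (hη J) hs (half_pos he))
  obtain ⟨C', hC', H2⟩ := B13_err1 (n := n) hg q
  obtain ⟨B, hB⟩ := err_bd hg hs
  have hG : ∀ I, ∃ G : ℝ, 0 < G ∧ ∀ ζ ∈ Kc U δ, ‖η I ζ‖ ≤ G := fun I =>
    B13_bdd hg ((hη I).mono hK)
  choose G hG0 hGb using hG
  set M := (cst n)⁻¹ * ∑ I : Fin q → Fin n, C' * G I * |B| with hM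
  have hM0 : 0 ≤ M := by
    refine mul_nonneg (by positivity) (Finset.sum_nonneg fun I _ => ?_)
    have := hG0 I
    positivity
  refine ⟨min ε₁ (e / (2 * (M + 1))), by positivity, (min_le_left _ _).trans hε₁1,
    fun ε hε hεle J z hz hsz => ?_⟩
  have hεa : ε ≤ ε₁ := hεle.trans (min_le_left _ _)
  have hεb : ε ≤ e / (2 * (M + 1)) := hεle.trans (min_le_right _ _)
  have hε1 : ε ≤ 1 := hεa.trans hε₁1
  have hOm := (Om_open hg).measurableSet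
  have hm := H1 ε hε hεa J z hz hsz
  set k : Ec n → ℝ := fun ζ => (ε ^ 2 * δ ζ ^ 2) ^ (n + 9) /
        (ε ^ 2 * δ ζ ^ 2 + ‖ζ - z‖ ^ 2) ^ (2 * n + 9) with hk
  set F : Ec n → ℝ := fun ζ => (ε ^ 2 * δ ζ ^ 2) ^ (n + 8) /
        (ε ^ 2 * δ ζ ^ 2 + ‖ζ - z‖ ^ 2) ^ (2 * n + 8) with hF
  have hFi : IntegrableOn F (Om U δ) := B13_io hg (B13_kc hg hε hz (n + 8) (2 * n + 8))
  have hF0 : ∀ ζ, 0 ≤ F ζ := fun ζ => by simp only [hF]; positivity
  have hFB : ∫ ζ in Om U δ, F ζ ≤ |B| := (hB ε hε hε1 z hz hsz).trans (le_abs_self B)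
  set dt : (Fin q → Fin n) → ℂ := fun I => Matrix.det (fun i j : Fin q =>
        (starRingEnd ℂ) ((ee (J i) : Ec n) (I j))) with hdt
  set A1 : (Fin q → Fin n) → Ec n → V := fun I ζ =>
    Kr0 δ h ε I (fun i => ee (J i)) 0 z ζ • η I ζ with hA1
  set A2 : (Fin q → Fin n) → Ec n → V := fun I ζ =>
    (((-1) ^ (n + q) * dt I) * (k ζ : ℂ)) • η I ζ with hA2
  have hkc : ContinuousOn k (Kc U δ) := B13_kc hg hε hz (n + 9) (2 * n + 9)
  have hA1i : ∀ I, IntegrableOn (A1 I) (Om U δ) := fun I =>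
    B13_io hg ((B13_Kr0c hg hε hz I _).smul ((hη I).mono hK))
  have hA2i : ∀ I, IntegrableOn (A2 I) (Om U δ) := fun I =>
    B13_io hg ((continuousOn_const.mul (Complex.continuous_ofReal.comp_continuousOn hkc)).smul
      ((hη I).mono hK))
  have herr : ∀ I, ‖(∫ ζ in Om U δ, A1 I ζ) - ∫ ζ in Om U δ, A2 I ζ‖ ≤ C' * G I * |B| * ε := by
    intro I
    rw [← integral_sub (hA1i I) (hA2i I)]
    refine (norm_integral_le_integral_norm _).trans ?_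
    calc ∫ ζ in Om U δ, ‖A1 I ζ - A2 I ζ‖ ≤ ∫ ζ in Om U δ, (C' * G I * ε) * F ζ := by
          refine integral_mono_of_nonneg (ae_of_all _ fun ζ => norm_nonneg _)
            (hFi.const_mul _) (ae_restrict_of_forall_mem hOm fun ζ hζ => ?_)
          show ‖A1 I ζ - A2 I ζ‖ ≤ (C' * G I * ε) * F ζ
          simp only [hA1, hA2]
          rw [← sub_smul, norm_smul]
          calc _ ≤ (C' * ε * F ζ) * G I :=
                mul_le_mul (H2 ε hε hε1 I J z hz ζ hζ) (hGb I ζ (B13_sub U δ hζ)) (norm_nonneg _)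
                  (mul_nonneg (by positivity) (hF0 ζ))
            _ = _ := by ring
      _ = (C' * G I * ε) * ∫ ζ in Om U δ, F ζ := integral_const_mul _ _
      _ ≤ (C' * G I * ε) * |B| := mul_le_mul_of_nonneg_left hFB (by have := hG0 I; positivity)
      _ = _ := by ring
  have hcne : (cst n : ℂ) ≠ 0 := by exact_mod_cast hcst.ne'
  have hqne : (q.factorial : ℂ) ≠ 0 := by exact_mod_cast q.factorial_ne_zero
  have hmain : ((-1) ^ q * kn n / q.factorial) • ∑ I : Fin q → Fin n,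
      ∫ ζ in Om U δ, A2 I ζ = ((cst n : ℂ)⁻¹) • ∫ ζ in Om U δ, (k ζ : ℂ) • η J ζ := by
    rw [← integral_finsetSum _ fun I _ => hA2i I]
    have e1 : ∀ ζ, ∑ I : Fin q → Fin n, A2 I ζ =
        ((-1) ^ (n + q) * q.factorial : ℂ) • ((k ζ : ℂ) • η J ζ) := by
      intro ζ
      have e2 := sum_det_ev hA ζ (fun i => (ee (J i) : Ec n))
      rw [ev_ee] at e2
      calc ∑ I : Fin q → Fin n, A2 I ζ
          = ((-1) ^ (n + q) * (k ζ : ℂ)) • ∑ I : Fin q → Fin n, dt I • η I ζ := by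
            rw [Finset.smul_sum]
            refine Finset.sum_congr rfl fun I _ => ?_
            simp only [hA2]
            rw [smul_smul]
            congr 1
            ring
        _ = ((-1) ^ (n + q) * (k ζ : ℂ)) • ((q.factorial : ℂ) • η J ζ) := by
            rw [← e2]
        _ = _ := by rw [smul_smul, smul_smul]; congr 1; ring
    simp_rw [e1]
    rw [integral_smul, smul_smul]
    congr 1
    rw [kn]
    have e3 : ((-1 : ℂ)) ^ q * (-1) ^ n * (-1) ^ (n + q) = 1 := by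
      rw [← pow_add, ← pow_add]
      exact Even.neg_one_pow ⟨n + q, by ring⟩
    field_simp
    linear_combination e3
  have hR : Rop U δ h ε η J z - ((cst n : ℂ)⁻¹) • (∫ ζ in Om U δ, (k ζ : ℂ) • η J ζ) =
      ((-1) ^ q * kn n / q.factorial) • ∑ I : Fin q → Fin n,
        ((∫ ζ in Om U δ, A1 I ζ) - ∫ ζ in Om U δ, A2 I ζ) := by
    rw [← hmain, Finset.sum_sub_distrib, smul_sub]
    rfl
  have hkn : ‖((-1) ^ q * kn n / q.factorial : ℂ)‖ ≤ (cst n)⁻¹ := by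
    rw [kn, norm_div, norm_mul, norm_pow, norm_neg, norm_one, one_pow, one_mul, norm_div, norm_pow,
      norm_neg, norm_one, one_pow, Complex.norm_real, Real.norm_of_nonneg hcst.le, one_div]
    have : (1 : ℝ) ≤ ‖(q.factorial : ℂ)‖ := by
      rw [Complex.norm_natCast]; exact_mod_cast q.factorial_pos
    exact div_le_self (by positivity) this
  have hR2 : ‖Rop U δ h ε η J z - ((cst n : ℂ)⁻¹) • (∫ ζ in Om U δ, (k ζ : ℂ) • η J ζ)‖ ≤
      M * ε := by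
    rw [hR, norm_smul]
    calc _ ≤ (cst n)⁻¹ * ∑ I : Fin q → Fin n, C' * G I * |B| * ε :=
          mul_le_mul hkn ((norm_sum_le _ _).trans (Finset.sum_le_sum fun I _ => herr I))
            (norm_nonneg _) (by positivity)
      _ = M * ε := by rw [hM, ← Finset.sum_mul]; ring
  have hR3 : M * ε ≤ e / 2 := by
    have : (M + 1) * ε ≤ e / 2 := by
      calc (M + 1) * ε ≤ (M + 1) * (e / (2 * (M + 1))) :=
            mul_le_mul_of_nonneg_left hεb (by positivity)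
        _ = _ := by field_simp
    nlinarith
  calc ‖Rop U δ h ε η J z - η J z‖
      = ‖(Rop U δ h ε η J z - ((cst n : ℂ)⁻¹) • (∫ ζ in Om U δ, (k ζ : ℂ) • η J ζ)) +
          (((cst n : ℂ)⁻¹) • (∫ ζ in Om U δ, (k ζ : ℂ) • η J ζ) - η J z)‖ := by
        congr 1; abel
    _ ≤ _ := norm_add_le _ _
    _ ≤ e / 2 + e / 2 := add_le_add (hR2.trans hR3) hm
    _ = e := by ring

private lemma B13_det0 {m : ℕ} (Y : Matrix (Fin m) (Fin m) ℂ) {T : ℝ} (hY : ∀ l i, ‖Y l i‖ ≤ T) :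
    ‖Y.det‖ ≤ m.factorial * T ^ m := by
  rw [Matrix.det_apply']
  refine (norm_sum_le _ _).trans ?_
  calc ∑ σ : Equiv.Perm (Fin m), ‖((Equiv.Perm.sign σ : ℤ) : ℂ) * ∏ i, Y (σ i) i‖
      ≤ ∑ _σ : Equiv.Perm (Fin m), T ^ m := by
        refine Finset.sum_le_sum fun σ _ => ?_
        rw [norm_mul]
        have h1 : ‖((Equiv.Perm.sign σ : ℤ) : ℂ)‖ = 1 := by
          rcases Int.units_eq_one_or (Equiv.Perm.sign σ) with h | h <;> simp [h]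
        rw [h1, one_mul, norm_prod]
        calc ∏ i, ‖Y (σ i) i‖ ≤ ∏ _i : Fin m, T :=
              Finset.prod_le_prod (fun i _ => norm_nonneg _) fun i _ => hY _ _
          _ = T ^ m := by simp
    _ = _ := by simp [Fintype.card_perm]

private lemma B13_det {m : ℕ} (x : Fin (m + 1) → ℂ) (Y : Fin m → Fin (m + 1) → ℂ) {u T : ℝ}
    (hx : ∀ i, ‖x i‖ ≤ u) (hY : ∀ l i, ‖Y l i‖ ≤ T) :
    ‖Matrix.det (cn x Y)‖ ≤ ((m + 1) * (m.factorial * T ^ m)) * u := by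
  have e := Matrix.det_succ_row_zero (show Matrix (Fin (m + 1)) (Fin (m + 1)) ℂ from cn x Y)
  rw [show Matrix.det (cn x Y) = _ from e]
  refine (norm_sum_le _ _).trans ?_
  calc _ ≤ ∑ _j : Fin (m + 1), u * (m.factorial * T ^ m) := by
        refine Finset.sum_le_sum fun j _ => ?_
        rw [norm_mul, norm_mul, norm_pow, norm_neg, norm_one, one_pow, one_mul]
        refine mul_le_mul (hx j) (B13_det0 _ fun l i => ?_) (norm_nonneg _)
          ((norm_nonneg _).trans (hx j))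
        exact hY l _
    _ = _ := by simp; ring

private lemma B13_dbc {W' : Set (Ec n)} (hW : IsOpen W') {f : Ec n → ℂ}
    (hf : ContDiffOn ℝ 2 f W') (X : Ec n) : ContinuousOn (fun ζ => db f ζ X) W' := by
  have h1 : ContinuousOn (fderiv ℝ f) W' :=
    hf.continuousOn_fderiv_of_isOpen hW (by norm_num)
  have h2 : ∀ Y : Ec n, ContinuousOn (fun ζ => fderiv ℝ f ζ Y) W' := fun Y =>
    h1.clm_apply continuousOn_const
  unfold db
  exact ((h2 X).add ((h2 (Complex.I • X)).const_smul Complex.I)).const_smul (2⁻¹ : ℂ)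

private lemma B13_app {α : Type*} {m : ℕ} (f : Fin m → α) (g : Fin 0 → α) :
    (Fin.append f g : Fin (m + 0) → α) = f := by
  funext i
  exact Fin.append_left f g i

private lemma B13_Kr00 (ε : ℝ) (z ζ : Ec n) :
    Kr0 δ h ε (Fin.elim0 : Fin 0 → Fin n)
      (fun i : Fin 0 => (ee ((Fin.elim0 : Fin 0 → Fin n) i) : Ec n)) 0 z ζ =
      F0 δ h ε 0 z ζ * Matrix.det (cn (rx δ h ε 0 0 z ζ)
        (fun l : Fin n => rζ δ h ε Fin.elim0 0 z ζ (ee l))) := by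
  unfold Kr0
  rw [B13_app]

private lemma B13_F1 (ε : ℝ) (z ζ : Ec n) : F1 δ h ε 0 z ζ = (((ε ^ 2 * δ ζ ^ 2) ^ (n + 8) /
    (ε ^ 2 * δ ζ ^ 2 + ‖ζ - z‖ ^ 2) ^ (2 * n + 8) : ℝ) : ℂ) := by
  unfold F1
  rw [aa_eq]
  simp [w0]

private lemma B13_snoc {m : ℕ} {f : Fin (m + 0) → ℂ} {g : Fin m → ℂ} {a : ℂ} {T : ℝ}
    (hf : f = Fin.append g (0 : Fin 0 → ℂ)) (h1 : ∀ i, ‖g i‖ ≤ T) (h2 : ‖a‖ ≤ T) :
    ∀ i, ‖(sn f a : Fin (m + 0 + 1) → ℂ) i‖ ≤ T := by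
  intro i
  subst hf
  rw [B13_app]
  refine Fin.lastCases ?_ (fun j => ?_) i
  · unfold sn
    rw [Fin.snoc_last]
    exact h2
  · unfold sn
    rw [Fin.snoc_castSucc]
    exact h1 j

private lemma B13_T (hg : Geo U δ h c C) {P : PD n} (hP : PG P U δ h c C A) (κ : ℝ) {z : Ec n}
    (hz : z ∈ Om U δ) : ∃ T : ℝ, 0 ≤ T ∧ (∀ ζ ∈ Om U δ, ∀ ε : ℝ, 0 < ε → ε ≤ 1 →
      ∀ (l : Fin n) (i : Fin (n + 0 + 1)), ‖rζ δ h ε Fin.elim0 0 z ζ (ee l) i‖ ≤ T) ∧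
      (∀ ζ ∈ Om U δ, ∀ (l : Fin n) (i : Fin (n + 0 + 1)), ‖rq P δ κ z ζ (ee l) i‖ ≤ T) := by
  have hC := hg.C1
  have hKq : Kc U δ ⊆ Wq P U := Kc_sub_Wq hP
  have hzq : z ∈ Wq P U := hKq (B13_sub U δ hz)
  have hδ2 : ContDiffOn ℝ 2 (fun y : Ec n => (δ y : ℂ)) U :=
    Complex.ofRealCLM.contDiff.comp_contDiffOn hg.dδ
  have hKU : Kc U δ ⊆ U := fun ζ hζ => hζ.1
  have h1 : ∀ l : Fin n, ∃ G : ℝ, 0 < G ∧ ∀ ζ ∈ Kc U δ,
      ‖db (fun y => (δ y : ℂ)) ζ (ee l)‖ ≤ G := by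
    intro l
    have a1 : ContinuousOn (fun ζ => db (fun y => (δ y : ℂ)) ζ (ee l)) U :=
      B13_dbc hg.opn hδ2 (ee l)
    exact B13_bdd hg (a1.mono hKU)
  choose G1 hG10 hG1 using h1
  have hQ : ∀ k : Fin n, ContDiffOn ℝ 2 (fun y => Qh P δ κ z y k) (Wq P U) := by
    intro k
    have h2 : ContDiffOn ℝ 2 (fun y : Ec n => (z, y)) (Wq P U) :=
      contDiffOn_const.prodMk contDiffOn_id
    have h2' : MapsTo (fun y : Ec n => (z, y)) (Wq P U) (Wq P U ×ˢ Wq P U) :=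
      fun y hy => Set.mk_mem_prod hzq hy
    have h2'' := (Qh_c2 hg hP κ k).comp h2 h2'
    exact h2''
  have h3 : ∀ l k : Fin n, ∃ G : ℝ, 0 < G ∧ ∀ ζ ∈ Kc U δ,
      ‖db (fun y => Qh P δ κ z y k) ζ (ee l)‖ ≤ G := by
    intro l k
    have a1 : ContinuousOn (fun ζ => db (fun y => Qh P δ κ z y k) ζ (ee l)) (Wq P U) :=
      B13_dbc (Wq_open hg hP) (hQ k) (ee l)
    exact B13_bdd hg (a1.mono hKq)
  choose G2 hG20 hG2 using h3
  have s1 : ∀ l, 0 ≤ 2 * C * G1 l := fun l => by have := hG10 l; positivity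
  have s2 : ∀ l k, 0 ≤ G2 l k := fun l k => (hG20 l k).le
  have p1 : 0 ≤ ∑ l, 2 * C * G1 l := Finset.sum_nonneg fun l _ => s1 l
  have p2 : 0 ≤ ∑ l, ∑ k, G2 l k := Finset.sum_nonneg fun l _ => Finset.sum_nonneg fun k _ => s2 l k
  refine ⟨1 + ∑ l, 2 * C * G1 l + ∑ l, ∑ k, G2 l k, by positivity, ?_, ?_⟩
  · intro ζ hζ ε hε hε1 l
    have hζ2 := hζ.2
    unfold rζ
    refine B13_snoc (g := fun k => (1 - ((0 : ℝ) : ℂ)) * (starRingEnd ℂ) ((ee l : Ec n) k) +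
      ((0 : ℝ) : ℂ) * db (fun y => h z y k) ζ (ee l)) (by congr 1; funext j; exact j.elim0) ?_ ?_
    · intro k
      have : ‖(ee l : Ec n) k‖ ≤ 1 := by
        unfold ee
        rw [EuclideanSpace.single_apply]
        split_ifs <;> simp
      simp only [Complex.ofReal_zero, sub_zero, one_mul, zero_mul, add_zero]
      rw [RCLike.norm_conj]
      linarith
    · have q1 := hG1 l ζ (B13_sub U δ hζ)
      have q2 : 2 * C * G1 l ≤ ∑ l, 2 * C * G1 l :=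
        Finset.single_le_sum (f := fun l => 2 * C * G1 l) (fun j _ => s1 j) (Finset.mem_univ l)
      simp only [Complex.ofReal_zero, sub_zero, one_mul, add_zero]
      rw [norm_mul]
      have q3 : ‖(2 * (ε : ℂ) ^ 2 * (δ ζ : ℂ))‖ ≤ 2 * C := by
        rw [show (2 * (ε : ℂ) ^ 2 * (δ ζ : ℂ)) = ((2 * ε ^ 2 * δ ζ : ℝ) : ℂ) by push_cast; ring,
          Complex.norm_real, Real.norm_of_nonneg (by positivity)]
        have q4 : ε ^ 2 ≤ 1 := by nlinarith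
        have q5 := hg.bδ ζ hζ.1
        calc 2 * ε ^ 2 * δ ζ ≤ 2 * 1 * C :=
              mul_le_mul (mul_le_mul_of_nonneg_left q4 (by norm_num)) q5 hζ2.le (by norm_num)
          _ = 2 * C := by ring
      calc _ ≤ 2 * C * G1 l := mul_le_mul q3 q1 (norm_nonneg _) (by linarith)
        _ ≤ _ := by linarith
  · intro ζ hζ l
    unfold rq
    refine B13_snoc rfl ?_ ?_
    · intro k
      have q1 := hG2 l k ζ (B13_sub U δ hζ)
      have q2 : G2 l k ≤ ∑ k, G2 l k :=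
        Finset.single_le_sum (f := fun k => G2 l k) (fun j _ => s2 l j) (Finset.mem_univ k)
      have q3 : ∑ k, G2 l k ≤ ∑ l, ∑ k, G2 l k :=
        Finset.single_le_sum (f := fun l => ∑ k, G2 l k)
          (fun j _ => Finset.sum_nonneg fun k _ => s2 j k) (Finset.mem_univ l)
      linarith
    · rw [norm_zero]; positivity

private lemma B13_KE0c (hg : Geo U δ h c C) {P : PD n} (hP : PG P U δ h c C A) (κ : ℝ) {ε : ℝ}
    (hε : 0 < ε) {z : Ec n} (hz : z ∈ Om U δ) :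
    ContinuousOn (fun ζ => KE0 P δ h κ ε 0 z ζ) (Kc U δ) := by
  have h1 := (KE0_c1 hg hP κ ε).continuousOn
  have h2 : ContinuousOn (fun ζ : Ec n => ((z, (0 : ℝ), ζ) : Tn n)) (Kc U δ) :=
    continuousOn_const.prodMk (continuousOn_const.prodMk continuousOn_id)
  have h3 : MapsTo (fun ζ : Ec n => ((z, (0 : ℝ), ζ) : Tn n)) (Kc U δ) (TsetE P U δ h ε) :=
    fun ζ hζ => ⟨Kc_sub_Wq hP (B13_sub U δ hz), Kc_sub_Wq hP hζ,
      aa_ne hg hε (left_mem_Icc.2 zero_le_one) hz hζ⟩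
  have h4 := h1.comp h2 h3
  exact h4

/-- The weighted approximate identity converges. -/
theorem RE_lim (hg : Geo U δ h c C) {P : PD n} (hP : PG P U δ h c C A) (κ : ℝ) {W : Set (Ec n)}
    (hK : Kc U δ ⊆ W) {N : Ec n → V} (hN : ContinuousOn N W) {z : Ec n} (hz : z ∈ Om U δ) :
    Tendsto (fun ε => RE P U δ h κ ε N z) (𝓝[>] 0) (𝓝 (N z)) := by
  have hcst := cst_pos n
  have hOm := (Om_open hg).measurableSet
  have hzK := B13_sub U δ hz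
  have hKq : Kc U δ ⊆ Wq P U := Kc_sub_Wq hP
  have hzq : z ∈ Wq P U := hKq hzK
  have hNK := hN.mono hK
  have hEx : ContinuousOn (fun ζ => Complex.exp (Ex P δ κ z ζ)) (Kc U δ) := by
    have h1 := (Ex_c2 hg hP κ).continuousOn
    have h2 : ContinuousOn (fun ζ : Ec n => (z, ζ)) (Kc U δ) :=
      continuousOn_const.prodMk continuousOn_id
    have h2' : MapsTo (fun ζ : Ec n => (z, ζ)) (Kc U δ) (Wq P U ×ˢ Wq P U) :=
      fun ζ hζ => Set.mk_mem_prod hzq (hKq hζ)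
    have h3 : ContinuousOn (fun ζ => Ex P δ κ z ζ) (Kc U δ) := by
      have h2'' := h1.comp h2 h2'
      exact h2''
    exact h3.cexp
  set g : Ec n → V := fun ζ => Complex.exp (Ex P δ κ z ζ) • N ζ with hgdef
  have hgc : ContinuousOn g (Kc U δ) := hEx.smul hNK
  have hgz : g z = N z := by simp [g, Ex]
  obtain ⟨G, hG0, hGb⟩ := B13_bdd hg hgc
  obtain ⟨T, hT0, hT1, hT2⟩ := B13_T hg hP κ hz
  obtain ⟨C', hC', H2⟩ := B13_err1 (n := n) hg 0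
  obtain ⟨B1, hB1⟩ := err_bd hg hz.2
  obtain ⟨B2, hB2⟩ := err_lim hg hz.2
  set D1 : ℝ := (n + 1) * (n.factorial * T ^ n) with hD1
  have hD10 : 0 ≤ D1 := by positivity
  set M : ℝ := (cst n)⁻¹ * (G * ((2 * n + 8) * C' * |B1| + n * D1 * |B2|)) with hM
  have hM0 : 0 ≤ M := by positivity
  rw [Metric.tendsto_nhdsWithin_nhds]
  intro e he
  obtain ⟨ε₁, hε₁, hε₁1, H1⟩ := main_lim hg (le_refl (Kc U δ)) hgc hz.2 (half_pos (half_pos he))
  refine ⟨min ε₁ (e / (4 * (M + 1))), by positivity, fun ε hε0 hεlt => ?_⟩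
  have hε : 0 < ε := hε0
  rw [Real.dist_eq, sub_zero, abs_of_pos hε] at hεlt
  have hεa : ε ≤ ε₁ := (hεlt.trans_le (min_le_left _ _)).le
  have hεb : ε ≤ e / (4 * (M + 1)) := (hεlt.trans_le (min_le_right _ _)).le
  have hε1 : ε ≤ 1 := hεa.trans hε₁1
  have hm := H1 ε hε hεa z hz le_rfl
  rw [hgz] at hm
  set k : Ec n → ℝ := fun ζ => (ε ^ 2 * δ ζ ^ 2) ^ (n + 9) /
        (ε ^ 2 * δ ζ ^ 2 + ‖ζ - z‖ ^ 2) ^ (2 * n + 9) with hk
  set F : Ec n → ℝ := fun ζ => (ε ^ 2 * δ ζ ^ 2) ^ (n + 8) /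
        (ε ^ 2 * δ ζ ^ 2 + ‖ζ - z‖ ^ 2) ^ (2 * n + 8) with hF
  set F2 : Ec n → ℝ := fun ζ => (‖ζ - z‖ + ε ^ 2 * δ ζ ^ 2) * F ζ with hF2
  have hFc : ContinuousOn F (Kc U δ) := B13_kc hg hε hz (n + 8) (2 * n + 8)
  have hδc := B13_δc hg
  have hF2c : ContinuousOn F2 (Kc U δ) := by
    refine ContinuousOn.mul (ContinuousOn.add (by fun_prop) ?_) hFc
    exact continuousOn_const.mul (hδc.pow 2)
  have hFi : IntegrableOn F (Om U δ) := B13_io hg hFc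
  have hF2i : IntegrableOn F2 (Om U δ) := B13_io hg hF2c
  have hF0 : ∀ ζ, 0 ≤ F ζ := fun ζ => by simp only [hF]; positivity
  have hF20 : ∀ ζ, 0 ≤ F2 ζ := fun ζ => by
    have := hF0 ζ
    simp only [hF2]; positivity
  have hFB : ∫ ζ in Om U δ, F ζ ≤ |B1| := (hB1 ε hε hε1 z hz le_rfl).trans (le_abs_self B1)
  have hF2B : ∫ ζ in Om U δ, F2 ζ ≤ |B2| * ε := (hB2 ε hε hε1 z hz le_rfl).trans
    (mul_le_mul_of_nonneg_right (le_abs_self B2) hε.le)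
  have hkc : ContinuousOn k (Kc U δ) := B13_kc hg hε hz (n + 9) (2 * n + 9)
  set Q1 : Ec n → V := fun ζ => KE0 P δ h κ ε 0 z ζ • N ζ with hQ1
  set Q2 : Ec n → V := fun ζ => (((2 * n + 8) * (-1) ^ n : ℂ) * (k ζ : ℂ)) • g ζ with hQ2
  have hQ1i : IntegrableOn Q1 (Om U δ) := B13_io hg ((B13_KE0c hg hP κ hε hz).smul hNK)
  have hQ2i : IntegrableOn Q2 (Om U δ) :=
    B13_io hg ((continuousOn_const.mul (Complex.continuous_ofReal.comp_continuousOn hkc)).smul hgc)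
  have hpt : ∀ ζ ∈ Om U δ, ‖Q1 ζ - Q2 ζ‖ ≤
      (G * ((2 * n + 8) * C' * ε)) * F ζ + (G * (n * D1)) * F2 ζ := by
    intro ζ hζ
    have hζ2 := hζ.2
    set R1 : ℂ := F0 δ h ε 0 z ζ * Matrix.det (cn (rx δ h ε 0 0 z ζ)
        (fun l : Fin n => rζ δ h ε Fin.elim0 0 z ζ (ee l))) with hR1
    set R2 : ℂ := ∑ j : Fin n, Matrix.det (cn (rx δ h ε 0 0 z ζ)
      (Function.update (fun l : Fin n => rζ δ h ε Fin.elim0 0 z ζ (ee l)) j
        (rq P δ κ z ζ (ee j)))) with hR2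
    have e1 : Q1 ζ - Q2 ζ = ((2 * n + 8) * (R1 - (-1) ^ n * (k ζ : ℂ)) + (F ζ : ℂ) * R2) • g ζ := by
      simp only [hQ1, hQ2, hgdef]
      rw [smul_smul, smul_smul, ← sub_smul]
      congr 1
      unfold KE0
      rw [B13_F1, mul_assoc (2 * (n : ℂ) + 8) (F0 δ h ε 0 z ζ), ← hR1, ← hR2]
      ring
    have e2 : ‖R1 - (-1) ^ n * (k ζ : ℂ)‖ ≤ C' * ε * F ζ := by
      have := H2 ε hε hε1 Fin.elim0 Fin.elim0 z hz ζ hζ
      rw [B13_Kr00, ← hR1] at this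
      have d0 : Matrix.det (fun i j : Fin 0 => (starRingEnd ℂ)
          ((ee ((Fin.elim0 : Fin 0 → Fin n) i) : Ec n) ((Fin.elim0 : Fin 0 → Fin n) j))) = 1 :=
        Matrix.det_fin_zero
      rw [d0, add_zero, mul_one] at this
      exact this
    have e3 : ‖R2‖ ≤ n * (D1 * (‖ζ - z‖ + ε ^ 2 * δ ζ ^ 2)) := by
      rw [hR2]
      refine (norm_sum_le _ _).trans ?_
      calc _ ≤ ∑ _j : Fin n, D1 * (‖ζ - z‖ + ε ^ 2 * δ ζ ^ 2) := by
            refine Finset.sum_le_sum fun j _ => ?_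
            have := B13_det (m := n) (rx δ h ε 0 0 z ζ) (Function.update
              (fun l : Fin n => rζ δ h ε Fin.elim0 0 z ζ (ee l)) j (rq P δ κ z ζ (ee j)))
              (u := ‖ζ - z‖ + ε ^ 2 * δ ζ ^ 2) (T := T) ?_ ?_
            · exact this
            · unfold rx
              refine B13_snoc (g := wk h 0 z ζ) (by congr 1) ?_ ?_
              · intro i
                have : ‖ζ i - z i‖ ≤ ‖ζ - z‖ := PiLp.norm_apply_le (ζ - z) i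
                simp only [wk, Complex.ofReal_zero, sub_zero, one_mul, zero_mul, add_zero]
                rw [RCLike.norm_conj]
                have : 0 ≤ ε ^ 2 * δ ζ ^ 2 := by positivity
                linarith
              · rw [Complex.norm_real]
                simp only [w0, sub_zero, one_mul, zero_mul, add_zero]
                rw [Real.norm_of_nonneg (by positivity)]
                linarith [norm_nonneg (ζ - z)]
            · intro l i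
              by_cases hlj : l = j
              · subst hlj
                rw [Function.update_self]
                exact hT2 ζ hζ l i
              · rw [Function.update_of_ne hlj]
                exact hT1 ζ hζ ε hε hε1 l i
        _ = _ := by simp
    rw [e1, norm_smul]
    have e4 : ‖((2 * n + 8) * (R1 - (-1) ^ n * (k ζ : ℂ)) + (F ζ : ℂ) * R2 : ℂ)‖ ≤
        (2 * n + 8) * (C' * ε * F ζ) + F ζ * (n * (D1 * (‖ζ - z‖ + ε ^ 2 * δ ζ ^ 2))) := by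
      refine (norm_add_le _ _).trans (add_le_add ?_ ?_)
      · rw [norm_mul]
        have : ‖(2 * n + 8 : ℂ)‖ = 2 * n + 8 := by
          rw [show (2 * n + 8 : ℂ) = ((2 * n + 8 : ℕ) : ℂ) by push_cast; ring,
            Complex.norm_natCast]
          push_cast; ring
        rw [this]
        exact mul_le_mul_of_nonneg_left e2 (by positivity)
      · rw [norm_mul, Complex.norm_real, Real.norm_of_nonneg (hF0 ζ)]
        exact mul_le_mul_of_nonneg_left e3 (hF0 ζ)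
    calc _ ≤ ((2 * n + 8) * (C' * ε * F ζ) +
          F ζ * (n * (D1 * (‖ζ - z‖ + ε ^ 2 * δ ζ ^ 2)))) * G := by
          refine mul_le_mul e4 (hGb ζ (B13_sub U δ hζ)) (norm_nonneg _) ?_
          have := hF0 ζ
          positivity
      _ = _ := by simp only [hF2]; ring
  have herr : ‖(∫ ζ in Om U δ, Q1 ζ) - ∫ ζ in Om U δ, Q2 ζ‖ ≤
      (G * ((2 * n + 8) * C' * |B1| + n * D1 * |B2|)) * ε := by
    rw [← integral_sub hQ1i hQ2i]
    refine (norm_integral_le_integral_norm _).trans ?_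
    calc ∫ ζ in Om U δ, ‖Q1 ζ - Q2 ζ‖
        ≤ ∫ ζ in Om U δ, ((G * ((2 * n + 8) * C' * ε)) * F ζ + (G * (n * D1)) * F2 ζ) :=
          integral_mono_of_nonneg (ae_of_all _ fun ζ => norm_nonneg _)
            ((hFi.const_mul _).add (hF2i.const_mul _)) (ae_restrict_of_forall_mem hOm hpt)
      _ = (G * ((2 * n + 8) * C' * ε)) * (∫ ζ in Om U δ, F ζ) +
          (G * (n * D1)) * ∫ ζ in Om U δ, F2 ζ := by
          rw [integral_add (hFi.const_mul _) (hF2i.const_mul _), integral_const_mul,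
            integral_const_mul]
      _ ≤ (G * ((2 * n + 8) * C' * ε)) * |B1| + (G * (n * D1)) * (|B2| * ε) :=
          add_le_add (mul_le_mul_of_nonneg_left hFB (by positivity))
            (mul_le_mul_of_nonneg_left hF2B (by positivity))
      _ = _ := by ring
  have hcne : (cst n : ℂ) ≠ 0 := by exact_mod_cast hcst.ne'
  have h28 : (2 * n + 8 : ℂ) ≠ 0 := by
    rw [show (2 * n + 8 : ℂ) = ((2 * n + 8 : ℕ) : ℂ) by push_cast; ring]
    exact_mod_cast (by omega : 2 * n + 8 ≠ 0)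
  have hmain : (kn n / (2 * n + 8)) • ∫ ζ in Om U δ, Q2 ζ =
      ((cst n : ℂ)⁻¹) • ∫ ζ in Om U δ, (k ζ : ℂ) • g ζ := by
    have e1 : ∀ ζ, Q2 ζ = ((2 * n + 8) * (-1) ^ n : ℂ) • ((k ζ : ℂ) • g ζ) := by
      intro ζ
      exact mul_smul _ _ _
    simp_rw [e1]
    rw [integral_smul, smul_smul]
    congr 1
    rw [kn]
    have e3 : ((-1 : ℂ)) ^ n * (-1) ^ n = 1 := by
      rw [← pow_add]
      exact Even.neg_one_pow ⟨n, rfl⟩
    field_simp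
    linear_combination e3
  have hkn : ‖(kn n / (2 * n + 8) : ℂ)‖ ≤ (cst n)⁻¹ := by
    rw [kn, norm_div, norm_div, norm_pow, norm_neg, norm_one, one_pow, Complex.norm_real,
      Real.norm_of_nonneg hcst.le, one_div]
    have : (1 : ℝ) ≤ ‖(2 * n + 8 : ℂ)‖ := by
      rw [show (2 * n + 8 : ℂ) = ((2 * n + 8 : ℕ) : ℂ) by push_cast; ring, Complex.norm_natCast]
      push_cast
      have : (0 : ℝ) ≤ n := by positivity
      linarith
    exact div_le_self (by positivity) this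
  have hR : RE P U δ h κ ε N z - ((cst n : ℂ)⁻¹) • (∫ ζ in Om U δ, (k ζ : ℂ) • g ζ) =
      (kn n / (2 * n + 8)) • ((∫ ζ in Om U δ, Q1 ζ) - ∫ ζ in Om U δ, Q2 ζ) := by
    rw [← hmain, smul_sub]
    rfl
  have hR2 : ‖RE P U δ h κ ε N z - ((cst n : ℂ)⁻¹) • (∫ ζ in Om U δ, (k ζ : ℂ) • g ζ)‖ ≤
      M * ε := by
    rw [hR, norm_smul]
    calc _ ≤ (cst n)⁻¹ * ((G * ((2 * n + 8) * C' * |B1| + n * D1 * |B2|)) * ε) :=
          mul_le_mul hkn herr (norm_nonneg _) (by positivity)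
      _ = M * ε := by rw [hM]; ring
  have hR3 : M * ε ≤ e / 4 := by
    have : (M + 1) * ε ≤ e / 4 := by
      calc (M + 1) * ε ≤ (M + 1) * (e / (4 * (M + 1))) :=
            mul_le_mul_of_nonneg_left hεb (by positivity)
        _ = _ := by field_simp
    nlinarith
  rw [dist_eq_norm]
  calc ‖RE P U δ h κ ε N z - N z‖
      = ‖(RE P U δ h κ ε N z - ((cst n : ℂ)⁻¹) • (∫ ζ in Om U δ, (k ζ : ℂ) • g ζ)) +
          (((cst n : ℂ)⁻¹) • (∫ ζ in Om U δ, (k ζ : ℂ) • g ζ) - N z)‖ := by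
        congr 1; abel
    _ ≤ _ := norm_add_le _ _
    _ ≤ e / 4 + e / 2 / 2 := add_le_add (hR2.trans hR3) hm
    _ < e := by linarith

end Pool.Agent.MPca0fc2.FD
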