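import Pool.Agent.Lib.MP_ca0fc2_an.Mg.G053
import Pool.Agent.Lib.MP_ca0fc2_an.Mg.G051

/-! The pointwise bound of the weighted kernel. -/

set_option autoImplicit false

open Metric Set MeasureTheory Filter Topology

namespace Pool.Agent.MPca0fc2.FD

variable {n : ℕ} {V : Type*} [NormedAddCommGroup V] [NormedSpace ℂ V]

private theorem C3_app0 {α : Type*} {m : ℕ} (f : Fin m → α) (g : Fin 0 → α) :
    (Fin.append f g : Fin (m + 0) → α) = f := by
  funext i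
  exact Fin.append_left f g i

private theorem C3_sn0 {m : ℕ} : (sn (0 : Fin m → ℂ) 0 : Fin (m + 1) → ℂ) = 0 := by
  funext i
  refine Fin.lastCases ?_ (fun j => ?_) i
  · simp [sn]
  · simp [sn]

private theorem C3_ent {m q : ℕ} (f : Fin m → ℂ) (g : Fin q → ℂ) (a : ℂ) (i : Fin q) :
    (sn (Fin.append f g) a : Fin (m + q + 1) → ℂ) (Fin.castSucc (Fin.natAdd m i)) = g i := by
  simp only [sn, Fin.snoc_castSucc, Fin.append_right]

private theorem C3_two {α : Type*} (f : Fin 2 → α) :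
    f = (sn (fun _ : Fin 1 => f 0) (f 1) : Fin (1 + 1) → α) := by
  funext i
  refine Fin.lastCases ?_ (fun j => ?_) i
  · simp [sn]
    rfl
  · have : j = 0 := Subsingleton.elim _ _
    subst this
    simp [sn]

/-- Two rows replaced, as a determinant with two more columns.
PROOF. For `j ≠ k`: `det_snoc` twice. The matrix on the right has the rows `x`, the `n` rows `E l` with the two
more entries `[l = I 0]`, `[l = I 1]`, the row `w`, the row `r`, and two more columns (before the last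
one). By `det_snoc` (with `q = 1`, `Y 0 = w`, `t = r`, `k = I 1`) it is the determinant with one more column,
where the row `I 1` is replaced by the row `r` (whose entry in the column `n` is `0`), and the last row is
`w`. By `det_snoc` again (`q = 0`, `t = w`, `k = I 0`) it is, for `I 0 ≠ I 1`, the determinant on the left with
`r` in the place `I 1` and `w` in the place `I 0`. If `I 0 = I 1`, the matrix on the right has two equal
columns, so its determinant is `0`. The sum over `I : Fin 2 → Fin n` is the sum over the pairs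
`(k, j) = (I 0, I 1)` (`Fin.consEquiv`, `finTwoArrowEquiv`). -/
theorem two_rows (x : Fin n → ℂ) (x0 : ℂ) (E : Fin n → Fin n → ℂ) (E0 : Fin n → ℂ) (w r : Fin n → ℂ)
    (w0 r0 : ℂ) (a : Fin n → Fin n → V) :
    ∑ k, ∑ j ∈ Finset.univ.erase k, Matrix.det (cn (sn (Fin.append x (0 : Fin 0 → ℂ)) x0 :
        Fin (n + 0 + 1) → ℂ)
      (Function.update (Function.update
        (fun l : Fin n => (sn (Fin.append (E l) (0 : Fin 0 → ℂ)) (E0 l) : Fin (n + 0 + 1) → ℂ))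
          j (sn (Fin.append r (0 : Fin 0 → ℂ)) r0)) k (sn (Fin.append w (0 : Fin 0 → ℂ)) w0))) •
        a k j =
    ∑ I : Fin 2 → Fin n, Matrix.det (cn (sn (Fin.append x (0 : Fin 2 → ℂ)) x0 :
        Fin (n + 2 + 1) → ℂ)
      (Fin.append (fun l => (sn (Fin.append (E l) (fun j => if I j = l then (1 : ℂ) else 0)) (E0 l) :
          Fin (n + 2 + 1) → ℂ))
        (fun i => (sn (Fin.append ((![w, r] : Fin 2 → Fin n → ℂ) i) (0 : Fin 2 → ℂ))
          ((![w0, r0] : Fin 2 → ℂ) i) : Fin (n + 2 + 1) → ℂ)))) • a (I 0) (I 1) := by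
  have hterm : ∀ k j : Fin n, Matrix.det (cn (sn (Fin.append x (0 : Fin 2 → ℂ)) x0 :
        Fin (n + 2 + 1) → ℂ)
      (Fin.append (fun l => (sn (Fin.append (E l)
          (fun i => if (![k, j] : Fin 2 → Fin n) i = l then (1 : ℂ) else 0)) (E0 l) :
          Fin (n + 2 + 1) → ℂ))
        (fun i => (sn (Fin.append ((![w, r] : Fin 2 → Fin n → ℂ) i) (0 : Fin 2 → ℂ))
          ((![w0, r0] : Fin 2 → ℂ) i) : Fin (n + 2 + 1) → ℂ)))) =
      if k = j then 0 else Matrix.det (cn (sn (Fin.append x (0 : Fin 0 → ℂ)) x0 :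
        Fin (n + 0 + 1) → ℂ)
      (Function.update (Function.update
        (fun l : Fin n => (sn (Fin.append (E l) (0 : Fin 0 → ℂ)) (E0 l) : Fin (n + 0 + 1) → ℂ))
          j (sn (Fin.append r (0 : Fin 0 → ℂ)) r0)) k (sn (Fin.append w (0 : Fin 0 → ℂ)) w0))) := by
    intro k j
    have h1 := det_snoc (q := 1) x (0 : Fin 1 → ℂ) x0 E
      (fun l => fun _ : Fin 1 => if k = l then (1 : ℂ) else 0) E0 (fun _ => w) (fun _ => 0)
      (fun _ => w0) r (0 : Fin 1 → ℂ) r0 j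
    have e1 : ∀ l, (fun i => if (![k, j] : Fin 2 → Fin n) i = l then (1 : ℂ) else 0) =
        (sn (fun _ : Fin 1 => if k = l then (1 : ℂ) else 0) (if l = j then (1 : ℂ) else 0) :
          Fin (1 + 1) → ℂ) := by
      intro l
      rw [C3_two (fun i => if (![k, j] : Fin 2 → Fin n) i = l then (1 : ℂ) else 0)]
      change (sn (fun _ : Fin 1 => if k = l then (1 : ℂ) else 0) (if j = l then (1 : ℂ) else 0) :
        Fin (1 + 1) → ℂ) = _
      have : (if j = l then (1 : ℂ) else 0) = if l = j then (1 : ℂ) else 0 :=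
        if_congr eq_comm rfl rfl
      rw [this]
    have e2 : (fun i => (sn (Fin.append ((![w, r] : Fin 2 → Fin n → ℂ) i) (0 : Fin 2 → ℂ))
          ((![w0, r0] : Fin 2 → ℂ) i) : Fin (n + 2 + 1) → ℂ)) =
        (sn (fun _ : Fin 1 => (sn (Fin.append w (sn (0 : Fin 1 → ℂ) (0 : ℂ))) w0 :
            Fin (n + (1 + 1) + 1) → ℂ))
          (sn (Fin.append r (sn (0 : Fin 1 → ℂ) (0 : ℂ))) r0)) := by
      rw [C3_two (fun i => (sn (Fin.append ((![w, r] : Fin 2 → Fin n → ℂ) i) (0 : Fin 2 → ℂ))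
          ((![w0, r0] : Fin 2 → ℂ) i) : Fin (n + 2 + 1) → ℂ)), C3_sn0]
      rfl
    have e3 : (0 : Fin 2 → ℂ) = (sn (0 : Fin 1 → ℂ) (0 : ℂ) : Fin (1 + 1) → ℂ) := C3_sn0.symm
    have h2 : Matrix.det (cn (sn (Fin.append x (0 : Fin 2 → ℂ)) x0 :
        Fin (n + 2 + 1) → ℂ)
      (Fin.append (fun l => (sn (Fin.append (E l)
          (fun i => if (![k, j] : Fin 2 → Fin n) i = l then (1 : ℂ) else 0)) (E0 l) :
          Fin (n + 2 + 1) → ℂ))
        (fun i => (sn (Fin.append ((![w, r] : Fin 2 → Fin n → ℂ) i) (0 : Fin 2 → ℂ))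
          ((![w0, r0] : Fin 2 → ℂ) i) : Fin (n + 2 + 1) → ℂ)))) =
        Matrix.det (cn (sn (Fin.append x (0 : Fin 1 → ℂ)) x0 : Fin (n + 1 + 1) → ℂ)
      (Fin.append (Function.update (fun l => (sn (Fin.append (E l)
          (fun _ : Fin 1 => if k = l then (1 : ℂ) else 0)) (E0 l) :
          Fin (n + 1 + 1) → ℂ)) j (sn (Fin.append r (0 : Fin 1 → ℂ)) r0))
        (fun _ : Fin 1 => (sn (Fin.append w (0 : Fin 1 → ℂ)) w0 : Fin (n + 1 + 1) → ℂ)))) := by
      rw [← h1]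
      simp only [e1, e2, C3_sn0]
    rw [h2]
    split_ifs with hkj
    · subst hkj
      refine Matrix.det_eq_zero_of_column_eq_zero (Fin.castSucc (Fin.natAdd n (0 : Fin 1))) ?_
      intro i
      refine Fin.cases ?_ (fun i' => ?_) i
      · simp only [cn, Fin.cons_zero]
        rw [C3_ent]
        rfl
      · simp only [cn, Fin.cons_succ]
        refine Fin.addCases (fun l => ?_) (fun l => ?_) i'
        · rw [Fin.append_left]
          by_cases hl : l = k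
          · rw [hl, Function.update_self, C3_ent]
            rfl
          · rw [Function.update_of_ne hl, C3_ent, if_neg (Ne.symm hl)]
        · rw [Fin.append_right, C3_ent]
          rfl
    · have h3 := det_snoc (q := 0) x (0 : Fin 0 → ℂ) x0 (Function.update E j r) (fun _ => 0)
        (Function.update E0 j r0) Fin.elim0 Fin.elim0 Fin.elim0 w (0 : Fin 0 → ℂ) w0 k
      have e4 : (fun l => (sn (Fin.append (Function.update E j r l)
          (sn (0 : Fin 0 → ℂ) (if l = k then (1 : ℂ) else 0))) (Function.update E0 j r0 l) :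
            Fin (n + (0 + 1) + 1) → ℂ)) =
          Function.update (fun l => (sn (Fin.append (E l)
          (fun _ : Fin 1 => if k = l then (1 : ℂ) else 0)) (E0 l) :
          Fin (n + 1 + 1) → ℂ)) j (sn (Fin.append r (0 : Fin 1 → ℂ)) r0) := by
        funext l
        by_cases hl : l = j
        · rw [hl, Function.update_self, Function.update_self, Function.update_self,
            if_neg (Ne.symm hkj), C3_sn0]
        · rw [Function.update_of_ne hl, Function.update_of_ne hl, Function.update_of_ne hl]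
          congr 2
          funext i
          have : i = Fin.last 0 := Fin.ext (by simp)
          rw [this]
          simp only [sn, Fin.snoc_last]
          exact if_congr eq_comm rfl rfl
      have e5 : (fun l => (sn (Fin.append (Function.update E j r l) (0 : Fin 0 → ℂ))
          (Function.update E0 j r0 l) : Fin (n + 0 + 1) → ℂ)) =
          Function.update (fun l : Fin n => (sn (Fin.append (E l) (0 : Fin 0 → ℂ)) (E0 l) :
            Fin (n + 0 + 1) → ℂ)) j (sn (Fin.append r (0 : Fin 0 → ℂ)) r0) := by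
        funext l
        by_cases hl : l = j
        · rw [hl, Function.update_self, Function.update_self, Function.update_self]
        · rw [Function.update_of_ne hl, Function.update_of_ne hl, Function.update_of_ne hl]
      rw [e4, C3_sn0] at h3
      rw [← e5]
      refine (Eq.trans ?_ h3).trans ?_
      · congr 3
      · exact congrArg (fun Y => Matrix.det (cn (sn (Fin.append x (0 : Fin 0 → ℂ)) x0 :
          Fin (n + 0 + 1) → ℂ) Y)) (C3_app0 _ _)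
  rw [← (finTwoArrowEquiv (Fin n)).symm.sum_comp, Fintype.sum_prod_type]
  refine Finset.sum_congr rfl fun k _ => ?_
  simp only [finTwoArrowEquiv_symm_apply, hterm]
  rw [← Finset.add_sum_erase Finset.univ _ (Finset.mem_univ k)]
  simp only [if_true, zero_smul, zero_add]
  refine Finset.sum_congr rfl fun j hj => ?_
  rw [if_neg (Ne.symm (Finset.ne_of_mem_erase hj))]
  rfl

private theorem C3_sn_norm {m q : ℕ} {f : Fin m → ℂ} {g : Fin q → ℂ} {a : ℂ} {K : ℝ} (hK : 0 ≤ K)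
    (hf : ‖f‖ ≤ K) (hg : ‖g‖ ≤ K) (ha : ‖a‖ ≤ K) :
    ‖(sn (Fin.append f g) a : Fin (m + q + 1) → ℂ)‖ ≤ K := by
  rw [pi_norm_le_iff_of_nonneg hK]
  intro i
  refine Fin.lastCases ?_ (fun j => ?_) i
  · simpa [sn] using ha
  · simp only [sn, Fin.snoc_castSucc]
    refine Fin.addCases (fun l => ?_) (fun l => ?_) j
    · rw [Fin.append_left]
      exact (norm_le_pi_norm f l).trans hf
    · rw [Fin.append_right]
      exact (norm_le_pi_norm g l).trans hg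

private theorem C3_rx (δ : Ec n → ℝ) (h : Ec n → Ec n → Fin n → ℂ) (ε τ : ℝ) (q : ℕ)
    (z ζ : Ec n) :
    rx δ h ε q τ z ζ = (1 - (τ : ℂ)) • rx δ h ε q 0 z ζ + (τ : ℂ) • rx δ h ε q 1 z ζ ∧
      rτ δ h ε q z ζ = rx δ h ε q 1 z ζ - rx δ h ε q 0 z ζ := by
  constructor
  · funext i
    refine Fin.lastCases ?_ (fun j => ?_) i
    · simp only [rx, sn, Fin.snoc_last, Pi.add_apply, Pi.smul_apply, smul_eq_mul, w0]
      push_cast
      ring
    · refine Fin.addCases (fun l => ?_) (fun l => ?_) j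
      · simp only [rx, sn, Fin.snoc_castSucc, Fin.append_left, Pi.add_apply, Pi.smul_apply,
          smul_eq_mul, wk]
        push_cast
        ring
      · simp only [rx, sn, Fin.snoc_castSucc, Fin.append_right, Pi.add_apply, Pi.smul_apply,
          smul_eq_mul, Pi.zero_apply]
        ring
  · funext i
    refine Fin.lastCases ?_ (fun j => ?_) i
    · simp only [rx, rτ, sn, Fin.snoc_last, Pi.sub_apply, w0]
      push_cast
      ring
    · refine Fin.addCases (fun l => ?_) (fun l => ?_) j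
      · simp only [rx, rτ, sn, Fin.snoc_castSucc, Fin.append_left, Pi.sub_apply, wk]
        push_cast
        ring
      · simp only [rx, rτ, sn, Fin.snoc_castSucc, Fin.append_right, Pi.sub_apply, Pi.zero_apply]
        ring

private theorem C3_lin {m : ℕ} (x : Fin (m + 1) → ℂ) (Y : Fin m → Fin (m + 1) → ℂ) (j k : Fin m)
    (hjk : j ≠ k) (s : ℂ) (v b : Fin (m + 1) → ℂ) :
    Matrix.det (cn x (Function.update (Function.update Y j (s • v)) k b)) =
      s * Matrix.det (cn x (Function.update (Function.update Y j v) k b)) := by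
  have h1 : ∀ u : Fin (m + 1) → ℂ, (cn x (Function.update (Function.update Y j u) k b) :
      Fin (m + 1) → Fin (m + 1) → ℂ) =
      Matrix.updateRow (cn x (Function.update Y k b) : Matrix (Fin (m + 1)) (Fin (m + 1)) ℂ)
        j.succ u := by
    intro u
    rw [Function.update_comm hjk]
    exact Fin.cons_update (α := fun _ => Fin (m + 1) → ℂ) x (Function.update Y k b) j u
  have h2 := h1 (s • v)
  have h3 := h1 v
  have h4 := Matrix.det_updateRow_smul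
    (cn x (Function.update Y k b) : Matrix (Fin (m + 1)) (Fin (m + 1)) ℂ) j.succ s v
  calc Matrix.det (cn x (Function.update (Function.update Y j (s • v)) k b)) =
      Matrix.det (Matrix.updateRow (cn x (Function.update Y k b) :
        Matrix (Fin (m + 1)) (Fin (m + 1)) ℂ) j.succ (s • v)) := congrArg Matrix.det h2
    _ = s * Matrix.det (Matrix.updateRow (cn x (Function.update Y k b) :
        Matrix (Fin (m + 1)) (Fin (m + 1)) ℂ) j.succ v) := h4
    _ = _ := by rw [show (cn x (Function.update (Function.update Y j v) k b) :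
        Matrix (Fin (m + 1)) (Fin (m + 1)) ℂ) = _ from h3]

/-- The reduction to the rows of `τ = 0`, `τ = 1`. -/
private theorem C3_red {U : Set (Ec n)} {δ : Ec n → ℝ} {h : Ec n → Ec n → Fin n → ℂ} {c C A : ℝ}
    {P : PD n} (hg : Geo U δ h c C) (hP : PG P U δ h c C A) (κ ε τ : ℝ) {z ζ : Ec n}
    (hz : z ∈ Om U δ) (hζ : ζ ∈ Om U δ) (a : Fin n → V) :
    ∑ k, (∑ j ∈ Finset.univ.erase k, Matrix.det (cn (rx δ h ε 0 τ z ζ)
      (Function.update (Function.update (fun l : Fin n => rζ δ h ε Fin.elim0 τ z ζ (ee l)) j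
        (rq P δ κ z ζ (ee j))) k (rτ δ h ε 0 z ζ)))) • a k =
    ∑ k, ∑ j ∈ Finset.univ.erase k, Matrix.det (cn (rx δ h ε 0 0 z ζ)
      (Function.update (Function.update (fun l : Fin n => rζ δ h ε Fin.elim0 τ z ζ (ee l)) j
        (sn (Fin.append (Rv P δ κ z ζ) (0 : Fin 0 → ℂ)) 0 : Fin (n + 0 + 1) → ℂ)) k
          (rx δ h ε 0 1 z ζ))) • (db (fun y => (δ y : ℂ)) ζ (ee j) • a k) := by
  have hzW : z ∈ Wq P U := Kc_sub_Wq hP ⟨hz.1, hz.2.le⟩
  have hζW : ζ ∈ Wq P U := Kc_sub_Wq hP ⟨hζ.1, hζ.2.le⟩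
  refine Finset.sum_congr rfl fun k _ => ?_
  rw [Finset.sum_smul]
  refine Finset.sum_congr rfl fun j hj => ?_
  have hjk : j ≠ k := Finset.ne_of_mem_erase hj
  obtain ⟨e1, e2⟩ := C3_rx δ h ε τ 0 z ζ
  rw [e1, e2]
  have h1 := det_pair (rx δ h ε 0 0 z ζ) (rx δ h ε 0 1 z ζ)
    (Function.update (fun l : Fin n => rζ δ h ε Fin.elim0 τ z ζ (ee l)) j
        (rq P δ κ z ζ (ee j))) k (τ : ℂ)
  rw [h1, rq_eq hg hP κ hzW hζW, C3_lin _ _ _ _ hjk, smul_smul, mul_comm]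

/-- The coefficient in the adapted frame. -/
private theorem C3_coef {g : Fin n → ℂ} {ϑ : Ec n → ℂ}
    (hϑ : ∀ X, ϑ X = -(starRingEnd ℂ) (∑ k, g k * X k)) (X : Fin 2 → Ec n) (a : Fin n → V) :
    ∑ I : Fin 2 → Fin n, (∏ j, (starRingEnd ℂ) (X j (I j))) • (ϑ (ee (I 1)) • a (I 0)) =
      ϑ (X 1) • ∑ k, (starRingEnd ℂ) (X 0 k) • a k := by
  have he : ∀ j : Fin n, ϑ (ee j) = -(starRingEnd ℂ) (g j) := by
    intro j
    rw [hϑ]
    congr 2
    rw [Finset.sum_eq_single j]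
    · simp [ee]
    · intro b _ hb
      simp [ee, hb]
    · intro hb
      exact absurd (Finset.mem_univ j) hb
  rw [← (finTwoArrowEquiv (Fin n)).symm.sum_comp, Fintype.sum_prod_type, Finset.smul_sum]
  refine Finset.sum_congr rfl fun k _ => ?_
  simp only [finTwoArrowEquiv_symm_apply, Fin.prod_univ_two, he]
  change ∑ j : Fin n, ((starRingEnd ℂ) (X 0 k) * (starRingEnd ℂ) (X 1 j)) •
    (-(starRingEnd ℂ) (g j) • a k) = _
  rw [hϑ (X 1), map_sum, ← Finset.sum_neg_distrib, Finset.sum_smul]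
  refine Finset.sum_congr rfl fun j _ => ?_
  rw [smul_smul, smul_smul, map_mul]
  congr 1
  ring

/-- `conj` of the entries of the basis vectors -/
private theorem C3_ee (l i : Fin n) :
    (starRingEnd ℂ) ((ee l : Ec n) i) = if i = l then (1 : ℂ) else 0 := by
  simp only [ee]
  by_cases hil : i = l
  · rw [hil]
    simp
  · simp [hil]

private theorem C3_two_col {q : ℕ} (x : Fin n → ℂ) (x0 : ℂ) (E : Fin n → Fin n → ℂ)
    (E0 : Fin n → ℂ) (y : Fin q → Fin n → ℂ) (y0 : Fin q → ℂ) (L : Fin q → Fin n) (i j : Fin q)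
    (hij : i ≠ j) (hL : L i = L j) :
    Matrix.det (cn (sn (Fin.append x (0 : Fin q → ℂ)) x0 : Fin (n + q + 1) → ℂ)
      (Fin.append (fun l => (sn (Fin.append (E l) (fun j => if L j = l then (1 : ℂ) else 0)) (E0 l) :
          Fin (n + q + 1) → ℂ))
        (fun i => (sn (Fin.append (y i) (0 : Fin q → ℂ)) (y0 i) : Fin (n + q + 1) → ℂ)))) = 0 := by
  refine Matrix.det_zero_of_column_eq (i := Fin.castSucc (Fin.natAdd n i))
    (j := Fin.castSucc (Fin.natAdd n j)) ?_ ?_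
  · intro h
    apply hij
    have := congrArg Fin.val h
    simp only [Fin.val_castSucc, Fin.val_natAdd] at this
    exact Fin.ext (by omega)
  · intro k
    refine Fin.cases ?_ (fun k' => ?_) k
    · simp only [cn, Fin.cons_zero]
      rw [C3_ent, C3_ent]
      rfl
    · simp only [cn, Fin.cons_succ]
      refine Fin.addCases (fun l => ?_) (fun l => ?_) k'
      · rw [Fin.append_left, C3_ent, C3_ent, hL]
      · rw [Fin.append_right, C3_ent, C3_ent]
        rfl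

private theorem C3_ppk (g : Fin n → ℂ) (k₀ : Fin n) : pp g k₀ k₀ = ee k₀ := by
  simp [pp]

/-- The bound near the boundary. -/
private theorem C3_case1 (n : ℕ) (c C : ℝ) : ∃ C' : ℝ, 0 < C' ∧ ∀ (U : Set (Ec n))
    (δ : Ec n → ℝ) (h : Ec n → Ec n → Fin n → ℂ), Geo U δ h c C → ∀ ε : ℝ, 0 < ε → ε ≤ 1 →
    ∀ τ ∈ Icc (0 : ℝ) 1, ∀ z ∈ Om U δ, ∀ ζ ∈ Om U δ, δ ζ < c → ∀ (a : Fin n → V) (Nn : ℝ),
    0 ≤ Nn → (∀ X : Ec n, ‖∑ k, (starRingEnd ℂ) (X k) • a k‖ ≤ Nn * gau δ h ζ X) →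
    ∀ R : Fin n → ℂ,
    ‖∑ k, ∑ j ∈ Finset.univ.erase k, Matrix.det (cn (rx δ h ε 0 0 z ζ)
      (Function.update (Function.update (fun l : Fin n => rζ δ h ε Fin.elim0 τ z ζ (ee l)) j
        (sn (Fin.append R (0 : Fin 0 → ℂ)) 0 : Fin (n + 0 + 1) → ℂ)) k
          (rx δ h ε 0 1 z ζ))) • (db (fun y => (δ y : ℂ)) ζ (ee j) • a k)‖ ≤
      C' * Nn * ‖R‖ * Real.sqrt (δ ζ) * (‖ζ - z‖ + ε * δ ζ) := by
  obtain ⟨C2, hC2, hpg⟩ := pp_gau n c C
  obtain ⟨K, hK⟩ : ∃ K : ℝ, K = |(1 + C / c) * ((1 + C) * (1 + C / c))| + |(2 * C + 1) * C| + 1 :=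
    ⟨_, rfl⟩
  have hK1 : 1 ≤ K := by
    have t1 := abs_nonneg ((1 + C / c) * ((1 + C) * (1 + C / c)))
    have t2 := abs_nonneg ((2 * C + 1) * C)
    rw [hK]
    linarith
  obtain ⟨c1, hc1⟩ : ∃ c1 : ℝ, c1 = |1 + C / c| + 1 := ⟨_, rfl⟩
  have hc10 : 1 ≤ c1 := by rw [hc1]; nlinarith [abs_nonneg (1 + C / c)]
  obtain ⟨C3, hC3⟩ : ∃ C3 : ℝ, C3 = |C| + 1 := ⟨_, rfl⟩
  have hC31 : 1 ≤ C3 := by rw [hC3]; nlinarith [abs_nonneg C]
  refine ⟨((Fintype.card (Fin 2 → Fin n) : ℝ) + 1) *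
    (((n + 2 + 1).factorial * K ^ n) * c1 * (c1 * C3) * (C3 * C2)), by positivity, ?_⟩
  intro U δ h hg ε hε hε1 τ hτ z hz ζ hζ hsc a Nn hNn ha R
  have hs : 0 < δ ζ := hζ.2
  have hCC : C ≤ C3 := by rw [hC3]; linarith [le_abs_self C]
  have hc0 := hg.c0
  have hC1 := hg.C1
  have hcc1 : 1 + C / c ≤ c1 := by rw [hc1]; linarith [le_abs_self (1 + C / c)]
  have hCc : 0 ≤ 1 + C / c := by positivity
  -- the index
  obtain ⟨k₀, hk₀⟩ : ∃ k₀, c ≤ ‖h ζ ζ k₀‖ := by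
    by_contra hcon
    push Not at hcon
    have h1 : ‖h ζ ζ‖ < c := (pi_norm_lt_iff hc0).mpr hcon
    have h2 := hg.nd ζ hζ.1 hs hsc
    linarith
  have hgk : h ζ ζ k₀ ≠ 0 := by
    intro h0
    rw [h0, norm_zero] at hk₀
    linarith
  have hgC : ‖h ζ ζ‖ ≤ C := hg.bh ζ hζ.1 ζ hζ.1
  obtain ⟨D, hD⟩ : ∃ D : Ec n → Fin n → ℂ, D = fun X k => (1 - τ) * (starRingEnd ℂ) (X k) +
    τ * db (fun y => h z y k) ζ X := ⟨_, rfl⟩
  obtain ⟨D0, hD0⟩ : ∃ D0 : Ec n → ℂ, D0 = fun X => ((1 - τ) * (2 * ε ^ 2 * δ ζ) + τ) *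
    db (fun y => (δ y : ℂ)) ζ X := ⟨_, rfl⟩
  have hrows : (fun l : Fin n => rζ δ h ε Fin.elim0 τ z ζ (ee l)) = fun l =>
      (sn (Fin.append (D (ee l)) (0 : Fin 0 → ℂ)) (D0 (ee l)) : Fin (n + 0 + 1) → ℂ) := by
    funext l
    rw [hD, hD0]
    simp only [rζ]
    congr 2
    funext j
    exact j.elim0
  have hϑ : ∀ X : Ec n, db (fun y => (δ y : ℂ)) ζ X =
      -(starRingEnd ℂ) (∑ k, h ζ ζ k * X k) := fun X => db_δ hg hζ.1 X
  have htwo := two_rows (wk h 0 z ζ) (w0 δ ε 0 ζ : ℂ) (fun l => D (ee l)) (fun l => D0 (ee l))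
    (wk h 1 z ζ) R (w0 δ ε 1 ζ : ℂ) 0 (fun k j => db (fun y => (δ y : ℂ)) ζ (ee j) • a k)
  have hfr := frame (q := 2) (h ζ ζ) k₀ hgk D D0 (by
      intro b X X'
      rw [hD]
      funext k
      simp only [Pi.add_apply, Pi.smul_apply, smul_eq_mul, db_conj_lin, PiLp.add_apply,
        PiLp.smul_apply, map_add, map_mul]
      ring) (by
      intro b X X'
      rw [hD0]
      simp only [db_conj_lin, smul_eq_mul]
      ring) (wk h 0 z ζ) (w0 δ ε 0 ζ : ℂ) ![wk h 1 z ζ, R] ![(w0 δ ε 1 ζ : ℂ), 0]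
      (fun I => db (fun y => (δ y : ℂ)) ζ (ee (I 1)) • a (I 0))
  simp only [C3_ee] at hfr
  rw [hrows]
  change ‖∑ k, ∑ j ∈ Finset.univ.erase k, Matrix.det (cn (sn (Fin.append (wk h 0 z ζ)
      (0 : Fin 0 → ℂ)) (w0 δ ε 0 ζ : ℂ) : Fin (n + 0 + 1) → ℂ)
      (Function.update (Function.update (fun l => (sn (Fin.append (D (ee l)) (0 : Fin 0 → ℂ))
        (D0 (ee l)) : Fin (n + 0 + 1) → ℂ)) j
        (sn (Fin.append R (0 : Fin 0 → ℂ)) 0 : Fin (n + 0 + 1) → ℂ)) k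
          (sn (Fin.append (wk h 1 z ζ) (0 : Fin 0 → ℂ)) (w0 δ ε 1 ζ : ℂ)))) •
            (db (fun y => (δ y : ℂ)) ζ (ee j) • a k)‖ ≤ _
  rw [htwo, hfr]
  -- constants
  have hsqrt : 0 < Real.sqrt (δ ζ) := Real.sqrt_pos.mpr hs
  have hd : 0 ≤ ‖ζ - z‖ := norm_nonneg _
  have hw00 : w0 δ ε 0 ζ = ε ^ 2 * δ ζ ^ 2 := by simp [w0]
  have hw01 : w0 δ ε 1 ζ = δ ζ := by simp [w0]
  have hwk1 : ‖wk h 1 z ζ‖ ≤ C := by
    have : wk h 1 z ζ = h z ζ := by
      funext k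
      simp [wk]
    rw [this]
    exact hg.bh z hz.1 ζ hζ.1
  have hwk0 : ‖wk h 0 z ζ‖ ≤ ‖ζ - z‖ := by
    rw [pi_norm_le_iff_of_nonneg hd]
    intro k
    have : wk h 0 z ζ k = (starRingEnd ℂ) ((ζ - z) k) := by simp [wk]
    rw [this, RCLike.norm_conj]
    exact PiLp.norm_apply_le (ζ - z) k
  have hDn : ∀ X : Ec n, ‖D X‖ ≤ (1 + C) * ‖X‖ := by
    intro X
    rw [hD]
    exact rζ_norm hg hz.1 hζ.1 hτ X
  have hsC : δ ζ ≤ C := hg.bδ ζ hζ.1
  have hcoefn : ‖(1 - (τ : ℂ)) * (2 * (ε : ℂ) ^ 2 * (δ ζ : ℂ)) + (τ : ℂ)‖ ≤ 2 * C + 1 := by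
    have e1 : (1 - (τ : ℂ)) * (2 * (ε : ℂ) ^ 2 * (δ ζ : ℂ)) + (τ : ℂ) =
      (((1 - τ) * (2 * ε ^ 2 * δ ζ) + τ : ℝ) : ℂ) := by push_cast; ring
    have hτ1 : 0 ≤ 1 - τ := by linarith [hτ.2]
    have hτ0 := hτ.1
    rw [e1, Complex.norm_real, Real.norm_eq_abs, abs_of_nonneg (by positivity)]
    have e2 : ε ^ 2 ≤ 1 := by nlinarith
    have e3 : 2 * ε ^ 2 * δ ζ ≤ 2 * C := by nlinarith
    have e4 : (1 - τ) * (2 * ε ^ 2 * δ ζ) ≤ 1 * (2 * C) :=
      mul_le_mul (by linarith) e3 (by positivity) zero_le_one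
    linarith [hτ.2]
  obtain ⟨T, hT⟩ : ∃ T : ℝ, T = (((n + 2 + 1).factorial * K ^ n) * c1 * (c1 * C3) * (C3 * C2)) *
    Nn * ‖R‖ * Real.sqrt (δ ζ) * (‖ζ - z‖ + ε * δ ζ) := ⟨_, rfl⟩
  have hT0 : 0 ≤ T := by rw [hT]; positivity
  have hbd : ∀ L ∈ (Finset.univ : Finset (Fin 2 → Fin n)), ‖Matrix.det (cn (sn (Fin.append
      (tc (h ζ ζ) k₀ (wk h 0 z ζ)) (0 : Fin 2 → ℂ)) (w0 δ ε 0 ζ : ℂ) : Fin (n + 2 + 1) → ℂ)
      (Fin.append (fun l => (sn (Fin.append (tc (h ζ ζ) k₀ (D (pp (h ζ ζ) k₀ l)))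
          (fun j => if L j = l then (1 : ℂ) else 0)) (D0 (pp (h ζ ζ) k₀ l)) :
            Fin (n + 2 + 1) → ℂ))
        (fun i => (sn (Fin.append (tc (h ζ ζ) k₀ ((![wk h 1 z ζ, R] : Fin 2 → Fin n → ℂ) i))
          (0 : Fin 2 → ℂ)) ((![(w0 δ ε 1 ζ : ℂ), 0] : Fin 2 → ℂ) i) :
          Fin (n + 2 + 1) → ℂ)))) •
      ∑ I : Fin 2 → Fin n, (∏ j, (starRingEnd ℂ) ((pp (h ζ ζ) k₀ (L j)) (I j))) •
        (db (fun y => (δ y : ℂ)) ζ (ee (I 1)) • a (I 0))‖ ≤ T := by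
    intro L _
    rw [C3_coef hϑ (fun j => pp (h ζ ζ) k₀ (L j)) a]
    by_cases hL1 : L 1 = k₀
    · by_cases hL0 : L 0 = k₀
      · rw [C3_two_col _ _ _ _ _ _ L 0 1 (by decide) (hL0.trans hL1.symm), zero_smul, norm_zero]
        exact hT0
      · have hfb := frame_bound (q := 2) k₀ (tc (h ζ ζ) k₀ (wk h 0 z ζ)) (w0 δ ε 0 ζ : ℂ)
          (fun l => tc (h ζ ζ) k₀ (D (pp (h ζ ζ) k₀ l))) (fun l => D0 (pp (h ζ ζ) k₀ l))
          (fun i => tc (h ζ ζ) k₀ ((![wk h 1 z ζ, R] : Fin 2 → Fin n → ℂ) i))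
          (![(w0 δ ε 1 ζ : ℂ), 0] : Fin 2 → ℂ) 0 L K hK1 ?_ ?_ ?_ ?_
        · rw [if_pos ⟨1, hL1⟩] at hfb
          have hera : (Finset.univ.erase (0 : Fin 2)) = {1} := by decide
          rw [hera, Finset.prod_singleton] at hfb
          simp only [Matrix.cons_val_zero, Matrix.cons_val_one, add_zero, hw00, hw01,
            Complex.norm_real, Real.norm_eq_abs] at hfb
          rw [abs_of_nonneg (by positivity : 0 ≤ ε ^ 2 * δ ζ ^ 2), abs_of_pos hs] at hfb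
          have n1 := tc_norm n hc0 (by linarith : 0 ≤ C) hk₀ hgC R
          have n2 := tc_norm n hc0 (by linarith : 0 ≤ C) hk₀ hgC (wk h 1 z ζ)
          have n3 := tc_norm n hc0 (by linarith : 0 ≤ C) hk₀ hgC (wk h 0 z ζ)
          have m1 : ‖tc (h ζ ζ) k₀ R‖ ≤ c1 * ‖R‖ :=
            n1.trans (mul_le_mul_of_nonneg_right hcc1 (norm_nonneg _))
          have m2 : ‖tc (h ζ ζ) k₀ (wk h 1 z ζ)‖ ≤ c1 * C3 :=
            n2.trans (mul_le_mul hcc1 (hwk1.trans hCC) (norm_nonneg _) (by linarith))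
          have m3 : ‖tc (h ζ ζ) k₀ (wk h 0 z ζ)‖ ≤ c1 * ‖ζ - z‖ :=
            n3.trans (mul_le_mul hcc1 hwk0 (norm_nonneg _) (by linarith))
          have hdet : ‖Matrix.det (cn (sn (Fin.append
              (tc (h ζ ζ) k₀ (wk h 0 z ζ)) (0 : Fin 2 → ℂ)) (w0 δ ε 0 ζ : ℂ) :
                Fin (n + 2 + 1) → ℂ)
              (Fin.append (fun l => (sn (Fin.append (tc (h ζ ζ) k₀ (D (pp (h ζ ζ) k₀ l)))
                  (fun j => if L j = l then (1 : ℂ) else 0)) (D0 (pp (h ζ ζ) k₀ l)) :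
                    Fin (n + 2 + 1) → ℂ))
                (fun i => (sn (Fin.append (tc (h ζ ζ) k₀
                  ((![wk h 1 z ζ, R] : Fin 2 → Fin n → ℂ) i))
                  (0 : Fin 2 → ℂ)) ((![(w0 δ ε 1 ζ : ℂ), 0] : Fin 2 → ℂ) i) :
                  Fin (n + 2 + 1) → ℂ))))‖ ≤ ((n + 2 + 1).factorial * K ^ n) * c1 * (c1 * C3) *
                (‖R‖ * (δ ζ * (‖ζ - z‖ + ε * δ ζ))) := by
            rw [hw00, hw01]
            refine hfb.trans ?_
            have q1 : ε ^ 2 * δ ζ ^ 2 ≤ δ ζ * (ε * δ ζ) := by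
              have : ε * (ε * δ ζ ^ 2) ≤ 1 * (ε * δ ζ ^ 2) :=
                mul_le_mul_of_nonneg_right hε1 (by positivity)
              nlinarith
            have q2 : ε ^ 2 * δ ζ ^ 2 * ‖tc (h ζ ζ) k₀ (wk h 1 z ζ)‖ +
                ‖tc (h ζ ζ) k₀ (wk h 0 z ζ)‖ * δ ζ ≤
                c1 * C3 * (δ ζ * (‖ζ - z‖ + ε * δ ζ)) := by
              have r1 : ε ^ 2 * δ ζ ^ 2 * ‖tc (h ζ ζ) k₀ (wk h 1 z ζ)‖ ≤
                  δ ζ * (ε * δ ζ) * (c1 * C3) :=
                mul_le_mul q1 m2 (norm_nonneg _) (by positivity)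
              have r2 : ‖tc (h ζ ζ) k₀ (wk h 0 z ζ)‖ * δ ζ ≤ c1 * ‖ζ - z‖ * δ ζ :=
                mul_le_mul_of_nonneg_right m3 hs.le
              have r3 : c1 * ‖ζ - z‖ * δ ζ ≤ C3 * (c1 * ‖ζ - z‖ * δ ζ) :=
                le_mul_of_one_le_left (by positivity) hC31
              nlinarith
            have q3 : 0 ≤ ε ^ 2 * δ ζ ^ 2 * ‖tc (h ζ ζ) k₀ (wk h 1 z ζ)‖ +
                ‖tc (h ζ ζ) k₀ (wk h 0 z ζ)‖ * δ ζ := by positivity
            calc _ ≤ ((n + 2 + 1).factorial * K ^ n) * (c1 * ‖R‖) *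
                  (c1 * C3 * (δ ζ * (‖ζ - z‖ + ε * δ ζ))) := by
                  refine mul_le_mul (mul_le_mul_of_nonneg_left m1 (by positivity)) q2 q3
                    (by positivity)
              _ = _ := by ring
          have hth : ‖db (fun y => (δ y : ℂ)) ζ (pp (h ζ ζ) k₀ (L 1))‖ ≤ C3 := by
            rw [hϑ, norm_neg, RCLike.norm_conj, hL1, C3_ppk, Finset.sum_eq_single k₀]
            · refine le_trans ?_ (hgC.trans hCC)
              simp only [ee, PiLp.single_apply, if_true, mul_one]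
              exact norm_le_pi_norm (h ζ ζ) k₀
            · intro b _ hb
              simp [ee, hb]
            · intro hb
              exact absurd (Finset.mem_univ k₀) hb
          have hS : ‖∑ k, (starRingEnd ℂ) ((pp (h ζ ζ) k₀ (L 0)) k) • a k‖ ≤
              Nn * (C2 / Real.sqrt (δ ζ)) :=
            (ha _).trans (mul_le_mul_of_nonneg_left ((hpg U δ h hg ζ hζ k₀ hk₀).1 (L 0) hL0) hNn)
          rw [norm_smul, norm_smul, hT]
          calc _ ≤ ((n + 2 + 1).factorial * K ^ n) * c1 * (c1 * C3) *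
                (‖R‖ * (δ ζ * (‖ζ - z‖ + ε * δ ζ))) * (C3 * (Nn * (C2 / Real.sqrt (δ ζ)))) := by
                refine mul_le_mul hdet (mul_le_mul hth hS (norm_nonneg _) (by linarith))
                  (by positivity) (by positivity)
            _ = ((n + 2 + 1).factorial * K ^ n) * c1 * (c1 * C3) * (C3 * C2) * Nn * ‖R‖ *
                (δ ζ / Real.sqrt (δ ζ)) * (‖ζ - z‖ + ε * δ ζ) := by ring
            _ = _ := by rw [Real.div_sqrt]
        · intro l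
          refine (tc_norm n hc0 (by linarith : 0 ≤ C) hk₀ hgC _).trans ?_
          have h1 := pp_norm n hc0 (by linarith : 0 ≤ C) hk₀ hgC l
          have h2 : ‖D (pp (h ζ ζ) k₀ l)‖ ≤ (1 + C) * (1 + C / c) :=
            (hDn _).trans (mul_le_mul_of_nonneg_left h1 (by linarith))
          have h3 : (1 + C / c) * ‖D (pp (h ζ ζ) k₀ l)‖ ≤
              (1 + C / c) * ((1 + C) * (1 + C / c)) := mul_le_mul_of_nonneg_left h2 hCc
          have t1 := le_abs_self ((1 + C / c) * ((1 + C) * (1 + C / c)))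
          have t2 := abs_nonneg ((2 * C + 1) * C)
          rw [hK]
          linarith
        · intro l hl
          rw [hD0]
          beta_reduce
          rw [hϑ, pp_tan hgk hl, map_zero, neg_zero, mul_zero]
        · rw [hD0]
          beta_reduce
          have hth : ‖db (fun y => (δ y : ℂ)) ζ (pp (h ζ ζ) k₀ k₀)‖ ≤ C := by
            rw [hϑ, norm_neg, RCLike.norm_conj, C3_ppk, Finset.sum_eq_single k₀]
            · refine le_trans ?_ hgC
              simp only [ee, PiLp.single_apply, if_true, mul_one]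
              exact norm_le_pi_norm (h ζ ζ) k₀
            · intro b _ hb
              simp [ee, hb]
            · intro hb
              exact absurd (Finset.mem_univ k₀) hb
          rw [norm_mul]
          have h3 : ‖(1 - (τ : ℂ)) * (2 * (ε : ℂ) ^ 2 * (δ ζ : ℂ)) + (τ : ℂ)‖ *
              ‖db (fun y => (δ y : ℂ)) ζ (pp (h ζ ζ) k₀ k₀)‖ ≤ (2 * C + 1) * C :=
            mul_le_mul hcoefn hth (norm_nonneg _) (by linarith)
          have t1 := abs_nonneg ((1 + C / c) * ((1 + C) * (1 + C / c)))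
          have t2 := le_abs_self ((2 * C + 1) * C)
          rw [hK]
          linarith
        · intro i hi
          have : i = 1 := by
            fin_cases i
            · exact absurd rfl hi
            · rfl
          rw [this]
          rfl
    · have : db (fun y => (δ y : ℂ)) ζ (pp (h ζ ζ) k₀ (L 1)) = 0 := by
        rw [hϑ, pp_tan hgk hL1, map_zero, neg_zero]
      rw [this, zero_smul, smul_zero, norm_zero]
      exact hT0
  refine (norm_sum_le_of_le _ hbd).trans ?_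
  rw [Finset.sum_const, nsmul_eq_mul, Finset.card_univ, hT]
  have hfin : 0 ≤ (((n + 2 + 1).factorial * K ^ n) * c1 * (c1 * C3) * (C3 * C2)) *
    Nn * ‖R‖ * Real.sqrt (δ ζ) * (‖ζ - z‖ + ε * δ ζ) := hT ▸ hT0
  calc _ ≤ ((Fintype.card (Fin 2 → Fin n) : ℝ) + 1) *
      ((((n + 2 + 1).factorial * K ^ n) * c1 * (c1 * C3) * (C3 * C2)) *
        Nn * ‖R‖ * Real.sqrt (δ ζ) * (‖ζ - z‖ + ε * δ ζ)) := by
        refine mul_le_mul_of_nonneg_right ?_ hfin
        linarith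
    _ = _ := by ring

/-- The bound away from the boundary. -/
private theorem C3_case2 (n : ℕ) (c C : ℝ) : ∃ C' : ℝ, 0 < C' ∧ ∀ (U : Set (Ec n))
    (δ : Ec n → ℝ) (h : Ec n → Ec n → Fin n → ℂ), Geo U δ h c C → ∀ ε : ℝ, 0 < ε → ε ≤ 1 →
    ∀ τ ∈ Icc (0 : ℝ) 1, ∀ z ∈ Om U δ, ∀ ζ ∈ Om U δ, c ≤ δ ζ → ∀ (a : Fin n → V) (Nn : ℝ),
    0 ≤ Nn → (∀ X : Ec n, ‖∑ k, (starRingEnd ℂ) (X k) • a k‖ ≤ Nn * gau δ h ζ X) →
    ∀ R : Fin n → ℂ,
    ‖∑ k, ∑ j ∈ Finset.univ.erase k, Matrix.det (cn (rx δ h ε 0 0 z ζ)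
      (Function.update (Function.update (fun l : Fin n => rζ δ h ε Fin.elim0 τ z ζ (ee l)) j
        (sn (Fin.append R (0 : Fin 0 → ℂ)) 0 : Fin (n + 0 + 1) → ℂ)) k
          (rx δ h ε 0 1 z ζ))) • (db (fun y => (δ y : ℂ)) ζ (ee j) • a k)‖ ≤
      C' * Nn * ‖R‖ * Real.sqrt (δ ζ) * (‖ζ - z‖ + ε * δ ζ) := by
  obtain ⟨C4, hC4, hgau⟩ := gau_le n c C
  obtain ⟨K, hK⟩ : ∃ K : ℝ, K = |1 + C| + |(2 * C + 1) * C| + |C| + 1 := ⟨_, rfl⟩
  have hK1 : 1 ≤ K := by
    have t1 := abs_nonneg (1 + C)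
    have t2 := abs_nonneg ((2 * C + 1) * C)
    have t3 := abs_nonneg C
    rw [hK]
    linarith
  obtain ⟨C3, hC3⟩ : ∃ C3 : ℝ, C3 = |C| + 1 := ⟨_, rfl⟩
  have hC31 : 1 ≤ C3 := by rw [hC3]; nlinarith [abs_nonneg C]
  obtain ⟨M1, hM1⟩ : ∃ M : ℝ, M = |C4 / c| + 1 := ⟨_, rfl⟩
  have hM11 : 1 ≤ M1 := by rw [hM1]; nlinarith [abs_nonneg (C4 / c)]
  obtain ⟨M2, hM2⟩ : ∃ M : ℝ, M = |(Real.sqrt c)⁻¹| + 1 := ⟨_, rfl⟩
  have hM21 : 1 ≤ M2 := by rw [hM2]; nlinarith [abs_nonneg (Real.sqrt c)⁻¹]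
  refine ⟨((n : ℝ) * n + 1) *
    ((n + 1).factorial * (C3 * M2 * K ^ n) * (C3 * M1)), by positivity, ?_⟩
  intro U δ h hg ε hε hε1 τ hτ z hz ζ hζ hsc a Nn hNn ha R
  have hs : 0 < δ ζ := hζ.2
  have hCC : C ≤ C3 := by rw [hC3]; linarith [le_abs_self C]
  have hc0 := hg.c0
  have hC1 := hg.C1
  have hgC : ‖h ζ ζ‖ ≤ C := hg.bh ζ hζ.1 ζ hζ.1
  have hϑ : ∀ X : Ec n, db (fun y => (δ y : ℂ)) ζ X =
      -(starRingEnd ℂ) (∑ k, h ζ ζ k * X k) := fun X => db_δ hg hζ.1 X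
  have hth : ∀ j : Fin n, ‖db (fun y => (δ y : ℂ)) ζ (ee j)‖ ≤ C := by
    intro j
    rw [hϑ, norm_neg, RCLike.norm_conj, Finset.sum_eq_single j]
    · refine le_trans ?_ hgC
      simp only [ee, PiLp.single_apply, if_true, mul_one]
      exact norm_le_pi_norm (h ζ ζ) j
    · intro b _ hb
      simp [ee, hb]
    · intro hb
      exact absurd (Finset.mem_univ j) hb
  have hsqrt : 0 < Real.sqrt (δ ζ) := Real.sqrt_pos.mpr hs
  have hd : 0 ≤ ‖ζ - z‖ := norm_nonneg _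
  have hw00 : w0 δ ε 0 ζ = ε ^ 2 * δ ζ ^ 2 := by simp [w0]
  have hw01 : w0 δ ε 1 ζ = δ ζ := by simp [w0]
  have hwk1 : ‖wk h 1 z ζ‖ ≤ C := by
    have : wk h 1 z ζ = h z ζ := by
      funext k
      simp [wk]
    rw [this]
    exact hg.bh z hz.1 ζ hζ.1
  have hwk0 : ‖wk h 0 z ζ‖ ≤ ‖ζ - z‖ := by
    rw [pi_norm_le_iff_of_nonneg hd]
    intro k
    have : wk h 0 z ζ k = (starRingEnd ℂ) ((ζ - z) k) := by simp [wk]
    rw [this, RCLike.norm_conj]
    exact PiLp.norm_apply_le (ζ - z) k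
  have hsC : δ ζ ≤ C := hg.bδ ζ hζ.1
  have hcoefn : ‖(1 - (τ : ℂ)) * (2 * (ε : ℂ) ^ 2 * (δ ζ : ℂ)) + (τ : ℂ)‖ ≤ 2 * C + 1 := by
    have e1 : (1 - (τ : ℂ)) * (2 * (ε : ℂ) ^ 2 * (δ ζ : ℂ)) + (τ : ℂ) =
      (((1 - τ) * (2 * ε ^ 2 * δ ζ) + τ : ℝ) : ℂ) := by push_cast; ring
    have hτ1 : 0 ≤ 1 - τ := by linarith [hτ.2]
    have hτ0 := hτ.1
    rw [e1, Complex.norm_real, Real.norm_eq_abs, abs_of_nonneg (by positivity)]
    have e2 : ε ^ 2 ≤ 1 := by nlinarith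
    have e3 : 2 * ε ^ 2 * δ ζ ≤ 2 * C := by nlinarith
    have e4 : (1 - τ) * (2 * ε ^ 2 * δ ζ) ≤ 1 * (2 * C) :=
      mul_le_mul (by linarith) e3 (by positivity) zero_le_one
    linarith [hτ.2]
  have hKb : (1 + C) ≤ K ∧ (2 * C + 1) * C ≤ K ∧ C ≤ K := by
    have t1 := abs_nonneg (1 + C)
    have t2 := abs_nonneg ((2 * C + 1) * C)
    have t3 := abs_nonneg C
    have s1 := le_abs_self (1 + C)
    have s2 := le_abs_self ((2 * C + 1) * C)
    have s3 := le_abs_self C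
    rw [hK]
    refine ⟨by linarith, by linarith, by linarith⟩
  have hrow : ∀ l : Fin n, ‖rζ δ h ε Fin.elim0 τ z ζ (ee l)‖ ≤ K := by
    intro l
    unfold rζ
    refine C3_sn_norm (by linarith) ?_ ?_ ?_
    · have h1 := rζ_norm hg hz.1 hζ.1 hτ (ee l)
      have h2 : ‖(ee l : Ec n)‖ = 1 := by simp [ee]
      rw [h2, mul_one] at h1
      exact h1.trans hKb.1
    · rw [pi_norm_le_iff_of_nonneg (by linarith)]
      intro j
      exact j.elim0
    · rw [norm_mul]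
      exact (mul_le_mul hcoefn (hth l) (norm_nonneg _) (by linarith)).trans hKb.2.1
  have hrx1 : ‖rx δ h ε 0 1 z ζ‖ ≤ K := by
    unfold rx
    refine C3_sn_norm (by linarith) (hwk1.trans hKb.2.2) ?_ ?_
    · simp only [norm_zero]
      linarith
    · rw [hw01, Complex.norm_real, Real.norm_eq_abs, abs_of_pos hs]
      exact hsC.trans hKb.2.2
  have hrx0 : ‖rx δ h ε 0 0 z ζ‖ ≤ C3 * (‖ζ - z‖ + ε * δ ζ) := by
    have e0 : ‖ζ - z‖ ≤ C3 * (‖ζ - z‖ + ε * δ ζ) := by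
      have : 0 ≤ ε * δ ζ := by positivity
      nlinarith
    unfold rx
    refine C3_sn_norm (by positivity) (hwk0.trans e0) ?_ ?_
    · simp only [norm_zero]
      positivity
    · rw [hw00, Complex.norm_real, Real.norm_eq_abs, abs_of_nonneg (by positivity)]
      have e1 : ε * δ ζ ≤ C3 := by nlinarith
      have e2 : (ε * δ ζ) * (ε * δ ζ) ≤ C3 * (ε * δ ζ) :=
        mul_le_mul_of_nonneg_right e1 (by positivity)
      have e3 : 0 ≤ C3 * ‖ζ - z‖ := by positivity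
      nlinarith
  have hv : ‖(sn (Fin.append R (0 : Fin 0 → ℂ)) 0 : Fin (n + 0 + 1) → ℂ)‖ ≤ ‖R‖ := by
    refine C3_sn_norm (norm_nonneg _) le_rfl ?_ ?_
    · rw [norm_zero]
      exact norm_nonneg _
    · rw [norm_zero]
      exact norm_nonneg _
  have hak : ∀ k, ‖a k‖ ≤ Nn * M1 := by
    intro k
    have h1 := ha (ee k)
    have h2 : ∑ l, (starRingEnd ℂ) ((ee k : Ec n) l) • a l = a k := by
      simp only [C3_ee]
      simp
    rw [h2] at h1
    refine h1.trans (mul_le_mul_of_nonneg_left ?_ hNn)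
    have h3 := hgau U δ h hg ζ hζ (ee k)
    have h4 : ‖(ee k : Ec n)‖ = 1 := by simp [ee]
    rw [h4, mul_one] at h3
    refine h3.trans ?_
    have h5 : C4 / δ ζ ≤ C4 / c := by gcongr
    have h6 := le_abs_self (C4 / c)
    rw [hM1]
    linarith
  have hone : 1 ≤ M2 * Real.sqrt (δ ζ) := by
    have h1 : Real.sqrt c ≤ Real.sqrt (δ ζ) := Real.sqrt_le_sqrt hsc
    have h2 : 0 < Real.sqrt c := Real.sqrt_pos.mpr hc0
    have h3 : (Real.sqrt c)⁻¹ ≤ M2 := by rw [hM2]; linarith [le_abs_self (Real.sqrt c)⁻¹]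
    calc (1 : ℝ) = (Real.sqrt c)⁻¹ * Real.sqrt c := (inv_mul_cancel₀ h2.ne').symm
      _ ≤ M2 * Real.sqrt (δ ζ) := mul_le_mul h3 h1 h2.le (by linarith)
  obtain ⟨T, hT⟩ : ∃ T : ℝ, T = ((n + 1).factorial * (C3 * M2 * K ^ n) * (C3 * M1)) *
    Nn * ‖R‖ * Real.sqrt (δ ζ) * (‖ζ - z‖ + ε * δ ζ) := ⟨_, rfl⟩
  have hT0 : 0 ≤ T := by rw [hT]; positivity
  have hbd : ∀ k j : Fin n, ‖Matrix.det (cn (rx δ h ε 0 0 z ζ)
      (Function.update (Function.update (fun l : Fin n => rζ δ h ε Fin.elim0 τ z ζ (ee l)) j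
        (sn (Fin.append R (0 : Fin 0 → ℂ)) 0 : Fin (n + 0 + 1) → ℂ)) k
          (rx δ h ε 0 1 z ζ))) • (db (fun y => (δ y : ℂ)) ζ (ee j) • a k)‖ ≤
        if j = k then ‖Matrix.det (cn (rx δ h ε 0 0 z ζ)
      (Function.update (Function.update (fun l : Fin n => rζ δ h ε Fin.elim0 τ z ζ (ee l)) j
        (sn (Fin.append R (0 : Fin 0 → ℂ)) 0 : Fin (n + 0 + 1) → ℂ)) k
          (rx δ h ε 0 1 z ζ))) • (db (fun y => (δ y : ℂ)) ζ (ee j) • a k)‖ else T := by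
    intro k j
    split_ifs with hjk
    · exact le_rfl
    · have hdet := det_cn_le (rx δ h ε 0 0 z ζ)
        (Function.update (Function.update (fun l : Fin n => rζ δ h ε Fin.elim0 τ z ζ (ee l)) j
        (sn (Fin.append R (0 : Fin 0 → ℂ)) 0 : Fin (n + 0 + 1) → ℂ)) k
          (rx δ h ε 0 1 z ζ))
      have hprod : ∏ i : Fin n, ‖(Function.update (Function.update
          (fun l : Fin n => rζ δ h ε Fin.elim0 τ z ζ (ee l)) j
          (sn (Fin.append R (0 : Fin 0 → ℂ)) 0 : Fin (n + 0 + 1) → ℂ)) k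
          (rx δ h ε 0 1 z ζ)) i‖ ≤ ‖R‖ * K ^ n := by
        calc _ ≤ ∏ i : Fin n, (if i = j then ‖R‖ else K) := by
              refine Finset.prod_le_prod (fun i _ => norm_nonneg _) fun i _ => ?_
              by_cases hik : i = k
              · rw [hik, Function.update_self, if_neg (Ne.symm hjk)]
                exact hrx1
              · rw [Function.update_of_ne hik]
                by_cases hij : i = j
                · rw [hij, Function.update_self, if_pos rfl]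
                  exact hv
                · rw [Function.update_of_ne hij, if_neg hij]
                  exact hrow i
          _ = ‖R‖ * ∏ i ∈ Finset.univ.erase j, (if i = j then ‖R‖ else K) := by
              rw [← Finset.mul_prod_erase Finset.univ _ (Finset.mem_univ j), if_pos rfl]
          _ = ‖R‖ * K ^ (Finset.univ.erase j).card := by
              rw [← Finset.prod_const]
              congr 1
              refine Finset.prod_congr rfl fun i hi => ?_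
              rw [if_neg (Finset.ne_of_mem_erase hi)]
          _ ≤ ‖R‖ * K ^ n := by
              refine mul_le_mul_of_nonneg_left ?_ (norm_nonneg _)
              refine pow_le_pow_right₀ hK1 ?_
              simp
      rw [norm_smul, norm_smul, hT]
      have hdet2 : ‖Matrix.det (cn (rx δ h ε 0 0 z ζ)
        (Function.update (Function.update (fun l : Fin n => rζ δ h ε Fin.elim0 τ z ζ (ee l)) j
        (sn (Fin.append R (0 : Fin 0 → ℂ)) 0 : Fin (n + 0 + 1) → ℂ)) k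
          (rx δ h ε 0 1 z ζ)))‖ ≤ (n + 1).factorial *
            (C3 * (‖ζ - z‖ + ε * δ ζ) * (‖R‖ * K ^ n)) := by
        refine hdet.trans ?_
        refine mul_le_mul_of_nonneg_left ?_ (by positivity)
        exact mul_le_mul hrx0 hprod (Finset.prod_nonneg fun i _ => norm_nonneg _) (by positivity)
      have hq : 0 ≤ (n + 1).factorial * (C3 * (‖ζ - z‖ + ε * δ ζ) * (‖R‖ * K ^ n)) *
          (C3 * (Nn * M1)) := by positivity
      calc _ ≤ (n + 1).factorial * (C3 * (‖ζ - z‖ + ε * δ ζ) * (‖R‖ * K ^ n)) *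
            (C3 * (Nn * M1)) := by
            refine mul_le_mul hdet2 (mul_le_mul ((hth j).trans hCC) (hak k) (norm_nonneg _)
              (by linarith)) (by positivity) (by positivity)
        _ ≤ (n + 1).factorial * (C3 * (‖ζ - z‖ + ε * δ ζ) * (‖R‖ * K ^ n)) *
            (C3 * (Nn * M1)) * (M2 * Real.sqrt (δ ζ)) := le_mul_of_one_le_right hq hone
        _ = _ := by ring
  have hsum : ‖∑ k, ∑ j ∈ Finset.univ.erase k, Matrix.det (cn (rx δ h ε 0 0 z ζ)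
      (Function.update (Function.update (fun l : Fin n => rζ δ h ε Fin.elim0 τ z ζ (ee l)) j
        (sn (Fin.append R (0 : Fin 0 → ℂ)) 0 : Fin (n + 0 + 1) → ℂ)) k
          (rx δ h ε 0 1 z ζ))) • (db (fun y => (δ y : ℂ)) ζ (ee j) • a k)‖ ≤
      ∑ _k : Fin n, ∑ _j : Fin n, T := by
    refine norm_sum_le_of_le _ fun k _ => ?_
    have h1 : ∑ j ∈ Finset.univ.erase k, T ≤ ∑ _j : Fin n, T :=
      Finset.sum_le_sum_of_subset_of_nonneg (Finset.erase_subset _ _) fun _ _ _ => hT0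
    refine (norm_sum_le_of_le _ fun j hj => ?_).trans h1
    have h2 := hbd k j
    rwa [if_neg (Finset.ne_of_mem_erase hj)] at h2
  refine hsum.trans ?_
  rw [Finset.sum_const, Finset.sum_const, nsmul_eq_mul, nsmul_eq_mul, Finset.card_univ,
    Fintype.card_fin, hT]
  have hfin : 0 ≤ ((n + 1).factorial * (C3 * M2 * K ^ n) * (C3 * M1)) *
    Nn * ‖R‖ * Real.sqrt (δ ζ) * (‖ζ - z‖ + ε * δ ζ) := hT ▸ hT0
  calc _ = ((n : ℝ) * n) * (((n + 1).factorial * (C3 * M2 * K ^ n) * (C3 * M1)) *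
        Nn * ‖R‖ * Real.sqrt (δ ζ) * (‖ζ - z‖ + ε * δ ζ)) := by ring
    _ ≤ ((n : ℝ) * n + 1) * (((n + 1).factorial * (C3 * M2 * K ^ n) * (C3 * M1)) *
        Nn * ‖R‖ * Real.sqrt (δ ζ) * (‖ζ - z‖ + ε * δ ζ)) := by
        refine mul_le_mul_of_nonneg_right ?_ hfin
        linarith
    _ = _ := by ring

/-- The bound of the second part of the weighted kernel.
Notation: `d = ‖ζ - z‖`, `s = δ ζ`, `ϑ X = db δ ζ X`, `R` the vector `Rv`, `E l` the direction rows.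
PROOF. `rq P δ κ z ζ (ee j) = ϑ (ee j) • (R, 0)` by `rq_eq`. As in `Ker_pair` (`det_pair`), the first row and
the row `k` may be replaced by `rx .. 0` and `rx .. 1` (for `j ≠ k` the row `j` is not changed). So the
sum is `∑_k ∑_(j≠k) ϑ (ee j) det (rx 0; E, (R, 0) @ j, (rx 1) @ k) • a k`, and by `two_rows` it is
`∑_(I : Fin 2 → Fin n) det (..) • (ϑ (ee (I 1)) • a (I 0))`. The entries `[I j = l]` are
`conj ((ee l) (I j))`. CASE 1, `s < c`: `k₀` with `|g k₀| ≥ c`, `g = h(ζ, ζ)`; `frame` with `q = 2`: the new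
coefficients are `∑_I conj (pp (L 0) (I 0)) conj (pp (L 1) (I 1)) • (ϑ (ee (I 1)) • a (I 0)) =
ϑ(pp (L 1)) • ∑_k conj (pp (L 0) k) • a k` (`ϑ` is conjugate linear). By `db_δ`, `pp_tan`: `ϑ (pp l) = 0` for
`l ≠ k₀`. So only `L 1 = k₀` contributes; if also `L 0 = k₀` then the determinant is `0` (two equal columns).
So `L 0 ≠ k₀` and the coefficient is at most `C₁ Nn gau (pp (L 0)) ≤ C₂ Nn / √s` (`pp_gau`). By `frame_bound` with
`i₀ = 0` (the row `w = rx 1`, `w0 = s`), `y 1 = tc R` (bounded by `C₁ ‖R‖`), `r0 = 0`, and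
`k₀ ∈ range L`, the determinant is at most `C₃ ‖R‖ (ε² s² + d s)`. Product:
`C₄ Nn ‖R‖ (ε² s² + d s) / √s ≤ C₄ Nn ‖R‖ √s (ε s + d)`.
CASE 2, `s ≥ c`: directly, `‖a k‖ ≤ Nn gau (ee k) ≤ C₂ Nn`, `|ϑ (ee j)| ≤ n C`, the determinant is at most
`C₃ ‖R‖ (d + ε² s²)` by `det_cn_le`. -/
theorem second_bound (n : ℕ) (c C : ℝ) : ∃ C' : ℝ, 0 < C' ∧ ∀ (U : Set (Ec n))
    (δ : Ec n → ℝ) (h : Ec n → Ec n → Fin n → ℂ) (P : PD n) (A : ℝ), Geo U δ h c C →
    PG P U δ h c C A → ∀ κ ε : ℝ, 0 < ε → ε ≤ 1 →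
    ∀ τ ∈ Icc (0 : ℝ) 1, ∀ z ∈ Om U δ, ∀ ζ ∈ Om U δ, ∀ (a : Fin n → V) (Nn : ℝ),
    0 ≤ Nn → (∀ X : Ec n, ‖∑ k, (starRingEnd ℂ) (X k) • a k‖ ≤ Nn * gau δ h ζ X) →
    ‖∑ k, (∑ j ∈ Finset.univ.erase k, Matrix.det (cn (rx δ h ε 0 τ z ζ)
      (Function.update (Function.update (fun l : Fin n => rζ δ h ε Fin.elim0 τ z ζ (ee l)) j
        (rq P δ κ z ζ (ee j))) k (rτ δ h ε 0 z ζ)))) • a k‖ ≤
      C' * Nn * ‖Rv P δ κ z ζ‖ * Real.sqrt (δ ζ) * (‖ζ - z‖ + ε * δ ζ) := by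
  obtain ⟨C1, hC1, h1⟩ := C3_case1 (V := V) n c C
  obtain ⟨C2, hC2, h2⟩ := C3_case2 (V := V) n c C
  refine ⟨C1 + C2, by positivity, ?_⟩
  intro U δ h P A hg hP κ ε hε hε1 τ hτ z hz ζ hζ a Nn hNn ha
  have hs : 0 < δ ζ := hζ.2
  rw [C3_red hg hP κ ε τ hz hζ a]
  have hp : 0 ≤ Nn * ‖Rv P δ κ z ζ‖ * Real.sqrt (δ ζ) * (‖ζ - z‖ + ε * δ ζ) := by positivity
  rcases lt_or_ge (δ ζ) c with hsc | hsc
  · refine (h1 U δ h hg ε hε hε1 τ hτ z hz ζ hζ hsc a Nn hNn ha _).trans ?_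
    have := mul_nonneg hC2.le hp
    nlinarith
  · refine (h2 U δ h hg ε hε hε1 τ hτ z hz ζ hζ hsc a Nn hNn ha _).trans ?_
    have := mul_nonneg hC1.le hp
    nlinarith

/-- The pointwise bound of the weighted kernel.
PROOF. The first part is `(2n+8)` times the kernel with `q = 0`: `KA .. k = Ker .. (sn Fin.elim0 k)` by
`Ker_snoc`, and `Fin 1 → Fin n` is `Fin n`: `ker_bound` with `q = 0` (`a I = a (I 0)`). The second part is
`second_bound`. -/
theorem kerE_bound (n : ℕ) (c C : ℝ) : ∃ C' : ℝ, 0 < C' ∧ ∀ (U : Set (Ec n))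
    (δ : Ec n → ℝ) (h : Ec n → Ec n → Fin n → ℂ) (P : PD n) (A : ℝ), Geo U δ h c C →
    PG P U δ h c C A → ∀ κ ε : ℝ, 0 < ε → ε ≤ 1 →
    ∀ τ ∈ Icc (0 : ℝ) 1, ∀ z ∈ Om U δ, ∀ ζ ∈ Om U δ, ∀ (a : Fin n → V) (Nn : ℝ),
    0 ≤ Nn → (∀ X : Ec n, ‖∑ k, (starRingEnd ℂ) (X k) • a k‖ ≤ Nn * gau δ h ζ X) →
    ‖∑ k, KEk P δ h κ ε τ z ζ k • a k‖ ≤ C' * Nn * ‖Complex.exp (Ex P δ κ z ζ)‖ *
      (‖F0 δ h ε τ z ζ‖ * (‖ζ - z‖ + ε * δ ζ + τ * ‖ζ - z‖ / Real.sqrt (δ ζ)) +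
        ‖F1 δ h ε τ z ζ‖ * (‖Rv P δ κ z ζ‖ * Real.sqrt (δ ζ) * (‖ζ - z‖ + ε * δ ζ))) := by
  obtain ⟨C1, hC1, h1⟩ := ker_bound (V := V) n c C 0
  obtain ⟨C2, hC2, h2⟩ := second_bound (V := V) n c C
  refine ⟨(2 * n + 8) * C1 + C2, by positivity, ?_⟩
  intro U δ h P A hg hP κ ε hε hε1 τ hτ z hz ζ hζ a Nn hNn ha
  have hs : 0 < δ ζ := hζ.2
  have hτ0 := hτ.1
  have g2 := h2 U δ h P A hg hP κ ε hε hε1 τ hτ z hz ζ hζ a Nn hNn ha
  have g1 := h1 U δ h hg ε hε hε1 τ hτ z hz ζ hζ (fun I => a (I 0)) Nn hNn (by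
    intro X
    rw [← (Equiv.funUnique (Fin 1) (Fin n)).symm.sum_comp]
    have := ha (X 0)
    simpa using this) Fin.elim0
  have e1 : ∑ I : Fin (0 + 1) → Fin n, Ker δ h ε I Fin.elim0 τ z ζ • a (I 0) =
      ∑ k, (F0 δ h ε τ z ζ * Matrix.det (cn (rx δ h ε 0 τ z ζ) (Function.update
        (fun l : Fin n => rζ δ h ε Fin.elim0 τ z ζ (ee l)) k (rτ δ h ε 0 z ζ)))) • a k := by
    rw [← (Equiv.funUnique (Fin 1) (Fin n)).symm.sum_comp]
    refine Finset.sum_congr rfl fun k _ => ?_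
    have e2 : (Equiv.funUnique (Fin 1) (Fin n)).symm k = (sn Fin.elim0 k : Fin (0 + 1) → Fin n) := by
      funext i
      have : i = Fin.last 0 := Fin.ext (by simp)
      rw [this]
      exact (Fin.snoc_last (α := fun _ => Fin n) k Fin.elim0).symm
    rw [e2, Ker_snoc, KA]
    have e3 : (sn Fin.elim0 k : Fin (0 + 1) → Fin n) 0 = k := by
      rw [← e2]
      rfl
    rw [e3]
    congr 3
    exact congrArg (fun Y => (cn (rx δ h ε 0 τ z ζ) Y : Fin (n + 0 + 1) → Fin (n + 0 + 1) → ℂ))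
      (C3_app0 _ _)
  rw [e1] at g1
  have e4 : ∑ k, KEk P δ h κ ε τ z ζ k • a k = Complex.exp (Ex P δ κ z ζ) •
      ((2 * n + 8 : ℂ) • ∑ k, (F0 δ h ε τ z ζ * Matrix.det (cn (rx δ h ε 0 τ z ζ)
        (Function.update (fun l : Fin n => rζ δ h ε Fin.elim0 τ z ζ (ee l)) k
          (rτ δ h ε 0 z ζ)))) • a k +
      F1 δ h ε τ z ζ • ∑ k, (∑ j ∈ Finset.univ.erase k, Matrix.det (cn (rx δ h ε 0 τ z ζ)
      (Function.update (Function.update (fun l : Fin n => rζ δ h ε Fin.elim0 τ z ζ (ee l)) j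
        (rq P δ κ z ζ (ee j))) k (rτ δ h ε 0 z ζ)))) • a k) := by
    rw [Finset.smul_sum, Finset.smul_sum, ← Finset.sum_add_distrib, Finset.smul_sum]
    refine Finset.sum_congr rfl fun k _ => ?_
    rw [KEk, smul_smul, smul_smul, ← add_smul, smul_smul]
    congr 1
    ring
  rw [e4, norm_smul]
  have e5 : ‖(2 * n + 8 : ℂ)‖ = 2 * n + 8 := by
    have : (2 * n + 8 : ℂ) = ((2 * n + 8 : ℝ) : ℂ) := by push_cast; ring
    rw [this, Complex.norm_real, Real.norm_eq_abs, abs_of_nonneg (by positivity)]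
  simp only [Finset.univ_eq_empty, Finset.prod_empty, pow_zero, mul_one] at g1
  have hA1 : 0 ≤ ‖F0 δ h ε τ z ζ‖ * (‖ζ - z‖ + ε * δ ζ + τ * ‖ζ - z‖ / Real.sqrt (δ ζ)) := by
    positivity
  have hA2 : 0 ≤ ‖F1 δ h ε τ z ζ‖ * (‖Rv P δ κ z ζ‖ * Real.sqrt (δ ζ) *
    (‖ζ - z‖ + ε * δ ζ)) := by positivity
  have hmain : ‖(2 * n + 8 : ℂ) • ∑ k, (F0 δ h ε τ z ζ * Matrix.det (cn (rx δ h ε 0 τ z ζ)
        (Function.update (fun l : Fin n => rζ δ h ε Fin.elim0 τ z ζ (ee l)) k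
          (rτ δ h ε 0 z ζ)))) • a k +
      F1 δ h ε τ z ζ • ∑ k, (∑ j ∈ Finset.univ.erase k, Matrix.det (cn (rx δ h ε 0 τ z ζ)
      (Function.update (Function.update (fun l : Fin n => rζ δ h ε Fin.elim0 τ z ζ (ee l)) j
        (rq P δ κ z ζ (ee j))) k (rτ δ h ε 0 z ζ)))) • a k‖ ≤
      ((2 * n + 8) * C1 + C2) * Nn *
      (‖F0 δ h ε τ z ζ‖ * (‖ζ - z‖ + ε * δ ζ + τ * ‖ζ - z‖ / Real.sqrt (δ ζ)) +
        ‖F1 δ h ε τ z ζ‖ * (‖Rv P δ κ z ζ‖ * Real.sqrt (δ ζ) * (‖ζ - z‖ + ε * δ ζ))) := by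
    refine (norm_add_le _ _).trans ?_
    rw [norm_smul, norm_smul, e5]
    have t1 := mul_le_mul_of_nonneg_left g1 (by positivity : (0 : ℝ) ≤ 2 * n + 8)
    have t2 := mul_le_mul_of_nonneg_left g2 (norm_nonneg (F1 δ h ε τ z ζ))
    refine (add_le_add t1 t2).trans ?_
    have t3 : 0 ≤ C2 * Nn * (‖F0 δ h ε τ z ζ‖ *
      (‖ζ - z‖ + ε * δ ζ + τ * ‖ζ - z‖ / Real.sqrt (δ ζ))) := by positivity
    have t4 : 0 ≤ (2 * n + 8) * C1 * Nn * (‖F1 δ h ε τ z ζ‖ * (‖Rv P δ κ z ζ‖ *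
      Real.sqrt (δ ζ) * (‖ζ - z‖ + ε * δ ζ))) := by positivity
    nlinarith
  refine (mul_le_mul_of_nonneg_left hmain (norm_nonneg _)).trans ?_
  apply le_of_eq
  ring

end Pool.Agent.MPca0fc2.FD
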