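import Pool.Agent.Lib.MP_ca0fc2_an.Mg.G052
import Pool.Agent.Lib.MP_ca0fc2_an.FD.B11
import Pool.Agent.Lib.MP_ca0fc2_an.FD.C3
import Pool.Agent.Lib.MP_ca0fc2_an.Mg.G053

/-! The bounds of the operators. -/

set_option autoImplicit false

open Metric Set MeasureTheory Filter Topology

namespace Pool.Agent.MPca0fc2.FD

variable {n : ℕ} {V : Type*} [NormedAddCommGroup V] [NormedSpace ℂ V] [FiniteDimensional ℂ V]

/-- Tonelli -/
private theorem C5_ton (hn : 2 ≤ n) {O : Set (Ec n)} (hO : MeasurableSet O) {F : ℝ × Ec n → V}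
    (hF : ContinuousOn F (Icc (0 : ℝ) 1 ×ˢ O)) {z : Ec n} {G : Ec n → ENNReal}
    (hG : ∀ ζ ∈ O, ζ ≠ z → ∫⁻ τ in Icc (0 : ℝ) 1, ‖F (τ, ζ)‖ₑ ≤ G ζ) :
    ‖∫ p in Icc (0 : ℝ) 1 ×ˢ O, F p‖ₑ ≤ ∫⁻ ζ in O, G ζ := by
  have hm : AEStronglyMeasurable F (volume.restrict (Icc (0 : ℝ) 1 ×ˢ O)) :=
    hF.aestronglyMeasurable (measurableSet_Icc.prod hO)
  refine (enorm_integral_le_lintegral_enorm _).trans ?_
  have h1 : (volume.restrict (Icc (0 : ℝ) 1 ×ˢ O) : Measure (ℝ × Ec n)) =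
      (volume.restrict (Icc (0 : ℝ) 1)).prod (volume.restrict O) := by
    rw [Measure.volume_eq_prod, Measure.prod_restrict]
  rw [h1] at hm ⊢
  rw [lintegral_prod_symm _ hm.enorm]
  have : Nonempty (Fin n) := ⟨⟨0, by omega⟩⟩
  have : Nontrivial (Ec n) := inferInstance
  refine lintegral_mono_ae ?_
  have h2 : ∀ᵐ ζ ∂(volume.restrict O), ζ ∈ O := ae_restrict_mem hO
  have h3 : ∀ᵐ ζ ∂(volume.restrict O : Measure (Ec n)), ζ ≠ z :=
    ae_restrict_of_ae (by simp [ae_iff])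
  filter_upwards [h2, h3] with ζ h4 h5 using hG ζ h4 h5

private theorem C5_kc {O : Set (Ec n)} {T : Set (Tn n)} {k : Tn n → ℂ} (hk : ContinuousOn k T)
    {z : Ec n} (hT : ∀ τ ∈ Icc (0 : ℝ) 1, ∀ ζ ∈ O, (z, τ, ζ) ∈ T) :
    ContinuousOn (fun p : ℝ × Ec n => k (z, p)) (Icc (0 : ℝ) 1 ×ˢ O) := by
  have h2 : Continuous (fun p : ℝ × Ec n => ((z, p) : Tn n)) := by fun_prop
  exact hk.comp h2.continuousOn fun p hp => hT p.1 hp.1 p.2 hp.2

private theorem C5_sum {ι : Type} [Fintype ι] {T : Set (ℝ × Ec n)} {k : ι → ℝ × Ec n → ℂ}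
    {g : ι → Ec n → V} {W : Set (Ec n)} (hk : ∀ i, ContinuousOn (k i) T)
    (hg : ∀ i, ContinuousOn (g i) W) (hT : ∀ p ∈ T, p.2 ∈ W) :
    ContinuousOn (fun p : ℝ × Ec n => ∑ i, k i p • g i p.2) T := by
  refine continuousOn_finsetSum _ fun i _ => ?_
  exact (hk i).smul ((hg i).comp continuousOn_snd fun p hp => hT p hp)

private theorem C5_Kh_nonneg {U : Set (Ec n)} {δ : Ec n → ℝ} {h : Ec n → Ec n → Fin n → ℂ}
    {z ζ : Ec n} (hζ : ζ ∈ Om U δ) : 0 ≤ Kh δ h z ζ := by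
  have : 0 < δ ζ := hζ.2
  unfold Kh
  positivity

private theorem C5_F_cont {U : Set (Ec n)} {δ : Ec n → ℝ} {h : Ec n → Ec n → Fin n → ℂ}
    {c C : ℝ} (hg : Geo U δ h c C) {ε : ℝ} (hε : 0 < ε) {z ζ : Ec n} (hz : z ∈ Om U δ)
    (hζ : ζ ∈ Om U δ) :
    ContinuousOn (fun τ : ℝ => ‖F0 δ h ε τ z ζ‖) (Icc (0 : ℝ) 1) ∧
      ContinuousOn (fun τ : ℝ => ‖F1 δ h ε τ z ζ‖) (Icc (0 : ℝ) 1) := by
  have hK : ζ ∈ Kc U δ := ⟨hζ.1, hζ.2.le⟩
  have h1 : Continuous (fun τ : ℝ => aa δ h ε τ z ζ) := by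
    unfold aa w0 wk
    fun_prop
  have h2 : Continuous (fun τ : ℝ => (w0 δ ε τ ζ : ℂ)) := by
    unfold w0
    fun_prop
  constructor
  · unfold F0
    refine ContinuousOn.norm (ContinuousOn.div ?_ ?_ ?_)
    · exact (h2.pow _).continuousOn
    · exact (h1.pow _).continuousOn
    · intro τ hτ
      exact pow_ne_zero _ (aa_ne hg hε hτ hz hK)
  · unfold F1
    refine ContinuousOn.norm (ContinuousOn.div ?_ ?_ ?_)
    · exact (h2.pow _).continuousOn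
    · exact (h1.pow _).continuousOn
    · intro τ hτ
      exact pow_ne_zero _ (aa_ne hg hε hτ hz hK)

/-- The bound of the homotopy operator.
PROOF. `ev_Sop`, `enorm_integral_le_lintegral_enorm`, and Tonelli for `Icc 0 1 ×ˢ Om U δ` (the kernel times
`η` is continuous on `Icc 0 1 ×ˢ Om U δ` (`Ker_c1`, `Tset_mem`), so measurable for the restricted measure;
`Om U δ` is open). For each `ζ ∈ Om`, `ζ ≠ z` (the point `z` has measure `0`; `n ≥ 2`), the inner integral over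
`τ` is at most `C₁ Nf ζ (∏ ‖Y i‖) (√δ ζ)^(-q)` times the integral of `F0_int`, by `ker_bound` with
`a I = η I ζ`, `Nn = Nf ζ` (convert the Bochner integral over `Icc 0 1` of the continuous function of `τ` in
`F0_int` to a lintegral: `ofReal_integral_eq_lintegral_ofReal`; integrability: continuous in `τ` on
`Icc 0 1`, since `aa ≠ 0`). -/
theorem Sop_bound (hn : 2 ≤ n) (c C : ℝ) (q : ℕ) : ∃ C' : ℝ, 0 < C' ∧ ∀ (U : Set (Ec n))
    (δ : Ec n → ℝ) (h : Ec n → Ec n → Fin n → ℂ), Geo U δ h c C → ∀ ε : ℝ, 0 < ε → ε ≤ 1 →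
    ∀ (W : Set (Ec n)) (η : Fm n (q + 1) V) (Nf : Ec n → ℝ), Kc U δ ⊆ W →
    (∀ I, ContinuousOn (η I) W) → (∀ ζ ∈ Om U δ, 0 ≤ Nf ζ) →
    (∀ ζ ∈ Om U δ, ∀ X, ‖ev η ζ X‖ ≤ Nf ζ * ∏ i, gau δ h ζ (X i)) →
    ∀ z ∈ Om U δ, ∀ Y : Fin q → Ec n,
      ENNReal.ofReal ‖ev (Sop U δ h ε η) z Y‖ ≤ ENNReal.ofReal (C' * ∏ i, ‖Y i‖) *
        ∫⁻ ζ in Om U δ, ENNReal.ofReal (Kh δ h z ζ * (((Real.sqrt (δ ζ))⁻¹) ^ q * Nf ζ)) := by
  obtain ⟨C₁, hC₁, hker⟩ := ker_bound (V := V) n c C q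
  obtain ⟨C₂, hC₂, hF⟩ := F0_int hn c C
  refine ⟨‖kn n / (q + 1).factorial‖ * (C₁ * C₂) + 1, by positivity, ?_⟩
  intro U δ h hg ε hε hε1 W η Nf hK hη hNf hb z hz Y
  have : CompleteSpace V := FiniteDimensional.complete ℂ V
  have hO := Om_open hg
  set c₀ : ℂ := kn n / (q + 1).factorial with hc₀
  have hcont : ContinuousOn (fun p : ℝ × Ec n => ∑ I : Fin (q + 1) → Fin n,
      Ker δ h ε I Y p.1 z p.2 • η I p.2) (Icc (0 : ℝ) 1 ×ˢ Om U δ) := by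
    refine C5_sum (k := fun I p => Ker δ h ε I Y p.1 z p.2) (g := η) (fun I => ?_) hη
      fun p hp => hK ⟨hp.2.1, hp.2.2.le⟩
    exact C5_kc (Ker_c1 hg ε I Y).continuousOn fun τ hτ ζ hζ =>
      Tset_mem hg hε hτ hz ⟨hζ.1, hζ.2.le⟩
  have hmain := C5_ton hn hO.measurableSet hcont (z := z)
    (G := fun ζ => ENNReal.ofReal (C₁ * C₂ * ∏ i, ‖Y i‖) *
      ENNReal.ofReal (Kh δ h z ζ * (((Real.sqrt (δ ζ))⁻¹) ^ q * Nf ζ))) (by
    intro ζ hζ hne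
    have hδ : 0 < δ ζ := hζ.2
    have hN := hNf ζ hζ
    have hKh := C5_Kh_nonneg (h := h) (z := z) hζ
    set B : ℝ := C₁ * Nf ζ * (∏ i, ‖Y i‖) * ((Real.sqrt (δ ζ))⁻¹) ^ q with hB
    have hP0 : 0 ≤ ∏ i, ‖Y i‖ := Finset.prod_nonneg fun i _ => norm_nonneg _
    have hB0 : 0 ≤ B := by positivity
    set f : ℝ → ℝ := fun τ => ‖F0 δ h ε τ z ζ‖ *
      (‖ζ - z‖ + ε * δ ζ + τ * ‖ζ - z‖ / Real.sqrt (δ ζ)) with hf
    have hf0 : ∀ τ ∈ Icc (0 : ℝ) 1, 0 ≤ f τ := by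
      intro τ hτ
      have := hτ.1
      rw [hf]; positivity
    have hfc : ContinuousOn f (Icc (0 : ℝ) 1) := by
      refine (C5_F_cont hg hε hz hζ).1.mul ?_
      fun_prop
    have hfi : IntegrableOn f (Icc (0 : ℝ) 1) := hfc.integrableOn_compact isCompact_Icc
    calc ∫⁻ τ in Icc (0 : ℝ) 1, ‖∑ I : Fin (q + 1) → Fin n, Ker δ h ε I Y τ z ζ • η I ζ‖ₑ
        ≤ ∫⁻ τ in Icc (0 : ℝ) 1, ENNReal.ofReal (B * f τ) := by
          refine setLIntegral_mono' measurableSet_Icc fun τ hτ => ?_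
          rw [← ofReal_norm]
          refine ENNReal.ofReal_le_ofReal ?_
          have h3 := hker U δ h hg ε hε hε1 τ hτ z hz ζ hζ (fun I => η I ζ) (Nf ζ) hN
            (fun X => hb ζ hζ X) Y
          refine h3.trans (le_of_eq ?_)
          rw [hB, hf]; ring
      _ = ENNReal.ofReal (∫ τ in Icc (0 : ℝ) 1, B * f τ) := by
          rw [ofReal_integral_eq_lintegral_ofReal (hfi.const_mul B)]
          filter_upwards [ae_restrict_mem measurableSet_Icc] with τ hτ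
          exact mul_nonneg hB0 (hf0 τ hτ)
      _ = ENNReal.ofReal (B * ∫ τ in Icc (0 : ℝ) 1, f τ) := by rw [integral_const_mul]
      _ ≤ ENNReal.ofReal (B * (C₂ * Kh δ h z ζ)) := by
          refine ENNReal.ofReal_le_ofReal (mul_le_mul_of_nonneg_left ?_ hB0)
          exact hF U δ h hg ε hε hε1 z hz ζ hζ hne
      _ = ENNReal.ofReal (C₁ * C₂ * ∏ i, ‖Y i‖) *
          ENNReal.ofReal (Kh δ h z ζ * (((Real.sqrt (δ ζ))⁻¹) ^ q * Nf ζ)) := by
          rw [← ENNReal.ofReal_mul (by positivity)]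
          congr 1
          rw [hB]; ring)
  rw [lintegral_const_mul' _ _ ENNReal.ofReal_ne_top] at hmain
  have hP0 : 0 ≤ ∏ i, ‖Y i‖ := Finset.prod_nonneg fun i _ => norm_nonneg _
  rw [ofReal_norm, ev_Sop hg hε hK hη hz Y, enorm_smul]
  refine (mul_le_mul_right hmain _).trans ?_
  rw [← mul_assoc, ← ofReal_norm, ← ENNReal.ofReal_mul (norm_nonneg _)]
  refine mul_le_mul_left (ENNReal.ofReal_le_ofReal ?_) _
  nlinarith

/-- The bound of the weighted homotopy operator.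
PROOF. As `Sop_bound`, from `kerE_bound` with `a k = db N ζ (ee k)`
(`∑ k, conj (X k) • db N ζ (ee k) = db N ζ X`, by `db_conj_lin` and `X = ∑ X k • ee k`), `F0_int` and
`F1_int`. -/
theorem SE_bound (hn : 2 ≤ n) (c C : ℝ) : ∃ C' : ℝ, 0 < C' ∧ ∀ (U : Set (Ec n))
    (δ : Ec n → ℝ) (h : Ec n → Ec n → Fin n → ℂ) (P : PD n) (A : ℝ), Geo U δ h c C →
    PG P U δ h c C A → ∀ κ ε : ℝ, 0 < ε → ε ≤ 1 →
    ∀ (W : Set (Ec n)) (N : Ec n → V) (Nf : Ec n → ℝ), IsOpen W → Kc U δ ⊆ W →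
    ContDiffOn ℝ 1 N W → (∀ ζ ∈ Om U δ, 0 ≤ Nf ζ) →
    (∀ ζ ∈ Om U δ, ∀ X, ‖db N ζ X‖ ≤ Nf ζ * gau δ h ζ X) →
    ∀ z ∈ Om U δ, ENNReal.ofReal ‖SE P U δ h κ ε N z‖ ≤ ENNReal.ofReal C' *
        ∫⁻ ζ in Om U δ, ENNReal.ofReal (Kh δ h z ζ * (‖Complex.exp (Ex P δ κ z ζ)‖ *
          (1 + δ ζ * ‖vv δ h z ζ‖ * ‖Rv P δ κ z ζ‖) * Nf ζ)) := by
  obtain ⟨C₁, hC₁, hker⟩ := kerE_bound (V := V) n c C
  obtain ⟨C₂, hC₂, hF0⟩ := F0_int hn c C
  obtain ⟨C₃, hC₃, hF1⟩ := F1_int hn c C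
  refine ⟨‖kn n / (2 * n + 8)‖ * (C₁ * (C₂ + C₃)) + 1, by positivity, ?_⟩
  intro U δ h P A hg hP κ ε hε hε1 W N Nf hW hK hN hNf hb z hz
  have : CompleteSpace V := FiniteDimensional.complete ℂ V
  have hO := Om_open hg
  have hKW := Kc_sub_Wq hP
  set c₀ : ℂ := kn n / (2 * n + 8) with hc₀
  have hcont : ContinuousOn (fun p : ℝ × Ec n => ∑ k, KEk P δ h κ ε p.1 z p.2 k •
      db N p.2 (ee k)) (Icc (0 : ℝ) 1 ×ˢ Om U δ) := by
    refine C5_sum (k := fun k p => KEk P δ h κ ε p.1 z p.2 k)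
      (g := fun k y => db N y (ee k)) (W := W) (fun k => ?_) (fun k => ?_)
      fun p hp => hK ⟨hp.2.1, hp.2.2.le⟩
    · exact C5_kc (KEk_c1 hg hP κ ε k).continuousOn fun τ hτ ζ hζ =>
        ⟨hKW ⟨hz.1, hz.2.le⟩, hKW ⟨hζ.1, hζ.2.le⟩, aa_ne hg hε hτ hz ⟨hζ.1, hζ.2.le⟩⟩
    · have h4 := hN.continuousOn_fderiv_of_isOpen hW le_rfl
      unfold db
      refine ContinuousOn.const_smul ?_ _
      refine ContinuousOn.add ?_ ?_
      · exact h4.clm_apply continuousOn_const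
      · exact (h4.clm_apply continuousOn_const).const_smul _
  have hmain := C5_ton hn hO.measurableSet hcont (z := z)
    (G := fun ζ => ENNReal.ofReal (C₁ * (C₂ + C₃)) *
      ENNReal.ofReal (Kh δ h z ζ * (‖Complex.exp (Ex P δ κ z ζ)‖ *
          (1 + δ ζ * ‖vv δ h z ζ‖ * ‖Rv P δ κ z ζ‖) * Nf ζ))) (by
    intro ζ hζ hne
    have hδ : 0 < δ ζ := hζ.2
    have hNζ := hNf ζ hζ
    have hKh := C5_Kh_nonneg (h := h) (z := z) hζ
    set E : ℝ := ‖Complex.exp (Ex P δ κ z ζ)‖ with hE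
    set Rn : ℝ := ‖Rv P δ κ z ζ‖ with hRn
    have hE0 : 0 ≤ E := norm_nonneg _
    have hR0 : 0 ≤ Rn := norm_nonneg _
    set f : ℝ → ℝ := fun τ => ‖F0 δ h ε τ z ζ‖ *
      (‖ζ - z‖ + ε * δ ζ + τ * ‖ζ - z‖ / Real.sqrt (δ ζ)) with hf
    set g : ℝ → ℝ := fun τ => ‖F1 δ h ε τ z ζ‖ * (Real.sqrt (δ ζ) * (‖ζ - z‖ + ε * δ ζ)) with hgg
    have hf0 : ∀ τ ∈ Icc (0 : ℝ) 1, 0 ≤ f τ := by
      intro τ hτ
      have := hτ.1
      rw [hf]; positivity
    have hg0 : ∀ τ, 0 ≤ g τ := by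
      intro τ
      rw [hgg]; positivity
    have hfi : IntegrableOn f (Icc (0 : ℝ) 1) := by
      refine ContinuousOn.integrableOn_compact isCompact_Icc ?_
      refine (C5_F_cont hg hε hz hζ).1.mul ?_
      fun_prop
    have hgi : IntegrableOn g (Icc (0 : ℝ) 1) := by
      refine ContinuousOn.integrableOn_compact isCompact_Icc ?_
      exact (C5_F_cont hg hε hz hζ).2.mul continuousOn_const
    have hdb : ∀ X : Ec n, ∑ k, (starRingEnd ℂ) (X k) • db N ζ (ee k) = db N ζ X := by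
      intro X
      have h5 : ∀ s : Finset (Fin n), db N ζ (∑ k ∈ s, X k • (ee k : Ec n)) =
          ∑ k ∈ s, (starRingEnd ℂ) (X k) • db N ζ (ee k) := by
        intro s
        induction s using Finset.induction_on with
        | empty =>
          simp [db]
        | insert k s hk ih =>
          rw [Finset.sum_insert hk, Finset.sum_insert hk, db_conj_lin, ih]
      rw [← h5]
      congr 1
      ext j
      simp [ee, Finset.sum_apply, Pi.single_apply]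
    calc ∫⁻ τ in Icc (0 : ℝ) 1, ‖∑ k, KEk P δ h κ ε τ z ζ k • db N ζ (ee k)‖ₑ
        ≤ ∫⁻ τ in Icc (0 : ℝ) 1, ENNReal.ofReal (C₁ * Nf ζ * E * (f τ + Rn * g τ)) := by
          refine setLIntegral_mono' measurableSet_Icc fun τ hτ => ?_
          rw [← ofReal_norm]
          refine ENNReal.ofReal_le_ofReal ?_
          have h3 := hker U δ h P A hg hP κ ε hε hε1 τ hτ z hz ζ hζ
            (fun k => db N ζ (ee k)) (Nf ζ) hNζ (fun X => by rw [hdb X]; exact hb ζ hζ X)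
          refine h3.trans (le_of_eq ?_)
          rw [hf, hgg]; ring
      _ = ENNReal.ofReal (∫ τ in Icc (0 : ℝ) 1, C₁ * Nf ζ * E * (f τ + Rn * g τ)) := by
          have h8 : IntegrableOn (fun τ => C₁ * Nf ζ * E * (f τ + Rn * g τ)) (Icc (0 : ℝ) 1) :=
            (hfi.add (hgi.const_mul Rn)).const_mul _
          rw [ofReal_integral_eq_lintegral_ofReal h8]
          filter_upwards [ae_restrict_mem measurableSet_Icc] with τ hτ
          have := hf0 τ hτ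
          have := hg0 τ
          simp only [Pi.zero_apply]
          positivity
      _ = ENNReal.ofReal (C₁ * Nf ζ * E * ((∫ τ in Icc (0 : ℝ) 1, f τ) +
          Rn * ∫ τ in Icc (0 : ℝ) 1, g τ)) := by
          rw [integral_const_mul, integral_add hfi (hgi.const_mul Rn), integral_const_mul]
      _ ≤ ENNReal.ofReal (C₁ * Nf ζ * E * (C₂ * Kh δ h z ζ +
          Rn * (C₃ * (δ ζ * ‖vv δ h z ζ‖) * Kh δ h z ζ))) := by
          refine ENNReal.ofReal_le_ofReal (mul_le_mul_of_nonneg_left ?_ (by positivity))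
          exact add_le_add (hF0 U δ h hg ε hε hε1 z hz ζ hζ hne)
            (mul_le_mul_of_nonneg_left (hF1 U δ h hg ε hε hε1 z hz ζ hζ hne) hR0)
      _ ≤ ENNReal.ofReal (C₁ * (C₂ + C₃)) *
          ENNReal.ofReal (Kh δ h z ζ * (E * (1 + δ ζ * ‖vv δ h z ζ‖ * Rn) * Nf ζ)) := by
          rw [← ENNReal.ofReal_mul (by positivity)]
          refine ENNReal.ofReal_le_ofReal ?_
          have h6 : 0 ≤ C₁ * C₃ * Kh δ h z ζ * E * Nf ζ := by positivity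
          have h7 : 0 ≤ C₁ * C₂ * (δ ζ * ‖vv δ h z ζ‖ * Rn) * Kh δ h z ζ * E * Nf ζ := by
            positivity
          nlinarith)
  rw [lintegral_const_mul' _ _ ENNReal.ofReal_ne_top] at hmain
  rw [ofReal_norm]
  unfold SE
  rw [enorm_smul]
  refine (mul_le_mul_right hmain _).trans ?_
  rw [← mul_assoc, ← ofReal_norm, ← ENNReal.ofReal_mul (norm_nonneg _)]
  gcongr
  linarith

end Pool.Agent.MPca0fc2.FD
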