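import Pool.Agent.Lib.MP_ca0fc2_an.Mg.G046
import Pool.Agent.Lib.MP_ca0fc2_an.Mg.G051

/-! The exponential weight and the vector of the weight. -/

set_option autoImplicit false

open Metric Set MeasureTheory Filter Topology

namespace Pool.Agent.MPca0fc2.FD

variable {n : ℕ}

/-- the weights of the points which are close to `q(z)` -/
noncomputable def TT (P : PD n) (z : Ec n) (r : ℝ) : ℝ :=
  ∑ j, ∑ η ∈ (P.S j).filter (fun η => ‖1 - (starRingEnd ℂ) η * P.q j z‖ ≤ r),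
    ((1 - ‖η‖ ^ 2) / ‖1 - (starRingEnd ℂ) η * P.q j z‖) ^ 2

/-- PROOF. `Re (1 - w) = (1 - |w|² + |1 - w|²) / 2 ≥ |1 - w|² / 2 + (1 - |w|²) / 2` with `w = conj η x`, and
`1 - |w|² ≥ 1 - |η|² = N`. `Re (Hf η x) = N Re (1 - w) / |1 - w|²` (the real part of `1 / ζ` is
`Re ζ / |ζ|²`). So `Re Hf ≥ N² / (2 V²)` and `0 ≤ Re Hf ≤ |Hf| = N / V`. -/
theorem Hf_re {η x : ℂ} (hη : ‖η‖ < 1) (hx : ‖x‖ < 1) :
    ((1 - ‖η‖ ^ 2) / ‖1 - (starRingEnd ℂ) η * x‖) ^ 2 / 2 ≤ (Hf η x).re ∧ 0 ≤ (Hf η x).re ∧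
      (Hf η x).re ≤ (1 - ‖η‖ ^ 2) / ‖1 - (starRingEnd ℂ) η * x‖ := by
  obtain ⟨-, -, -, hN, hV⟩ := V_basic hη hx
  set w : ℂ := (starRingEnd ℂ) η * x with hw
  set N : ℝ := 1 - ‖η‖ ^ 2 with hNdef
  have hwn : ‖w‖ ≤ ‖η‖ := by
    rw [hw, norm_mul, RCLike.norm_conj]
    exact mul_le_of_le_one_right (norm_nonneg _) hx.le
  have hre : (1 - w).re = (1 - ‖w‖ ^ 2 + ‖1 - w‖ ^ 2) / 2 := by
    rw [← Complex.normSq_eq_norm_sq, ← Complex.normSq_eq_norm_sq, Complex.normSq_apply, Complex.normSq_apply]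
    simp
    ring
  have hw2 : ‖w‖ ^ 2 ≤ ‖η‖ ^ 2 := pow_le_pow_left₀ (norm_nonneg _) hwn 2
  have hHf : (Hf η x).re = N * (1 - w).re / ‖1 - w‖ ^ 2 := by
    unfold Hf
    rw [← hw, ← hNdef, Complex.div_re, ← Complex.normSq_eq_norm_sq]
    simp
  have hV2 : 0 < ‖1 - w‖ ^ 2 := by positivity
  have h1 : N / 2 ≤ (1 - w).re := by
    rw [hre]
    nlinarith
  have h2 : (N / ‖1 - w‖) ^ 2 / 2 ≤ (Hf η x).re := by
    rw [hHf, div_pow, div_div, div_le_div_iff₀ (by positivity) hV2]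
    have : N ^ 2 ≤ N * (1 - w).re * 2 := by nlinarith
    nlinarith
  refine ⟨h2, le_trans (by positivity) h2, ?_⟩
  refine (Complex.re_le_norm _).trans (le_of_eq ?_)
  unfold Hf
  rw [← hw, ← hNdef, norm_div, Complex.norm_real, Real.norm_of_nonneg hN.le]

/-- classes of the points: sums of `N / (V √V)` over the far points -/
private theorem J3_far {S : Finset ℂ} {A : ℝ} (hS : ∀ η ∈ S, ‖η‖ < 1)
    (hA : ∀ x : ℂ, ‖x‖ < 1 → ∑ η ∈ S, JJ x η ≤ A) (hA0 : 0 ≤ A) {x : ℂ} (hx : ‖x‖ < 1) {r : ℝ}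
    (hr : 0 < r) :
    ∑ η ∈ S.filter (fun η => r < ‖1 - (starRingEnd ℂ) η * x‖),
      (1 - ‖η‖ ^ 2) / (‖1 - (starRingEnd ℂ) η * x‖ * Real.sqrt ‖1 - (starRingEnd ℂ) η * x‖) ≤
      32 * A / Real.sqrt r := by
  obtain ⟨K, hK⟩ := pow_unbounded_of_one_lt (2 / r) (by norm_num : (1 : ℝ) < 4)
  have hsr : 0 < Real.sqrt r := Real.sqrt_pos.2 hr
  have hsq : ∀ i : ℕ, Real.sqrt (4 ^ i * r) = 2 ^ i * Real.sqrt r := by
    intro i
    rw [Real.sqrt_mul (by positivity)]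
    congr 1
    rw [show (4 : ℝ) ^ i = (2 ^ i) ^ 2 by rw [← pow_mul, mul_comm, pow_mul]; norm_num]
    exact Real.sqrt_sq (by positivity)
  have key : ∀ η ∈ S.filter (fun η => r < ‖1 - (starRingEnd ℂ) η * x‖),
      (1 - ‖η‖ ^ 2) / (‖1 - (starRingEnd ℂ) η * x‖ * Real.sqrt ‖1 - (starRingEnd ℂ) η * x‖) ≤
      ∑ i ∈ Finset.range (K + 1), if ‖1 - (starRingEnd ℂ) η * x‖ ≤ 4 ^ (i + 1) * r then
        (1 - ‖η‖ ^ 2) / (4 ^ i * r * (2 ^ i * Real.sqrt r)) else 0 := by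
    intro η hη
    obtain ⟨hηS, hηr⟩ := Finset.mem_filter.1 hη
    obtain ⟨-, -, hV2, hN, hV⟩ := V_basic (hS η hηS) hx
    set V := ‖1 - (starRingEnd ℂ) η * x‖ with hVdef
    obtain ⟨i, hi1, hi2⟩ := exists_nat_pow_near (x := V / r) (y := 4) ((one_le_div hr).2 hηr.le)
      (by norm_num)
    rw [le_div_iff₀ hr] at hi1
    rw [div_lt_iff₀ hr] at hi2
    have hiK : i < K + 1 := by
      by_contra hcon
      push Not at hcon
      have h1 : (4 : ℝ) ^ K ≤ 4 ^ i := pow_le_pow_right₀ (by norm_num) (by omega)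
      have h2 : 2 < 4 ^ K * r := by rwa [div_lt_iff₀ hr] at hK
      nlinarith
    have hnn : ∀ j ∈ Finset.range (K + 1), 0 ≤ if V ≤ 4 ^ (j + 1) * r then
        (1 - ‖η‖ ^ 2) / (4 ^ j * r * (2 ^ j * Real.sqrt r)) else 0 := by
      intro j _
      split_ifs
      · positivity
      · exact le_rfl
    refine le_trans ?_ (Finset.single_le_sum hnn (Finset.mem_range.2 hiK))
    rw [if_pos hi2.le]
    refine div_le_div_of_nonneg_left hN.le (by positivity) ?_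
    refine mul_le_mul hi1 ?_ (by positivity) hV.le
    rw [← hsq i]
    exact Real.sqrt_le_sqrt hi1
  refine (Finset.sum_le_sum key).trans ?_
  have hstep : ∑ η ∈ S.filter (fun η => r < ‖1 - (starRingEnd ℂ) η * x‖),
      (∑ i ∈ Finset.range (K + 1), if ‖1 - (starRingEnd ℂ) η * x‖ ≤ 4 ^ (i + 1) * r then
        (1 - ‖η‖ ^ 2) / (4 ^ i * r * (2 ^ i * Real.sqrt r)) else 0) ≤
      ∑ η ∈ S, ∑ i ∈ Finset.range (K + 1), if ‖1 - (starRingEnd ℂ) η * x‖ ≤ 4 ^ (i + 1) * r then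
        (1 - ‖η‖ ^ 2) / (4 ^ i * r * (2 ^ i * Real.sqrt r)) else 0 := by
    refine Finset.sum_le_sum_of_subset_of_nonneg (Finset.filter_subset _ _) ?_
    intro η hη _
    refine Finset.sum_nonneg fun j _ => ?_
    obtain ⟨-, -, -, hN, hV⟩ := V_basic (hS η hη) hx
    split_ifs
    · positivity
    · exact le_rfl
  refine hstep.trans ?_
  rw [Finset.sum_comm]
  have hcl : ∀ i ∈ Finset.range (K + 1), ∑ η ∈ S, (if ‖1 - (starRingEnd ℂ) η * x‖ ≤ 4 ^ (i + 1) * r then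
        (1 - ‖η‖ ^ 2) / (4 ^ i * r * (2 ^ i * Real.sqrt r)) else 0) ≤
        16 * A / Real.sqrt r * (1 / 2) ^ i := by
    intro i _
    rw [← Finset.sum_filter, ← Finset.sum_div]
    have h1 := sum_N hS hA hx (r := 4 ^ (i + 1) * r) (by positivity)
    rw [div_le_iff₀ (by positivity)]
    refine h1.trans (le_of_eq ?_)
    have h2 : (1 / 2 : ℝ) ^ i * 2 ^ i = 1 := by rw [← mul_pow]; norm_num
    field_simp
    have h3 : (4 : ℝ) ^ (i + 1) = 4 * 4 ^ i := by rw [pow_succ]; ring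
    rw [h3]
    ring_nf
    rw [show A * 4 ^ i * 16 = A * 4 ^ i * 16 * ((1 / 2 : ℝ) ^ i * 2 ^ i) by rw [h2, mul_one]]
    ring
  refine (Finset.sum_le_sum hcl).trans ?_
  rw [← Finset.mul_sum]
  have hg : ∑ i ∈ Finset.range (K + 1), (1 / 2 : ℝ) ^ i ≤ 2 := by
    have := mul_neg_geom_sum (1 / 2 : ℝ) (K + 1)
    have h2 : (0 : ℝ) ≤ (1 / 2) ^ (K + 1) := by positivity
    linarith
  calc 16 * A / Real.sqrt r * ∑ i ∈ Finset.range (K + 1), (1 / 2 : ℝ) ^ i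
      ≤ 16 * A / Real.sqrt r * 2 := mul_le_mul_of_nonneg_left hg (by positivity)
    _ = 32 * A / Real.sqrt r := by ring

/-- classes of the points: sums of `N / V` over the points with `r ≤ V ≤ M` -/
private theorem J3_near {S : Finset ℂ} {A : ℝ} (hS : ∀ η ∈ S, ‖η‖ < 1)
    (hA : ∀ x : ℂ, ‖x‖ < 1 → ∑ η ∈ S, JJ x η ≤ A) (hA0 : 0 ≤ A) {x : ℂ} (hx : ‖x‖ < 1) {r M : ℝ}
    (hr : 0 < r) (hrM : r ≤ M) (hV0 : ∀ η ∈ S, r ≤ ‖1 - (starRingEnd ℂ) η * x‖) :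
    ∑ η ∈ S.filter (fun η => ‖1 - (starRingEnd ℂ) η * x‖ ≤ M),
      (1 - ‖η‖ ^ 2) / ‖1 - (starRingEnd ℂ) η * x‖ ≤ 16 * A * (1 + Real.log (M / r)) := by
  obtain ⟨K, hK1, hK2⟩ := exists_nat_pow_near (x := M / r) (y := 4) ((one_le_div hr).2 hrM)
      (by norm_num)
  have hKlog : (K : ℝ) ≤ Real.log (M / r) := by
    have h1 : Real.log ((4 : ℝ) ^ K) ≤ Real.log (M / r) := Real.log_le_log (by positivity) hK1
    rw [Real.log_pow] at h1
    have h2 : (1 : ℝ) ≤ Real.log 4 := by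
      rw [Real.le_log_iff_exp_le (by norm_num)]
      have := Real.exp_one_lt_d9
      linarith
    have h3 : (0 : ℝ) ≤ K := Nat.cast_nonneg K
    nlinarith
  have key : ∀ η ∈ S.filter (fun η => ‖1 - (starRingEnd ℂ) η * x‖ ≤ M),
      (1 - ‖η‖ ^ 2) / ‖1 - (starRingEnd ℂ) η * x‖ ≤
      ∑ i ∈ Finset.range (K + 1), if ‖1 - (starRingEnd ℂ) η * x‖ ≤ 4 ^ (i + 1) * r then
        (1 - ‖η‖ ^ 2) / (4 ^ i * r) else 0 := by
    intro η hη
    obtain ⟨hηS, hηM⟩ := Finset.mem_filter.1 hη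
    obtain ⟨-, -, hV2, hN, hV⟩ := V_basic (hS η hηS) hx
    have hηr := hV0 η hηS
    set V := ‖1 - (starRingEnd ℂ) η * x‖ with hVdef
    obtain ⟨i, hi1, hi2⟩ := exists_nat_pow_near (x := V / r) (y := 4) ((one_le_div hr).2 hηr)
      (by norm_num)
    have hiK : i < K + 1 := by
      have h1 : (4 : ℝ) ^ i < 4 ^ (K + 1) :=
        lt_of_le_of_lt (hi1.trans (by gcongr)) hK2
      exact (pow_lt_pow_iff_right₀ (by norm_num)).1 h1
    rw [le_div_iff₀ hr] at hi1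
    rw [div_lt_iff₀ hr] at hi2
    have hnn : ∀ j ∈ Finset.range (K + 1), 0 ≤ if V ≤ 4 ^ (j + 1) * r then
        (1 - ‖η‖ ^ 2) / (4 ^ j * r) else 0 := by
      intro j _
      split_ifs
      · positivity
      · exact le_rfl
    refine le_trans ?_ (Finset.single_le_sum hnn (Finset.mem_range.2 hiK))
    rw [if_pos hi2.le]
    exact div_le_div_of_nonneg_left hN.le (by positivity) hi1
  refine (Finset.sum_le_sum key).trans ?_
  have hstep : ∑ η ∈ S.filter (fun η => ‖1 - (starRingEnd ℂ) η * x‖ ≤ M),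
      (∑ i ∈ Finset.range (K + 1), if ‖1 - (starRingEnd ℂ) η * x‖ ≤ 4 ^ (i + 1) * r then
        (1 - ‖η‖ ^ 2) / (4 ^ i * r) else 0) ≤
      ∑ η ∈ S, ∑ i ∈ Finset.range (K + 1), if ‖1 - (starRingEnd ℂ) η * x‖ ≤ 4 ^ (i + 1) * r then
        (1 - ‖η‖ ^ 2) / (4 ^ i * r) else 0 := by
    refine Finset.sum_le_sum_of_subset_of_nonneg (Finset.filter_subset _ _) ?_
    intro η hη _
    refine Finset.sum_nonneg fun j _ => ?_
    obtain ⟨-, -, -, hN, hV⟩ := V_basic (hS η hη) hx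
    split_ifs
    · positivity
    · exact le_rfl
  refine hstep.trans ?_
  rw [Finset.sum_comm]
  have hcl : ∀ i ∈ Finset.range (K + 1), ∑ η ∈ S, (if ‖1 - (starRingEnd ℂ) η * x‖ ≤ 4 ^ (i + 1) * r then
        (1 - ‖η‖ ^ 2) / (4 ^ i * r) else 0) ≤ 16 * A := by
    intro i _
    rw [← Finset.sum_filter, ← Finset.sum_div]
    have h1 := sum_N hS hA hx (r := 4 ^ (i + 1) * r) (by positivity)
    rw [div_le_iff₀ (by positivity)]
    refine h1.trans (le_of_eq ?_)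
    rw [pow_succ]
    ring
  refine (Finset.sum_le_sum hcl).trans ?_
  rw [Finset.sum_const, Finset.card_range, nsmul_eq_mul]
  push_cast
  nlinarith

/-- The real part of one block of the exponent (one function `q`).
Notation: `s = δ ζ`, `t = ‖v‖`, `N = 1 - |η|²`, `θ_η = th N s ∈ [0, 1]`.
PROOF. We have to bound from above `∑_η θ_η (Re Hf(q ζ) - Re Hf(q z))`. Let `L ≥ 1` be a large constant.
(1) FAR: `V_ζ > L t`. `Hf η x - Hf η y = N conj η (x - y) / ((1 - conj η x) (1 - conj η y))`, so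
`|Hf(q z) - Hf(q ζ)| ≤ N |q z - q ζ| / (V_z V_ζ)`, and `|q z - q ζ| ≤ C₁ (t + √(2 V_ζ t)) ≤ 3 C₁ √(V_ζ t)`
(`qdiff`, `t ≤ V_ζ`), so `V_z ≥ V_ζ - 3 C₁ √(V_ζ t) ≥ V_ζ / 2` if `L ≥ 36 C₁²`. So the term is at most
`6 C₁ (N / V_ζ) √(t / V_ζ)`. Dyadic classes `V_ζ ∈ (2^i L t, 2^(i+1) L t]`: by `sum_N` with `r = 2^(i+1) L t` the
sum of `N / V_ζ` over the class is at most `8 A`. So the far part is at most `6 C₁ 8 A ∑_i (2^i L)^(-1/2) ≤
C₂ A`.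
(2) NEAR, `V_ζ ≤ L t`: `∑ θ Re Hf(q ζ) ≤ ∑ N / V_ζ`, over the classes between `V_ζ ≥ c s` (`QM.lt`) and `L t`: the
number of the dyadic classes is at most `2 + log₂ (L t / (c s))`, so the sum is at most
`8 A (2 + log₂(L t / (c s))) ≤ C₃ A (1 + log (t / s + 1))`.
(3) NEAR: `-∑ θ Re Hf(q z) ≤ -(1/2) ∑_(V_z ≤ s / 4) (N / V_z)²`: if `V_z ≤ s / 4` then `N ≤ 2 V_z ≤ s / 2`, so
`θ = 1` (`th_one`), and `η` is near: `V_ζ ≤ C₄ (V_z + t) ≤ C₄ (s + t) ≤ 3 C₄ t ≤ L t` (`V_comp`, `s ≤ 2 t`);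
`Hf_re`. The other near terms are `≤ 0`. -/
theorem exp_block (n : ℕ) (c C A : ℝ) : ∃ C' : ℝ, 0 < C' ∧ ∀ (U : Set (Ec n))
    (δ : Ec n → ℝ) (h : Ec n → Ec n → Fin n → ℂ) (q : Ec n → ℂ) (H : Ec n → Ec n → Fin n → ℂ)
    (S : Finset ℂ), Geo U δ h c C → QM U δ h q H c C → (∀ η ∈ S, ‖η‖ < 1) →
    (∀ x : ℂ, ‖x‖ < 1 → ∑ η ∈ S, JJ x η ≤ A) → ∀ z ∈ Om U δ, ∀ ζ ∈ Om U δ,
    ∑ η ∈ S, th (1 - ‖η‖ ^ 2) (δ ζ) * ((Hf η (q ζ)).re - (Hf η (q z)).re) ≤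
      C' * (1 + Real.log (‖vv δ h z ζ‖ / δ ζ + 1)) -
        (1 / 2) * ∑ η ∈ S.filter (fun η => ‖1 - (starRingEnd ℂ) η * q z‖ ≤ δ ζ / 4),
          ((1 - ‖η‖ ^ 2) / ‖1 - (starRingEnd ℂ) η * q z‖) ^ 2 := by
  obtain ⟨C₁, hC₁, hq⟩ := qdiff n c C
  obtain ⟨C₄, hC₄, hcomp⟩ := V_comp n c C
  set L : ℝ := 36 * C₁ ^ 2 + 3 / 2 * C₄ + 2 with hL
  have hLpos : 0 < L := by positivity
  have hL2 : 2 ≤ L := by
    have : 0 < C₁ ^ 2 := by positivity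
    rw [hL]; linarith
  refine ⟨192 * C₁ * |A| + 16 * |A| * (1 + |Real.log (L / c)|) + 16 * |A| + 1, by positivity, ?_⟩
  intro U δ h q H S hg hQ hS hA z hz ζ hζ
  have hc := hg.c0
  have hc1 := hg.c1
  have hA0 : 0 ≤ A := by
    refine le_trans ?_ (hA 0 (by simp))
    refine Finset.sum_nonneg fun η hη => ?_
    have h1 : 0 < 1 - ‖η‖ ^ 2 := (V_basic (hS η hη) (x := 0) (by simp)).2.2.2.1
    unfold JJ
    simp only [norm_zero]
    positivity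
  rw [abs_of_nonneg hA0]
  obtain ⟨-, hst, -, ht⟩ := v_lb hg hz hζ
  have hs : 0 < δ ζ := hζ.2
  have hqz : ‖q z‖ < 1 := by
    have h1 := hQ.lt z hz.1 hz.2
    have h2 : 0 < c * δ z := mul_pos hc hz.2
    linarith
  have hqζ1 : c * δ ζ ≤ 1 - ‖q ζ‖ := hQ.lt ζ hζ.1 hζ.2
  have hqζ : ‖q ζ‖ < 1 := by
    have h2 : 0 < c * δ ζ := mul_pos hc hζ.2
    linarith
  have hqd := hq U δ h q H hg hQ z hz ζ hζ
  have hcomp' := fun η hη => hcomp U δ h q H hg hQ η hη z hz ζ hζ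
  set t := ‖vv δ h z ζ‖ with htdef
  set s := δ ζ with hsdef
  have key : ∀ η ∈ S, th (1 - ‖η‖ ^ 2) s * ((Hf η (q ζ)).re - (Hf η (q z)).re) ≤
      ((if L * t < ‖1 - (starRingEnd ℂ) η * q ζ‖ then 6 * C₁ * Real.sqrt t *
        ((1 - ‖η‖ ^ 2) / (‖1 - (starRingEnd ℂ) η * q ζ‖ *
          Real.sqrt ‖1 - (starRingEnd ℂ) η * q ζ‖)) else 0) +
      (if ‖1 - (starRingEnd ℂ) η * q ζ‖ ≤ L * t then
        (1 - ‖η‖ ^ 2) / ‖1 - (starRingEnd ℂ) η * q ζ‖ else 0)) -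
      (1 / 2) * (if ‖1 - (starRingEnd ℂ) η * q z‖ ≤ s / 4 then
        ((1 - ‖η‖ ^ 2) / ‖1 - (starRingEnd ℂ) η * q z‖) ^ 2 else 0) := by
    intro η hη
    have hη1 := hS η hη
    obtain ⟨-, hNz, -, hN, hVz⟩ := V_basic hη1 hqz
    obtain ⟨hVζ1, hNζ, -, -, hVζ⟩ := V_basic hη1 hqζ
    obtain ⟨hz1, hz2, hz3⟩ := Hf_re hη1 hqz
    obtain ⟨hζ1, hζ2, hζ3⟩ := Hf_re hη1 hqζ
    obtain ⟨hth0, hth1⟩ := th_mem (1 - ‖η‖ ^ 2) s
    obtain ⟨hcz, hcζ⟩ := hcomp' η hη1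
    have hone : ‖1 - (starRingEnd ℂ) η * q z‖ ≤ s / 4 → th (1 - ‖η‖ ^ 2) s = 1 := by
      intro h1
      exact th_one hN (by linarith)
    have hnear : ‖1 - (starRingEnd ℂ) η * q z‖ ≤ s / 4 →
        ‖1 - (starRingEnd ℂ) η * q ζ‖ ≤ L * t := by
      intro h1
      have h2 : ‖1 - (starRingEnd ℂ) η * q z‖ ≤ t / 2 := by linarith
      calc ‖1 - (starRingEnd ℂ) η * q ζ‖ ≤ C₄ * (‖1 - (starRingEnd ℂ) η * q z‖ + t) := hcζ
        _ ≤ C₄ * (t / 2 + t) := by gcongr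
        _ = 3 / 2 * C₄ * t := by ring
        _ ≤ L * t := by
          refine mul_le_mul_of_nonneg_right ?_ ht.le
          have : 0 < C₁ ^ 2 := by positivity
          rw [hL]; linarith
    by_cases hfar : L * t < ‖1 - (starRingEnd ℂ) η * q ζ‖
    · have hn1 : ¬ ‖1 - (starRingEnd ℂ) η * q ζ‖ ≤ L * t := not_le.2 hfar
      have hn2 : ¬ ‖1 - (starRingEnd ℂ) η * q z‖ ≤ s / 4 := fun h1 => hn1 (hnear h1)
      rw [if_pos hfar, if_neg hn1, if_neg hn2]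
      simp only [add_zero, mul_zero, sub_zero]
      have hdiff : Hf η (q ζ) - Hf η (q z) = (1 - ‖η‖ ^ 2 : ℝ) * ((starRingEnd ℂ) η * (q ζ - q z)) /
          ((1 - (starRingEnd ℂ) η * q ζ) * (1 - (starRingEnd ℂ) η * q z)) := by
        unfold Hf
        have e1 : (1 - (starRingEnd ℂ) η * q ζ) ≠ 0 := norm_pos_iff.1 hVζ
        have e2 : (1 - (starRingEnd ℂ) η * q z) ≠ 0 := norm_pos_iff.1 hVz
        field_simp
        ring
      set Vζ := ‖1 - (starRingEnd ℂ) η * q ζ‖ with hVζdef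
      set Vz := ‖1 - (starRingEnd ℂ) η * q z‖ with hVzdef
      have htV : t ≤ Vζ := by nlinarith
      have hsqt : Real.sqrt t * Real.sqrt t = t := Real.mul_self_sqrt ht.le
      have hsqV : Real.sqrt Vζ * Real.sqrt Vζ = Vζ := Real.mul_self_sqrt hVζ.le
      have hst0 : 0 < Real.sqrt t := Real.sqrt_pos.2 ht
      have hsV0 : 0 < Real.sqrt Vζ := Real.sqrt_pos.2 hVζ
      have hsle : Real.sqrt t ≤ Real.sqrt Vζ := Real.sqrt_le_sqrt htV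
      have hqn : 1 - ‖q ζ‖ ^ 2 ≤ 4 * Vζ := by nlinarith [norm_nonneg (q ζ)]
      have hqdd : ‖q z - q ζ‖ ≤ 3 * C₁ * (Real.sqrt Vζ * Real.sqrt t) := by
        have h1 : Real.sqrt ((1 - ‖q ζ‖ ^ 2) * t) ≤ 2 * (Real.sqrt Vζ * Real.sqrt t) := by
          refine Real.sqrt_le_iff.2 ⟨by positivity, ?_⟩
          have : (2 * (Real.sqrt Vζ * Real.sqrt t)) ^ 2 = 4 * Vζ * t := by
            calc (2 * (Real.sqrt Vζ * Real.sqrt t)) ^ 2
                = 4 * (Real.sqrt Vζ * Real.sqrt Vζ) * (Real.sqrt t * Real.sqrt t) := by ring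
              _ = 4 * Vζ * t := by rw [hsqV, hsqt]
          rw [this]
          exact mul_le_mul_of_nonneg_right hqn ht.le
        have h2 : t ≤ Real.sqrt Vζ * Real.sqrt t := by
          calc t = Real.sqrt t * Real.sqrt t := hsqt.symm
            _ ≤ Real.sqrt Vζ * Real.sqrt t := mul_le_mul_of_nonneg_right hsle hst0.le
        calc ‖q z - q ζ‖ ≤ C₁ * (t + Real.sqrt ((1 - ‖q ζ‖ ^ 2) * t)) := hqd
          _ ≤ C₁ * (Real.sqrt Vζ * Real.sqrt t + 2 * (Real.sqrt Vζ * Real.sqrt t)) := by gcongr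
          _ = 3 * C₁ * (Real.sqrt Vζ * Real.sqrt t) := by ring
      have hsmall : 6 * C₁ * Real.sqrt t ≤ Real.sqrt Vζ := by
        refine Real.le_sqrt_of_sq_le ?_
        have h1 : (6 * C₁ * Real.sqrt t) ^ 2 = 36 * C₁ ^ 2 * t := by
          calc (6 * C₁ * Real.sqrt t) ^ 2 = 36 * C₁ ^ 2 * (Real.sqrt t * Real.sqrt t) := by ring
            _ = _ := by rw [hsqt]
        rw [h1]
        refine le_trans ?_ hfar.le
        refine mul_le_mul_of_nonneg_right ?_ ht.le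
        rw [hL]; linarith
      have hVzge : Vζ / 2 ≤ Vz := by
        have h1 : Vζ ≤ Vz + ‖q z - q ζ‖ := by
          have e : 1 - (starRingEnd ℂ) η * q ζ = (1 - (starRingEnd ℂ) η * q z) +
              (starRingEnd ℂ) η * (q z - q ζ) := by ring
          rw [hVζdef, e]
          refine (norm_add_le _ _).trans ?_
          rw [norm_mul, RCLike.norm_conj]
          have : ‖η‖ * ‖q z - q ζ‖ ≤ ‖q z - q ζ‖ := mul_le_of_le_one_left (norm_nonneg _) hη1.le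
          linarith
        have h2 : 3 * C₁ * (Real.sqrt Vζ * Real.sqrt t) ≤ Vζ / 2 := by
          calc 3 * C₁ * (Real.sqrt Vζ * Real.sqrt t)
              = Real.sqrt Vζ * (6 * C₁ * Real.sqrt t) / 2 := by ring
            _ ≤ Real.sqrt Vζ * Real.sqrt Vζ / 2 := by gcongr
            _ = Vζ / 2 := by rw [hsqV]
        linarith
      have hre : (Hf η (q ζ)).re - (Hf η (q z)).re ≤ 6 * C₁ * Real.sqrt t *
          ((1 - ‖η‖ ^ 2) / (Vζ * Real.sqrt Vζ)) := by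
        rw [← Complex.sub_re]
        refine (Complex.re_le_norm _).trans ?_
        rw [hdiff, norm_div, norm_mul, norm_mul, norm_mul, RCLike.norm_conj, Complex.norm_real,
          Real.norm_of_nonneg hN.le, ← hVζdef, ← hVzdef, norm_sub_rev (q ζ) (q z)]
        have h1 : ‖η‖ * ‖q z - q ζ‖ ≤ 3 * C₁ * (Real.sqrt Vζ * Real.sqrt t) :=
          le_trans (mul_le_of_le_one_left (norm_nonneg _) hη1.le) hqdd
        have h2 : 0 < Vζ * (Vζ / 2) := by positivity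
        calc (1 - ‖η‖ ^ 2) * (‖η‖ * ‖q z - q ζ‖) / (Vζ * Vz)
            ≤ (1 - ‖η‖ ^ 2) * (3 * C₁ * (Real.sqrt Vζ * Real.sqrt t)) / (Vζ * (Vζ / 2)) := by
              gcongr
          _ = 6 * C₁ * Real.sqrt t * ((1 - ‖η‖ ^ 2) * Real.sqrt Vζ / (Vζ * Vζ)) := by
              field_simp
              ring
          _ = 6 * C₁ * Real.sqrt t * ((1 - ‖η‖ ^ 2) / (Vζ * Real.sqrt Vζ)) := by
              congr 1
              rw [div_eq_div_iff (by positivity) (by positivity)]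
              calc (1 - ‖η‖ ^ 2) * Real.sqrt Vζ * (Vζ * Real.sqrt Vζ)
                  = (1 - ‖η‖ ^ 2) * (Vζ * (Real.sqrt Vζ * Real.sqrt Vζ)) := by ring
                _ = (1 - ‖η‖ ^ 2) * (Vζ * Vζ) := by rw [hsqV]
      have hRHS : 0 ≤ 6 * C₁ * Real.sqrt t * ((1 - ‖η‖ ^ 2) / (Vζ * Real.sqrt Vζ)) := by
        positivity
      calc th (1 - ‖η‖ ^ 2) s * ((Hf η (q ζ)).re - (Hf η (q z)).re)
          ≤ th (1 - ‖η‖ ^ 2) s * (6 * C₁ * Real.sqrt t *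
            ((1 - ‖η‖ ^ 2) / (Vζ * Real.sqrt Vζ))) := mul_le_mul_of_nonneg_left hre hth0
        _ ≤ _ := mul_le_of_le_one_left hRHS hth1
    · have hn1 : ‖1 - (starRingEnd ℂ) η * q ζ‖ ≤ L * t := not_lt.1 hfar
      rw [if_neg hfar, if_pos hn1, zero_add]
      by_cases hcl : ‖1 - (starRingEnd ℂ) η * q z‖ ≤ s / 4
      · rw [if_pos hcl, hone hcl]
        linarith
      · rw [if_neg hcl]
        simp only [mul_zero, sub_zero]
        have h1 : th (1 - ‖η‖ ^ 2) s * (Hf η (q ζ)).re ≤ (Hf η (q ζ)).re :=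
          mul_le_of_le_one_left hζ2 hth1
        have h2 : 0 ≤ th (1 - ‖η‖ ^ 2) s * (Hf η (q z)).re := mul_nonneg hth0 hz2
        rw [mul_sub]
        linarith
  refine (Finset.sum_le_sum key).trans ?_
  rw [Finset.sum_sub_distrib, Finset.sum_add_distrib, ← Finset.mul_sum, ← Finset.sum_filter,
    ← Finset.sum_filter, ← Finset.sum_filter, ← Finset.mul_sum]
  refine sub_le_sub_right ?_ _
  have hcs : 0 < c * s := mul_pos hc hs
  have hLt : 0 < L * t := by positivity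
  have hcsL : c * s ≤ L * t := by nlinarith
  have hfarS := J3_far hS hA hA0 hqζ hLt
  have hnearS := J3_near hS hA hA0 hqζ hcs hcsL (fun η hη => by
    exact hqζ1.trans (V_basic (hS η hη) hqζ).1)
  have hst0 : 0 < Real.sqrt t := Real.sqrt_pos.2 ht
  have hsLt : Real.sqrt t ≤ Real.sqrt (L * t) := Real.sqrt_le_sqrt (by nlinarith)
  have hfar2 : 6 * C₁ * Real.sqrt t * (32 * A / Real.sqrt (L * t)) ≤ 192 * C₁ * A := by
    have h1 : Real.sqrt t / Real.sqrt (L * t) ≤ 1 := (div_le_one (lt_of_lt_of_le hst0 hsLt)).2 hsLt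
    calc 6 * C₁ * Real.sqrt t * (32 * A / Real.sqrt (L * t))
        = 192 * C₁ * A * (Real.sqrt t / Real.sqrt (L * t)) := by ring
      _ ≤ 192 * C₁ * A * 1 := by gcongr
      _ = _ := by ring
  have hlog : Real.log (L * t / (c * s)) ≤ |Real.log (L / c)| + Real.log (t / s + 1) := by
    have h1 : L * t / (c * s) = L / c * (t / s) := by field_simp
    rw [h1, Real.log_mul (by positivity) (by positivity)]
    have h2 : Real.log (t / s) ≤ Real.log (t / s + 1) := Real.log_le_log (by positivity) (by linarith)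
    have h3 := le_abs_self (Real.log (L / c))
    linarith
  have hlog0 : 0 ≤ Real.log (t / s + 1) := Real.log_nonneg (by
    have : 0 < t / s := by positivity
    linarith)
  have hb : 0 ≤ |Real.log (L / c)| := abs_nonneg _
  have e1 : 6 * C₁ * Real.sqrt t * ∑ η ∈ S.filter (fun η => L * t < ‖1 - (starRingEnd ℂ) η * q ζ‖),
      (1 - ‖η‖ ^ 2) / (‖1 - (starRingEnd ℂ) η * q ζ‖ *
        Real.sqrt ‖1 - (starRingEnd ℂ) η * q ζ‖) ≤ 192 * C₁ * A :=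
    (mul_le_mul_of_nonneg_left hfarS (by positivity)).trans hfar2
  have e2 : 16 * A * (1 + Real.log (L * t / (c * s))) ≤
      16 * A * (1 + (|Real.log (L / c)| + Real.log (t / s + 1))) := by gcongr
  refine (add_le_add e1 (hnearS.trans e2)).trans ?_
  have hAC : 0 ≤ C₁ * A := by positivity
  have p1 : 0 ≤ C₁ * A * Real.log (t / s + 1) := by positivity
  have p2 : 0 ≤ A * Real.log (t / s + 1) := by positivity
  have p3 : 0 ≤ A * |Real.log (L / c)| * Real.log (t / s + 1) := by positivity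
  nlinarith

/-- The exponential factor.
PROOF. `‖exp (Ex)‖ = exp (Re Ex)`, `Re Ex = κ ∑_j ∑_η θ (Re Hf(q ζ) - Re Hf(q z)) ≤
κ R C₁ (1 + log (t / s + 1)) - (κ / 2) TT P z (s / 4)` by `exp_block`. If `κ R C₁ ≤ 1`:
`exp (1 + log (t / s + 1)) = e (t / s + 1) ≤ 3 e (t / s)` since `t / s ≥ 1 / 2`. -/
theorem exp_bound (n : ℕ) (c C A : ℝ) (R : ℕ) : ∃ C' : ℝ, 0 < C' ∧ ∀ (U : Set (Ec n))
    (δ : Ec n → ℝ) (h : Ec n → Ec n → Fin n → ℂ) (P : PD n), P.R = R → Geo U δ h c C →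
    PG P U δ h c C A → ∀ κ : ℝ, 0 ≤ κ → κ * C' ≤ 1 → ∀ z ∈ Om U δ, ∀ ζ ∈ Om U δ,
    ‖Complex.exp (Ex P δ κ z ζ)‖ ≤ C' * (‖vv δ h z ζ‖ / δ ζ) *
      Real.exp (-(κ / 2) * TT P z (δ ζ / 4)) := by
  obtain ⟨C₁, hC₁, hblock⟩ := exp_block n c C A
  refine ⟨9 + R * C₁, by positivity, ?_⟩
  intro U δ h P hR hg hP κ hκ hκ1 z hz ζ hζ
  obtain ⟨-, hst, -, ht⟩ := v_lb hg hz hζ
  have hs : 0 < δ ζ := hζ.2
  have hre : (Ex P δ κ z ζ).re = κ * ∑ r, ∑ η ∈ P.S r, th (1 - ‖η‖ ^ 2) (δ ζ) *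
      ((Hf η (P.q r ζ)).re - (Hf η (P.q r z)).re) := by
    unfold Ex
    rw [← Complex.ofReal_neg, Complex.re_ofReal_mul, Complex.re_sum, neg_mul, ← mul_neg,
      ← Finset.sum_neg_distrib]
    congr 1
    refine Finset.sum_congr rfl fun r _ => ?_
    rw [Complex.re_sum, ← Finset.sum_neg_distrib]
    refine Finset.sum_congr rfl fun η _ => ?_
    rw [Complex.re_ofReal_mul, Complex.sub_re]
    ring
  have hsum : ∑ r, ∑ η ∈ P.S r, th (1 - ‖η‖ ^ 2) (δ ζ) *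
      ((Hf η (P.q r ζ)).re - (Hf η (P.q r z)).re) ≤
      R * (C₁ * (1 + Real.log (‖vv δ h z ζ‖ / δ ζ + 1))) - (1 / 2) * TT P z (δ ζ / 4) := by
    have h1 : ∀ r ∈ (Finset.univ : Finset (Fin P.R)), ∑ η ∈ P.S r, th (1 - ‖η‖ ^ 2) (δ ζ) *
        ((Hf η (P.q r ζ)).re - (Hf η (P.q r z)).re) ≤
        C₁ * (1 + Real.log (‖vv δ h z ζ‖ / δ ζ + 1)) -
        (1 / 2) * ∑ η ∈ (P.S r).filter (fun η => ‖1 - (starRingEnd ℂ) η * P.q r z‖ ≤ δ ζ / 4),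
          ((1 - ‖η‖ ^ 2) / ‖1 - (starRingEnd ℂ) η * P.q r z‖) ^ 2 := fun r _ =>
      hblock U δ h (P.q r) (P.H r) (P.S r) hg (hP.qm r) (hP.sub r) (hP.carl r) z hz ζ hζ
    have hRc : ((Finset.univ : Finset (Fin P.R)).card : ℝ) = R := by
      rw [Finset.card_univ, Fintype.card_fin, hR]
    refine (Finset.sum_le_sum h1).trans (le_of_eq ?_)
    rw [Finset.sum_sub_distrib, Finset.sum_const, nsmul_eq_mul, hRc, ← Finset.mul_sum]
    rfl
  set t := ‖vv δ h z ζ‖ with htdef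
  set s := δ ζ with hsdef
  have hts : 0 < t / s := by positivity
  have hts2 : 1 ≤ 2 * (t / s) := by
    rw [← mul_div_assoc, le_div_iff₀ hs]; linarith
  have hlog0 : 0 ≤ Real.log (t / s + 1) := Real.log_nonneg (by linarith)
  have hκR : κ * (R * C₁) ≤ 1 := by nlinarith
  rw [Complex.norm_exp, hre]
  have hle : κ * ∑ r, ∑ η ∈ P.S r, th (1 - ‖η‖ ^ 2) s *
      ((Hf η (P.q r ζ)).re - (Hf η (P.q r z)).re) ≤
      (1 + Real.log (t / s + 1)) + -(κ / 2) * TT P z (s / 4) := by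
    refine (mul_le_mul_of_nonneg_left hsum hκ).trans ?_
    have h2 : κ * (R * C₁) * (1 + Real.log (t / s + 1)) ≤ 1 * (1 + Real.log (t / s + 1)) :=
      mul_le_mul_of_nonneg_right hκR (by linarith)
    linarith
  refine (Real.exp_le_exp.2 hle).trans ?_
  rw [Real.exp_add, Real.exp_add, Real.exp_log (by linarith)]
  refine mul_le_mul_of_nonneg_right ?_ (Real.exp_pos _).le
  have he := Real.exp_one_lt_d9
  have he0 := Real.exp_pos 1
  have hRC : 0 ≤ (R : ℝ) * C₁ := by positivity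
  have hRCt : 0 ≤ (R : ℝ) * C₁ * (t / s) := by positivity
  calc Real.exp 1 * (t / s + 1) ≤ Real.exp 1 * (3 * (t / s)) := by
        refine mul_le_mul_of_nonneg_left ?_ he0.le
        linarith
    _ ≤ 3 * (3 * (t / s)) := by
        refine mul_le_mul_of_nonneg_right ?_ (by positivity)
        linarith
    _ ≤ (9 + R * C₁) * (t / s) := by linarith

/-- The vector of the weight.
PROOF. `deriv (th N) s ≠ 0` only for `s ≤ N ≤ 2 s` (`th_deriv`), and it is at most `C₀ / N`. So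
`‖Rv‖ ≤ κ C C₀ ∑_j ∑_(s ≤ N ≤ 2 s) 1 / (V_z V_ζ)`. `V_z ≥ N / 2 ≥ s / 2` (`V_basic`), so by `V_comp`
`V_ζ ≤ C₁ (V_z + t) ≤ C₁ V_z (1 + 2 t / s) ≤ 4 C₁ V_z (t / s)`. So
`1 / (V_z V_ζ) ≤ 4 C₁ (t / s) / V_ζ² ≤ 4 C₁ (t / s) (1 / s) (N / V_ζ²)`, and
`N / V_ζ² = JJ (q ζ) η / (1 - |q ζ|²)`, so the sum is at most `A / (1 - |q ζ|²) ≤ A / (c s)` (`QM.lt`). Hence
`‖Rv‖ ≤ κ C₂ (t / s) / s²` and `s t ‖Rv‖ ≤ κ C₂ (t / s)²`. -/
theorem Rv_bound (n : ℕ) (c C A : ℝ) (R : ℕ) : ∃ C' : ℝ, 0 < C' ∧ ∀ (U : Set (Ec n))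
    (δ : Ec n → ℝ) (h : Ec n → Ec n → Fin n → ℂ) (P : PD n), P.R = R → Geo U δ h c C →
    PG P U δ h c C A → ∀ κ : ℝ, 0 ≤ κ → ∀ z ∈ Om U δ, ∀ ζ ∈ Om U δ,
    δ ζ * ‖vv δ h z ζ‖ * ‖Rv P δ κ z ζ‖ ≤ C' * κ * (‖vv δ h z ζ‖ / δ ζ) ^ 2 := by
  obtain ⟨C₀, hC₀, hth⟩ := th_deriv
  obtain ⟨C₁, hC₁, hcomp⟩ := V_comp n c C
  refine ⟨4 * C₀ * |C| * C₁ * |A| * R / |c| + 1, by positivity, ?_⟩
  intro U δ h P hR hg hP κ hκ z hz ζ hζ
  have hc := hg.c0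
  have hC1 := hg.C1
  have hA1 := hP.A1
  rw [abs_of_pos hc, abs_of_pos (lt_of_lt_of_le one_pos hC1),
    abs_of_pos (lt_of_lt_of_le one_pos hA1)]
  obtain ⟨-, hst, -, ht⟩ := v_lb hg hz hζ
  have hs : 0 < δ ζ := hζ.2
  set t := ‖vv δ h z ζ‖ with htdef
  have hts : 0 < t / δ ζ := by positivity
  have hts2 : 1 ≤ 2 * (t / δ ζ) := by
    rw [← mul_div_assoc, le_div_iff₀ hs]; linarith
  have hC0 : 0 < C := lt_of_lt_of_le one_pos hC1
  have hA0 : 0 < A := lt_of_lt_of_le one_pos hA1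
  have hterm : ∀ k : Fin n, ∀ r : Fin P.R, ∀ η ∈ P.S r,
      ‖((deriv (th (1 - ‖η‖ ^ 2)) (δ ζ) : ℝ) : ℂ) *
        ((1 - ‖η‖ ^ 2 : ℝ) * (starRingEnd ℂ) η / ((1 - (starRingEnd ℂ) η * P.q r z) *
        (1 - (starRingEnd ℂ) η * P.q r ζ))) * P.H r z ζ k‖ ≤
        4 * C₀ * C * C₁ * (t / δ ζ) / (δ ζ * (c * δ ζ)) * JJ (P.q r ζ) η := by
    intro k r η hη
    have hη1 := hP.sub r η hη
    have hQ := hP.qm r
    have hqz : ‖P.q r z‖ < 1 := by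
      have h1 := hQ.lt z hz.1 hz.2
      have h2 : 0 < c * δ z := mul_pos hc hz.2
      linarith
    have hqζ1 : c * δ ζ ≤ 1 - ‖P.q r ζ‖ := hQ.lt ζ hζ.1 hζ.2
    have hqζ : ‖P.q r ζ‖ < 1 := by
      have h2 : 0 < c * δ ζ := mul_pos hc hζ.2
      linarith
    obtain ⟨-, hNz, -, hN, hVz⟩ := V_basic hη1 hqz
    obtain ⟨hVζ1, hNζ, -, -, hVζ⟩ := V_basic hη1 hqζ
    obtain ⟨hd1, hd2, hd3⟩ := hth (1 - ‖η‖ ^ 2) (δ ζ) hN
    obtain ⟨-, hcζ⟩ := hcomp U δ h (P.q r) (P.H r) hg hQ η hη1 z hz ζ hζ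
    have hHk : ‖P.H r z ζ k‖ ≤ C := (norm_le_pi_norm _ k).trans (hQ.Hb z hz.1 ζ hζ.1)
    have hq2 : 0 < 1 - ‖P.q r ζ‖ ^ 2 := by nlinarith [norm_nonneg (P.q r ζ)]
    have hq3 : c * δ ζ ≤ 1 - ‖P.q r ζ‖ ^ 2 := by nlinarith [norm_nonneg (P.q r ζ)]
    have hcs : 0 < c * δ ζ := mul_pos hc hs
    rw [← htdef] at hcζ
    have hJJ : JJ (P.q r ζ) η = (1 - ‖P.q r ζ‖ ^ 2) * (1 - ‖η‖ ^ 2) /
        ‖1 - (starRingEnd ℂ) η * P.q r ζ‖ ^ 2 := rfl
    have hJJ0 : 0 ≤ JJ (P.q r ζ) η := by rw [hJJ]; positivity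
    have hRHS : 0 ≤ 4 * C₀ * C * C₁ * (t / δ ζ) / (δ ζ * (c * δ ζ)) * JJ (P.q r ζ) η := by
      positivity
    by_cases hz0 : deriv (th (1 - ‖η‖ ^ 2)) (δ ζ) = 0
    · rw [hz0]
      simpa using hRHS
    · have hN2 : (1 - ‖η‖ ^ 2) / 2 ≤ δ ζ := by
        by_contra hcon
        exact hz0 (hd2 (not_le.1 hcon))
      have hN1 : δ ζ ≤ 1 - ‖η‖ ^ 2 := by
        by_contra hcon
        exact hz0 (hd3 (not_le.1 hcon))
      rw [norm_mul, norm_mul, norm_div, norm_mul, norm_mul, RCLike.norm_conj, Complex.norm_real,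
        Complex.norm_real, Real.norm_of_nonneg hN.le, Real.norm_eq_abs, hJJ]
      set Vζ := ‖1 - (starRingEnd ℂ) η * P.q r ζ‖ with hVζdef
      set Vz := ‖1 - (starRingEnd ℂ) η * P.q r z‖ with hVzdef
      set N := 1 - ‖η‖ ^ 2 with hNdef
      have hVz2 : δ ζ ≤ 2 * Vz := by linarith
      have htV : t ≤ 2 * (t / δ ζ) * Vz := by
        have : t = (t / δ ζ) * δ ζ := by field_simp
        calc t = (t / δ ζ) * δ ζ := this
          _ ≤ (t / δ ζ) * (2 * Vz) := by gcongr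
          _ = 2 * (t / δ ζ) * Vz := by ring
      have hVV : Vζ ≤ 4 * C₁ * (t / δ ζ) * Vz := by
        calc Vζ ≤ C₁ * (Vz + t) := hcζ
          _ ≤ C₁ * (2 * (t / δ ζ) * Vz + 2 * (t / δ ζ) * Vz) := by
            have : Vz ≤ 2 * (t / δ ζ) * Vz := le_mul_of_one_le_left hVz.le hts2
            gcongr
          _ = _ := by ring
      have hηq : ‖η‖ ≤ 1 := hη1.le
      calc |deriv (th N) (δ ζ)| * (N * ‖η‖ / (Vz * Vζ)) * ‖P.H r z ζ k‖
          ≤ C₀ / N * (N * 1 / (Vz * Vζ)) * C := by gcongr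
        _ = C₀ * C / (Vz * Vζ) := by field_simp
        _ = C₀ * C * Vζ / (Vz * Vζ ^ 2) := by field_simp
        _ ≤ C₀ * C * (4 * C₁ * (t / δ ζ) * Vz) / (Vz * Vζ ^ 2) := by gcongr
        _ = 4 * C₀ * C * C₁ * (t / δ ζ) * 1 * 1 / Vζ ^ 2 := by field_simp
        _ ≤ 4 * C₀ * C * C₁ * (t / δ ζ) * (N / δ ζ) * ((1 - ‖P.q r ζ‖ ^ 2) / (c * δ ζ)) / Vζ ^ 2 := by
            have h1 : 1 ≤ N / δ ζ := (one_le_div hs).2 hN1
            have h2 : 1 ≤ (1 - ‖P.q r ζ‖ ^ 2) / (c * δ ζ) := (one_le_div hcs).2 hq3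
            gcongr
        _ = 4 * C₀ * C * C₁ * (t / δ ζ) / (δ ζ * (c * δ ζ)) *
            ((1 - ‖P.q r ζ‖ ^ 2) * N / Vζ ^ 2) := by field_simp
  have hRv : ‖Rv P δ κ z ζ‖ ≤ κ * (R * (4 * C₀ * C * C₁ * (t / δ ζ) / (δ ζ * (c * δ ζ)) * A)) := by
    have hB0 : 0 ≤ 4 * C₀ * C * C₁ * (t / δ ζ) / (δ ζ * (c * δ ζ)) := by positivity
    refine (pi_norm_le_iff_of_nonneg (by positivity)).2 fun k => ?_
    unfold Rv
    have hsum : ‖∑ r, ∑ η ∈ P.S r, ((deriv (th (1 - ‖η‖ ^ 2)) (δ ζ) : ℝ) : ℂ) *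
        ((1 - ‖η‖ ^ 2 : ℝ) * (starRingEnd ℂ) η / ((1 - (starRingEnd ℂ) η * P.q r z) *
        (1 - (starRingEnd ℂ) η * P.q r ζ))) * P.H r z ζ k‖ ≤
        R * (4 * C₀ * C * C₁ * (t / δ ζ) / (δ ζ * (c * δ ζ)) * A) := by
      have h1 : ∀ r ∈ (Finset.univ : Finset (Fin P.R)),
          ‖∑ η ∈ P.S r, ((deriv (th (1 - ‖η‖ ^ 2)) (δ ζ) : ℝ) : ℂ) *
          ((1 - ‖η‖ ^ 2 : ℝ) * (starRingEnd ℂ) η / ((1 - (starRingEnd ℂ) η * P.q r z) *
          (1 - (starRingEnd ℂ) η * P.q r ζ))) * P.H r z ζ k‖ ≤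
          4 * C₀ * C * C₁ * (t / δ ζ) / (δ ζ * (c * δ ζ)) * A := by
        intro r _
        refine (norm_sum_le _ _).trans ?_
        refine (Finset.sum_le_sum (hterm k r)).trans ?_
        rw [← Finset.mul_sum]
        refine mul_le_mul_of_nonneg_left (hP.carl r _ ?_) hB0
        have h3 := (hP.qm r).lt ζ hζ.1 hζ.2
        have h2 : 0 < c * δ ζ := mul_pos hc hζ.2
        linarith
      refine (norm_sum_le _ _).trans ((Finset.sum_le_sum h1).trans (le_of_eq ?_))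
      rw [Finset.sum_const, Finset.card_univ, Fintype.card_fin, nsmul_eq_mul, hR]
    rw [norm_mul, norm_neg, Complex.norm_real, Real.norm_of_nonneg hκ]
    exact mul_le_mul_of_nonneg_left hsum hκ
  have hst0 : 0 < δ ζ * t := mul_pos hs ht
  refine (mul_le_mul_of_nonneg_left hRv hst0.le).trans ?_
  have hfin : δ ζ * t * (κ * (R * (4 * C₀ * C * C₁ * (t / δ ζ) / (δ ζ * (c * δ ζ)) * A))) =
      (4 * C₀ * C * C₁ * A * R / c) * κ * (t / δ ζ) ^ 2 := by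
    field_simp
  rw [hfin]
  have h1 : 0 ≤ κ * (t / δ ζ) ^ 2 := by positivity
  calc (4 * C₀ * C * C₁ * A * R / c) * κ * (t / δ ζ) ^ 2
      = (4 * C₀ * C * C₁ * A * R / c) * (κ * (t / δ ζ) ^ 2) := by ring
    _ ≤ (4 * C₀ * C * C₁ * A * R / c + 1) * (κ * (t / δ ζ) ^ 2) :=
        mul_le_mul_of_nonneg_right (by linarith) h1
    _ = _ := by ring

end Pool.Agent.MPca0fc2.FD
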