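import Pool.Agent.Lib.MP_ca0fc2_an.Mg.G050
import Pool.Agent.Lib.MP_ca0fc2_an.FD.C5
import Pool.Agent.Lib.MP_ca0fc2_an.Mg.G054
import Pool.Agent.Lib.MP_ca0fc2_an.FD.J3

/-! The estimates of the operators in terms of the potentials. -/

set_option autoImplicit false

open Metric Set MeasureTheory Filter Topology

namespace Pool.Agent.MPca0fc2.FD

variable {n : ℕ} {V : Type*} [NormedAddCommGroup V] [NormedSpace ℂ V] [FiniteDimensional ℂ V]

/-- powers of a number at least `1 / 2` -/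
private theorem J4_pow {ρ : ℝ} (hρ : 1 ≤ 2 * ρ) {a b : ℕ} (hab : a ≤ b) :
    ρ ^ a ≤ 2 ^ b * ρ ^ b := by
  have h0 : 0 ≤ ρ := by linarith
  rw [← mul_pow]
  calc ρ ^ a ≤ (2 * ρ) ^ a := pow_le_pow_left₀ h0 (by linarith) a
    _ ≤ (2 * ρ) ^ b := pow_le_pow_right₀ hρ hab

private theorem J4_ev_le {q : ℕ} {η : Fm n q V} {z : Ec n} {e : ℝ} (he : ∀ I, ‖η I z‖ ≤ e)
    (X : Fin q → Ec n) : ‖ev η z X‖ ≤ (n : ℝ) ^ q * e * ∏ i, ‖X i‖ := by
  unfold ev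
  have hP : 0 ≤ ∏ i, ‖X i‖ := Finset.prod_nonneg fun i _ => norm_nonneg _
  calc ‖∑ I : Fin q → Fin n, (∏ i, (starRingEnd ℂ) (X i (I i))) • η I z‖
      ≤ ∑ I : Fin q → Fin n, ‖(∏ i, (starRingEnd ℂ) (X i (I i))) • η I z‖ := norm_sum_le _ _
    _ ≤ ∑ _I : Fin q → Fin n, (∏ i, ‖X i‖) * e := by
        refine Finset.sum_le_sum fun I _ => ?_
        rw [norm_smul]
        refine mul_le_mul ?_ (he I) (norm_nonneg _) hP
        rw [norm_prod]
        refine Finset.prod_le_prod (fun i _ => norm_nonneg _) fun i _ => ?_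
        rw [RCLike.norm_conj]
        exact PiLp.norm_apply_le _ _
    _ = (n : ℝ) ^ q * e * ∏ i, ‖X i‖ := by
        rw [Finset.sum_const, Finset.card_univ, nsmul_eq_mul]
        simp
        ring

private theorem J4_gau_prod {U : Set (Ec n)} {δ : Ec n → ℝ} {h : Ec n → Ec n → Fin n → ℂ}
    {z : Ec n} (hz : z ∈ Om U δ) {q : ℕ} (X : Fin q → Ec n) :
    ∏ i, ‖X i‖ ≤ (Real.sqrt (δ z)) ^ q * ∏ i, gau δ h z (X i) := by
  calc ∏ i, ‖X i‖ ≤ ∏ i, (Real.sqrt (δ z) * gau δ h z (X i)) :=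
        Finset.prod_le_prod (fun i _ => norm_nonneg _) fun i _ => gau_ge hz.2 _
    _ = (Real.sqrt (δ z)) ^ q * ∏ i, gau δ h z (X i) := by
        rw [Finset.prod_mul_distrib, Finset.prod_const, Finset.card_univ, Fintype.card_fin]

private theorem J4_ρ {U : Set (Ec n)} {δ : Ec n → ℝ} {h : Ec n → Ec n → Fin n → ℂ} {c C : ℝ}
    (hg : Geo U δ h c C) {z ζ : Ec n} (hz : z ∈ Om U δ) (hζ : ζ ∈ Om U δ) :
    1 ≤ 2 * (‖vv δ h z ζ‖ / δ ζ) := by
  have h1 := (v_lb hg hz hζ).2.1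
  have h2 : 0 < δ ζ := hζ.2
  rw [← mul_div_assoc, le_div_iff₀ h2]
  linarith

/-- PROOF. `Ene P δ ζ = ∑_r ∑_η kap (δ ζ) (q_r ζ) η` and `kap_le`. -/
theorem Ene_kb (n : ℕ) (c C : ℝ) : ∃ C' : ℝ, 0 < C' ∧ ∀ (U : Set (Ec n))
    (δ : Ec n → ℝ) (h : Ec n → Ec n → Fin n → ℂ) (P : PD n) (A : ℝ), Geo U δ h c C →
    PG P U δ h c C A → ∀ z ∈ Om U δ, ∀ ζ ∈ Om U δ,
    Ene P δ ζ ≤ C' * (‖vv δ h z ζ‖ / δ ζ) ^ 3 * ∑ r, ∑ η ∈ P.S r, kb (δ ζ) (P.q r z) η := by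
  obtain ⟨C₁, hC₁, hk⟩ := kap_le n c C
  refine ⟨C₁, hC₁, ?_⟩
  intro U δ h P A hg hP z hz ζ hζ
  unfold Ene
  rw [Finset.mul_sum]
  refine Finset.sum_le_sum fun r _ => ?_
  rw [Finset.mul_sum]
  refine Finset.sum_le_sum fun η hη => ?_
  exact hk U δ h (P.q r) (P.H r) hg (hP.qm r) η (hP.sub r η hη) z hz ζ hζ

/-- The unweighted operator is bounded on the classes `Bd`, if the result has positive degree.
Notation: `s = δ ζ`, `t = ‖v(z, ζ)‖`, `δz = δ z`, `V = |1 - conj η q_r(z)|`.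
PROOF. `Sop_bound` with `Nf = B Ene P δ`, and `‖Y i‖ ≤ √δz gau(z, Y i)` (`gau_ge`): it is enough that
`∫⁻ Kh ((δz / s)^(q/2) Ene(ζ)) ≤ C₁ Ene P δ z`. By `Ene_kb` it is enough that for each `r`, `η`:
`∫⁻ Kh (δz / s)^(q/2) (t / s)³ kb s (q_r z) η ≤ C₂ kap δz (q_r z) η` (finite sums: `lintegral_finset_sum` needs
measurability; it is easier to apply `master` to the whole sum, with `Γ l` the sum of the `Γ`'s below).
CLAIM: `(δz / s)^(q/2) (t / s)³ (min (s / V) (V / s))^(1/4) ≤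
C₃ (t / s)^(n+5) (δz / V)^(1/4) (min (s / δz) (δz / s))^(1/4)`.
If `s ≥ δz`: `(δz / s)^(q/2) ≤ (δz / s)^(1/2)` (`q ≥ 1`) and
`(δz / s)^(1/2) (s / V)^(1/4) = (δz / V)^(1/4) (δz / s)^(1/4)`; `(t / s)³ ≤ 2^(n+2) (t / s)^(n+5)` since
`t / s ≥ 1 / 2` (`v_lb`). If `s < δz`: `δz / s ≤ 2 t / s` and `2 t / s ≥ 1`, so
`(δz / s)^(q/2) ≤ (2 t / s)^n` (`q ≤ n`), and `(s / V)^(1/4) = (δz / V)^(1/4) (s / δz)^(1/4)`.
For `s ∈ (R / 2^(l+1), R / 2^l]` (`R = C`), `min (s / δz) (δz / s) ≤ 2 min (s_l / δz) (δz / s_l)`, `s_l = R / 2^l`. So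
`master` applies with `Γ l = C₄ ∑_r ∑_η kap δz (q_r z) η (min (s_l / δz) (δz / s_l))^(1/4)`
`= C₄ Ene(z) (min ..)^(1/4)`, and `∑ Γ l ≤ 14 C₄ Ene(z)` by `sum_min`. -/
theorem Sop_bd (hn : 2 ≤ n) (c C A : ℝ) (R q : ℕ) (hq : 1 ≤ q) (hqn : q ≤ n) :
    ∃ C' : ℝ, 0 < C' ∧ ∀ (U : Set (Ec n))
    (δ : Ec n → ℝ) (h : Ec n → Ec n → Fin n → ℂ) (P : PD n), P.R = R → Geo U δ h c C →
    PG P U δ h c C A → ∀ ε : ℝ, 0 < ε → ε ≤ 1 → ∀ (W : Set (Ec n)) (η : Fm n (q + 1) V) (B : ℝ),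
    0 ≤ B → Kc U δ ⊆ W → (∀ I, ContinuousOn (η I) W) → Bd U δ h P B η →
    Bd U δ h P (C' * B) (Sop U δ h ε η) := by
  by_cases hcC : 0 < c ∧ 1 ≤ C
  swap
  · exact ⟨1, one_pos, fun U δ h P _ hG => absurd ⟨hG.c0, hG.C1⟩ hcC⟩
  obtain ⟨hc, hC⟩ := hcC
  have hC0 : 0 < C := by linarith
  obtain ⟨C₁, hC₁, hS⟩ := Sop_bound (V := V) hn c C q
  obtain ⟨C₂, hC₂, hM⟩ := master hn c C
  obtain ⟨C₃, hC₃, hE⟩ := Ene_kb n c C
  refine ⟨C₁ * (C₂ * (14 * (C₃ * (2 ^ (n + 5) * 2)))), by positivity, ?_⟩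
  intro U δ h P _ hg hP ε hε hε1 W η B hB hK hη hb z hz Y
  have hδz : 0 < δ z := hz.2
  have hEne : ∀ w ∈ Om U δ, 0 ≤ Ene P δ w := fun w hw =>
    le_trans (by have : 0 < δ w := hw.2; positivity) (Ene_ge hP hw)
  have hEz := hEne z hz
  have h1 := hS U δ h hg ε hε hε1 W η (fun ζ => B * Ene P δ ζ) hK hη
    (fun ζ hζ => mul_nonneg hB (hEne ζ hζ)) (fun ζ hζ X => hb ζ hζ X) z hz Y
  set D : ℝ := (Real.sqrt (δ z)) ^ q with hD
  have hD0 : 0 < D := by positivity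
  have h5 := hM U δ h hg C le_rfl z hz
    (fun ζ => D * (((Real.sqrt (δ ζ))⁻¹) ^ q * (B * Ene P δ ζ)))
    (fun l => C₃ * (2 ^ (n + 5) * 2) * B * Ene P δ z *
      (min (C / 2 ^ l / δ z) (δ z / (C / 2 ^ l))) ^ (1 / 4 : ℝ))
    (fun l => by positivity) (by
      intro l ζ hζ hl1 hl2
      have hδ : 0 < δ ζ := hζ.2
      have hρ := J4_ρ hg hz hζ
      have hv := v_lb hg hz hζ
      have hEk := hE U δ h P A hg hP z hz ζ hζ
      set t := ‖vv δ h z ζ‖ with ht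
      set ρ := t / δ ζ with hρd
      have hρ0 : 0 < ρ := by linarith
      set s := δ ζ with hs
      set m := (min (C / 2 ^ l / δ z) (δ z / (C / 2 ^ l))) ^ (1 / 4 : ℝ) with hm
      have hm0 : 0 ≤ m := by positivity
      -- the scalar claim
      have hcl : D * ((Real.sqrt s)⁻¹) ^ q * ρ ^ 3 * (s / δ z) ^ (1 / 4 : ℝ) ≤
          2 ^ (n + 5) * ρ ^ (n + 5) * (2 * m) := by
        have hms : (min (s / δ z) (δ z / s)) ^ (1 / 4 : ℝ) ≤ 2 * m := by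
          have h6 : min (s / δ z) (δ z / s) ≤
              2 * min (C / 2 ^ l / δ z) (δ z / (C / 2 ^ l)) := by
            rw [mul_min_of_nonneg _ _ (by norm_num : (0 : ℝ) ≤ 2)]
            refine le_min ?_ ?_
            · refine (min_le_left _ _).trans ?_
              have h7 : s / δ z ≤ C / 2 ^ l / δ z := by gcongr
              have h8 : 0 ≤ C / 2 ^ l / δ z := by positivity
              linarith
            · refine (min_le_right _ _).trans ?_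
              rw [← mul_div_assoc, div_le_div_iff₀ hδ (by positivity)]
              have h9 : C / 2 ^ l ≤ 2 * s := by
                have h10 : C / 2 ^ (l + 1) = C / 2 ^ l / 2 := by rw [pow_succ]; field_simp
                rw [h10] at hl1
                linarith
              nlinarith
          calc (min (s / δ z) (δ z / s)) ^ (1 / 4 : ℝ) ≤
                (2 * min (C / 2 ^ l / δ z) (δ z / (C / 2 ^ l))) ^ (1 / 4 : ℝ) :=
                Real.rpow_le_rpow (by positivity) h6 (by norm_num)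
            _ = 2 ^ (1 / 4 : ℝ) * m := by rw [Real.mul_rpow (by norm_num) (by positivity)]
            _ ≤ 2 * m := by
                gcongr
                calc (2 : ℝ) ^ (1 / 4 : ℝ) ≤ 2 ^ (1 : ℝ) :=
                      Real.rpow_le_rpow_of_exponent_le (by norm_num) (by norm_num)
                  _ = 2 := Real.rpow_one 2
        have hDs : D * ((Real.sqrt s)⁻¹) ^ q = (Real.sqrt (δ z / s)) ^ q := by
          rw [hD, ← mul_pow, Real.sqrt_div hδz.le, div_eq_mul_inv]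
        rw [hDs]
        rcases le_or_gt (δ z) s with h11 | h11
        · have h12 : min (s / δ z) (δ z / s) = δ z / s := by
            apply min_eq_right
            exact ((div_le_one hδ).2 h11).trans ((one_le_div hδz).2 h11)
          rw [h12] at hms
          have h13 : (Real.sqrt (δ z / s)) ^ q ≤ (δ z / s) ^ (1 / 2 : ℝ) := by
            calc (Real.sqrt (δ z / s)) ^ q ≤ (Real.sqrt (δ z / s)) ^ 1 :=
                  pow_le_pow_of_le_one (Real.sqrt_nonneg _)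
                    (Real.sqrt_le_one.2 ((div_le_one hδ).2 h11)) hq
              _ = (δ z / s) ^ (1 / 2 : ℝ) := by rw [pow_one, Real.sqrt_eq_rpow]
          have h14 : (δ z / s) ^ (1 / 2 : ℝ) * (s / δ z) ^ (1 / 4 : ℝ) =
              (δ z / s) ^ (1 / 4 : ℝ) := by
            have h15 : (s / δ z) = (δ z / s)⁻¹ := by rw [inv_div]
            rw [h15, Real.inv_rpow (by positivity), ← Real.rpow_neg (by positivity),
              ← Real.rpow_add (by positivity)]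
            norm_num
          have h16 : ρ ^ 3 ≤ 2 ^ (n + 5) * ρ ^ (n + 5) := J4_pow hρ (by omega)
          calc (Real.sqrt (δ z / s)) ^ q * ρ ^ 3 * (s / δ z) ^ (1 / 4 : ℝ)
              ≤ (δ z / s) ^ (1 / 2 : ℝ) * ρ ^ 3 * (s / δ z) ^ (1 / 4 : ℝ) := by gcongr
            _ = ρ ^ 3 * ((δ z / s) ^ (1 / 2 : ℝ) * (s / δ z) ^ (1 / 4 : ℝ)) := by ring
            _ = ρ ^ 3 * (δ z / s) ^ (1 / 4 : ℝ) := by rw [h14]
            _ ≤ (2 ^ (n + 5) * ρ ^ (n + 5)) * (2 * m) := by gcongr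
        · have h12 : min (s / δ z) (δ z / s) = s / δ z := by
            apply min_eq_left
            exact ((div_le_one hδz).2 h11.le).trans ((one_le_div hδ).2 h11.le)
          rw [h12] at hms
          have h13 : (Real.sqrt (δ z / s)) ^ q ≤ (2 * ρ) ^ q := by
            refine pow_le_pow_left₀ (Real.sqrt_nonneg _) ?_ q
            have h14 : δ z / s ≤ 2 * ρ := by
              rw [hρd, ← mul_div_assoc]
              gcongr
              exact hv.1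
            have h15 : 1 ≤ δ z / s := (one_le_div hδ).2 h11.le
            have h16 : Real.sqrt (δ z / s) ≤ δ z / s := by
              rw [Real.sqrt_le_left (by positivity)]
              nlinarith
            linarith
          have h17 : (2 * ρ) ^ q * ρ ^ 3 ≤ 2 ^ (n + 5) * ρ ^ (n + 5) := by
            rw [← mul_pow 2 ρ (n + 5)]
            calc (2 * ρ) ^ q * ρ ^ 3 ≤ (2 * ρ) ^ q * (2 * ρ) ^ 3 := by
                  gcongr
                  linarith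
              _ = (2 * ρ) ^ (q + 3) := by rw [pow_add]
              _ ≤ (2 * ρ) ^ (n + 5) := pow_le_pow_right₀ hρ (by omega)
          calc (Real.sqrt (δ z / s)) ^ q * ρ ^ 3 * (s / δ z) ^ (1 / 4 : ℝ)
              ≤ (2 * ρ) ^ q * ρ ^ 3 * (s / δ z) ^ (1 / 4 : ℝ) := by gcongr
            _ ≤ (2 ^ (n + 5) * ρ ^ (n + 5)) * (2 * m) := by gcongr
      -- the potential
      have hsum : (∑ r, ∑ η ∈ P.S r, kb s (P.q r z) η) ≤
          (s / δ z) ^ (1 / 4 : ℝ) * Ene P δ z := by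
        unfold Ene
        rw [Finset.mul_sum]
        refine Finset.sum_le_sum fun r _ => ?_
        rw [Finset.mul_sum]
        refine Finset.sum_le_sum fun η hη => ?_
        have hx : ‖P.q r z‖ < 1 := hP.lt1 r z hz.1 hz.2.le
        obtain ⟨_, _, _, _, hV⟩ := V_basic (hP.sub r η hη) hx
        unfold kb kap
        set Vz := ‖1 - (starRingEnd ℂ) η * P.q r z‖ with hVz
        have h18 : (min (s / Vz) (Vz / s)) ^ (1 / 4 : ℝ) ≤
            (s / δ z) ^ (1 / 4 : ℝ) * (δ z / Vz) ^ (1 / 4 : ℝ) := by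
          rw [← Real.mul_rpow (by positivity) (by positivity)]
          refine Real.rpow_le_rpow (by positivity) ?_ (by norm_num)
          refine (min_le_left _ _).trans (le_of_eq ?_)
          field_simp
        calc ((1 - ‖η‖ ^ 2) / Vz) ^ 2 * (min (s / Vz) (Vz / s)) ^ (1 / 4 : ℝ)
            ≤ ((1 - ‖η‖ ^ 2) / Vz) ^ 2 *
              ((s / δ z) ^ (1 / 4 : ℝ) * (δ z / Vz) ^ (1 / 4 : ℝ)) := by gcongr
          _ = (s / δ z) ^ (1 / 4 : ℝ) *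
              (((1 - ‖η‖ ^ 2) / Vz) ^ 2 * (δ z / Vz) ^ (1 / 4 : ℝ)) := by ring
      calc D * (((Real.sqrt s)⁻¹) ^ q * (B * Ene P δ ζ))
          ≤ D * (((Real.sqrt s)⁻¹) ^ q * (B * (C₃ * ρ ^ 3 *
            ((s / δ z) ^ (1 / 4 : ℝ) * Ene P δ z)))) := by
            gcongr
            exact hEk.trans (by gcongr)
        _ = (D * ((Real.sqrt s)⁻¹) ^ q * ρ ^ 3 * (s / δ z) ^ (1 / 4 : ℝ)) *
            (C₃ * B * Ene P δ z) := by ring
        _ ≤ (2 ^ (n + 5) * ρ ^ (n + 5) * (2 * m)) * (C₃ * B * Ene P δ z) := by gcongr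
        _ = ρ ^ (n + 5) * (C₃ * (2 ^ (n + 5) * 2) * B * Ene P δ z * m) := by ring)
  obtain ⟨h6, h7⟩ := sum_min (V := δ z) (R := C) hδz hC0
  rw [← ENNReal.ofReal_tsum_of_nonneg (fun l => by positivity) (h6.mul_left _), tsum_mul_left,
    ← ENNReal.ofReal_mul hC₂.le] at h5
  have hgau : 0 ≤ ∏ i, gau δ h z (Y i) := Finset.prod_nonneg fun i _ => gau_nonneg hδz _
  have h8 : ENNReal.ofReal (D⁻¹) * ∫⁻ ζ in Om U δ, ENNReal.ofReal (Kh δ h z ζ *
      (D * (((Real.sqrt (δ ζ))⁻¹) ^ q * (B * Ene P δ ζ)))) =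
      ∫⁻ ζ in Om U δ, ENNReal.ofReal (Kh δ h z ζ *
      (((Real.sqrt (δ ζ))⁻¹) ^ q * (B * Ene P δ ζ))) := by
    rw [← lintegral_const_mul' _ _ ENNReal.ofReal_ne_top]
    refine lintegral_congr fun ζ => ?_
    rw [← ENNReal.ofReal_mul (by positivity)]
    congr 1
    field_simp
  rw [← h8] at h1
  have h9 : ENNReal.ofReal ‖ev (Sop U δ h ε η) z Y‖ ≤
      ENNReal.ofReal (C₁ * (D * ∏ i, gau δ h z (Y i)) * (D⁻¹ *
        (C₂ * (C₃ * (2 ^ (n + 5) * 2) * B * Ene P δ z * 14)))) := by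
    refine h1.trans ?_
    have h11 : ENNReal.ofReal (C₁ * (D * ∏ i, gau δ h z (Y i)) * (D⁻¹ *
        (C₂ * (C₃ * (2 ^ (n + 5) * 2) * B * Ene P δ z * 14)))) =
        ENNReal.ofReal (C₁ * (D * ∏ i, gau δ h z (Y i))) * (ENNReal.ofReal D⁻¹ *
          ENNReal.ofReal (C₂ * (C₃ * (2 ^ (n + 5) * 2) * B * Ene P δ z * 14))) := by
      rw [ENNReal.ofReal_mul (by positivity), ← ENNReal.ofReal_mul (p := D⁻¹) (by positivity)]
    rw [h11]
    refine mul_le_mul' (ENNReal.ofReal_le_ofReal ?_) (mul_le_mul_right ?_ _)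
    · exact mul_le_mul_of_nonneg_left (J4_gau_prod (h := h) hz Y) hC₁.le
    · refine h5.trans (ENNReal.ofReal_le_ofReal ?_)
      gcongr
  have h10 := (ENNReal.ofReal_le_ofReal_iff (by positivity)).1 h9
  refine h10.trans (le_of_eq ?_)
  field_simp

/-- The weighted operator is bounded.
PROOF. `SE_bound` with `Nf = B Ene P δ` (`db N ζ X = ev (dbf ..) ζ (fun _ => X)`, so `hB` gives the
hypothesis). By `exp_bound`, `Rv_bound`, `Ene_kb` and `t / s ≥ 1 / 2` the integrand is at most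
`B Kh C₁ (t / s)^6 e^(-(κ/2) TT P z (s / 4)) ∑_r ∑_η kb s (q_r z) η`, and `(t / s)^6 ≤ 2^(n-1) (t / s)^(n+5)`
(`n ≥ 2`). For `s ∈ (R₀ / 2^(l+1), R₀ / 2^l]`, `R₀ = C`, `s' = R₀ / 2^(l+1)`: `kb s ≤ 2 kb s'` and
`TT P z (s / 4) ≥ TT P z (s' / 4)`. So `master` applies with
`Γ l = C₂ B (∑_r ∑_η kb s' (q_r z) η) e^(-(κ/2) TT P z (s' / 4))`. `jones` with the index set of all pairs `(r, η)`,
`η ∈ P.S r` (e.g. `Σ r, {η // η ∈ P.S r}`), `V` and `a = (N / V)²`, `A' = 16 A R` (`sum_class`, sum over `r`),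
`c' = κ / 2`: the sum over `l` is at most `C₂ B K₀ 2 / κ`. Choose `κ > 0` with
`κ * (constant of exp_bound) ≤ 1` and `(κ / 2) (16 A R) ≤ 1 / 16`. -/
theorem SE_bd (hn : 2 ≤ n) (c C A : ℝ) (R : ℕ) : ∃ κ C' : ℝ, 0 < κ ∧ 0 < C' ∧
    ∀ (U : Set (Ec n)) (δ : Ec n → ℝ) (h : Ec n → Ec n → Fin n → ℂ) (P : PD n), P.R = R →
    Geo U δ h c C → PG P U δ h c C A → ∀ ε : ℝ, 0 < ε → ε ≤ 1 →
    ∀ (W : Set (Ec n)) (N : Ec n → V) (B : ℝ), 0 ≤ B → IsOpen W → Kc U δ ⊆ W →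
    ContDiffOn ℝ 1 N W → (∀ ζ ∈ Om U δ, ∀ X, ‖db N ζ X‖ ≤ B * Ene P δ ζ * gau δ h ζ X) →
    ∀ z ∈ Om U δ, ‖SE P U δ h κ ε N z‖ ≤ C' * B := by
  by_cases hcC : 0 < c ∧ 1 ≤ C
  swap
  · exact ⟨1, 1, one_pos, one_pos, fun U δ h P _ hG => absurd ⟨hG.c0, hG.C1⟩ hcC⟩
  obtain ⟨hc, hC⟩ := hcC
  have hC0 : 0 < C := by linarith
  obtain ⟨C₁, hC₁, hS⟩ := SE_bound (V := V) hn c C
  obtain ⟨C₂, hC₂, hM⟩ := master hn c C
  obtain ⟨C₃, hC₃, hE⟩ := Ene_kb n c C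
  obtain ⟨C₄, hC₄, hex⟩ := exp_bound n c C A R
  obtain ⟨C₅, hC₅, hRv⟩ := Rv_bound n c C A R
  obtain ⟨K₀, hK₀, hJ⟩ := jones
  set κ : ℝ := min (1 / C₄) (1 / (128 * (|A| * R) + 1)) with hκ
  have hκ0 : 0 < κ := lt_min (by positivity) (by positivity)
  have hκ1 : κ * C₄ ≤ 1 := by
    calc κ * C₄ ≤ 1 / C₄ * C₄ := by gcongr; exact min_le_left _ _
      _ = 1 := by field_simp
  have hκ2 : κ / 2 * (16 * |A| * R) ≤ 1 / 16 := by
    have h0 : 0 ≤ |A| * R := by positivity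
    have h1 : κ ≤ 1 / (128 * (|A| * R) + 1) := min_le_right _ _
    have h2 : κ / 2 * (16 * |A| * R) ≤
        1 / (128 * (|A| * R) + 1) / 2 * (16 * |A| * R) := by gcongr
    refine h2.trans ?_
    have h3 : 1 / (128 * (|A| * R) + 1) / 2 * (16 * |A| * R) =
        8 * (|A| * R) / (128 * (|A| * R) + 1) := by field_simp; ring
    rw [h3, div_le_div_iff₀ (by positivity) (by norm_num)]
    linarith
  set K₁ : ℝ := C₄ * (4 + C₅ * κ) * C₃ * 2 ^ (n + 5) * 2 with hK₁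
  have hK₁0 : 0 < K₁ := by positivity
  refine ⟨κ, C₁ * (C₂ * (K₁ * (K₀ / (κ / 2)))), hκ0, by positivity, ?_⟩
  intro U δ h P hPR hg hP ε hε hε1 W N B hB hW hK hN hb z hz
  have hδz : 0 < δ z := hz.2
  have hEne : ∀ w ∈ Om U δ, 0 ≤ Ene P δ w := fun w hw =>
    le_trans (by have : 0 < δ w := hw.2; positivity) (Ene_ge hP hw)
  have h1 := hS U δ h P A hg hP κ ε hε hε1 W N (fun ζ => B * Ene P δ ζ) hW hK hN
    (fun ζ hζ => mul_nonneg hB (hEne ζ hζ)) (fun ζ hζ X => hb ζ hζ X) z hz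
  set KB : ℝ → ℝ := fun s => ∑ r, ∑ η ∈ P.S r, kb s (P.q r z) η with hKB
  have hKB0 : ∀ s, 0 < s → 0 ≤ KB s := by
    intro s hs
    refine Finset.sum_nonneg fun r _ => Finset.sum_nonneg fun η _ => ?_
    unfold kb
    positivity
  have h5 := hM U δ h hg C le_rfl z hz
    (fun ζ => ‖Complex.exp (Ex P δ κ z ζ)‖ *
          (1 + δ ζ * ‖vv δ h z ζ‖ * ‖Rv P δ κ z ζ‖) * (B * Ene P δ ζ))
    (fun l => K₁ * B * (KB (C / 2 / 2 ^ l) * Real.exp (-(κ / 2) * TT P z (C / 2 / 2 ^ l / 4))))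
    (fun l => mul_nonneg (by positivity) (mul_nonneg (hKB0 _ (by positivity))
      (Real.exp_pos _).le)) (by
      intro l ζ hζ hl1 hl2
      have hδ : 0 < δ ζ := hζ.2
      have hρ := J4_ρ hg hz hζ
      have hEk := hE U δ h P A hg hP z hz ζ hζ
      have hexp := hex U δ h P hPR hg hP κ hκ0.le hκ1 z hz ζ hζ
      have hRvb := hRv U δ h P hPR hg hP κ hκ0.le z hz ζ hζ
      have hl3 : C / 2 / 2 ^ l < δ ζ := by
        have h10 : C / 2 ^ (l + 1) = C / 2 / 2 ^ l := by rw [pow_succ]; field_simp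
        rw [← h10]; exact hl1
      have hl4 : δ ζ ≤ 2 * (C / 2 / 2 ^ l) := by
        have h10 : 2 * (C / 2 / 2 ^ l) = C / 2 ^ l := by field_simp
        rw [h10]; exact hl2
      set s' := C / 2 / 2 ^ l with hs'
      have hs'0 : 0 < s' := by positivity
      set t := ‖vv δ h z ζ‖ with ht
      set ρ := t / δ ζ with hρd
      have hρ0 : 0 < ρ := by linarith
      set s := δ ζ with hs
      set E := ‖Complex.exp (Ex P δ κ z ζ)‖ with hEd
      have hTT : Real.exp (-(κ / 2) * TT P z (s / 4)) ≤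
          Real.exp (-(κ / 2) * TT P z (s' / 4)) := by
        apply Real.exp_le_exp.2
        have h11 : TT P z (s' / 4) ≤ TT P z (s / 4) := by
          unfold TT
          refine Finset.sum_le_sum fun j _ => ?_
          refine Finset.sum_le_sum_of_subset_of_nonneg ?_ (fun η _ _ => by positivity)
          intro η hη
          rw [Finset.mem_filter] at hη ⊢
          exact ⟨hη.1, hη.2.trans (by linarith)⟩
        have h12 : 0 < κ / 2 := by positivity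
        nlinarith
      have hkb : KB s ≤ 2 * KB s' := by
        rw [hKB]
        simp only
        rw [Finset.mul_sum]
        refine Finset.sum_le_sum fun r _ => ?_
        rw [Finset.mul_sum]
        refine Finset.sum_le_sum fun η hη => ?_
        have hx : ‖P.q r z‖ < 1 := hP.lt1 r z hz.1 hz.2.le
        obtain ⟨_, _, _, _, hV⟩ := V_basic (hP.sub r η hη) hx
        unfold kb
        set Vz := ‖1 - (starRingEnd ℂ) η * P.q r z‖ with hVz
        have h13 : min (s / Vz) (Vz / s) ≤ 2 * min (s' / Vz) (Vz / s') := by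
          rw [mul_min_of_nonneg _ _ (by norm_num : (0 : ℝ) ≤ 2)]
          refine le_min ?_ ?_
          · refine (min_le_left _ _).trans ?_
            rw [← mul_div_assoc]
            gcongr
          · refine (min_le_right _ _).trans ?_
            have h14 : Vz / s ≤ Vz / s' := by gcongr
            have h15 : 0 ≤ Vz / s' := by positivity
            linarith
        have h16 : (min (s / Vz) (Vz / s)) ^ (1 / 4 : ℝ) ≤
            2 * (min (s' / Vz) (Vz / s')) ^ (1 / 4 : ℝ) := by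
          calc (min (s / Vz) (Vz / s)) ^ (1 / 4 : ℝ) ≤
                (2 * min (s' / Vz) (Vz / s')) ^ (1 / 4 : ℝ) :=
                Real.rpow_le_rpow (by positivity) h13 (by norm_num)
            _ = 2 ^ (1 / 4 : ℝ) * (min (s' / Vz) (Vz / s')) ^ (1 / 4 : ℝ) := by
                rw [Real.mul_rpow (by norm_num) (by positivity)]
            _ ≤ 2 * (min (s' / Vz) (Vz / s')) ^ (1 / 4 : ℝ) := by
                gcongr
                calc (2 : ℝ) ^ (1 / 4 : ℝ) ≤ 2 ^ (1 : ℝ) :=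
                      Real.rpow_le_rpow_of_exponent_le (by norm_num) (by norm_num)
                  _ = 2 := Real.rpow_one 2
        calc ((1 - ‖η‖ ^ 2) / Vz) ^ 2 * (min (s / Vz) (Vz / s)) ^ (1 / 4 : ℝ)
            ≤ ((1 - ‖η‖ ^ 2) / Vz) ^ 2 *
              (2 * (min (s' / Vz) (Vz / s')) ^ (1 / 4 : ℝ)) := by gcongr
          _ = 2 * (((1 - ‖η‖ ^ 2) / Vz) ^ 2 * (min (s' / Vz) (Vz / s')) ^ (1 / 4 : ℝ)) := by
              ring
      have h17 : 1 + s * t * ‖Rv P δ κ z ζ‖ ≤ (4 + C₅ * κ) * ρ ^ 2 := by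
        have : 1 ≤ (2 * ρ) ^ 2 := one_le_pow₀ hρ
        nlinarith
      have hkb0 := hKB0 s' hs'0
      have h18 : E ≤ C₄ * ρ * Real.exp (-(κ / 2) * TT P z (s' / 4)) :=
        hexp.trans (by gcongr)
      have h19 : Ene P δ ζ ≤ C₃ * ρ ^ 3 * (2 * KB s') :=
        hEk.trans (mul_le_mul_of_nonneg_left hkb (by positivity))
      have h20 : 0 ≤ 1 + s * t * ‖Rv P δ κ z ζ‖ := by positivity
      have h21 : 0 ≤ Ene P δ ζ := hEne ζ hζ
      set X := Real.exp (-(κ / 2) * TT P z (s' / 4)) with hX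
      have hX0 : 0 < X := Real.exp_pos _
      calc E * (1 + s * t * ‖Rv P δ κ z ζ‖) * (B * Ene P δ ζ)
          ≤ (C₄ * ρ * X) * ((4 + C₅ * κ) * ρ ^ 2) * (B * (C₃ * ρ ^ 3 * (2 * KB s'))) := by
            gcongr
        _ = ρ ^ 6 * (C₄ * (4 + C₅ * κ) * C₃ * 2 * B * (KB s' * X)) := by ring
        _ ≤ (2 ^ (n + 5) * ρ ^ (n + 5)) * (C₄ * (4 + C₅ * κ) * C₃ * 2 * B * (KB s' * X)) := by
            gcongr
            exact J4_pow hρ (by omega)
        _ = ρ ^ (n + 5) * (K₁ * B * (KB s' * X)) := by rw [hK₁]; ring)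
  -- the lemma of Jones
  have hj := @hJ (Σ r : Fin P.R, {η : ℂ // η ∈ P.S r}) _
    (fun i => ‖1 - (starRingEnd ℂ) i.2.1 * P.q i.1 z‖)
    (fun i => ((1 - ‖i.2.1‖ ^ 2) / ‖1 - (starRingEnd ℂ) i.2.1 * P.q i.1 z‖) ^ 2)
    (16 * |A| * R) (κ / 2) (C / 2) (fun i => by
      have hx : ‖P.q i.1 z‖ < 1 := hP.lt1 i.1 z hz.1 hz.2.le
      exact (V_basic (hP.sub i.1 i.2.1 i.2.2) hx).2.2.2.2) (fun i => by positivity)
    (by positivity) (by positivity) hκ2 (by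
      intro r hr
      rw [Finset.sum_filter, Fintype.sum_sigma]
      calc ∑ j : Fin P.R, ∑ y : {η : ℂ // η ∈ P.S j},
            (if r / 2 < ‖1 - (starRingEnd ℂ) y.1 * P.q j z‖ ∧
              ‖1 - (starRingEnd ℂ) y.1 * P.q j z‖ ≤ r then
              ((1 - ‖y.1‖ ^ 2) / ‖1 - (starRingEnd ℂ) y.1 * P.q j z‖) ^ 2 else 0)
          = ∑ j : Fin P.R, ∑ η ∈ (P.S j).filter (fun η =>
              r / 2 < ‖1 - (starRingEnd ℂ) η * P.q j z‖ ∧
              ‖1 - (starRingEnd ℂ) η * P.q j z‖ ≤ r),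
              ((1 - ‖η‖ ^ 2) / ‖1 - (starRingEnd ℂ) η * P.q j z‖) ^ 2 := by
            refine Finset.sum_congr rfl fun j _ => ?_
            rw [Finset.sum_filter]
            exact Finset.sum_coe_sort (P.S j) (fun η =>
              if r / 2 < ‖1 - (starRingEnd ℂ) η * P.q j z‖ ∧
              ‖1 - (starRingEnd ℂ) η * P.q j z‖ ≤ r then
              ((1 - ‖η‖ ^ 2) / ‖1 - (starRingEnd ℂ) η * P.q j z‖) ^ 2 else 0)
        _ ≤ ∑ _j : Fin P.R, 16 * |A| := by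
            refine Finset.sum_le_sum fun j _ => ?_
            have hx : ‖P.q j z‖ < 1 := hP.lt1 j z hz.1 hz.2.le
            exact (sum_class (hP.sub j) (hP.carl j) hx hr).trans
              (by linarith [le_abs_self A])
        _ = 16 * |A| * R := by
            rw [Finset.sum_const, Finset.card_univ, Fintype.card_fin, nsmul_eq_mul, hPR]
            ring)
  have hterm : ∀ l : ℕ, (∑ i : (Σ r : Fin P.R, {η : ℂ // η ∈ P.S r}),
      ((1 - ‖i.2.1‖ ^ 2) / ‖1 - (starRingEnd ℂ) i.2.1 * P.q i.1 z‖) ^ 2 *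
      (min (C / 2 / 2 ^ l / ‖1 - (starRingEnd ℂ) i.2.1 * P.q i.1 z‖)
        (‖1 - (starRingEnd ℂ) i.2.1 * P.q i.1 z‖ / (C / 2 / 2 ^ l))) ^ (1 / 4 : ℝ)) *
      Real.exp (-(κ / 2) * ∑ i : (Σ r : Fin P.R, {η : ℂ // η ∈ P.S r})
        with ‖1 - (starRingEnd ℂ) i.2.1 * P.q i.1 z‖ ≤ C / 2 / 2 ^ l / 4,
        ((1 - ‖i.2.1‖ ^ 2) / ‖1 - (starRingEnd ℂ) i.2.1 * P.q i.1 z‖) ^ 2) =
      KB (C / 2 / 2 ^ l) * Real.exp (-(κ / 2) * TT P z (C / 2 / 2 ^ l / 4)) := by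
    intro l
    congr 1
    · rw [Fintype.sum_sigma]
      refine Finset.sum_congr rfl fun j _ => ?_
      exact Finset.sum_coe_sort (P.S j) (fun η => kb (C / 2 / 2 ^ l) (P.q j z) η)
    · congr 2
      rw [Finset.sum_filter, Fintype.sum_sigma]
      refine Finset.sum_congr rfl fun j _ => ?_
      rw [Finset.sum_filter]
      exact Finset.sum_coe_sort (P.S j) (fun η =>
        if ‖1 - (starRingEnd ℂ) η * P.q j z‖ ≤ C / 2 / 2 ^ l / 4 then
          ((1 - ‖η‖ ^ 2) / ‖1 - (starRingEnd ℂ) η * P.q j z‖) ^ 2 else 0)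
  simp only [hterm] at hj
  obtain ⟨h6, h7⟩ := hj
  have hnn : ∀ l : ℕ, 0 ≤ K₁ * B * (KB (C / 2 / 2 ^ l) *
      Real.exp (-(κ / 2) * TT P z (C / 2 / 2 ^ l / 4))) := fun l =>
    mul_nonneg (by positivity) (mul_nonneg (hKB0 _ (by positivity)) (Real.exp_pos _).le)
  rw [← ENNReal.ofReal_tsum_of_nonneg hnn (h6.mul_left _), tsum_mul_left,
    ← ENNReal.ofReal_mul hC₂.le] at h5
  have h8 : ENNReal.ofReal ‖SE P U δ h κ ε N z‖ ≤
      ENNReal.ofReal (C₁ * (C₂ * (K₁ * B * (K₀ / (κ / 2))))) := by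
    rw [ENNReal.ofReal_mul hC₁.le]
    refine h1.trans (mul_le_mul_right ?_ _)
    refine h5.trans (ENNReal.ofReal_le_ofReal ?_)
    gcongr
  have h10 := (ENNReal.ofReal_le_ofReal_iff (by positivity)).1 h8
  refine h10.trans (le_of_eq ?_)
  ring

/-- Small forms of positive degree are small in the classes `Bd`.
PROOF. `‖ev η z X‖ ≤ ∑_I ∏ |X i (I i)| e ≤ n^q e ∏ ‖X i‖ ≤ n^q e (√δ)^q ∏ gau (X i)` (`gau_ge`), and
`(√δ)^q ≤ C₁ δ^(1/4) ≤ C₁ Ene` (`q ≥ 1`, `δ ≤ C`, `Ene_ge`). -/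
theorem Bd_small (n : ℕ) (c C : ℝ) (q : ℕ) (hq : 1 ≤ q) : ∃ C' : ℝ, 0 < C' ∧ ∀ (U : Set (Ec n))
    (δ : Ec n → ℝ) (h : Ec n → Ec n → Fin n → ℂ) (P : PD n) (A : ℝ), Geo U δ h c C →
    PG P U δ h c C A → ∀ (η : Fm n q V) (e : ℝ), 0 ≤ e → (∀ I, ∀ z ∈ Om U δ, ‖η I z‖ ≤ e) →
    Bd U δ h P (C' * e) η := by
  by_cases hC : 1 ≤ C
  swap
  · exact ⟨1, one_pos, fun U δ h P A hG => absurd hG.C1 hC⟩
  refine ⟨(n : ℝ) ^ q * (Real.sqrt C) ^ q + 1, by positivity, ?_⟩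
  intro U δ h P A hg hP η e he hη z hz X
  have hδ : 0 < δ z := hz.2
  have hgau : 0 ≤ ∏ i, gau δ h z (X i) := Finset.prod_nonneg fun i _ => gau_nonneg hδ _
  have h1 := J4_ev_le (z := z) (fun I => hη I z hz) X
  have h2 := J4_gau_prod (h := h) hz X
  have h3 : (Real.sqrt (δ z)) ^ q ≤ (Real.sqrt C) ^ q * (δ z) ^ (1 / 4 : ℝ) := by
    have hC1 : 1 ≤ (Real.sqrt C) ^ q := one_le_pow₀ (Real.one_le_sqrt.2 hC)
    rcases le_or_gt (δ z) 1 with h4 | h4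
    · have h5 : Real.sqrt (δ z) ≤ 1 := Real.sqrt_le_one.2 h4
      calc (Real.sqrt (δ z)) ^ q ≤ (Real.sqrt (δ z)) ^ 1 :=
            pow_le_pow_of_le_one (Real.sqrt_nonneg _) h5 hq
        _ = (δ z) ^ (1 / 2 : ℝ) := by rw [pow_one, Real.sqrt_eq_rpow]
        _ ≤ (δ z) ^ (1 / 4 : ℝ) := Real.rpow_le_rpow_of_exponent_ge hδ h4 (by norm_num)
        _ ≤ (Real.sqrt C) ^ q * (δ z) ^ (1 / 4 : ℝ) := by
            have : 0 ≤ (δ z) ^ (1 / 4 : ℝ) := by positivity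
            nlinarith
    · have h5 : 1 ≤ (δ z) ^ (1 / 4 : ℝ) := Real.one_le_rpow h4.le (by norm_num)
      calc (Real.sqrt (δ z)) ^ q ≤ (Real.sqrt C) ^ q := by
            gcongr
            exact hg.bδ z hz.1
        _ ≤ (Real.sqrt C) ^ q * (δ z) ^ (1 / 4 : ℝ) := by nlinarith
  have h6 := Ene_ge hP hz
  have hE : 0 ≤ Ene P δ z := le_trans (by positivity) h6
  calc ‖ev η z X‖ ≤ (n : ℝ) ^ q * e * ∏ i, ‖X i‖ := h1
    _ ≤ (n : ℝ) ^ q * e * ((Real.sqrt (δ z)) ^ q * ∏ i, gau δ h z (X i)) := by gcongr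
    _ ≤ (n : ℝ) ^ q * e * (((Real.sqrt C) ^ q * (δ z) ^ (1 / 4 : ℝ)) *
          ∏ i, gau δ h z (X i)) := by gcongr
    _ ≤ (n : ℝ) ^ q * e * (((Real.sqrt C) ^ q * Ene P δ z) * ∏ i, gau δ h z (X i)) := by
        gcongr
    _ = ((n : ℝ) ^ q * (Real.sqrt C) ^ q) * e * Ene P δ z * ∏ i, gau δ h z (X i) := by ring
    _ ≤ ((n : ℝ) ^ q * (Real.sqrt C) ^ q + 1) * e * Ene P δ z * ∏ i, gau δ h z (X i) := by
        gcongr
        linarith

/-- The supremum norm of the homotopy operator, inside.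
PROOF. `ev (Sop η) z (ee ∘ J) = Sop η J z` (`ev_ee`), `Sop_bound` with `Nf = C₁ e` (constant;
`‖ev η ζ X‖ ≤ n^(q+1) e ∏ ‖X i‖`, `gau_ge`, `δ ≤ C`). Then `master` with `G ζ = (√s)^(-q) C₁ e`: since
`t ≥ δ z / 2 ≥ s₀ / 2` (`v_lb`): `1 / s ≤ (2 / s₀) (t / s)` and `1 ≤ (2 s / s₀) (t / s)`, so
`G ≤ C₂ e (t / s)^(q/2 + 1) s ≤ C₃ e (t / s)^(n+5) s` (`q ≤ n`, `t / s ≥ 1 / 2`), `Γ l = C₃ e R / 2^l`. -/
theorem Sop_sup (hn : 2 ≤ n) (c C : ℝ) (q : ℕ) (hqn : q ≤ n) (s₀ : ℝ) (hs₀ : 0 < s₀) :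
    ∃ C' : ℝ, 0 < C' ∧ ∀ (U : Set (Ec n))
    (δ : Ec n → ℝ) (h : Ec n → Ec n → Fin n → ℂ), Geo U δ h c C → ∀ ε : ℝ, 0 < ε → ε ≤ 1 →
    ∀ (W : Set (Ec n)) (η : Fm n (q + 1) V) (e : ℝ), 0 ≤ e → Kc U δ ⊆ W →
    (∀ I, ContinuousOn (η I) W) → (∀ I, ∀ ζ ∈ Om U δ, ‖η I ζ‖ ≤ e) →
    ∀ (J : Fin q → Fin n), ∀ z ∈ Om U δ, s₀ ≤ δ z → ‖Sop U δ h ε η J z‖ ≤ C' * e := by
  by_cases hcC : 0 < c ∧ 1 ≤ C
  swap
  · exact ⟨1, one_pos, fun U δ h hG => absurd ⟨hG.c0, hG.C1⟩ hcC⟩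
  obtain ⟨hc, hC⟩ := hcC
  have hC0 : 0 < C := by linarith
  obtain ⟨C₁, hC₁, hS⟩ := Sop_bound (V := V) hn c C q
  obtain ⟨C₂, hC₂, hM⟩ := master hn c C
  set K₀ : ℝ := (n : ℝ) ^ (q + 1) * (Real.sqrt C) ^ (q + 1) with hK₀
  have hK₀0 : 0 ≤ K₀ := by positivity
  set K₁ : ℝ := (2 * Real.sqrt C / s₀) ^ q * (2 / s₀) * 2 ^ (n + 5) * K₀ with hK₁
  have hK₁0 : 0 ≤ K₁ := by positivity
  refine ⟨C₁ * (C₂ * (2 * C * K₁)) + 1, by positivity, ?_⟩
  intro U δ h hg ε hε hε1 W η e he hK hη hb J z hz hsz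
  have h1 := hS U δ h hg ε hε hε1 W η (fun _ => K₀ * e) hK hη
    (fun ζ _ => mul_nonneg hK₀0 he) (by
      intro ζ hζ X
      have hδ : 0 < δ ζ := hζ.2
      have hgau : 0 ≤ ∏ i, gau δ h ζ (X i) := Finset.prod_nonneg fun i _ => gau_nonneg hδ _
      have h2 := J4_ev_le (z := ζ) (fun I => hb I ζ hζ) X
      have h3 := J4_gau_prod (h := h) hζ X
      calc ‖ev η ζ X‖ ≤ (n : ℝ) ^ (q + 1) * e * ∏ i, ‖X i‖ := h2
        _ ≤ (n : ℝ) ^ (q + 1) * e * ((Real.sqrt (δ ζ)) ^ (q + 1) * ∏ i, gau δ h ζ (X i)) := by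
            gcongr
        _ ≤ (n : ℝ) ^ (q + 1) * e * ((Real.sqrt C) ^ (q + 1) * ∏ i, gau δ h ζ (X i)) := by
            gcongr
            exact hg.bδ ζ hζ.1
        _ = K₀ * e * ∏ i, gau δ h ζ (X i) := by rw [hK₀]; ring) z hz (fun i => ee (J i))
  rw [ev_ee] at h1
  have h4 : ∏ i : Fin q, ‖(ee (J i) : Ec n)‖ = 1 := by
    refine Finset.prod_eq_one fun i _ => ?_
    simp [ee]
  rw [h4, mul_one] at h1
  have h5 := hM U δ h hg C le_rfl z hz
    (fun ζ => ((Real.sqrt (δ ζ))⁻¹) ^ q * (K₀ * e)) (fun l => K₁ * e * (C / 2 ^ l))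
    (fun l => by positivity) (by
      intro l ζ hζ hl1 hl2
      have hδ : 0 < δ ζ := hζ.2
      have hρ := J4_ρ hg hz hζ
      have hv := v_lb hg hz hζ
      set t := ‖vv δ h z ζ‖ with ht
      set ρ := t / δ ζ with hρd
      have hρ0 : 0 < ρ := by linarith
      have h6 : (Real.sqrt (δ ζ))⁻¹ ≤ 2 * Real.sqrt C / s₀ * ρ := by
        have h7 : (Real.sqrt (δ ζ))⁻¹ = Real.sqrt (δ ζ) / δ ζ := by
          rw [eq_div_iff hδ.ne', inv_mul_eq_div, div_eq_iff (Real.sqrt_pos.2 hδ).ne']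
          exact (Real.mul_self_sqrt hδ.le).symm
        rw [h7, hρd]
        have h8 : Real.sqrt (δ ζ) ≤ Real.sqrt C := Real.sqrt_le_sqrt (hg.bδ ζ hζ.1)
        have h9 : 1 ≤ 2 / s₀ * t := by
          rw [div_mul_eq_mul_div, le_div_iff₀ hs₀]; linarith [hv.1]
        calc Real.sqrt (δ ζ) / δ ζ ≤ Real.sqrt C / δ ζ := by gcongr
          _ = 1 * (Real.sqrt C / δ ζ) := (one_mul _).symm
          _ ≤ (2 / s₀ * t) * (Real.sqrt C / δ ζ) := by gcongr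
          _ = 2 * Real.sqrt C / s₀ * (t / δ ζ) := by ring
      have h10 : 1 ≤ δ ζ * (2 / s₀) * ρ := by
        have h11 : δ ζ * (2 / s₀) * ρ = 2 / s₀ * t := by rw [hρd]; field_simp
        rw [h11, div_mul_eq_mul_div, le_div_iff₀ hs₀]; linarith [hv.1]
      have h12 : ρ ^ (q + 1) ≤ 2 ^ (n + 5) * ρ ^ (n + 5) := J4_pow hρ (by omega)
      calc ((Real.sqrt (δ ζ))⁻¹) ^ q * (K₀ * e) ≤
            (2 * Real.sqrt C / s₀ * ρ) ^ q * (K₀ * e) := by gcongr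
        _ = (2 * Real.sqrt C / s₀ * ρ) ^ q * 1 * (K₀ * e) := by ring
        _ ≤ (2 * Real.sqrt C / s₀ * ρ) ^ q * (δ ζ * (2 / s₀) * ρ) * (K₀ * e) := by gcongr
        _ = (2 * Real.sqrt C / s₀) ^ q * (2 / s₀) * ρ ^ (q + 1) * K₀ * e * δ ζ := by
            rw [mul_pow, pow_succ]; ring
        _ ≤ (2 * Real.sqrt C / s₀) ^ q * (2 / s₀) * (2 ^ (n + 5) * ρ ^ (n + 5)) * K₀ * e *
              (C / 2 ^ l) := by gcongr
        _ = ρ ^ (n + 5) * (K₁ * e * (C / 2 ^ l)) := by rw [hK₁]; ring)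
  have h13 : HasSum (fun l : ℕ => K₁ * e * (C / 2 ^ l)) (K₁ * e * (C * 2)) := by
    have h16 := (hasSum_geometric_two.mul_left (K₁ * e * C))
    have h17 : (fun l : ℕ => K₁ * e * (C / 2 ^ l)) = fun l : ℕ => K₁ * e * C * (1 / 2) ^ l := by
      funext l
      rw [one_div, inv_pow]; ring
    rw [h17, ← mul_assoc]
    exact h16
  rw [← ENNReal.ofReal_tsum_of_nonneg (fun l => by positivity) h13.summable, h13.tsum_eq,
    ← ENNReal.ofReal_mul hC₂.le] at h5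
  have h14 : ENNReal.ofReal ‖Sop U δ h ε η J z‖ ≤
      ENNReal.ofReal (C₁ * (C₂ * (K₁ * e * (C * 2)))) := by
    rw [ENNReal.ofReal_mul hC₁.le]
    exact h1.trans (mul_le_mul_right h5 _)
  have h15 := (ENNReal.ofReal_le_ofReal_iff (by positivity)).1 h14
  nlinarith

end Pool.Agent.MPca0fc2.FD
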