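import Pool.Agent.Lib.MP_ca0fc2_an.FD.Q1
import Pool.Agent.Lib.MP_ca0fc2_an.Mg.G046
import Pool.Agent.Lib.MP_ca0fc2_an.Mg.G051

/-! Functions with values in the disc, holomorphic on a neighbourhood of the closure. -/

set_option autoImplicit false

open Metric Set MeasureTheory Filter Topology

namespace Pool.Agent.MPca0fc2.FD

variable {n : ℕ}
variable {U : Set (Ec n)} {δ : Ec n → ℝ} {h : Ec n → Ec n → Fin n → ℂ} {c C : ℝ}

/-- a holomorphic function with values in the disc, and its Hefer functions, bounded with their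
derivatives -/
structure QB (U : Set (Ec n)) (δ : Ec n → ℝ) (q : Ec n → ℂ) (H : Ec n → Ec n → Fin n → ℂ)
    (C : ℝ) : Prop where
  hol : DifferentiableOn ℂ q U
  Hhol : DifferentiableOn ℂ (fun p : Ec n × Ec n => H p.1 p.2) (U ×ˢ U)
  Hb : ∀ z ∈ U, ∀ ζ ∈ U, ‖H z ζ‖ ≤ C
  HL : ∀ z ∈ U, ∀ ζ ∈ U, ‖fderiv ℂ (fun p : Ec n × Ec n => H p.1 p.2) (z, ζ)‖ ≤ C
  hef : ∀ z ∈ U, ∀ ζ ∈ U, q z - q ζ = ∑ k, H z ζ k * (z k - ζ k)
  lt : ∀ z ∈ U, 0 < δ z → ‖q z‖ < 1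

/-- PROOF. `q (ζ + t X) - q ζ = t ∑ k, H (ζ + t X) ζ k * X k` for small `t`; divide by `t`, `t → 0`
(`H` is continuous, `U` is open). -/
theorem dq_eq (hU : IsOpen U) {q : Ec n → ℂ} {H : Ec n → Ec n → Fin n → ℂ} (hq : QB U δ q H C)
    {ζ : Ec n} (hζ : ζ ∈ U) (X : Ec n) : fderiv ℂ q ζ X = ∑ k, H ζ ζ k * X k := by
  have hHd : DifferentiableAt ℂ (fun p : Ec n × Ec n => H p.1 p.2) (ζ, ζ) :=
    (hq.Hhol (ζ, ζ) ⟨hζ, hζ⟩).differentiableAt ((hU.prod hU).mem_nhds ⟨hζ, hζ⟩)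
  have h1 : HasFDerivAt (fun z : Ec n => H z ζ)
      ((fderiv ℂ (fun p : Ec n × Ec n => H p.1 p.2) (ζ, ζ)).comp
        (ContinuousLinearMap.inl ℂ (Ec n) (Ec n))) ζ :=
    HasFDerivAt.comp (g := fun p : Ec n × Ec n => H p.1 p.2) (f := fun e : Ec n => (e, ζ)) ζ
      hHd.hasFDerivAt (hasFDerivAt_prodMk_left ζ ζ)
  have h2 : ∀ k, HasFDerivAt (fun z : Ec n => H z ζ k)
      ((ContinuousLinearMap.proj k).comp ((fderiv ℂ (fun p : Ec n × Ec n => H p.1 p.2)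
        (ζ, ζ)).comp (ContinuousLinearMap.inl ℂ (Ec n) (Ec n)))) ζ := fun k =>
    (hasFDerivAt_pi'.1 h1) k
  have h3 : ∀ k, HasFDerivAt (fun z : Ec n => z k - ζ k)
      (EuclideanSpace.proj k : Ec n →L[ℂ] ℂ) ζ := fun k =>
    ((EuclideanSpace.proj k : Ec n →L[ℂ] ℂ).hasFDerivAt).sub_const _
  have h4 : HasFDerivAt (fun z : Ec n => ∑ k, H z ζ k * (z k - ζ k))
      (∑ k, (H ζ ζ k • (EuclideanSpace.proj k : Ec n →L[ℂ] ℂ) + (ζ k - ζ k) •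
        ((ContinuousLinearMap.proj k).comp ((fderiv ℂ (fun p : Ec n × Ec n => H p.1 p.2)
        (ζ, ζ)).comp (ContinuousLinearMap.inl ℂ (Ec n) (Ec n)))))) ζ :=
    HasFDerivAt.fun_sum fun k _ => (h2 k).mul (h3 k)
  have h5 : (fun z => q z) =ᶠ[𝓝 ζ] fun z => q ζ + ∑ k, H z ζ k * (z k - ζ k) := by
    filter_upwards [hU.mem_nhds hζ] with z hz
    rw [← hq.hef z hz ζ hζ]; ring
  have h6 := h5.fderiv_eq (𝕜 := ℂ)
  rw [(h4.const_add (q ζ)).fderiv] at h6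
  have h7 : fderiv ℂ q ζ X = (∑ k, (H ζ ζ k • (EuclideanSpace.proj k : Ec n →L[ℂ] ℂ) +
      (ζ k - ζ k) • ((ContinuousLinearMap.proj k).comp
        ((fderiv ℂ (fun p : Ec n × Ec n => H p.1 p.2)
        (ζ, ζ)).comp (ContinuousLinearMap.inl ℂ (Ec n) (Ec n)))))) X := by
    rw [← h6]
  rw [h7, ContinuousLinearMap.sum_apply]
  refine Finset.sum_congr rfl fun k _ => ?_
  simp

/-- PROOF. By `dq_eq`, `q z - q ζ - dq(ζ) (z - ζ) = ∑ k, (H z ζ k - H ζ ζ k) (z k - ζ k)`, at most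
`n ‖H z ζ - H ζ ζ‖ ‖z - ζ‖`. If `‖z - ζ‖ < c` the segment is in `ball ζ c ⊆ U` (`Geo.nb`) and
`‖H z ζ - H ζ ζ‖ ≤ C ‖z - ζ‖` by `QB.HL` (mean value theorem); if `‖z - ζ‖ ≥ c` it is at most
`2 C ≤ (2 C / c) ‖z - ζ‖`. -/
theorem q_b2 (hg : Geo U δ h c C) {q : Ec n → ℂ} {H : Ec n → Ec n → Fin n → ℂ}
    (hq : QB U δ q H C) : ∃ C' : ℝ, 0 < C' ∧ ∀ z ∈ Om U δ, ∀ ζ ∈ Om U δ,
      ‖q z - q ζ - fderiv ℂ q ζ (z - ζ)‖ ≤ C' * ‖z - ζ‖ ^ 2 := by
  have hc := hg.c0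
  have hC : 0 < C := by linarith [hg.C1]
  have hU := hg.opn
  refine ⟨n * (C + 2 * C / c) + 1, by positivity, ?_⟩
  intro z hz ζ hζ
  have h1 : q z - q ζ - fderiv ℂ q ζ (z - ζ) =
      ∑ k, (H z ζ - H ζ ζ) k * (z - ζ) k := by
    rw [dq_eq hU hq hζ.1, hq.hef z hz.1 ζ hζ.1, ← Finset.sum_sub_distrib]
    refine Finset.sum_congr rfl fun k _ => ?_
    simp only [Pi.sub_apply, PiLp.sub_apply]
    ring
  have h2 : ‖H z ζ - H ζ ζ‖ ≤ (C + 2 * C / c) * ‖z - ζ‖ := by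
    rcases lt_or_ge ‖z - ζ‖ c with h3 | h3
    · have hb := hg.nb ζ hζ.1 hζ.2
      have h4 : ∀ w ∈ ball ζ c, HasFDerivWithinAt (fun z : Ec n => H z ζ)
          ((fderiv ℂ (fun p : Ec n × Ec n => H p.1 p.2) (w, ζ)).comp
            (ContinuousLinearMap.inl ℂ (Ec n) (Ec n))) (ball ζ c) w := by
        intro w hw
        have h5 : DifferentiableAt ℂ (fun p : Ec n × Ec n => H p.1 p.2) (w, ζ) :=
          (hq.Hhol (w, ζ) ⟨hb hw, hζ.1⟩).differentiableAt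
            ((hU.prod hU).mem_nhds ⟨hb hw, hζ.1⟩)
        exact (HasFDerivAt.comp (g := fun p : Ec n × Ec n => H p.1 p.2)
          (f := fun e : Ec n => (e, ζ)) w h5.hasFDerivAt
          (hasFDerivAt_prodMk_left w ζ)).hasFDerivWithinAt
      have h6 : ∀ w ∈ ball ζ c, ‖(fderiv ℂ (fun p : Ec n × Ec n => H p.1 p.2) (w, ζ)).comp
            (ContinuousLinearMap.inl ℂ (Ec n) (Ec n))‖ ≤ C := by
        intro w hw
        refine (ContinuousLinearMap.opNorm_comp_le _ _).trans ?_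
        have h7 := hq.HL w (hb hw) ζ hζ.1
        have h8 := ContinuousLinearMap.norm_inl_le_one ℂ (Ec n) (Ec n)
        calc _ ≤ C * 1 := mul_le_mul h7 h8 (norm_nonneg _) hC.le
          _ = C := mul_one C
      have h9 := (convex_ball ζ c).norm_image_sub_le_of_norm_hasFDerivWithin_le h4 h6
        (mem_ball_self hc) (show z ∈ ball ζ c by rw [mem_ball, dist_eq_norm]; exact h3)
      refine h9.trans ?_
      have : 0 ≤ 2 * C / c * ‖z - ζ‖ := by positivity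
      linarith
    · have h4 : ‖H z ζ - H ζ ζ‖ ≤ 2 * C := by
        refine (norm_sub_le _ _).trans ?_
        linarith [hq.Hb z hz.1 ζ hζ.1, hq.Hb ζ hζ.1 ζ hζ.1]
      have h5 : 2 * C ≤ 2 * C / c * ‖z - ζ‖ := by
        rw [div_mul_eq_mul_div, le_div_iff₀ hc]
        nlinarith
      have : 0 ≤ C * ‖z - ζ‖ := by positivity
      linarith
  rw [h1]
  refine (lin_le _ _).trans ?_
  have h3 : (n : ℝ) * ‖H z ζ - H ζ ζ‖ * ‖z - ζ‖ ≤
      n * ((C + 2 * C / c) * ‖z - ζ‖) * ‖z - ζ‖ := by gcongr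
  have h4 : 0 ≤ ‖z - ζ‖ ^ 2 := sq_nonneg _
  calc _ ≤ n * ((C + 2 * C / c) * ‖z - ζ‖) * ‖z - ζ‖ := h3
    _ = n * (C + 2 * C / c) * ‖z - ζ‖ ^ 2 := by ring
    _ ≤ (n * (C + 2 * C / c) + 1) * ‖z - ζ‖ ^ 2 := by linarith

/-- The tangential derivative.
PROOF. Let `ψ = 1 - ‖q‖² > 0` on `Om U δ`. First, `‖dq(z) X‖ ≤ n C ‖X‖` always (`dq_eq`). Let `z ∈ Om U δ`. If
`δ z ≥ c`, or `‖q z‖ ≤ 1 / 2`, then `√(ψ z) ≥ m > 0` (`hopf` for the first case) and the claim is trivial. Let `δ z < c`,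
`‖q z‖ > 1 / 2`, `g = h(z, z)`. STEP 1: `gX = 0`, `‖X‖ = 1`. With `K`, `t₀` of `curve_in` let `Y(t) = t X - K t² nv`,
`z + Y(t) ∈ Om U δ` for `|t| ≤ t₀`. By `q_b2`, `‖q (z + Y) - q z - dq(z) Y‖ ≤ C₁ ‖Y‖² ≤ C₂ t²`, and
`‖dq(z) Y - t dq(z) X‖ ≤ C₂ t²`. So `q (z + Y) = q z + t w + E`, `w = dq(z) X`, `‖E‖ ≤ 2 C₂ t²`, and
`0 < 1 - ‖q (z + Y)‖² ≤ ψ z - 2 t Re (conj (q z) w) + C₃ t²`. For `t = t₀ √(ψ z) ≤ t₀` this gives
`Re (conj (q z) w) ≤ C₄ √(ψ z)`. Apply this to `λ X`, `|λ| = 1`, such that `conj (q z) λ w = ‖q z‖ ‖w‖`: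
`‖w‖ ≤ 2 C₄ √(ψ z)`. By homogeneity `‖dq(z) X‖ ≤ 2 C₄ √(ψ z) ‖X‖` whenever `gX = 0`. STEP 2: general `X`. There is `k`
with `‖g k‖ ≥ c` (`Geo.nd`, sup norm). `X'' = (gX / g k) ee k`, `X' = X - X''`: `gX' = 0`, `‖X''‖ ≤ ‖gX‖ / c`,
`‖X'‖ ≤ ‖X‖ + ‖gX‖ / c`. So `‖dq X‖ ≤ 2 C₄ √ψ (‖X‖ + ‖gX‖ / c) + n C ‖gX‖ / c`, `√ψ ≤ 1`. -/
theorem q_tan (hg : Geo U δ h c C) {q : Ec n → ℂ} {H : Ec n → Ec n → Fin n → ℂ}
    (hq : QB U δ q H C) : ∃ C' : ℝ, 0 < C' ∧ ∀ z ∈ Om U δ, ∀ X : Ec n,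
      ‖fderiv ℂ q z X‖ ≤ C' * (‖∑ k, h z z k * X k‖ + Real.sqrt (1 - ‖q z‖ ^ 2) * ‖X‖) := by
  have hc := hg.c0
  have hC : 0 < C := by linarith [hg.C1]
  have hU := hg.opn
  obtain ⟨c', hc', hhopf⟩ := hopf hg hq.hol (fun z hz => hq.lt z hz.1 hz.2)
  obtain ⟨K, t₀, hK, ht₀, hcur⟩ := curve_in n c C hc
  obtain ⟨C₁, hC₁, hb2⟩ := q_b2 hg hq
  set N₀ : ℝ := Real.sqrt n * C with hN₀
  have hN₀0 : 0 ≤ N₀ := by positivity
  set L : ℝ := 1 + K * t₀ * N₀ with hL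
  have hL0 : 0 < L := by positivity
  set C₂ : ℝ := C₁ * L ^ 2 + K * (n * C * N₀) with hC₂
  have hC₂0 : 0 ≤ C₂ := by positivity
  set C₄ : ℝ := 1 / (2 * t₀) + C₂ * t₀ with hC₄
  have hC₄0 : 0 < C₄ := by positivity
  set m : ℝ := Real.sqrt (c' * c) with hm
  have hm0 : 0 < m := Real.sqrt_pos.2 (by positivity)
  have hdq : ∀ z ∈ Om U δ, ∀ X : Ec n, ‖fderiv ℂ q z X‖ ≤ n * C * ‖X‖ := by
    intro z hz X
    rw [dq_eq hU hq hz.1]
    refine (lin_le _ _).trans ?_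
    gcongr
    exact hq.Hb z hz.1 z hz.1
  refine ⟨2 * C₄ + 2 * C₄ / c + n * C / c + n * C / m + 2 * (n * C) + 1, by positivity, ?_⟩
  intro z hz X
  have hqz : ‖q z‖ < 1 := hq.lt z hz.1 hz.2
  have hqz0 := norm_nonneg (q z)
  set ψ : ℝ := 1 - ‖q z‖ ^ 2 with hψ
  have hqsq : ‖q z‖ ^ 2 < 1 := pow_lt_one₀ hqz0 hqz two_ne_zero
  have hψ0 : 0 < ψ := by rw [hψ]; linarith
  have hψ1 : ψ ≤ 1 := by rw [hψ]; linarith [sq_nonneg ‖q z‖]
  set g : ℝ := ‖∑ k, h z z k * X k‖ with hgd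
  have hg0 : 0 ≤ g := norm_nonneg _
  have hX0 := norm_nonneg X
  have hs0 : 0 < Real.sqrt ψ := Real.sqrt_pos.2 hψ0
  have hs1 : Real.sqrt ψ ≤ 1 := Real.sqrt_le_one.2 hψ1
  -- it is enough to have one of the bounds
  have hfin : ∀ a b : ℝ, 0 ≤ a → 0 ≤ b →
      a ≤ 2 * C₄ + 2 * C₄ / c + n * C / c + n * C / m + 2 * (n * C) + 1 →
      b ≤ 2 * C₄ + 2 * C₄ / c + n * C / c + n * C / m + 2 * (n * C) + 1 →
      ‖fderiv ℂ q z X‖ ≤ a * g + b * (Real.sqrt ψ * ‖X‖) →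
      ‖fderiv ℂ q z X‖ ≤ (2 * C₄ + 2 * C₄ / c + n * C / c + n * C / m + 2 * (n * C) + 1) *
        (g + Real.sqrt ψ * ‖X‖) := by
    intro a b _ _ ha hb h1
    have h2 : 0 ≤ Real.sqrt ψ * ‖X‖ := by positivity
    calc ‖fderiv ℂ q z X‖ ≤ a * g + b * (Real.sqrt ψ * ‖X‖) := h1
      _ ≤ (2 * C₄ + 2 * C₄ / c + n * C / c + n * C / m + 2 * (n * C) + 1) * g +
          (2 * C₄ + 2 * C₄ / c + n * C / c + n * C / m + 2 * (n * C) + 1) *
          (Real.sqrt ψ * ‖X‖) := by gcongr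
      _ = _ := by ring
  have hn0 : (0 : ℝ) ≤ n * C := by positivity
  have hp1 : 0 ≤ 2 * C₄ / c := by positivity
  have hp2 : 0 ≤ (n : ℝ) * C / c := by positivity
  have hp3 : 0 ≤ (n : ℝ) * C / m := by positivity
  rcases le_or_gt c (δ z) with hδc | hδc
  · -- far from the boundary
    refine hfin 0 (n * C / m) le_rfl hp3 (by linarith) (by linarith) ?_
    have h1 := hhopf z hz
    have h2 : c' * c ≤ ψ := by
      have h3 : c' * c ≤ c' * δ z := by gcongr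
      have h4 : 1 - ‖q z‖ ≤ ψ := by
        rw [hψ]; linarith [pow_le_of_le_one hqz0 hqz.le two_ne_zero]
      linarith
    have h5 : m ≤ Real.sqrt ψ := Real.sqrt_le_sqrt h2
    have h6 := hdq z hz X
    calc ‖fderiv ℂ q z X‖ ≤ n * C * ‖X‖ := h6
      _ = n * C / m * (m * ‖X‖) := by field_simp
      _ ≤ n * C / m * (Real.sqrt ψ * ‖X‖) := by gcongr
      _ = 0 * g + n * C / m * (Real.sqrt ψ * ‖X‖) := by ring
  rcases le_or_gt ‖q z‖ (1 / 2) with hq2 | hq2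
  · refine hfin 0 (2 * (n * C)) le_rfl (by linarith) (by linarith) (by linarith) ?_
    have h5 : 1 / 2 ≤ Real.sqrt ψ := by
      refine Real.le_sqrt_of_sq_le ?_
      have h7 : ‖q z‖ ^ 2 ≤ (1 / 2) ^ 2 := pow_le_pow_left₀ hqz0 hq2 2
      rw [hψ]; norm_num at h7 ⊢; linarith
    have h6 := hdq z hz X
    calc ‖fderiv ℂ q z X‖ ≤ n * C * ‖X‖ := h6
      _ = 2 * (n * C) * (1 / 2 * ‖X‖) := by ring
      _ ≤ 2 * (n * C) * (Real.sqrt ψ * ‖X‖) := by gcongr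
      _ = 0 * g + 2 * (n * C) * (Real.sqrt ψ * ‖X‖) := by ring
  -- STEP 1
  have step : ∀ Z : Ec n, ∑ k, h z z k * Z k = 0 → ‖Z‖ ≤ 1 →
      ((starRingEnd ℂ) (q z) * fderiv ℂ q z Z).re ≤ C₄ * Real.sqrt ψ := by
    intro Z hZ hZ1
    set t : ℝ := t₀ * Real.sqrt ψ with ht
    have ht0 : 0 < t := by positivity
    have htt : t ≤ t₀ := mul_le_of_le_one_right ht₀.le hs1
    have hY := hcur U δ h hg z hz hδc Z hZ hZ1 t (by rw [abs_of_pos ht0]; exact htt)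
    set Y : Ec n := (t : ℂ) • Z - ((K * t ^ 2 : ℝ) : ℂ) • nv h z with hYd
    have hnv : ‖nv h z‖ ≤ N₀ := by
      refine (nv_prop h z).2.2.trans ?_
      rw [hN₀]
      gcongr
      exact hg.bh z hz.1 z hz.1
    have hYn : ‖Y‖ ≤ t * L := by
      rw [hYd]
      refine (norm_sub_le _ _).trans ?_
      rw [norm_smul, norm_smul, Complex.norm_real, Complex.norm_real,
        Real.norm_of_nonneg ht0.le, Real.norm_of_nonneg (by positivity)]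
      have h2 : t ^ 2 ≤ t * t₀ := by rw [sq]; exact mul_le_mul_of_nonneg_left htt ht0.le
      calc t * ‖Z‖ + K * t ^ 2 * ‖nv h z‖ ≤ t * 1 + K * (t * t₀) * N₀ := by
            gcongr
        _ = t * L := by rw [hL]; ring
    have h1 := hb2 (z + Y) hY z hz
    rw [add_sub_cancel_left] at h1
    have h2 : fderiv ℂ q z Y = (t : ℂ) * fderiv ℂ q z Z -
        ((K * t ^ 2 : ℝ) : ℂ) * fderiv ℂ q z (nv h z) := by
      rw [hYd, map_sub, map_smul, map_smul, smul_eq_mul, smul_eq_mul]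
    set w : ℂ := fderiv ℂ q z Z with hw
    set E : ℂ := q (z + Y) - q z - (t : ℂ) * w with hE
    have hEn : ‖E‖ ≤ C₂ * t ^ 2 := by
      have h3 : E = (q (z + Y) - q z - fderiv ℂ q z Y) -
          ((K * t ^ 2 : ℝ) : ℂ) * fderiv ℂ q z (nv h z) := by
        rw [hE, h2]; ring
      rw [h3]
      refine (norm_sub_le _ _).trans ?_
      rw [norm_mul, Complex.norm_real, Real.norm_of_nonneg (by positivity : 0 ≤ K * t ^ 2)]
      have h4 : ‖fderiv ℂ q z (nv h z)‖ ≤ n * C * N₀ :=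
        (hdq z hz _).trans (by gcongr)
      calc ‖q (z + Y) - q z - fderiv ℂ q z Y‖ + K * t ^ 2 * ‖fderiv ℂ q z (nv h z)‖
          ≤ C₁ * (t * L) ^ 2 + K * t ^ 2 * (n * C * N₀) := by
            gcongr
            exact h1.trans (by gcongr)
        _ = C₂ * t ^ 2 := by rw [hC₂]; ring
    have hlt : ‖q (z + Y)‖ < 1 := hq.lt _ hY.1 hY.2
    have h5 : q (z + Y) = q z + ((t : ℂ) * w + E) := by rw [hE]; ring
    have h6 : ‖q z + ((t : ℂ) * w + E)‖ ^ 2 = ‖q z‖ ^ 2 +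
        2 * ((starRingEnd ℂ) (q z) * ((t : ℂ) * w + E)).re + ‖(t : ℂ) * w + E‖ ^ 2 := by
      rw [← Complex.normSq_eq_norm_sq, ← Complex.normSq_eq_norm_sq,
        ← Complex.normSq_eq_norm_sq, Complex.normSq_add]
      have : (q z * (starRingEnd ℂ) ((t : ℂ) * w + E)).re =
          ((starRingEnd ℂ) (q z) * ((t : ℂ) * w + E)).re := by
        simp only [Complex.mul_re, Complex.conj_re, Complex.conj_im]
        ring
      rw [this]; ring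
    have h7 : ((starRingEnd ℂ) (q z) * ((t : ℂ) * w + E)).re =
        t * ((starRingEnd ℂ) (q z) * w).re + ((starRingEnd ℂ) (q z) * E).re := by
      have : (starRingEnd ℂ) (q z) * ((t : ℂ) * w + E) =
          (t : ℂ) * ((starRingEnd ℂ) (q z) * w) + (starRingEnd ℂ) (q z) * E := by ring
      rw [this, Complex.add_re, Complex.re_ofReal_mul]
    have h8 : -(C₂ * t ^ 2) ≤ ((starRingEnd ℂ) (q z) * E).re := by
      have h9 : ‖(starRingEnd ℂ) (q z) * E‖ ≤ C₂ * t ^ 2 := by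
        rw [norm_mul, RCLike.norm_conj]
        calc ‖q z‖ * ‖E‖ ≤ 1 * (C₂ * t ^ 2) :=
              mul_le_mul hqz.le hEn (norm_nonneg _) zero_le_one
          _ = C₂ * t ^ 2 := one_mul _
      have := Complex.abs_re_le_norm ((starRingEnd ℂ) (q z) * E)
      linarith [neg_abs_le ((starRingEnd ℂ) (q z) * E).re]
    have h10 : ‖q (z + Y)‖ ^ 2 < 1 := pow_lt_one₀ (norm_nonneg _) hlt two_ne_zero
    rw [h5, h6, h7] at h10
    have h11 : 0 ≤ ‖(t : ℂ) * w + E‖ ^ 2 := sq_nonneg _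
    have h12 : 2 * t * ((starRingEnd ℂ) (q z) * w).re ≤ ψ + 2 * C₂ * t ^ 2 := by
      rw [hψ]; linarith
    have h13 : ψ = Real.sqrt ψ * Real.sqrt ψ := (Real.mul_self_sqrt hψ0.le).symm
    have h14 : ((starRingEnd ℂ) (q z) * w).re ≤ (ψ + 2 * C₂ * t ^ 2) / (2 * t) := by
      rw [le_div_iff₀ (by positivity)]; linarith
    refine h14.trans (le_of_eq ?_)
    rw [div_eq_iff (by positivity), hC₄, ht]
    have h15 : (Real.sqrt ψ) ^ 2 = ψ := Real.sq_sqrt hψ0.le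
    field_simp
    linear_combination (-1 : ℝ) * h15
  have step2 : ∀ Z : Ec n, ∑ k, h z z k * Z k = 0 →
      ‖fderiv ℂ q z Z‖ ≤ 2 * C₄ * Real.sqrt ψ * ‖Z‖ := by
    intro Z hZ
    rcases eq_or_ne Z 0 with h0 | h0
    · rw [h0]; simp
    have hZ0 : 0 < ‖Z‖ := norm_pos_iff.2 h0
    obtain ⟨lam, hl1, hl2⟩ := RCLike.exists_norm_eq_mul_self
      ((starRingEnd ℂ) (q z) * fderiv ℂ q z Z)
    have h1 := step (((lam * ((‖Z‖⁻¹ : ℝ) : ℂ)) : ℂ) • Z) (by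
      have h2 : ∀ k, h z z k * ((lam * ((‖Z‖⁻¹ : ℝ) : ℂ)) • Z) k =
          (lam * ((‖Z‖⁻¹ : ℝ) : ℂ)) * (h z z k * Z k) := by
        intro k
        simp only [PiLp.smul_apply, smul_eq_mul]
        ring
      simp only [h2]
      rw [← Finset.mul_sum, hZ, mul_zero]) (by
      rw [norm_smul, norm_mul, hl1, Complex.norm_real, Real.norm_of_nonneg (by positivity)]
      rw [one_mul, inv_mul_cancel₀ hZ0.ne'])
    rw [map_smul, smul_eq_mul] at h1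
    have h3 : (starRingEnd ℂ) (q z) * (lam * ((‖Z‖⁻¹ : ℝ) : ℂ) * fderiv ℂ q z Z) =
        ((‖Z‖⁻¹ : ℝ) : ℂ) * (lam * ((starRingEnd ℂ) (q z) * fderiv ℂ q z Z)) := by ring
    rw [h3, ← hl2, Complex.re_ofReal_mul] at h1
    have h4 : (((‖(starRingEnd ℂ) (q z) * fderiv ℂ q z Z‖ : ℝ) : ℂ)).re =
        ‖q z‖ * ‖fderiv ℂ q z Z‖ := by
      rw [Complex.ofReal_re, norm_mul, RCLike.norm_conj]
    have h5 : ‖Z‖⁻¹ * (‖q z‖ * ‖fderiv ℂ q z Z‖) ≤ C₄ * Real.sqrt ψ := by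
      rw [← h4]; exact h1
    rw [inv_mul_le_iff₀ hZ0] at h5
    have h6 := norm_nonneg (fderiv ℂ q z Z)
    have h7 : 1 / 2 * ‖fderiv ℂ q z Z‖ ≤ ‖q z‖ * ‖fderiv ℂ q z Z‖ :=
      mul_le_mul_of_nonneg_right hq2.le h6
    linarith
  -- STEP 2
  have hnd := hg.nd z hz.1 hz.2 hδc
  obtain ⟨k, hk⟩ : ∃ k, c ≤ ‖h z z k‖ := by
    by_contra hcon
    push Not at hcon
    have := (pi_norm_lt_iff hc).2 hcon
    linarith
  have hk0 : h z z k ≠ 0 := fun h0 => by rw [h0, norm_zero] at hk; linarith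
  set X2 : Ec n := ((∑ k, h z z k * X k) / h z z k) • ee k with hX2
  have hX2n : ‖X2‖ ≤ g / c := by
    rw [hX2, norm_smul, norm_div]
    have : ‖(ee k : Ec n)‖ = 1 := by simp [ee]
    rw [this, mul_one]
    gcongr
  have hgX1 : ∑ j, h z z j * (X - X2) j = 0 := by
    have h1 : ∀ j, h z z j * (X - X2) j = h z z j * X j -
        ((∑ k, h z z k * X k) / h z z k) * (h z z j * (ee k : Ec n) j) := by
      intro j
      rw [hX2]
      simp only [PiLp.sub_apply, PiLp.smul_apply, smul_eq_mul]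
      ring
    simp only [h1]
    rw [Finset.sum_sub_distrib, ← Finset.mul_sum]
    have h2 : ∑ j, h z z j * (ee k : Ec n) j = h z z k := by
      simp [ee, Pi.single_apply]
    rw [h2, div_mul_cancel₀ _ hk0, sub_self]
  have h1 := step2 (X - X2) hgX1
  have h2 := hdq z hz X2
  have h3 : fderiv ℂ q z X = fderiv ℂ q z (X - X2) + fderiv ℂ q z X2 := by
    rw [← map_add, sub_add_cancel]
  refine hfin (2 * C₄ / c + n * C / c) (2 * C₄) (by positivity) (by positivity)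
    (by linarith) (by linarith) ?_
  have h4 : ‖X - X2‖ ≤ ‖X‖ + g / c := (norm_sub_le _ _).trans (by linarith)
  have h5 : 0 ≤ g / c := by positivity
  calc ‖fderiv ℂ q z X‖ ≤ ‖fderiv ℂ q z (X - X2)‖ + ‖fderiv ℂ q z X2‖ := by
        rw [h3]; exact norm_add_le _ _
    _ ≤ 2 * C₄ * Real.sqrt ψ * (‖X‖ + g / c) + n * C * (g / c) := by
        refine add_le_add (h1.trans (by gcongr)) (h2.trans (by gcongr))
    _ ≤ 2 * C₄ * 1 * (g / c) + n * C * (g / c) + 2 * C₄ * (Real.sqrt ψ * ‖X‖) := by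
        have : 2 * C₄ * Real.sqrt ψ * (g / c) ≤ 2 * C₄ * 1 * (g / c) := by gcongr
        linarith
    _ = (2 * C₄ / c + n * C / c) * g + 2 * C₄ * (Real.sqrt ψ * ‖X‖) := by ring

/-- PROOF. `hopf`, `q_tan`, `q_b2`; `c'` is the minimum of the constants, `C'` the maximum. -/
theorem QB_QM (hg : Geo U δ h c C) {q : Ec n → ℂ} {H : Ec n → Ec n → Fin n → ℂ}
    (hq : QB U δ q H C) : ∃ c' C' : ℝ, 0 < c' ∧ c' ≤ c ∧ C ≤ C' ∧ QM U δ h q H c' C' := by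
  obtain ⟨c₁, hc₁, h1⟩ := hopf hg hq.hol (fun z hz => hq.lt z hz.1 hz.2)
  obtain ⟨C₁, hC₁, h2⟩ := q_tan hg hq
  obtain ⟨C₂, hC₂, h3⟩ := q_b2 hg hq
  refine ⟨min c c₁, max C (max C₁ C₂), lt_min hg.c0 hc₁, min_le_left _ _, le_max_left _ _, ?_⟩
  constructor
  · exact hq.hol
  · exact hq.Hhol
  · intro z hz ζ hζ
    exact (hq.Hb z hz ζ hζ).trans (le_max_left _ _)
  · exact hq.hef
  · intro z hz hδ
    refine le_trans ?_ (h1 z ⟨hz, hδ⟩)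
    gcongr
    exact min_le_right _ _
  · intro z hz hδ X
    refine (h2 z ⟨hz, hδ⟩ X).trans ?_
    gcongr
    exact (le_max_left _ _).trans (le_max_right _ _)
  · intro z hz ζ hζ h4 h5
    refine (h3 z ⟨hz, h4⟩ ζ ⟨hζ, h5⟩).trans ?_
    gcongr
    exact (le_max_right _ _).trans (le_max_right _ _)

/-- PROOF. On the compact set `closure U ×ˢ closure U ⊆ W ×ˢ W` the functions `H` and `fderiv ℂ H` are continuous
(holomorphic functions on open sets of finite dimensional spaces are analytic: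
`DifferentiableOn.analyticOnNhd` is for one variable only; use `hol_c2` of `H0` to get `ContDiffOn ℝ 2`, or
`h1_cd`-type lemmas of H0, and `fderiv ℝ = fderiv ℂ` restricted to real scalars), so bounded. -/
theorem QB_of {W : Set (Ec n)} (hW : IsOpen W) (hU : IsOpen U) (hcpt : IsCompact (closure U))
    (hUW : closure U ⊆ W) {q : Ec n → ℂ} {H : Ec n → Ec n → Fin n → ℂ}
    (hq : DifferentiableOn ℂ q W) (hH : DifferentiableOn ℂ (fun p : Ec n × Ec n => H p.1 p.2) (W ×ˢ W))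
    (hef : ∀ z ∈ W, ∀ ζ ∈ W, q z - q ζ = ∑ k, H z ζ k * (z k - ζ k))
    (h1 : ∀ z ∈ Om U δ, ‖q z‖ < 1) : ∃ C' : ℝ, QB U δ q H C' := by
  obtain ⟨M, hM⟩ := hol_d2_bound (hW.prod hW) hH (hcpt.prod hcpt) (prod_mono hUW hUW)
  refine ⟨M, ?_⟩
  have hUW' : U ⊆ W := subset_closure.trans hUW
  constructor
  · exact hq.mono hUW'
  · exact hH.mono (prod_mono hUW' hUW')
  · intro z hz ζ hζ
    exact (hM (z, ζ) ⟨subset_closure hz, subset_closure hζ⟩).1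
  · intro z hz ζ hζ
    exact (hM (z, ζ) ⟨subset_closure hz, subset_closure hζ⟩).2.1
  · intro z hz ζ hζ
    exact hef z (hUW' hz) ζ (hUW' hζ)
  · intro z hz hδ
    exact h1 z ⟨hz, hδ⟩

end Pool.Agent.MPca0fc2.FD
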