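import Pool.Agent.Lib.MP_ca0fc2_an.FD.X8

/-! Approximation of bounded holomorphic functions of the disc. -/

set_option autoImplicit false

open Metric Set MeasureTheory Filter Topology

namespace Pool.Agent.MPca0fc2.FD

private theorem X9_JJ_nonneg {x η : ℂ} (hx : ‖x‖ < 1) (hη : ‖η‖ < 1) : 0 ≤ JJ x η := by
  unfold JJ
  have h1 : 0 ≤ 1 - ‖x‖ ^ 2 := by nlinarith [norm_nonneg x]
  have h2 : 0 ≤ 1 - ‖η‖ ^ 2 := by nlinarith [norm_nonneg η]
  positivity

private theorem X9_JJ_zero (x : ℂ) : JJ x 0 = 1 - ‖x‖ ^ 2 := by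
  unfold JJ
  simp

private theorem X9_per {α : Type*} {f : ℤ → α} {N : ℤ} (hf : ∀ j, f (j + N) = f j) (j : ℤ) :
    f (j % N) = f j := by
  have hp : Function.Periodic f N := hf
  have h1 := hp.int_mul (j / N) (j % N)
  have h2 : j % N + (j / N) * N = j := by
    have := Int.emod_add_mul_ediv j N
    linarith [mul_comm (j / N) N]
  have h3 : f (j % N + (j / N) * N) = f (j % N) := by
    simpa using h1
  rw [← h3, h2]

/-- Approximation of bounded holomorphic functions of the disc.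
PROOF. It is enough to treat `ε' = ε / 2`: `M`, `W` of `Cl_of ε'`, `B` of `act_pk M W` (with `η = ε'/2`), `C₁` of `JJ_sum`, `C₂` of
`Fp_bound`, `c` of `JJ_low`. `A = max 1 (C₁ B + 1)`, `K₀ = (2 e^(2π) C₂ + 2) (4 + 1 / c²)`. Let `r < 1`; choose `K` with
`r ≤ e^(-2π / 2^(K+1))` (it tends to `1`). `s = 1 / (8 2^K)`, `X = av g s`, `φ = ph X M W ε' g K`. `S` is `0` together with
the points `pt k j`, `k ≤ K`, `0 ≤ j < 2^k`, `act X M W (ε'/2) ε' k j` (a `Finset.image` of a `Finset.sigma`/product,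
filtered; classical decidability). `‖η‖ < 1`: `pt_norm`. `ph_c2`, `ph_near`. The last property: `JJ x 0 ≤ 1`, and the sum over the
image is at most the sum over the pairs (terms `≥ 0`: `Finset.sum_image_le..`, or
`Finset.sum_le_sum_fiberwise_of_..`), `JJ_sum` (`act_per`, `av_per`). The derivative: let `y ∈ ball 0 r`,
`z = Lg y`. (a) `‖y‖ < e^(-2π)`: the left side is at most `2` (`ph_deriv_in`), and `JJ y 0 = 1 - ‖y‖² ≥ 1/2`, so the sum is
`≥ 1/4`. (b) `e^(-2π) ≤ ‖y‖`, `z.im > 1/2`: the left side is at most `2 e^(2π) C₂`, and `‖y‖ = e^(-2π z.im) ≤ e^(-π) < 1/2`,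
`JJ y 0 ≥ 1/2`. (c) `z.im ≤ 1/2`: if the derivative of `Fp` at `z` is `0` it is trivial (`ph_deriv_out`). Otherwise
`Fp_active` gives an active `(k, j)`; `JJ_low`: `JJ (ex z) (pt k j) ≥ c`, `ex z = y`. `pt k j` is in `S`: replace `j` by its
residue modulo `2^k` (`pt_per`, `act_per`, induction on the multiple, or a lemma `pt k (j + 2^k i) = pt k j`). The left side is
at most `2 e^(2π) C₂` and the sum is `≥ c²`. -/
theorem disc_approx (ε : ℝ) (hε : 0 < ε) : ∃ A K : ℝ, 1 ≤ A ∧ 0 ≤ K ∧ ∀ g : ℂ → ℂ,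
    DifferentiableOn ℂ g (ball 0 1) → (∀ x ∈ ball (0 : ℂ) 1, ‖g x‖ ≤ 1) → ∀ r : ℝ, r < 1 →
    ∃ (S : Finset ℂ) (φ : ℂ → ℂ), (∀ η ∈ S, ‖η‖ < 1) ∧ ContDiffOn ℝ 2 φ (ball 0 r) ∧
      (∀ y ∈ ball (0 : ℂ) r, ‖φ y - g y‖ ≤ ε) ∧
      (∀ y ∈ ball (0 : ℂ) r, (1 - ‖y‖ ^ 2) * ‖fderiv ℝ φ y‖ ≤ K * ∑ η ∈ S, JJ y η ^ 2) ∧
      ∀ x : ℂ, ‖x‖ < 1 → ∑ η ∈ S, JJ x η ≤ A := by
  classical
  set ε' : ℝ := ε / 2 with hε'
  have hε'0 : 0 < ε' := by positivity
  obtain ⟨M, W, hCl⟩ := Cl_of ε' hε'0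
  obtain ⟨B, hB⟩ := act_pk M W (η := ε' / 2) (ε := ε') (by positivity) hε'0
  obtain ⟨C₁, hC₁, hsum⟩ := JJ_sum
  obtain ⟨C₂, hC₂, hbd⟩ := Fp_bound
  obtain ⟨c, hc, hlow⟩ := JJ_low
  set E : ℝ := Real.exp (2 * Real.pi) with hE
  have hE0 : 0 < E := Real.exp_pos _
  set K₀ : ℝ := (2 * E * C₂ + 2) * (4 + 1 / c ^ 2) with hK₀
  have hK₀0 : 0 ≤ K₀ := by positivity
  refine ⟨max 1 (C₁ * B + 1), K₀, le_max_left _ _, hK₀0, ?_⟩
  intro g hg hg1 r hr
  have bh : BHd g := ⟨hg, hg1⟩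
  have hpi := Real.pi_pos
  obtain ⟨K, hK⟩ := pow_unbounded_of_one_lt (2 * Real.pi / (1 - r)) (one_lt_two : (1 : ℝ) < 2)
  have hr1 : 0 < 1 - r := by linarith
  have hrK : r ≤ Real.exp (-(2 * Real.pi / 2 ^ (K + 1))) := by
    have h1 : 2 * Real.pi / 2 ^ (K + 1) ≤ 1 - r := by
      rw [div_le_iff₀ (by positivity)]
      rw [div_lt_iff₀ hr1] at hK
      have h2 : (2 : ℝ) ^ (K + 1) = 2 * 2 ^ K := by ring
      rw [h2]
      have h3 : 0 < (2 : ℝ) ^ K * (1 - r) := by positivity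
      nlinarith
    have h2 := Real.add_one_le_exp (-(2 * Real.pi / 2 ^ (K + 1)))
    linarith
  have hC := hCl g bh K
  set s : ℝ := 1 / (8 * 2 ^ K) with hs
  set φ : ℂ → ℂ := ph (av g s) M W ε' g K with hφ
  set Ac : ℕ → ℤ → Prop := fun k j => act (av g s) M W (ε' / 2) ε' k j with hAc
  have hMg : Mg (av g s) := Cl_Mg hC
  have hper : ∀ k j, av g s k (j + 2 ^ k) = av g s k j := av_per g s
  have hAper : ∀ k j, Ac k (j + 2 ^ k) ↔ Ac k j := fun k j => act_per hper M W (ε' / 2) ε' k j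
  have hPk : Pk (fun k j => if Ac k j then 1 else 0) B := by
    have := hB (av g s) hMg
    convert this using 3
  set P : Finset (Σ _ : ℕ, ℤ) := (Finset.range (K + 1)).sigma
    (fun k => (Finset.Ico (0 : ℤ) (2 ^ k)).filter (fun j => Ac k j)) with hP
  set T : Finset ℂ := P.image (fun p => pt p.1 p.2) with hT
  set S : Finset ℂ := insert 0 T with hS
  have hTn : ∀ η ∈ T, ‖η‖ < 1 := by
    intro η hη
    obtain ⟨p, _, rfl⟩ := Finset.mem_image.mp hη
    exact (pt_norm p.1 p.2).1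
  have hSn : ∀ η ∈ S, ‖η‖ < 1 := by
    intro η hη
    rcases Finset.mem_insert.mp hη with h | h
    · rw [h, norm_zero]
      exact one_pos
    · exact hTn η h
  refine ⟨S, φ, hSn, ?_, ?_, ?_, ?_⟩
  · exact (ph_c2 hC).mono (ball_subset_ball hrK)
  · intro y hy
    have hy' : ‖y‖ < Real.exp (-(2 * Real.pi / 2 ^ (K + 1))) :=
      (mem_ball_zero_iff.mp hy).trans_le hrK
    have := ph_near hC hy'
    rw [hε'] at this
    rw [hφ]
    linarith
  · intro y hy
    have hyr : ‖y‖ < r := mem_ball_zero_iff.mp hy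
    have hy1 : ‖y‖ < 1 := hyr.trans hr
    have hy' : ‖y‖ < Real.exp (-(2 * Real.pi / 2 ^ (K + 1))) := hyr.trans_le hrK
    have hnn : ∀ η ∈ S, 0 ≤ JJ y η ^ 2 := fun η _ => sq_nonneg _
    have hsum0 : 0 ≤ ∑ η ∈ S, JJ y η ^ 2 := Finset.sum_nonneg hnn
    have hzero : JJ y 0 ^ 2 ≤ ∑ η ∈ S, JJ y η ^ 2 :=
      Finset.single_le_sum hnn (Finset.mem_insert_self 0 T)
    rw [X9_JJ_zero] at hzero
    have hc2 : 0 < 1 / c ^ 2 := by positivity
    -- the case of a point with norm at most one half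
    have half : ∀ R : ℝ, 0 ≤ R → R ≤ 2 * E * C₂ + 2 → ‖y‖ ≤ 1 / 2 →
        R ≤ K₀ * ∑ η ∈ S, JJ y η ^ 2 := by
      intro R hR0 hR hyh
      have h1 : (1 / 2 : ℝ) ≤ 1 - ‖y‖ ^ 2 := by nlinarith [norm_nonneg y]
      have h2 : (1 / 4 : ℝ) ≤ ∑ η ∈ S, JJ y η ^ 2 := by
        have : (1 / 2 : ℝ) ^ 2 ≤ (1 - ‖y‖ ^ 2) ^ 2 := pow_le_pow_left₀ (by norm_num) h1 2
        linarith
      have h3 : K₀ * (1 / 4) ≤ K₀ * ∑ η ∈ S, JJ y η ^ 2 := mul_le_mul_of_nonneg_left h2 hK₀0
      have h4 : 2 * E * C₂ + 2 ≤ K₀ * (1 / 4) := by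
        rw [hK₀]
        have h5 : 0 ≤ 2 * E * C₂ + 2 := by positivity
        have h6 : 0 ≤ (2 * E * C₂ + 2) * (1 / c ^ 2) := by positivity
        nlinarith
      linarith
    have hEinv : Real.exp (-(2 * Real.pi)) ≤ 1 / 2 := by
      rw [Real.exp_neg]
      have h1 := Real.add_one_le_exp (2 * Real.pi)
      have h2 := Real.pi_gt_three
      rw [inv_le_comm₀ (Real.exp_pos _) (by norm_num)]
      have : ((1 / 2 : ℝ))⁻¹ = 2 := by norm_num
      rw [this]
      linarith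
    rcases lt_or_ge ‖y‖ (Real.exp (-(2 * Real.pi))) with ha | ha
    · have h1 := ph_deriv_in hC ha
      refine half _ ?_ (h1.trans ?_) (ha.le.trans hEinv)
      · have : 0 ≤ 1 - ‖y‖ ^ 2 := by nlinarith [norm_nonneg y]
        positivity
      · have : 0 ≤ 2 * E * C₂ := by positivity
        linarith
    · have hy0 : y ≠ 0 := by
        intro h0
        rw [h0, norm_zero] at ha
        exact absurd ha (not_le.mpr (Real.exp_pos _))
      have h1 := ph_deriv_out hC ha hy'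
      obtain ⟨hL1, hL2, hL3⟩ := Lg_prop hy0
      have hLm : Lg y ∈ Sp K := Lg_mem hy0 hy'
      have h2 := hbd g M W K ε' s hC (Lg y) hLm
      have h0 : 0 ≤ (1 - ‖y‖ ^ 2) * ‖fderiv ℝ (ph (av g s) M W ε' g K) y‖ := by
        have : 0 ≤ 1 - ‖y‖ ^ 2 := by nlinarith [norm_nonneg y]
        positivity
      have h3 : (1 - ‖y‖ ^ 2) * ‖fderiv ℝ (ph (av g s) M W ε' g K) y‖ ≤ 2 * E * C₂ := by
        refine h1.trans ?_
        exact mul_le_mul_of_nonneg_left h2 (by positivity)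
      rcases lt_or_ge (1 / 2) (Lg y).im with hb | hb
      · refine half _ h0 (by linarith) ?_
        have e1 : ‖y‖ = Real.exp (-(2 * Real.pi * (Lg y).im)) := by
          rw [← ex_norm, hL1]
        rw [e1]
        have e2 : -(2 * Real.pi * (Lg y).im) ≤ -Real.pi := by nlinarith
        refine (Real.exp_le_exp.mpr e2).trans ?_
        rw [Real.exp_neg]
        have h5 := Real.add_one_le_exp Real.pi
        have h6 := Real.pi_gt_three
        rw [inv_le_comm₀ (Real.exp_pos _) (by norm_num)]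
        have : ((1 / 2 : ℝ))⁻¹ = 2 := by norm_num
        rw [this]
        linarith
      · by_cases hd : fderiv ℝ (Fp (av g s) M W ε' g K) (Lg y) = 0
        · rw [hd, norm_zero, mul_zero, mul_zero] at h1
          exact h1.trans (mul_nonneg hK₀0 hsum0)
        · obtain ⟨k, j, hkK, hact, hre, him1, him2⟩ :=
            Fp_active hC hLm hb (hL3.trans (by norm_num)) hd
          have h4 := hlow k j (Lg y) hre him1 him2
          rw [hL1] at h4
          -- the residue of j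
          set j' : ℤ := j % 2 ^ k with hj'
          have hpk : (0 : ℤ) < 2 ^ k := by positivity
          have hj0 : 0 ≤ j' := Int.emod_nonneg j hpk.ne'
          have hj1 : j' < 2 ^ k := Int.emod_lt_of_pos j hpk
          have hpt : pt k j' = pt k j := X9_per (f := fun j => pt k j) (pt_per k) j
          have hact' : Ac k j' := by
            have := X9_per (f := fun j => Ac k j) (fun j => propext (hAper k j)) j
            have h5 : Ac k j' = Ac k j := this
            rw [h5]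
            exact hact
          have hmem : pt k j ∈ S := by
            rw [hS]
            apply Finset.mem_insert_of_mem
            rw [hT]
            apply Finset.mem_image.mpr
            refine ⟨⟨k, j'⟩, ?_, hpt⟩
            rw [hP, Finset.mem_sigma]
            refine ⟨Finset.mem_range.mpr (Nat.lt_succ_of_le hkK), ?_⟩
            rw [Finset.mem_filter, Finset.mem_Ico]
            exact ⟨⟨hj0, hj1⟩, hact'⟩
          have h5 : JJ y (pt k j) ^ 2 ≤ ∑ η ∈ S, JJ y η ^ 2 := Finset.single_le_sum hnn hmem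
          have h6 : c ^ 2 ≤ ∑ η ∈ S, JJ y η ^ 2 := (pow_le_pow_left₀ hc.le h4 2).trans h5
          have h7 : K₀ * c ^ 2 ≤ K₀ * ∑ η ∈ S, JJ y η ^ 2 := mul_le_mul_of_nonneg_left h6 hK₀0
          have h8 : 2 * E * C₂ ≤ K₀ * c ^ 2 := by
            have e1 : K₀ * c ^ 2 = (2 * E * C₂ + 2) * (4 * c ^ 2 + 1) := by
              rw [hK₀]
              field_simp
            rw [e1]
            have e2 : 0 ≤ (2 * E * C₂ + 2) * (4 * c ^ 2) := by positivity
            nlinarith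
          exact h3.trans (h8.trans h7)
  · intro x hx
    have h1 := hsum Ac B hPk hAper K x hx
    have h2 : ∑ η ∈ T, JJ x η ≤ ∑ p ∈ P, JJ x (pt p.1 p.2) := by
      rw [hT]
      apply Finset.sum_image_le_of_nonneg
      intro η hη
      exact X9_JJ_nonneg hx (hTn η hη)
    have h3 : ∑ p ∈ P, JJ x (pt p.1 p.2) = ∑ k ∈ Finset.range (K + 1),
        ∑ j ∈ (Finset.Ico (0 : ℤ) (2 ^ k)).filter (fun j => Ac k j), JJ x (pt k j) := by
      rw [hP, Finset.sum_sigma]
    have h4 : ∑ η ∈ S, JJ x η ≤ 1 + ∑ η ∈ T, JJ x η := by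
      have h5 : JJ x 0 ≤ 1 := by
        rw [X9_JJ_zero]
        nlinarith [norm_nonneg x]
      by_cases h0 : (0 : ℂ) ∈ T
      · rw [hS, Finset.insert_eq_of_mem h0]
        linarith
      · rw [hS, Finset.sum_insert h0]
        linarith
    refine le_trans ?_ (le_max_right _ _)
    linarith

end Pool.Agent.MPca0fc2.FD
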