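import Pool.Agent.Lib.MP_ca0fc2_an.Mg.G058
import Pool.Agent.Lib.MP_ca0fc2_an.FD.Q2
import Pool.Agent.Lib.MP_ca0fc2_an.FD.X9

/-! The localization theorem, with uniform constants. -/

set_option autoImplicit false

open Metric Set MeasureTheory Filter Topology

namespace Pool.Agent.MPca0fc2.FD

open Pool.Agent.Lib.MP_ca0fc2_an (SolvableOn)

variable {n : ℕ}

/-- the points and functions for given generators: the trivial one, and one for each generator -/
noncomputable def mkP {d : ℕ} (q : Fin d → Ec n → ℂ) (H : Fin d → Ec n → Ec n → Fin n → ℂ)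
    (S : Fin d → Finset ℂ) : PD n where
  R := d + 1
  q := Fin.cons (fun _ => 0) q
  H := Fin.cons (fun _ _ _ => 0) H
  S := Fin.cons {0} S

/-- PROOF. `triv`: the index `0`. The trivial generator satisfies `QM` (`lt`: `c δ z ≤ c C ≤ 1`; all the others are
trivial, with `q = 0`, `H = 0`), `JJ x 0 = 1 - |x|² ≤ 1 ≤ A`. -/
theorem mkP_PG0 {d : ℕ} {U : Set (Ec n)} {δ : Ec n → ℝ} {h : Ec n → Ec n → Fin n → ℂ} {c C A : ℝ}
    (hg : Geo U δ h c C) (hcC : c * C ≤ 1) {q : Fin d → Ec n → ℂ}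
    {H : Fin d → Ec n → Ec n → Fin n → ℂ} (hq : ∀ i, QM U δ h (q i) (H i) c C) (hA : 1 ≤ A)
    {S : Fin d → Finset ℂ} (hS : ∀ i, ∀ η ∈ S i, ‖η‖ < 1)
    (hSA : ∀ i, ∀ x : ℂ, ‖x‖ < 1 → ∑ η ∈ S i, JJ x η ≤ A) : PG0 (mkP q H S) U δ h c C A := by
  have hC : 0 < C := lt_of_lt_of_le one_pos hg.C1
  have h0 : QM U δ h (fun _ => (0 : ℂ)) (fun _ _ _ => (0 : ℂ)) c C := by
    refine ⟨differentiableOn_const _, differentiableOn_const _, ?_, ?_, ?_, ?_, ?_⟩
    · intro z _ ζ _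
      have : (fun _ : Fin n => (0 : ℂ)) = 0 := rfl
      rw [this, norm_zero]
      exact hC.le
    · intro z _ ζ _
      simp
    · intro z hz _
      rw [norm_zero, sub_zero]
      have h1 := mul_le_mul_of_nonneg_left (hg.bδ z hz) hg.c0.le
      linarith
    · intro z _ _ X
      have h1 : fderiv ℂ (fun _ : Ec n => (0 : ℂ)) z = 0 := fderiv_const_apply _
      rw [h1]
      simp only [_root_.zero_apply, norm_zero]
      positivity
    · intro z _ ζ _ _ _
      have h1 : fderiv ℂ (fun _ : Ec n => (0 : ℂ)) ζ = 0 := fderiv_const_apply _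
      rw [h1]
      simp only [_root_.zero_apply, sub_zero, norm_zero]
      positivity
  refine ⟨hA, ?_, ?_, ?_, ?_⟩
  · intro r
    exact Fin.cases (motive := fun r : Fin (d + 1) =>
      QM U δ h ((mkP q H S).q r) ((mkP q H S).H r) c C) h0 (fun i => hq i) r
  · intro r
    refine Fin.cases (motive := fun r : Fin (d + 1) => ∀ η ∈ (mkP q H S).S r, ‖η‖ < 1) ?_
      (fun i => hS i) r
    intro η hη
    have h1 : η = 0 := Finset.mem_singleton.1 hη
    rw [h1, norm_zero]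
    exact one_pos
  · intro r
    refine Fin.cases (motive := fun r : Fin (d + 1) => ∀ x : ℂ, ‖x‖ < 1 →
      ∑ η ∈ (mkP q H S).S r, JJ x η ≤ A) ?_ (fun i => hSA i) r
    intro x _
    show ∑ η ∈ ({0} : Finset ℂ), JJ x η ≤ A
    rw [Finset.sum_singleton, JJ]
    simp only [norm_zero, map_zero, zero_mul, sub_zero, norm_one]
    have := sq_nonneg ‖x‖
    nlinarith
  · exact ⟨(0 : Fin (d + 1)), fun _ => rfl, Finset.mem_singleton.2 rfl⟩

/-- PROOF. `Ene` is the sum over the index `0` (non negative) and the others (`Fin.sum_univ_succ`), each of which is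
non negative (`kap_nonneg`). -/
theorem mkP_Ene {d : ℕ} (q : Fin d → Ec n → ℂ) (H : Fin d → Ec n → Ec n → Fin n → ℂ)
    (S : Fin d → Finset ℂ) (δ : Ec n → ℝ) {z : Ec n} (hz : 0 < δ z) (i : Fin d) :
    ∑ η ∈ S i, kap (δ z) (q i z) η ≤ Ene (mkP q H S) δ z := by
  show ∑ η ∈ S i, kap (δ z) (q i z) η ≤ ∑ r : Fin (d + 1), ∑ η ∈ (mkP q H S).S r,
    kap (δ z) ((mkP q H S).q r z) η
  set F : Fin (d + 1) → ℝ := fun r => ∑ η ∈ (mkP q H S).S r,
    kap (δ z) ((mkP q H S).q r z) η with hF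
  have h1 : ∀ r, 0 ≤ F r := fun r => Finset.sum_nonneg fun η _ => kap_nonneg hz.le _ _
  have h2 : F i.succ = ∑ η ∈ S i, kap (δ z) (q i z) η := rfl
  rw [← h2]
  exact Finset.single_le_sum (fun r _ => h1 r) (Finset.mem_univ i.succ)

private theorem T3_mono {N : ℕ} {f : Fin N → Ec n → ℂ} {D D' : Set (Ec n)} {C : ℝ}
    (h : SolvableOn f D C) (hD : D' ⊆ D) : SolvableOn f D' C := by
  obtain ⟨g, h1, h2, h3⟩ := h
  exact ⟨g, fun j => (h1 j).mono hD, fun j z hz => h2 j z (hD hz), fun z hz => h3 z (hD hz)⟩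

/-- The localization theorem.
PROOF. `A`, `K` of `disc_approx` with `ε = ρ₀ / 4`, `B` of `solv_base` for `R = d + 1`, the constants `c / 2`, `C`, `A`, `M`,
`C₁`, `G = C K (4 / (c / 2))`, `r₀ = ρ₀ / 2`, `Rb = 1 + ρ₀ / 4`. Let `s > 0`, `s ≤ c / 2`, `δ' = δ - s`: `Geo U δ' h (c/2) C`,
`QM U δ' h (q i) (H i) (c/2) C` (`K3`), and for `z ∈ Om U δ'`: `s < δ z`, `‖q i z‖ ≤ 1 - c s < r := 1 - c s / 2 < 1`
(if `r ≤ 0`.. then `Om U δ'` is empty or use `max`). `disc_approx` for `g i` and `r` gives `S i`, `φ₀ i`; `P = mkP q H S`,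
`φ i z = φ₀ i (q i z)`: `C²` on `Om U δ'` (composition; `q i` is `C²` by `hol_c2`), bounded by `1 + ε`,
`comp_bound` and `mkP_Ene` give the bound of the derivative (`gau ≥ 0`). The cells: for `a, w ∈ Om U δ'` with
`‖φ i w - φ i a‖ < ρ₀ / 2`: `‖g i (q i w) - g i (q i a)‖ < ρ₀ / 2 + 2 ε = ρ₀`, so the set is contained in the cell of the
hypothesis (`SolvableOn.mono`, in `Solv.lean`: prove it directly, it is trivial). So `solv_base` gives
`SolvableOn f (Om U (δ' - (n+3) ς)) B`, for all `0 < ς`, `(n + 3) ς ≤ c / 4`. Take `s = ς = s_i → 0` (e.g.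
`s_i = c / (4 (n + 4) (i + 1))`) and `solv_exhaust`: for `z ∈ Om U δ` there is a ball around `z` in `U` where
`δ > δ z / 2` (continuity), so it is in `Om U (δ - (n + 4) s_i)` for large `i`. -/
theorem TD (hn : 2 ≤ n) (N d : ℕ) (c C M C₁ ρ₀ : ℝ) (hc : 0 < c) (hρ : 0 < ρ₀) : ∃ B : ℝ,
    ∀ (U : Set (Ec n)) (δ : Ec n → ℝ) (h : Ec n → Ec n → Fin n → ℂ) (q : Fin d → Ec n → ℂ)
      (H : Fin d → Ec n → Ec n → Fin n → ℂ) (g : Fin d → ℂ → ℂ) (f : Fin N → Ec n → ℂ),
      Geo U δ h c C → c * C ≤ 1 → (∀ i, QM U δ h (q i) (H i) c C) →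
      (∀ i, DifferentiableOn ℂ (g i) (ball 0 1)) → (∀ i, ∀ x ∈ ball (0 : ℂ) 1, ‖g i x‖ ≤ 1) →
      (∀ j, DifferentiableOn ℂ (f j) (Om U δ)) → (∀ j, ∀ z ∈ Om U δ, ‖f j z‖ ≤ M) →
      (∀ a ∈ Om U δ, SolvableOn f
        {w | w ∈ Om U δ ∧ ∀ i, ‖g i (q i w) - g i (q i a)‖ < ρ₀} C₁) →
      SolvableOn f (Om U δ) B := by
  obtain ⟨A, K, hA, hK, hdisc⟩ := disc_approx (ρ₀ / 4) (by positivity)
  obtain ⟨B, hB⟩ := solv_base hn N d (c / 2) C A M C₁ (C * K * (4 / (c / 2))) (ρ₀ / 2)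
    (1 + ρ₀ / 4) (by positivity) (d + 1)
  refine ⟨B, ?_⟩
  intro U δ h q H g f hg hcC hq hgd hgb hf hfM hcell
  have hC : 0 < C := lt_of_lt_of_le one_pos hg.C1
  have key : ∀ s : ℝ, 0 < s → (n + 4) * s ≤ c / 4 →
      SolvableOn f (Om U (fun z => δ z - (n + 4) * s)) B := by
    intro s hs hsc
    have hn0 : (0 : ℝ) ≤ n := Nat.cast_nonneg n
    have hns : 0 ≤ n * s := by positivity
    have hsc2 : s ≤ c / 2 / 2 := by nlinarith
    have hg' : Geo U (fun z => δ z - s) h (c / 2) C := Geo_shift hg hs.le (by linarith)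
    have hq' : ∀ i, QM U (fun z => δ z - s) h (q i) (H i) (c / 2) C := fun i =>
      QM_shift hc (hq i) hs.le
    have hsub : Om U (fun z => δ z - s) ⊆ Om U δ := by
      intro z hz
      have h1 : 0 < δ z - s := hz.2
      exact ⟨hz.1, by linarith⟩
    have hcs : 0 < c * s := mul_pos hc hs
    choose S φ₀ hS hφc hφg hφd hφA using fun i => hdisc (g i) (hgd i) (hgb i) (1 - c * s / 2)
      (by linarith)
    have hP : PG0 (mkP q H S) U (fun z => δ z - s) h (c / 2) C A :=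
      mkP_PG0 hg' (by nlinarith) hq' hA hS hφA
    have hqr : ∀ i, ∀ z ∈ Om U (fun z => δ z - s), q i z ∈ ball (0 : ℂ) (1 - c * s / 2) := by
      intro i z hz
      have h1 : 0 < δ z - s := hz.2
      have h2 := (hq i).lt z hz.1 (by linarith)
      have h3 : c * s < c * δ z := mul_lt_mul_of_pos_left (by linarith) hc
      rw [mem_ball, dist_zero_right]
      linarith
    have hr1 : ball (0 : ℂ) (1 - c * s / 2) ⊆ ball 0 1 := ball_subset_ball (by linarith)
    have hsolv := hB U (fun z => δ z - s) h (mkP q H S) f (fun i z => φ₀ i (q i z)) rfl hg' hP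
      (fun j => (hf j).mono hsub) (fun j z hz => hfM j z (hsub hz)) ?_ ?_ ?_ ?_ s hs ?_
    · have e : (fun z => (δ z - s) - (n + 3) * s) = fun z => δ z - (n + 4) * s := by
        funext z
        ring
      rw [← e]
      exact hsolv
    · intro j
      have h1 : ContDiffOn ℝ 2 (q j) (Om U (fun z => δ z - s)) :=
        (hol_c2 hg.opn (hq j).hol).mono fun z hz => hz.1
      exact (hφc j).comp h1 (fun z hz => hqr j z hz)
    · intro j z hz
      have h1 := hφg j (q j z) (hqr j z hz)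
      have h2 := hgb j (q j z) (hr1 (hqr j z hz))
      have h3 := norm_le_norm_add_norm_sub' (φ₀ j (q j z)) (g j (q j z))
      linarith
    · intro j z hz X
      have hz0 : 0 < δ z - s := hz.2
      have hda : DifferentiableAt ℝ (φ₀ j) (q j z) :=
        ((hφc j).contDiffAt (isOpen_ball.mem_nhds (hqr j z hz))).differentiableAt (by norm_num)
      have h1 := comp_bound hg' (hq' j) (hS j) hK hz hda (hφd j (q j z) (hqr j z hz)) X
      refine h1.trans ?_
      have h2 := mkP_Ene q H S (fun z => δ z - s) hz0 j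
      have h3 := gau_nonneg (δ := fun z => δ z - s) (h := h) hz0 X
      have h4 : 0 ≤ C * K * (4 / (c / 2)) := by positivity
      exact mul_le_mul_of_nonneg_right (mul_le_mul_of_nonneg_left h2 h4) h3
    · intro a ha
      refine T3_mono (hcell a (hsub ha)) ?_
      rintro w ⟨hw, hw2⟩
      refine ⟨hsub hw, fun i => ?_⟩
      have h1 := hφg i (q i w) (hqr i w hw)
      have h2 := hφg i (q i a) (hqr i a ha)
      have h3 := hw2 i
      have e1 : g i (q i w) - g i (q i a) = (φ₀ i (q i w) - φ₀ i (q i a)) -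
          (φ₀ i (q i w) - g i (q i w)) + (φ₀ i (q i a) - g i (q i a)) := by ring
      rw [e1]
      have h4 := norm_add_le ((φ₀ i (q i w) - φ₀ i (q i a)) - (φ₀ i (q i w) - g i (q i w)))
        (φ₀ i (q i a) - g i (q i a))
      have h5 := norm_sub_le (φ₀ i (q i w) - φ₀ i (q i a)) (φ₀ i (q i w) - g i (q i w))
      linarith
    · nlinarith
  have hpos : ∀ i : ℕ, (0 : ℝ) < 4 * (n + 4) * (i + 1) := fun i => by positivity
  have hval : ∀ i : ℕ, ((n : ℝ) + 4) * (c / (4 * (n + 4) * (i + 1))) = c / 4 / (i + 1) := by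
    intro i
    field_simp
  refine solv_exhaust (E := fun i : ℕ =>
    Om U (fun z => δ z - (n + 4) * (c / (4 * (n + 4) * (i + 1))))) (fun i => ?_) ?_
  · refine key _ (div_pos hc (hpos i)) ?_
    rw [hval i]
    refine div_le_self (by positivity) ?_
    have : (0 : ℝ) ≤ i := Nat.cast_nonneg i
    linarith
  · intro z hz
    have hz0 : 0 < δ z := hz.2
    have hcont : ContinuousAt δ z :=
      ((hg.dδ.contDiffAt (hg.opn.mem_nhds hz.1)).differentiableAt (by norm_num)).continuousAt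
    have h1 : ∀ᶠ w in 𝓝 z, w ∈ U ∧ δ z / 2 < δ w :=
      (show ∀ᶠ w in 𝓝 z, w ∈ U from hg.opn.mem_nhds hz.1).and (hcont.eventually (lt_mem_nhds (by linarith)))
    obtain ⟨r, hr, hball⟩ := Metric.eventually_nhds_iff_ball.1 h1
    obtain ⟨i₀, hi₀⟩ := exists_nat_gt (c / 4 / (δ z / 2))
    refine ⟨r, hr, i₀, fun i hi w hw => ?_⟩
    obtain ⟨hwU, hwδ⟩ := hball w hw
    refine ⟨hwU, ?_⟩
    show 0 < δ w - (n + 4) * (c / (4 * (n + 4) * (i + 1)))
    rw [hval i]
    have h2 : c / 4 / (i + 1) < δ z / 2 := by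
      have h3 : (i₀ : ℝ) ≤ i := by exact_mod_cast hi
      rw [div_lt_iff₀ (by positivity)] at hi₀
      rw [div_lt_iff₀ (by positivity)]
      nlinarith
    linarith

end Pool.Agent.MPca0fc2.FD
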