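import Mathlib

/-! Packing conditions for dyadic intervals. The pair `(k, j)` stands for the dyadic interval
`[j 2^-k, (j + 1) 2^-k]`; its descendants of the generation `l` are the `(k + l, i)` with
`2^l j ≤ i < 2^l (j + 1)`. -/

set_option autoImplicit false

open Metric Set MeasureTheory Filter Topology

namespace Pool.Agent.MPca0fc2.FD

/-- packing -/
def Pk (a : ℕ → ℤ → ℝ) (B : ℝ) : Prop :=
  ∀ (k : ℕ) (j : ℤ) (m : ℕ), ∑ l ∈ Finset.range m, ((2 : ℝ) ^ l)⁻¹ *
    ∑ i ∈ Finset.Ico (2 ^ l * j) (2 ^ l * (j + 1)), a (k + l) i ≤ B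

variable {a a' : ℕ → ℤ → ℝ} {B B' : ℝ}

/-- PROOF. `m = 0`. -/
theorem Pk_nonneg (h : Pk a B) : 0 ≤ B := by
  simpa using h 0 0 0

/-- PROOF. `m = 1`. -/
theorem Pk_le (h : Pk a B) (k : ℕ) (j : ℤ) : a k j ≤ B := by
  have h1 := h k j 1
  simp only [Finset.sum_range_one, pow_zero, inv_one, one_mul, add_zero] at h1
  have h2 : Finset.Ico j (j + 1) = {j} := by
    ext x; simp only [Finset.mem_Ico, Finset.mem_singleton]; omega
  rw [h2, Finset.sum_singleton] at h1
  exact h1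

/-- PROOF. Termwise. -/
theorem Pk_mono (h : Pk a' B) (ha : ∀ k j, a k j ≤ a' k j) : Pk a B := by
  intro k j m
  refine le_trans ?_ (h k j m)
  refine Finset.sum_le_sum fun l _ => ?_
  refine mul_le_mul_of_nonneg_left ?_ (by positivity)
  exact Finset.sum_le_sum fun i _ => ha _ _

/-- PROOF. Sums. -/
theorem Pk_add (h : Pk a B) (h' : Pk a' B') : Pk (fun k j => a k j + a' k j) (B + B') := by
  intro k j m
  refine le_trans (le_of_eq ?_) (add_le_add (h k j m) (h' k j m))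
  rw [← Finset.sum_add_distrib]
  refine Finset.sum_congr rfl fun l _ => ?_
  rw [Finset.sum_add_distrib, mul_add]

/-- PROOF. Sums. -/
theorem Pk_mul (h : Pk a B) {c : ℝ} (hc : 0 ≤ c) : Pk (fun k j => c * a k j) (c * B) := by
  intro k j m
  refine le_trans (le_of_eq ?_) (mul_le_mul_of_nonneg_left (h k j m) hc)
  rw [Finset.mul_sum]
  refine Finset.sum_congr rfl fun l _ => ?_
  rw [← Finset.mul_sum]
  ring

/-- PROOF. Induction on the finite set, `Pk_add`. -/
theorem Pk_sum {ι : Type*} (s : Finset ι) {b : ι → ℕ → ℤ → ℝ} {C : ι → ℝ}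
    (h : ∀ i ∈ s, Pk (b i) (C i)) : Pk (fun k j => ∑ i ∈ s, b i k j) (∑ i ∈ s, C i) := by
  classical
  induction s using Finset.induction_on with
  | empty =>
    intro k j m
    simp
  | insert x s hx ih =>
    have h1 := ih fun i hi => h i (Finset.mem_insert_of_mem hi)
    have h2 := h x (Finset.mem_insert_self x s)
    have h3 := Pk_add h2 h1
    simp only [Finset.sum_insert hx]
    exact h3

/-- The sum over the two children.
PROOF. The map `i ↦ (i / 2, i % 2)`; or induction on the length of the interval. -/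
theorem sum_children (f : ℤ → ℝ) (p q : ℤ) :
    ∑ i ∈ Finset.Ico (2 * p) (2 * q), f i = ∑ i ∈ Finset.Ico p q, (f (2 * i) + f (2 * i + 1)) := by
  rcases le_total q p with hpq | hpq
  · rw [Finset.Ico_eq_empty (by omega), Finset.Ico_eq_empty (by omega)]
    simp
  · obtain ⟨n, rfl⟩ : ∃ n : ℕ, q = p + n := ⟨(q - p).toNat, by omega⟩
    clear hpq
    induction n with
    | zero => simp
    | succ n ih =>
      have e1 : Finset.Ico (2 * p) (2 * (p + ((n + 1 : ℕ) : ℤ))) =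
          insert (2 * (p + n) + 1) (insert (2 * (p + n)) (Finset.Ico (2 * p) (2 * (p + (n : ℤ))))) := by
        ext x
        simp only [Finset.mem_Ico, Finset.mem_insert]
        push_cast
        omega
      have e2 : Finset.Ico p (p + ((n + 1 : ℕ) : ℤ)) = insert (p + (n : ℤ)) (Finset.Ico p (p + (n : ℤ))) := by
        ext x
        simp only [Finset.mem_Ico, Finset.mem_insert]
        push_cast
        omega
      have n1 : (2 * (p + n) + 1 : ℤ) ∉ insert (2 * (p + n) : ℤ) (Finset.Ico (2 * p) (2 * (p + (n : ℤ)))) := by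
        simp only [Finset.mem_Ico, Finset.mem_insert]
        omega
      have n2 : (2 * (p + n) : ℤ) ∉ Finset.Ico (2 * p) (2 * (p + (n : ℤ))) := by
        simp only [Finset.mem_Ico]
        omega
      have n3 : (p + (n : ℤ)) ∉ Finset.Ico p (p + (n : ℤ)) := by
        simp only [Finset.mem_Ico]
        omega
      rw [e1, e2, Finset.sum_insert n1, Finset.sum_insert n2, Finset.sum_insert n3, ih]
      ring

/-- PROOF. Induction on `M` with `sum_children`. -/
theorem sum_desc (f : ℤ → ℝ) (p q : ℤ) (M : ℕ) :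
    ∑ i ∈ Finset.Ico (2 ^ M * p) (2 ^ M * q), f i =
      ∑ j ∈ Finset.Ico p q, ∑ i ∈ Finset.Ico (2 ^ M * j) (2 ^ M * (j + 1)), f i := by
  rcases le_total q p with hpq | hpq
  · rw [Finset.Ico_eq_empty (by
        have : (2 : ℤ) ^ M * q ≤ 2 ^ M * p := mul_le_mul_of_nonneg_left hpq (by positivity)
        omega), Finset.Ico_eq_empty (by omega)]
    simp
  · obtain ⟨n, rfl⟩ : ∃ n : ℕ, q = p + n := ⟨(q - p).toNat, by omega⟩
    clear hpq
    induction n with
    | zero => simp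
    | succ n ih =>
      have e2 : Finset.Ico p (p + ((n + 1 : ℕ) : ℤ)) = insert (p + (n : ℤ)) (Finset.Ico p (p + (n : ℤ))) := by
        ext x
        simp only [Finset.mem_Ico, Finset.mem_insert]
        push_cast
        omega
      have n3 : (p + (n : ℤ)) ∉ Finset.Ico p (p + (n : ℤ)) := by
        simp only [Finset.mem_Ico]
        omega
      have h2 : (0 : ℤ) < 2 ^ M := by positivity
      have hp : (2 : ℤ) ^ M * p ≤ 2 ^ M * (p + (n : ℤ)) :=
        mul_le_mul_of_nonneg_left (by omega) h2.le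
      have hq : (2 : ℤ) ^ M * (p + (n : ℤ)) ≤ 2 ^ M * (p + (n : ℤ) + 1) :=
        mul_le_mul_of_nonneg_left (by omega) h2.le
      have e1 := Finset.sum_union (s₁ := Finset.Ico ((2 : ℤ) ^ M * p) (2 ^ M * (p + (n : ℤ))))
        (s₂ := Finset.Ico ((2 : ℤ) ^ M * (p + (n : ℤ))) (2 ^ M * (p + (n : ℤ) + 1))) (f := f)
        (Finset.disjoint_left.2 fun x hx hy => by
          rw [Finset.mem_Ico] at hx hy
          omega)
      have e3 : Finset.Ico ((2 : ℤ) ^ M * p) (2 ^ M * (p + (n : ℤ))) ∪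
          Finset.Ico ((2 : ℤ) ^ M * (p + (n : ℤ))) (2 ^ M * (p + (n : ℤ) + 1)) =
          Finset.Ico ((2 : ℤ) ^ M * p) (2 ^ M * (p + ((n + 1 : ℕ) : ℤ))) := by
        have : p + ((n + 1 : ℕ) : ℤ) = p + (n : ℤ) + 1 := by push_cast; ring
        rw [this]
        ext x
        simp only [Finset.mem_Ico, Finset.mem_union]
        omega
      rw [← e3, e1, e2, Finset.sum_insert n3, ih]
      ring

/-- PROOF. With `t = |s|`: `Ico (2^l j + s) (2^l (j + 1) + s) ⊆ Ico (2^l (j - t)) (2^l (j + 1 + t))`, as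
`t ≤ 2^l t`. The sum over the large interval is the sum over the `2 t + 1` intervals
`Ico (2^l j') (2^l (j' + 1))`, `j' ∈ Ico (j - t) (j + 1 + t)` (`sum_desc`). Exchange the sums over `l` and `j'`. -/
theorem Pk_shift (h : Pk a B) (ha : ∀ k j, 0 ≤ a k j) (s : ℤ) :
    Pk (fun k j => a k (j + s)) ((2 * (s.natAbs : ℝ) + 1) * B) := by
  intro k j m
  set t : ℤ := (s.natAbs : ℤ) with ht
  have ht0 : 0 ≤ t := by omega
  have h1 : ∀ l ∈ Finset.range m, ((2 : ℝ) ^ l)⁻¹ *
      ∑ i ∈ Finset.Ico (2 ^ l * j) (2 ^ l * (j + 1)), a (k + l) (i + s) ≤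
      ∑ j' ∈ Finset.Ico (j - t) (j + 1 + t), ((2 : ℝ) ^ l)⁻¹ *
        ∑ i ∈ Finset.Ico (2 ^ l * j') (2 ^ l * (j' + 1)), a (k + l) i := by
    intro l _
    rw [← Finset.mul_sum]
    refine mul_le_mul_of_nonneg_left ?_ (by positivity)
    rw [← sum_desc (fun i => a (k + l) i) (j - t) (j + 1 + t) l]
    have e1 : ∑ i ∈ Finset.Ico ((2 : ℤ) ^ l * j) (2 ^ l * (j + 1)), a (k + l) (i + s) =
        ∑ i ∈ (Finset.Ico ((2 : ℤ) ^ l * j) (2 ^ l * (j + 1))).image (fun i => i + s), a (k + l) i := by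
      rw [Finset.sum_image]
      intro x _ y _ hxy
      have : x + s = y + s := hxy
      omega
    rw [e1]
    refine Finset.sum_le_sum_of_subset_of_nonneg ?_ fun i _ _ => ha _ _
    intro x hx
    rw [Finset.mem_image] at hx
    obtain ⟨i, hi, rfl⟩ := hx
    rw [Finset.mem_Ico] at hi ⊢
    have h2 : (1 : ℤ) ≤ 2 ^ l := by
      have : (0 : ℤ) < 2 ^ l := by positivity
      omega
    have h3 : t ≤ 2 ^ l * t := by nlinarith
    have h4 : (2 : ℤ) ^ l * (j - t) = 2 ^ l * j - 2 ^ l * t := by ring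
    have h5 : (2 : ℤ) ^ l * (j + 1 + t) = 2 ^ l * (j + 1) + 2 ^ l * t := by ring
    rw [h4, h5]
    omega
  refine le_trans (Finset.sum_le_sum h1) ?_
  rw [Finset.sum_comm]
  refine le_trans (Finset.sum_le_sum fun j' _ => h k j' m) ?_
  rw [Finset.sum_const, Int.card_Ico, nsmul_eq_mul]
  have h6 : ((j + 1 + t - (j - t)).toNat : ℝ) = 2 * (s.natAbs : ℝ) + 1 := by
    have : (j + 1 + t - (j - t)).toNat = 2 * s.natAbs + 1 := by omega
    rw [this]
    push_cast
    ring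
  rw [h6]

/-- PROOF. By `sum_desc` the sum of the new weights over the generation `l` of `(k, j)` is the sum of `a (k + l + M)` over
the generation `l + M`, and `2^-l = 2^M 2^-(l + M)`. The sum over `l < m` is at most `2^M` times the sum over all the
generations `< m + M`. -/
theorem Pk_down (h : Pk a B) (ha : ∀ k j, 0 ≤ a k j) (M : ℕ) :
    Pk (fun k j => ∑ i ∈ Finset.Ico (2 ^ M * j) (2 ^ M * (j + 1)), a (k + M) i) (2 ^ M * B) := by
  intro k j m
  have h1 : ∀ l ∈ Finset.range m, ((2 : ℝ) ^ l)⁻¹ *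
      ∑ i ∈ Finset.Ico (2 ^ l * j) (2 ^ l * (j + 1)),
        ∑ i' ∈ Finset.Ico (2 ^ M * i) (2 ^ M * (i + 1)), a (k + l + M) i' =
      2 ^ M * (((2 : ℝ) ^ (l + M))⁻¹ *
        ∑ i ∈ Finset.Ico (2 ^ (l + M) * j) (2 ^ (l + M) * (j + 1)), a (k + (l + M)) i) := by
    intro l _
    rw [← sum_desc (fun i => a (k + l + M) i)]
    have e1 : (2 : ℤ) ^ (l + M) * j = 2 ^ M * (2 ^ l * j) := by rw [pow_add]; ring
    have e2 : (2 : ℤ) ^ (l + M) * (j + 1) = 2 ^ M * (2 ^ l * (j + 1)) := by rw [pow_add]; ring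
    rw [e1, e2, ← add_assoc, pow_add]
    have h2 : (2 : ℝ) ^ M ≠ 0 := by positivity
    have h3 : (2 : ℝ) ^ l ≠ 0 := by positivity
    field_simp
  rw [Finset.sum_congr rfl h1, ← Finset.mul_sum]
  refine mul_le_mul_of_nonneg_left ?_ (by positivity)
  refine le_trans ?_ (h k j (m + M))
  have h4 : ∑ l ∈ Finset.range m, (((2 : ℝ) ^ (l + M))⁻¹ *
        ∑ i ∈ Finset.Ico (2 ^ (l + M) * j) (2 ^ (l + M) * (j + 1)), a (k + (l + M)) i) =
      ∑ l ∈ (Finset.range m).image (fun l => l + M), (((2 : ℝ) ^ l)⁻¹ *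
        ∑ i ∈ Finset.Ico (2 ^ l * j) (2 ^ l * (j + 1)), a (k + l) i) := by
    rw [Finset.sum_image]
    intro x _ y _ hxy
    have : x + M = y + M := hxy
    omega
  rw [h4]
  refine Finset.sum_le_sum_of_subset_of_nonneg ?_ fun i _ _ => ?_
  · intro x hx
    rw [Finset.mem_image] at hx
    obtain ⟨i, hi, rfl⟩ := hx
    rw [Finset.mem_range] at hi ⊢
    omega
  · exact mul_nonneg (by positivity) (Finset.sum_nonneg fun _ _ => ha _ _)

/-- PROOF. `Pk_down`: `a (k + M) (2^M j)` is one of the terms. -/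
theorem Pk_at (h : Pk a B) (ha : ∀ k j, 0 ≤ a k j) (M : ℕ) :
    Pk (fun k j => a (k + M) (2 ^ M * j)) (2 ^ M * B) := by
  refine Pk_mono (Pk_down h ha M) fun k j => ?_
  have h2 : (0 : ℤ) < 2 ^ M := by positivity
  refine Finset.single_le_sum (f := fun i => a (k + M) i) (fun i _ => ha _ _) ?_
  rw [Finset.mem_Ico]
  refine ⟨le_rfl, ?_⟩
  nlinarith

/-- A criterion: the weights of the generation `l + 1` are controlled by the weights of the generation `l`.
PROOF. Let `S l = 2^-l ∑_(i in the generation l) a (k + l) i`. The hypothesis, summed over the generation `l` of `(k, j)`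
(`sum_children`, `2^(l+1) j = 2 (2^l j)`), gives `S (l + 1) ≤ (θ / 2) S l + 2^-(l+1) ∑ a' (k + l) i ≤
(θ / 2) S l + (1 / 2) S' l`. So `∑_(l < m) S l ≤ S 0 + (θ / 2) ∑_(l < m) S l + B' / 2` (`S ≥ 0`), and
`(1 - θ / 2) ∑ S ≤ C₀ + B' / 2`. -/
theorem Pk_step (ha : ∀ k j, 0 ≤ a k j) {C₀ θ : ℝ} (hC : ∀ k j, a k j ≤ C₀) (hθ0 : 0 ≤ θ)
    (hθ : θ < 2) (h' : Pk a' B')
    (hs : ∀ k j, a (k + 1) (2 * j) + a (k + 1) (2 * j + 1) ≤ θ * a k j + a' k j) :
    Pk a ((C₀ + B' / 2) / (1 - θ / 2)) := by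
  have hθ' : 0 < 1 - θ / 2 := by linarith
  have hB' : 0 ≤ B' := Pk_nonneg h'
  intro k j m
  rw [le_div_iff₀ hθ']
  set S : ℕ → ℝ := fun l => ((2 : ℝ) ^ l)⁻¹ *
    ∑ i ∈ Finset.Ico (2 ^ l * j) (2 ^ l * (j + 1)), a (k + l) i with hS
  set S' : ℕ → ℝ := fun l => ((2 : ℝ) ^ l)⁻¹ *
    ∑ i ∈ Finset.Ico (2 ^ l * j) (2 ^ l * (j + 1)), a' (k + l) i with hS'
  have hSn : ∀ l, 0 ≤ S l := fun l =>
    mul_nonneg (by positivity) (Finset.sum_nonneg fun _ _ => ha _ _)
  have hC0 : 0 ≤ C₀ := (ha 0 0).trans (hC 0 0)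
  have hstep : ∀ l, S (l + 1) ≤ θ / 2 * S l + 1 / 2 * S' l := by
    intro l
    have e1 : (2 : ℤ) ^ (l + 1) * j = 2 * (2 ^ l * j) := by rw [pow_succ]; ring
    have e2 : (2 : ℤ) ^ (l + 1) * (j + 1) = 2 * (2 ^ l * (j + 1)) := by rw [pow_succ]; ring
    have h1 : ∑ i ∈ Finset.Ico ((2 : ℤ) ^ (l + 1) * j) (2 ^ (l + 1) * (j + 1)), a (k + (l + 1)) i ≤
        θ * (∑ i ∈ Finset.Ico ((2 : ℤ) ^ l * j) (2 ^ l * (j + 1)), a (k + l) i) +
        ∑ i ∈ Finset.Ico ((2 : ℤ) ^ l * j) (2 ^ l * (j + 1)), a' (k + l) i := by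
      rw [e1, e2, sum_children, Finset.mul_sum, ← Finset.sum_add_distrib]
      exact Finset.sum_le_sum fun i _ => hs (k + l) i
    have h2 : (0 : ℝ) ≤ ((2 : ℝ) ^ (l + 1))⁻¹ := by positivity
    refine le_trans (mul_le_mul_of_nonneg_left h1 h2) (le_of_eq ?_)
    simp only [hS, hS']
    rw [pow_succ, mul_inv]
    ring
  have hsum' : ∀ n, ∑ l ∈ Finset.range n, S' l ≤ B' := fun n => h' k j n
  have hS0 : S 0 ≤ C₀ := by
    have h2 : Finset.Ico j (j + 1) = {j} := by
      ext x; simp only [Finset.mem_Ico, Finset.mem_singleton]; omega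
    simp only [hS, pow_zero, inv_one, one_mul, add_zero, h2, Finset.sum_singleton]
    exact hC k j
  show (∑ l ∈ Finset.range m, S l) * (1 - θ / 2) ≤ C₀ + B' / 2
  rcases m with _ | m
  · simp only [Finset.range_zero, Finset.sum_empty, zero_mul]
    linarith
  · have h1 : ∑ l ∈ Finset.range (m + 1), S l ≤ C₀ + θ / 2 * ∑ l ∈ Finset.range m, S l + 1 / 2 * B' := by
      rw [Finset.sum_range_succ' S m]
      have h3 : ∑ l ∈ Finset.range m, S (l + 1) ≤
          θ / 2 * ∑ l ∈ Finset.range m, S l + 1 / 2 * ∑ l ∈ Finset.range m, S' l := by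
        rw [Finset.mul_sum, Finset.mul_sum, ← Finset.sum_add_distrib]
        exact Finset.sum_le_sum fun l _ => hstep l
      have h4 := hsum' m
      linarith
    have h5 : ∑ l ∈ Finset.range m, S l ≤ ∑ l ∈ Finset.range (m + 1), S l := by
      rw [Finset.sum_range_succ]
      linarith [hSn m]
    have h6 : θ / 2 * ∑ l ∈ Finset.range m, S l ≤ θ / 2 * ∑ l ∈ Finset.range (m + 1), S l :=
      mul_le_mul_of_nonneg_left h5 (by linarith)
    nlinarith

end Pool.Agent.MPca0fc2.FD
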