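import Pool.Agent.Lib.MP_ca0fc2_an.FD.X1

/-! Dyadic martingales, and their approximation with hysteresis. -/

set_option autoImplicit false

open Metric Set MeasureTheory Filter Topology

namespace Pool.Agent.MPca0fc2.FD

/-- a bounded dyadic martingale -/
structure Mg (X : ℕ → ℤ → ℂ) : Prop where
  avg : ∀ k j, X k j = (X (k + 1) (2 * j) + X (k + 1) (2 * j + 1)) / 2
  le : ∀ k j, ‖X k j‖ ≤ 1

variable {X : ℕ → ℤ → ℂ} {ε : ℝ}

/-- the energy -/
noncomputable def en (X : ℕ → ℤ → ℂ) (k : ℕ) (j : ℤ) : ℝ :=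
  ‖X (k + 1) (2 * j + 1) - X (k + 1) (2 * j)‖ ^ 2 / 4

/-- PROOF. The parallelogram law: `x = (x₀ + x₁) / 2`, so
`‖x₀ - b‖² + ‖x₁ - b‖² = 2 ‖x - b‖² + 2 (‖x₁ - x₀‖² / 4)`. -/
theorem en_split (h : Mg X) (k : ℕ) (j : ℤ) (b : ℂ) :
    ‖X (k + 1) (2 * j) - b‖ ^ 2 + ‖X (k + 1) (2 * j + 1) - b‖ ^ 2 =
      2 * ‖X k j - b‖ ^ 2 + 2 * en X k j := by
  have h1 : X (k + 1) (2 * j + 1) = 2 * X k j - X (k + 1) (2 * j) := by
    rw [h.avg k j]; ring
  unfold en
  rw [h1]
  simp only [Complex.sq_norm, Complex.normSq_apply, Complex.sub_re, Complex.sub_im, Complex.mul_re,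
    Complex.mul_im, Complex.re_ofNat, Complex.im_ofNat]
  ring

/-- PROOF. `‖X (k + 1) (2 j) - X k j‖ = ‖X (k + 1) (2 j + 1) - X k j‖ = ‖x₁ - x₀‖ / 2`. -/
theorem en_child (h : Mg X) (k : ℕ) (j : ℤ) :
    ‖X (k + 1) (2 * j) - X k j‖ ^ 2 = en X k j ∧ ‖X (k + 1) (2 * j + 1) - X k j‖ ^ 2 = en X k j := by
  have h1 : X (k + 1) (2 * j + 1) = 2 * X k j - X (k + 1) (2 * j) := by
    rw [h.avg k j]; ring
  unfold en
  rw [h1]
  simp only [Complex.sq_norm, Complex.normSq_apply, Complex.sub_re, Complex.sub_im, Complex.mul_re,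
    Complex.mul_im, Complex.re_ofNat, Complex.im_ofNat]
  constructor <;> ring

private theorem X2_en_nonneg (X : ℕ → ℤ → ℂ) (k : ℕ) (j : ℤ) : 0 ≤ en X k j := by
  unfold en; positivity

private theorem X2_ico (j : ℤ) : Finset.Ico j (j + 1) = {j} := by
  ext x; simp only [Finset.mem_Ico, Finset.mem_singleton]; omega

/-- the sum over the generation `l + 1` -/
private theorem X2_gen (f : ℤ → ℝ) (j : ℤ) (l : ℕ) :
    ((2 : ℝ) ^ (l + 1))⁻¹ * ∑ i ∈ Finset.Ico ((2 : ℤ) ^ (l + 1) * j) (2 ^ (l + 1) * (j + 1)), f i =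
      ((2 : ℝ) ^ l)⁻¹ * ∑ i ∈ Finset.Ico ((2 : ℤ) ^ l * j) (2 ^ l * (j + 1)),
        ((f (2 * i) + f (2 * i + 1)) / 2) := by
  have e1 : (2 : ℤ) ^ (l + 1) * j = 2 * (2 ^ l * j) := by rw [pow_succ]; ring
  have e2 : (2 : ℤ) ^ (l + 1) * (j + 1) = 2 * (2 ^ l * (j + 1)) := by rw [pow_succ]; ring
  rw [e1, e2, sum_children, ← Finset.sum_div, pow_succ, mul_inv]
  ring

/-- the average over the generation `l` of a function bounded by a constant -/
private theorem X2_avg {f : ℤ → ℝ} {B : ℝ} (hf : ∀ i, f i ≤ B) (j : ℤ) (l : ℕ) :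
    ((2 : ℝ) ^ l)⁻¹ * ∑ i ∈ Finset.Ico ((2 : ℤ) ^ l * j) (2 ^ l * (j + 1)), f i ≤ B := by
  have h1 : ∑ i ∈ Finset.Ico ((2 : ℤ) ^ l * j) (2 ^ l * (j + 1)), f i ≤ 2 ^ l * B := by
    refine (Finset.sum_le_sum fun i _ => hf i).trans (le_of_eq ?_)
    rw [Finset.sum_const, Int.card_Ico, nsmul_eq_mul]
    congr 1
    have h2 : (2 : ℤ) ^ l * (j + 1) - 2 ^ l * j = ((2 ^ l : ℕ) : ℤ) := by push_cast; ring
    rw [h2, Int.toNat_natCast]
    push_cast
    rfl
  have h3 : (0 : ℝ) < 2 ^ l := by positivity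
  rw [inv_mul_le_iff₀ h3]
  exact h1

/-- PROOF. `en_split` with `b = 0` and `sum_children`: `2^-(l+1) ∑ ‖X‖²` over the generation `l + 1` equals
`2^-l ∑ ‖X‖²` over the generation `l` plus `2^-l ∑ en`. Telescoping, `‖X‖ ≤ 1`. -/
theorem en_pk (h : Mg X) : Pk (en X) 1 := by
  intro k j m
  set Φ : ℕ → ℝ := fun l => ((2 : ℝ) ^ l)⁻¹ *
    ∑ i ∈ Finset.Ico ((2 : ℤ) ^ l * j) (2 ^ l * (j + 1)), ‖X (k + l) i‖ ^ 2 with hΦ
  have hstep : ∀ l, ((2 : ℝ) ^ l)⁻¹ *
      ∑ i ∈ Finset.Ico ((2 : ℤ) ^ l * j) (2 ^ l * (j + 1)), en X (k + l) i = Φ (l + 1) - Φ l := by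
    intro l
    have h1 : Φ (l + 1) = ((2 : ℝ) ^ l)⁻¹ *
        ∑ i ∈ Finset.Ico ((2 : ℤ) ^ l * j) (2 ^ l * (j + 1)),
          (‖X (k + l) i‖ ^ 2 + en X (k + l) i) := by
      simp only [hΦ]
      rw [X2_gen]
      congr 1
      refine Finset.sum_congr rfl fun i _ => ?_
      have h2 := en_split h (k + l) i 0
      simp only [sub_zero] at h2
      rw [show k + (l + 1) = k + l + 1 by ring, h2]
      ring
    rw [h1]
    simp only [hΦ]
    rw [Finset.sum_add_distrib]
    ring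
  rw [Finset.sum_congr rfl fun l _ => hstep l, Finset.sum_range_sub]
  have h0 : 0 ≤ Φ 0 := mul_nonneg (by positivity) (Finset.sum_nonneg fun _ _ => by positivity)
  have hm : Φ m ≤ 1 := by
    refine X2_avg (f := fun i => ‖X (k + m) i‖ ^ 2) (fun i => ?_) j m
    exact pow_le_one₀ (norm_nonneg _) (h.le _ _)
  linarith

/-- the lateral energy -/
noncomputable def lat (X : ℕ → ℤ → ℂ) (k : ℕ) (j : ℤ) : ℝ := ‖X k (j + 1) - X k j‖ ^ 2

/-- PROOF. `lat (k + 1) (2 j) = 4 en k j`. `X (k+1) (2j+2) - X (k+1) (2j+1) = (X (k+1) (2(j+1)) - X k (j+1)) +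
(X k (j+1) - X k j) + (X k j - X (k+1) (2j+1))`, so by `en_child`
`lat (k + 1) (2 j + 1) ≤ (√(lat k j) + √(en k j) + √(en k (j+1)))² ≤ (3/2) lat k j + 6 (en k j + en k (j + 1))`
(`(x + y)² ≤ (3/2) x² + 3 y²`, `(y₁ + y₂)² ≤ 2 (y₁² + y₂²)`). `Pk_step` with `θ = 3 / 2`, `C₀ = 4`,
`a' k j = 10 en k j + 6 en k (j + 1)`, `B' = 10 + 6 * 3 = 28` (`Pk_shift`): `(4 + 14) / (1 / 4) = 72`. -/
theorem lat_pk (h : Mg X) : Pk (lat X) 72 := by
  have hen : Pk (en X) 1 := en_pk h
  have hen0 := X2_en_nonneg X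
  have h1 : Pk (fun k j => 10 * en X k j + 6 * en X k (j + 1)) 28 := by
    have h2 := Pk_mul hen (c := 10) (by norm_num)
    have h3 := Pk_mul (Pk_shift hen hen0 1) (c := 6) (by norm_num)
    have h4 := Pk_add h2 h3
    have h5 : (10 * 1 + 6 * ((2 * ((1 : ℤ).natAbs : ℝ) + 1) * 1) : ℝ) = 28 := by
      norm_num
    rw [h5] at h4
    exact h4
  have h6 := Pk_step (a := lat X) (fun k j => by unfold lat; positivity) (C₀ := 4) (θ := 3 / 2)
    (fun k j => by
      unfold lat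
      have h7 : ‖X k (j + 1) - X k j‖ ≤ 2 := by
        refine (norm_sub_le _ _).trans ?_
        have := h.le k (j + 1)
        have := h.le k j
        linarith
      nlinarith [norm_nonneg (X k (j + 1) - X k j)]) (by norm_num) (by norm_num) h1
    (fun k j => by
      have h8 : lat X (k + 1) (2 * j) = 4 * en X k j := by
        unfold lat en; ring
      have h9 : lat X (k + 1) (2 * j + 1) ≤ 3 / 2 * lat X k j + 6 * (en X k j + en X k (j + 1)) := by
        have e1 := (en_child h k (j + 1)).1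
        have e2 := (en_child h k j).2
        set u := X (k + 1) (2 * (j + 1)) - X k (j + 1) with hu
        set v := X (k + 1) (2 * j + 1) - X k j with hv
        set d := X k (j + 1) - X k j with hd
        have e3 : lat X (k + 1) (2 * j + 1) = ‖d + (u - v)‖ ^ 2 := by
          unfold lat
          rw [hu, hv, hd, show (2 * j + 1 + 1 : ℤ) = 2 * (j + 1) by ring]
          congr 2
          ring
        have e4 : lat X k j = ‖d‖ ^ 2 := rfl
        rw [e3, e4, ← e1, ← e2]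
        have t1 : ‖d + (u - v)‖ ≤ ‖d‖ + (‖u‖ + ‖v‖) :=
          (norm_add_le _ _).trans (add_le_add le_rfl (norm_sub_le _ _))
        have t2 : ‖d + (u - v)‖ ^ 2 ≤ (‖d‖ + (‖u‖ + ‖v‖)) ^ 2 :=
          pow_le_pow_left₀ (norm_nonneg _) t1 2
        nlinarith [sq_nonneg (‖d‖ - 2 * (‖u‖ + ‖v‖)), sq_nonneg (‖u‖ - ‖v‖)]
      rw [h8]
      linarith)
  have h10 : ((4 + 28 / 2) / (1 - 3 / 2 / 2) : ℝ) = 72 := by norm_num
  rw [h10] at h6
  exact h6

/-- the approximation with hysteresis -/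
noncomputable def hb (X : ℕ → ℤ → ℂ) (ε : ℝ) : ℕ → ℤ → ℂ
  | 0, j => X 0 j
  | k + 1, j => if ‖X (k + 1) j - hb X ε k (j / 2)‖ ≤ ε then hb X ε k (j / 2) else X (k + 1) j

/-- PROOF. Cases. -/
theorem hb_near (hε : 0 ≤ ε) (k : ℕ) (j : ℤ) : ‖X k j - hb X ε k j‖ ≤ ε := by
  cases k with
  | zero => simp only [hb, sub_self, norm_zero]; exact hε
  | succ k =>
    simp only [hb]
    split_ifs with h
    · exact h
    · simp only [sub_self, norm_zero]; exact hε

/-- PROOF. Cases, induction on `k`. -/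
theorem hb_le (h : Mg X) (k : ℕ) (j : ℤ) : ‖hb X ε k j‖ ≤ 1 := by
  induction k generalizing j with
  | zero => exact h.le 0 j
  | succ k ih =>
    simp only [hb]
    split_ifs
    · exact ih _
    · exact h.le _ _

/-- PROOF. Induction on `k`: `(j + 2^(k+1)) / 2 = j / 2 + 2^k`. -/
theorem hb_per (hX : ∀ k j, X k (j + 2 ^ k) = X k j) (k : ℕ) (j : ℤ) :
    hb X ε k (j + 2 ^ k) = hb X ε k j := by
  induction k generalizing j with
  | zero => exact hX 0 j
  | succ k ih =>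
    have h1 : (j + 2 ^ (k + 1)) / 2 = j / 2 + 2 ^ k := by
      rw [pow_succ]
      omega
    simp only [hb]
    rw [h1, ih, hX]

open Classical in
/-- the changes: `1` if the value is not the value of the parent -/
noncomputable def chg (X : ℕ → ℤ → ℂ) (ε : ℝ) : ℕ → ℤ → ℝ
  | 0, _ => 0
  | k + 1, j => if hb X ε (k + 1) j = hb X ε k (j / 2) then 0 else 1

/-- PROOF. From the definition. -/
theorem chg_mem (X : ℕ → ℤ → ℂ) (ε : ℝ) (k : ℕ) (j : ℤ) : 0 ≤ chg X ε k j ∧ chg X ε k j ≤ 1 := by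
  cases k with
  | zero => simp [chg]
  | succ k =>
    simp only [chg]
    split_ifs <;> simp

/-- The drop of the potential.
PROOF. `b = hb k (j / 2)`. If `‖X - b‖ ≤ ε` there is no change and equality. Otherwise `hb (k + 1) j = X (k + 1) j`, the left
side is `0`, and the right side is `≥ ε² - ε² = 0`. -/
theorem chg_drop (hε : 0 ≤ ε) (k : ℕ) (j : ℤ) :
    ‖X (k + 1) j - hb X ε (k + 1) j‖ ^ 2 ≤
      ‖X (k + 1) j - hb X ε k (j / 2)‖ ^ 2 - ε ^ 2 * chg X ε (k + 1) j := by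
  by_cases h : ‖X (k + 1) j - hb X ε k (j / 2)‖ ≤ ε
  · have h1 : hb X ε (k + 1) j = hb X ε k (j / 2) := by
      simp only [hb]; rw [if_pos h]
    have h2 : chg X ε (k + 1) j = 0 := by
      simp only [chg]; rw [if_pos h1]
    rw [h2, h1]
    linarith
  · have h1 : hb X ε (k + 1) j = X (k + 1) j := by
      simp only [hb]; rw [if_neg h]
    have h2 := (chg_mem X ε (k + 1) j).2
    rw [h1, sub_self, norm_zero]
    push Not at h
    have h3 : ε ^ 2 ≤ ‖X (k + 1) j - hb X ε k (j / 2)‖ ^ 2 := pow_le_pow_left₀ hε h.le 2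
    have h4 : ε ^ 2 * chg X ε (k + 1) j ≤ ε ^ 2 * 1 := mul_le_mul_of_nonneg_left h2 (by positivity)
    linarith

/-- The packing of the changes.
PROOF. Let `Φ l = 2^-l ∑ ‖X - hb‖²` over the generation `l` of `(k, j)`. By `chg_drop` for the two children
(`(2 i) / 2 = i`, `(2 i + 1) / 2 = i`) and `en_split` with `b = hb k i`: the sum of `‖X - hb‖²` over the two children of
`i` is at most `2 ‖X k i - hb k i‖² + 2 en k i - ε² (chg (2 i) + chg (2 i + 1))`. So
`Φ (l + 1) ≤ Φ l + 2^-l ∑ en - ε² 2^-(l+1) ∑_(generation l + 1) chg`. Sum over `l`: `ε²` times the sum over the generations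
`1, .., m` of `2^-l ∑ chg` is at most `Φ 0 + 1 ≤ ε² + 1` (`en_pk`, `hb_near`). Add the generation `0`: `≤ 1`. -/
theorem chg_pk (h : Mg X) (hε : 0 < ε) : Pk (chg X ε) (2 + 1 / ε ^ 2) := by
  intro k j m
  have hε2 : 0 < ε ^ 2 := by positivity
  set Φ : ℕ → ℝ := fun l => ((2 : ℝ) ^ l)⁻¹ *
    ∑ i ∈ Finset.Ico ((2 : ℤ) ^ l * j) (2 ^ l * (j + 1)), ‖X (k + l) i - hb X ε (k + l) i‖ ^ 2
    with hΦ
  set C : ℕ → ℝ := fun l => ((2 : ℝ) ^ l)⁻¹ *
    ∑ i ∈ Finset.Ico ((2 : ℤ) ^ l * j) (2 ^ l * (j + 1)), chg X ε (k + l) i with hC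
  set E : ℕ → ℝ := fun l => ((2 : ℝ) ^ l)⁻¹ *
    ∑ i ∈ Finset.Ico ((2 : ℤ) ^ l * j) (2 ^ l * (j + 1)), en X (k + l) i with hE
  have hstep : ∀ l, Φ (l + 1) + ε ^ 2 * C (l + 1) ≤ Φ l + E l := by
    intro l
    simp only [hΦ, hC, hE]
    rw [X2_gen, X2_gen, mul_left_comm, ← mul_add, ← mul_add, Finset.mul_sum,
      ← Finset.sum_add_distrib, ← Finset.sum_add_distrib]
    refine mul_le_mul_of_nonneg_left ?_ (by positivity)
    refine Finset.sum_le_sum fun i _ => ?_
    rw [show k + (l + 1) = k + l + 1 by ring]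
    have h1 := chg_drop (X := X) hε.le (k + l) (2 * i)
    have h2 := chg_drop (X := X) hε.le (k + l) (2 * i + 1)
    rw [show (2 * i) / 2 = i by omega] at h1
    rw [show (2 * i + 1) / 2 = i by omega] at h2
    have h3 := en_split h (k + l) i (hb X ε (k + l) i)
    linarith
  have hsum : ∀ n, Φ n + ε ^ 2 * ∑ l ∈ Finset.range n, C (l + 1) ≤
      Φ 0 + ∑ l ∈ Finset.range n, E l := by
    intro n
    induction n with
    | zero => simp
    | succ n ih =>
      rw [Finset.sum_range_succ, Finset.sum_range_succ]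
      have := hstep n
      linarith
  have hΦn : ∀ l, 0 ≤ Φ l := fun l =>
    mul_nonneg (by positivity) (Finset.sum_nonneg fun _ _ => by positivity)
  have hΦ0 : Φ 0 ≤ ε ^ 2 := by
    refine X2_avg (f := fun i => ‖X (k + 0) i - hb X ε (k + 0) i‖ ^ 2) (fun i => ?_) j 0
    exact pow_le_pow_left₀ (norm_nonneg _) (hb_near hε.le _ _) 2
  have hC0 : C 0 ≤ 1 := X2_avg (f := fun i => chg X ε (k + 0) i) (fun i => (chg_mem _ _ _ _).2) j 0
  have hEs : ∀ n, ∑ l ∈ Finset.range n, E l ≤ 1 := fun n => en_pk h k j n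
  show ∑ l ∈ Finset.range m, C l ≤ 2 + 1 / ε ^ 2
  have hpos : 0 ≤ 2 + 1 / ε ^ 2 := by positivity
  rcases m with _ | m
  · simpa using hpos
  · rw [Finset.sum_range_succ' C m]
    have h1 : ε ^ 2 * ∑ l ∈ Finset.range m, C (l + 1) ≤ ε ^ 2 + 1 := by
      have := hsum m
      have := hΦn m
      have := hEs m
      linarith
    have h2 : ∑ l ∈ Finset.range m, C (l + 1) ≤ 1 + 1 / ε ^ 2 := by
      rw [← sub_nonneg]
      have h3 : 1 + 1 / ε ^ 2 - ∑ l ∈ Finset.range m, C (l + 1) =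
          (ε ^ 2 + 1 - ε ^ 2 * ∑ l ∈ Finset.range m, C (l + 1)) / ε ^ 2 := by
        field_simp
      rw [h3]
      exact div_nonneg (by linarith) hε2.le
    linarith

open Classical in
/-- the lateral differences -/
noncomputable def dif (X : ℕ → ℤ → ℂ) (ε : ℝ) (k : ℕ) (j : ℤ) : ℝ :=
  if hb X ε k (j + 1) = hb X ε k j then 0 else 1

/-- PROOF. `dif (k+1) (2j) ≤ chg (k+1) (2j) + chg (k+1) (2j+1)` (both children have the same parent),
`dif (k+1) (2j+1) ≤ dif k j + chg (k+1) (2j+1) + chg (k+1) (2j+2)`. `Pk_step` with `θ = 1`, `C₀ = 1`,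
`a' k j = chg (k+1) (2j) + 2 chg (k+1) (2j+1) + chg (k+1) (2(j+1))`. The packing constant of `a'`: `a' k j` is at most
`2 ∑_(i ∈ Ico (2 j) (2 (j+1))) chg (k+1) i` plus the same sum for `j + 1`; `Pk_down` with `M = 1` (`2 B`), `Pk_shift`
(factor `3`), so `B' = 4 B + 6 B = 10 B`, `B = 2 + 1 / ε²`, and the result is `(1 + 5 B) / (1 / 2) = 2 + 10 B`. -/
theorem dif_pk (h : Mg X) (hε : 0 < ε) : Pk (dif X ε) (22 + 10 / ε ^ 2) := by
  have hc := chg_pk h hε
  set B : ℝ := 2 + 1 / ε ^ 2 with hB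
  have hc0 : ∀ k j, 0 ≤ chg X ε k j := fun k j => (chg_mem X ε k j).1
  have hdown := Pk_down hc hc0 1
  have hdown0 : ∀ (k : ℕ) (j : ℤ),
      0 ≤ ∑ i ∈ Finset.Ico ((2 : ℤ) ^ 1 * j) (2 ^ 1 * (j + 1)), chg X ε (k + 1) i :=
    fun k j => Finset.sum_nonneg fun _ _ => hc0 _ _
  have h1 := Pk_mul hdown (c := 2) (by norm_num)
  have h2 := Pk_shift hdown hdown0 1
  have h3 := Pk_add h1 h2
  have h4 : (2 * (2 ^ 1 * B) + (2 * ((1 : ℤ).natAbs : ℝ) + 1) * (2 ^ 1 * B) : ℝ) = 10 * B := by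
    simp only [Int.natAbs_one, Nat.cast_one]
    ring
  rw [h4] at h3
  have hch : ∀ (k : ℕ) (j : ℤ), ∑ i ∈ Finset.Ico ((2 : ℤ) ^ 1 * j) (2 ^ 1 * (j + 1)),
      chg X ε (k + 1) i = chg X ε (k + 1) (2 * j) + chg X ε (k + 1) (2 * j + 1) := by
    intro k j
    rw [pow_one, sum_children, X2_ico, Finset.sum_singleton]
  have h5 : Pk (fun k j => chg X ε (k + 1) (2 * j) + 2 * chg X ε (k + 1) (2 * j + 1) +
      chg X ε (k + 1) (2 * (j + 1))) (10 * B) := by
    refine Pk_mono h3 fun k j => ?_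
    rw [hch, hch]
    have := hc0 (k + 1) (2 * j)
    have := hc0 (k + 1) (2 * j + 1)
    have := hc0 (k + 1) (2 * (j + 1))
    have := hc0 (k + 1) (2 * (j + 1) + 1)
    linarith
  have hd01 : ∀ k j, 0 ≤ dif X ε k j ∧ dif X ε k j ≤ 1 := by
    intro k j
    unfold dif
    split_ifs <;> simp
  have hcne : ∀ (k : ℕ) (j i : ℤ), i / 2 = j → hb X ε (k + 1) i ≠ hb X ε k j →
      chg X ε (k + 1) i = 1 := by
    intro k j i hi hne
    subst hi
    simp only [chg]
    rw [if_neg hne]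
  have h6 := Pk_step (a := dif X ε) (fun k j => (hd01 k j).1) (C₀ := 1) (θ := 1)
    (fun k j => (hd01 k j).2) (by norm_num) (by norm_num) h5
    (fun k j => by
      have g1 : dif X ε (k + 1) (2 * j) ≤ chg X ε (k + 1) (2 * j) + chg X ε (k + 1) (2 * j + 1) := by
        by_cases e : hb X ε (k + 1) (2 * j + 1) = hb X ε (k + 1) (2 * j)
        · have : dif X ε (k + 1) (2 * j) = 0 := by unfold dif; rw [if_pos e]
          rw [this]
          exact add_nonneg (hc0 _ _) (hc0 _ _)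
        · by_cases e1 : hb X ε (k + 1) (2 * j) = hb X ε k j
          · have e2 : hb X ε (k + 1) (2 * j + 1) ≠ hb X ε k j := fun e2 => e (e2.trans e1.symm)
            rw [hcne k j (2 * j + 1) (by omega) e2]
            have := (hd01 (k + 1) (2 * j)).2
            have := hc0 (k + 1) (2 * j)
            linarith
          · rw [hcne k j (2 * j) (by omega) e1]
            have := (hd01 (k + 1) (2 * j)).2
            have := hc0 (k + 1) (2 * j + 1)
            linarith
      have g2 : dif X ε (k + 1) (2 * j + 1) ≤ dif X ε k j + chg X ε (k + 1) (2 * j + 1) +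
          chg X ε (k + 1) (2 * (j + 1)) := by
        have q0 := (hd01 (k + 1) (2 * j + 1)).2
        have q1 := (hd01 k j).1
        have q2 := hc0 (k + 1) (2 * j + 1)
        have q3 := hc0 (k + 1) (2 * (j + 1))
        by_cases e1 : hb X ε (k + 1) (2 * j + 1) = hb X ε k j
        · by_cases e2 : hb X ε (k + 1) (2 * (j + 1)) = hb X ε k (j + 1)
          · by_cases e3 : hb X ε k (j + 1) = hb X ε k j
            · have : dif X ε (k + 1) (2 * j + 1) = 0 := by
                unfold dif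
                rw [if_pos]
                rw [show (2 * j + 1 + 1 : ℤ) = 2 * (j + 1) by ring, e1, e2, e3]
              rw [this]
              linarith
            · have : dif X ε k j = 1 := by unfold dif; rw [if_neg e3]
              linarith
          · rw [hcne k (j + 1) (2 * (j + 1)) (by omega) e2]
            linarith
        · rw [hcne k j (2 * j + 1) (by omega) e1]
          linarith
      linarith)
  have h7 : ((1 + 10 * B / 2) / (1 - 1 / 2) : ℝ) = 22 + 10 / ε ^ 2 := by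
    rw [hB]
    ring
  rw [h7] at h6
  exact h6

/-- a large oscillation near the interval -/
def rd (X : ℕ → ℤ → ℂ) (M W : ℕ) (η : ℝ) (k : ℕ) (j : ℤ) : Prop :=
  ∃ i : ℤ, |i - 2 ^ M * j| ≤ W ∧ η < ‖X (k + M) i - X k j‖

/-- a large oscillation is bounded by the energies -/
private theorem X2_rd (h : Mg X) {M W : ℕ} {η : ℝ} {k : ℕ} {j : ℤ} (hr : rd X M W η k j) :
    η < (W + M) * Real.sqrt ((∑ s ∈ Finset.Ico (-(W : ℤ)) W, lat X (k + M) (2 ^ M * j + s)) +
      ∑ l ∈ Finset.range M, en X (k + l) (2 ^ l * j)) := by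
  obtain ⟨i, hi, hη⟩ := hr
  refine lt_of_lt_of_le hη ?_
  set A : ℝ := ∑ s ∈ Finset.Ico (-(W : ℤ)) W, lat X (k + M) (2 ^ M * j + s) with hA
  set B : ℝ := ∑ l ∈ Finset.range M, en X (k + l) (2 ^ l * j) with hB
  set a : ℤ := 2 ^ M * j with ha
  have hlat0 : ∀ k j, 0 ≤ lat X k j := fun k j => by unfold lat; positivity
  have hA0 : 0 ≤ A := Finset.sum_nonneg fun _ _ => hlat0 _ _
  have hB0 : 0 ≤ B := Finset.sum_nonneg fun _ _ => X2_en_nonneg _ _ _
  have hs0 : 0 ≤ Real.sqrt (A + B) := Real.sqrt_nonneg _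
  have hlat : ∀ u : ℤ, a - W ≤ u → u < a + W →
      ‖X (k + M) (u + 1) - X (k + M) u‖ ≤ Real.sqrt (A + B) := by
    intro u h1 h2
    apply Real.le_sqrt_of_sq_le
    have h3 : lat X (k + M) (a + (u - a)) ≤ A := by
      refine Finset.single_le_sum (f := fun s => lat X (k + M) (a + s)) (fun s _ => hlat0 _ _) ?_
      rw [Finset.mem_Ico]
      constructor <;> omega
    rw [show a + (u - a) = u by ring] at h3
    have h4 : lat X (k + M) u = ‖X (k + M) (u + 1) - X (k + M) u‖ ^ 2 := rfl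
    linarith
  have hpath : ∀ n : ℕ, ∀ u : ℤ, a - W ≤ u → u + n ≤ a + W →
      ‖X (k + M) (u + n) - X (k + M) u‖ ≤ n * Real.sqrt (A + B) := by
    intro n
    induction n with
    | zero => intro u _ _; simp
    | succ n ih =>
      intro u h1 h2
      push_cast at h2 ⊢
      have h3 := ih u h1 (by omega)
      have h4 := hlat (u + n) (by omega) (by omega)
      have h5 : X (k + M) (u + (n + 1)) - X (k + M) u =
          (X (k + M) (u + n + 1) - X (k + M) (u + n)) + (X (k + M) (u + n) - X (k + M) u) := by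
        rw [show u + ((n : ℤ) + 1) = u + n + 1 by ring]
        ring
      rw [h5]
      refine (norm_add_le _ _).trans ?_
      linarith
  have hside : ‖X (k + M) i - X (k + M) a‖ ≤ W * Real.sqrt (A + B) := by
    rw [abs_le] at hi
    rcases le_total a i with h1 | h1
    · obtain ⟨n, hn⟩ : ∃ n : ℕ, i = a + n := ⟨(i - a).toNat, by omega⟩
      rw [hn]
      refine (hpath n a (by omega) (by omega)).trans ?_
      refine mul_le_mul_of_nonneg_right ?_ hs0
      have : n ≤ W := by omega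
      exact_mod_cast this
    · obtain ⟨n, hn⟩ : ∃ n : ℕ, a = i + n := ⟨(a - i).toNat, by omega⟩
      have h2 := hpath n i (by omega) (by omega)
      rw [← hn] at h2
      rw [norm_sub_rev]
      refine h2.trans ?_
      refine mul_le_mul_of_nonneg_right ?_ hs0
      have : n ≤ W := by omega
      exact_mod_cast this
  have hup : ∀ n : ℕ, n ≤ M → ‖X (k + n) (2 ^ n * j) - X k j‖ ≤ n * Real.sqrt (A + B) := by
    intro n
    induction n with
    | zero => intro _; simp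
    | succ n ih =>
      intro hn
      have h1 := ih (by omega)
      have h2 : ‖X (k + (n + 1)) (2 ^ (n + 1) * j) - X (k + n) (2 ^ n * j)‖ ≤
          Real.sqrt (A + B) := by
        apply Real.le_sqrt_of_sq_le
        have h3 := (en_child h (k + n) (2 ^ n * j)).1
        rw [show k + (n + 1) = k + n + 1 by ring,
          show (2 : ℤ) ^ (n + 1) * j = 2 * (2 ^ n * j) by rw [pow_succ]; ring, h3]
        have h4 : en X (k + n) (2 ^ n * j) ≤ B :=
          Finset.single_le_sum (f := fun l => en X (k + l) (2 ^ l * j))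
            (fun l _ => X2_en_nonneg _ _ _) (Finset.mem_range.2 (by omega))
        linarith
      have h5 : X (k + (n + 1)) (2 ^ (n + 1) * j) - X k j =
          (X (k + (n + 1)) (2 ^ (n + 1) * j) - X (k + n) (2 ^ n * j)) +
            (X (k + n) (2 ^ n * j) - X k j) := by ring
      rw [h5]
      refine (norm_add_le _ _).trans ?_
      push_cast
      linarith
  have hM := hup M le_rfl
  have h5 : X (k + M) i - X k j = (X (k + M) i - X (k + M) a) + (X (k + M) a - X k j) := by ring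
  rw [h5]
  refine (norm_add_le _ _).trans ?_
  rw [add_mul]
  exact add_le_add hside hM

/-- The energy near an interval with a large oscillation.
PROOF. Let `i` be as in `rd`. `X (k+M) i - X k j` is the sum of `X (k+M) i - X (k+M) (2^M j)`, which is a sum of at most `W`
lateral differences `± (X (k+M) (2^M j + s + 1) - X (k+M) (2^M j + s))`, `-W ≤ s < W`, and of the `M` differences
`X (k+l+1) (2^(l+1) j) - X (k+l) (2^l j)`, of norm `√(en (k+l) (2^l j))` (`en_child`). So one of these at most `W + M` terms is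
`≥ η / (W + M)` (`W + M > 0` since `η > 0` and the sum is not `0`). -/
theorem rd_energy (h : Mg X) {M W : ℕ} {η : ℝ} (hη : 0 < η) {k : ℕ} {j : ℤ} (hr : rd X M W η k j) :
    (η / (W + M)) ^ 2 ≤ (∑ s ∈ Finset.Ico (-(W : ℤ)) W, lat X (k + M) (2 ^ M * j + s)) +
      ∑ l ∈ Finset.range M, en X (k + l) (2 ^ l * j) := by
  have h1 := X2_rd h hr
  have hS : 0 ≤ (∑ s ∈ Finset.Ico (-(W : ℤ)) W, lat X (k + M) (2 ^ M * j + s)) +
      ∑ l ∈ Finset.range M, en X (k + l) (2 ^ l * j) :=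
    add_nonneg (Finset.sum_nonneg fun _ _ => by unfold lat; positivity)
      (Finset.sum_nonneg fun _ _ => X2_en_nonneg _ _ _)
  set S := (∑ s ∈ Finset.Ico (-(W : ℤ)) W, lat X (k + M) (2 ^ M * j + s)) +
      ∑ l ∈ Finset.range M, en X (k + l) (2 ^ l * j)
  have hw : (0 : ℝ) ≤ (W : ℝ) + M := by positivity
  rcases hw.eq_or_lt with h0 | h0
  · rw [← h0] at h1
    simp only [zero_mul] at h1
    linarith
  · have h2 : η / (W + M) ≤ Real.sqrt S := by
      rw [div_le_iff₀ h0]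
      linarith
    have h3 := pow_le_pow_left₀ (div_nonneg hη.le hw) h2 2
    rwa [Real.sq_sqrt hS] at h3

open Classical in
/-- The packing of the large oscillations.
PROOF. `rd_energy`: the indicator is at most `((W + M) / η)²` times the sum of the energies (if `W + M = 0` then `rd` is
never true: the sum in `rd_energy` is empty and the left side is `0`; treat `M = W = 0` separately, `i = j`).
`lat (k + M) (2^M j + s)` is at most the sum of `lat (k + M) (i + s)` over `i ∈ Ico (2^M j) (2^M (j + 1))`: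
`Pk_down` for the weights `a k j = lat k (j + s)` (`Pk_shift`); `Pk_at` for `en`; `Pk_sum`, `Pk_mul`. -/
theorem rd_pk (M W : ℕ) {η : ℝ} (hη : 0 < η) : ∃ B : ℝ, ∀ X : ℕ → ℤ → ℂ, Mg X →
    Pk (fun k j => if rd X M W η k j then 1 else 0) B := by
  refine ⟨((W + M) / η) ^ 2 * ((∑ s ∈ Finset.Ico (-(W : ℤ)) W,
    2 ^ M * ((2 * (s.natAbs : ℝ) + 1) * 72)) + ∑ l ∈ Finset.range M, 2 ^ l * 1), ?_⟩
  intro X h
  have hlat0 : ∀ k j, 0 ≤ lat X k j := fun k j => by unfold lat; positivity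
  have hen0 := X2_en_nonneg X
  have h1 : ∀ s ∈ Finset.Ico (-(W : ℤ)) W, Pk (fun k j => lat X (k + M) (2 ^ M * j + s))
      (2 ^ M * ((2 * (s.natAbs : ℝ) + 1) * 72)) := fun s _ =>
    Pk_at (a := fun k j => lat X k (j + s)) (Pk_shift (lat_pk h) hlat0 s) (fun k j => hlat0 _ _) M
  have h2 : ∀ l ∈ Finset.range M, Pk (fun k j => en X (k + l) (2 ^ l * j)) (2 ^ l * 1) :=
    fun l _ => Pk_at (en_pk h) hen0 l
  have h3 := Pk_mul (Pk_add (Pk_sum _ h1) (Pk_sum _ h2)) (c := ((W + M) / η) ^ 2) (sq_nonneg _)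
  refine Pk_mono h3 fun k j => ?_
  have hS : 0 ≤ (∑ s ∈ Finset.Ico (-(W : ℤ)) W, lat X (k + M) (2 ^ M * j + s)) +
      ∑ l ∈ Finset.range M, en X (k + l) (2 ^ l * j) :=
    add_nonneg (Finset.sum_nonneg fun _ _ => hlat0 _ _) (Finset.sum_nonneg fun _ _ => hen0 _ _)
  split_ifs with hr
  · have h4 := X2_rd h hr
    set S := (∑ s ∈ Finset.Ico (-(W : ℤ)) W, lat X (k + M) (2 ^ M * j + s)) +
      ∑ l ∈ Finset.range M, en X (k + l) (2 ^ l * j)
    have hw : (0 : ℝ) ≤ (W : ℝ) + M := by positivity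
    have h5 : 1 ≤ (W + M) / η * Real.sqrt S := by
      rw [div_mul_eq_mul_div, one_le_div hη]
      exact h4.le
    have h6 := pow_le_pow_left₀ (zero_le_one) h5 2
    rw [one_pow, mul_pow, Real.sq_sqrt hS] at h6
    exact h6
  · exact mul_nonneg (sq_nonneg _) hS

/-- the active intervals -/
def act (X : ℕ → ℤ → ℂ) (M W : ℕ) (η ε : ℝ) (k : ℕ) (j : ℤ) : Prop :=
  rd X M W η k j ∨ hb X ε k (j + 1) ≠ hb X ε k j ∨ chg X ε k j ≠ 0

open Classical in
/-- PROOF. The indicator is at most the sum of the indicator of `rd`, of `dif` and of `chg`. -/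
theorem act_pk (M W : ℕ) {η ε : ℝ} (hη : 0 < η) (hε : 0 < ε) : ∃ B : ℝ, ∀ X : ℕ → ℤ → ℂ, Mg X →
    Pk (fun k j => if act X M W η ε k j then 1 else 0) B := by
  obtain ⟨B, hB⟩ := rd_pk M W hη
  refine ⟨B + (22 + 10 / ε ^ 2) + (2 + 1 / ε ^ 2), ?_⟩
  intro X h
  refine Pk_mono (Pk_add (Pk_add (hB X h) (dif_pk h hε)) (chg_pk h hε)) fun k j => ?_
  have hd : 0 ≤ dif X ε k j := by unfold dif; split_ifs <;> simp
  have hc := (chg_mem X ε k j).1
  have hr : (0 : ℝ) ≤ if rd X M W η k j then 1 else 0 := by split_ifs <;> simp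
  split_ifs with ha hrd hrd
  · linarith
  · rcases ha with h1 | h1 | h1
    · exact absurd h1 hrd
    · have : dif X ε k j = 1 := by unfold dif; rw [if_neg h1]
      linarith
    · have : chg X ε k j = 1 := by
        cases k with
        | zero => exact absurd rfl h1
        | succ k =>
          simp only [chg] at h1 ⊢
          split_ifs with h2
          · exact absurd (if_pos h2) h1
          · rfl
      linarith
  · linarith
  · linarith

/-- PROOF. `hb_per`; for `rd`: `i ↦ i + 2^(k+M)`; for `chg`: cases `k = 0`, `k + 1`. -/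
theorem act_per (hX : ∀ k j, X k (j + 2 ^ k) = X k j) (M W : ℕ) (η ε : ℝ) (k : ℕ) (j : ℤ) :
    act X M W η ε k (j + 2 ^ k) ↔ act X M W η ε k j := by
  have e0 : (2 : ℤ) ^ (k + M) = 2 ^ M * 2 ^ k := by rw [pow_add]; ring
  have h1 : rd X M W η k (j + 2 ^ k) ↔ rd X M W η k j := by
    unfold rd
    constructor
    · rintro ⟨i, hi, hη⟩
      refine ⟨i - 2 ^ (k + M), ?_, ?_⟩
      · rw [show i - 2 ^ (k + M) - 2 ^ M * j = i - 2 ^ M * (j + 2 ^ k) by rw [e0]; ring]
        exact hi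
      · have h2 := hX (k + M) (i - 2 ^ (k + M))
        rw [sub_add_cancel] at h2
        rw [← h2, ← hX k j]
        exact hη
    · rintro ⟨i, hi, hη⟩
      refine ⟨i + 2 ^ (k + M), ?_, ?_⟩
      · rw [show i + 2 ^ (k + M) - 2 ^ M * (j + 2 ^ k) = i - 2 ^ M * j by rw [e0]; ring]
        exact hi
      · rw [hX, hX]
        exact hη
  have h2 : hb X ε k (j + 2 ^ k + 1) = hb X ε k (j + 1) := by
    rw [show j + 2 ^ k + 1 = (j + 1) + 2 ^ k by ring]
    exact hb_per hX k (j + 1)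
  have h3 : hb X ε k (j + 2 ^ k) = hb X ε k j := hb_per hX k j
  have h4 : chg X ε k (j + 2 ^ k) = chg X ε k j := by
    cases k with
    | zero => rfl
    | succ k =>
      have h5 : (j + 2 ^ (k + 1)) / 2 = j / 2 + 2 ^ k := by
        rw [pow_succ]
        omega
      simp only [chg]
      rw [hb_per hX (k + 1) j, h5, hb_per hX k (j / 2)]
  unfold act
  rw [h1, h2, h3, h4]

end Pool.Agent.MPca0fc2.FD
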