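import Pool.Agent.Lib.MP_ca0fc2_an.FD.X2

/-! Averages over the dyadic arcs and the Poisson formula, in the coordinates of the exponential map. -/

set_option autoImplicit false

open Metric Set MeasureTheory Filter Topology

namespace Pool.Agent.MPca0fc2.FD

/-- the exponential map, from the upper half plane to the punctured disc -/
noncomputable def ex (z : ℂ) : ℂ := Complex.exp (2 * Real.pi * Complex.I * z)

/-- PROOF. `Complex.norm_exp`. -/
theorem ex_norm (z : ℂ) : ‖ex z‖ = Real.exp (-(2 * Real.pi * z.im)) := by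
  unfold ex
  rw [Complex.norm_exp]
  congr 1
  simp

/-- PROOF. `ex_norm`. -/
theorem ex_mem {z : ℂ} (hz : 0 < z.im) : ex z ∈ ball (0 : ℂ) 1 := by
  rw [mem_ball_zero_iff, ex_norm, Real.exp_lt_one_iff]
  have := Real.pi_pos
  have : 0 < 2 * Real.pi * z.im := by positivity
  linarith

/-- PROOF. `exp (2 π i) = 1`, and induction. -/
theorem ex_int (z : ℂ) (m : ℤ) : ex (z + m) = ex z := by
  unfold ex
  rw [mul_add, Complex.exp_add]
  have h : (2 * Real.pi * Complex.I * (m : ℂ)) = m * (2 * Real.pi * Complex.I) := by ring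
  rw [h, Complex.exp_int_mul_two_pi_mul_I, mul_one]

private theorem X3_ex_diff : Differentiable ℂ ex := by
  unfold ex
  fun_prop

private theorem X3_ex_cont : Continuous ex := X3_ex_diff.continuous

/-- `exp` is a contraction on the left half plane -/
private theorem X3_exp_lip {u v : ℂ} (hu : u.re ≤ 0) (hv : v.re ≤ 0) :
    ‖Complex.exp u - Complex.exp v‖ ≤ ‖u - v‖ := by
  have h := Convex.norm_image_sub_le_of_norm_hasDerivWithin_le (f := Complex.exp)
    (f' := Complex.exp) (C := 1) (s := {z : ℂ | z.re ≤ 0}) (x := v) (y := u)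
    (fun x _ => (Complex.hasDerivAt_exp x).hasDerivWithinAt) (fun x hx => by
      rw [Complex.norm_exp]
      exact Real.exp_le_one_iff.mpr hx) (convex_halfSpace_re_le 0) hv hu
  simpa using h

/-- `1 - e^(-x) ≥ x / (1 + x)` -/
private theorem X3_one_sub {x : ℝ} (hx : 0 ≤ x) : x / (1 + x) ≤ 1 - Real.exp (-x) := by
  have h1 : 0 < 1 + x := by linarith
  have h2 : 1 + x ≤ Real.exp x := by linarith [Real.add_one_le_exp x]
  have h3 : Real.exp (-x) ≤ 1 / (1 + x) := by
    rw [Real.exp_neg, ← one_div]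
    exact one_div_le_one_div_of_le h1 h2
  have h4 : x / (1 + x) = 1 - 1 / (1 + x) := by field_simp; ring
  linarith

/-- a bounded holomorphic function of the disc -/
structure BHd (g : ℂ → ℂ) : Prop where
  hol : DifferentiableOn ℂ g (ball 0 1)
  le : ∀ x ∈ ball (0 : ℂ) 1, ‖g x‖ ≤ 1

/-- PROOF. Composition. -/
theorem gex_hol {g : ℂ → ℂ} (hg : BHd g) : DifferentiableOn ℂ (fun z => g (ex z)) {z | 0 < z.im} := by
  refine hg.hol.comp X3_ex_diff.differentiableOn fun _ hz => ex_mem hz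

/-- PROOF. The Cauchy estimate in the ball of radius `z.im` (or of all smaller radii). -/
theorem gex_deriv {g : ℂ → ℂ} (hg : BHd g) {z : ℂ} (hz : 0 < z.im) :
    z.im * ‖deriv (fun z => g (ex z)) z‖ ≤ 1 := by
  have key : ∀ r : ℝ, 0 < r → r < z.im → r * ‖deriv (fun z => g (ex z)) z‖ ≤ 1 := by
    intro r hr hrz
    have hsub : closedBall z r ⊆ {z : ℂ | 0 < z.im} := by
      intro w hw
      have h1 : |(w - z).im| ≤ ‖w - z‖ := Complex.abs_im_le_norm _
      have h2 : ‖w - z‖ ≤ r := by rwa [mem_closedBall, dist_eq_norm] at hw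
      have h3 : (w - z).im = w.im - z.im := Complex.sub_im _ _
      have h4 := neg_abs_le (w - z).im
      simp only [mem_ofPred_eq]
      linarith
    have hd : DiffContOnCl ℂ (fun z => g (ex z)) (ball z r) :=
      (gex_hol hg).diffContOnCl_ball hsub
    have h := Complex.norm_deriv_le_of_forall_mem_sphere_norm_le hr hd (C := 1) (fun w hw =>
      hg.le _ (ex_mem (hsub (sphere_subset_closedBall hw))))
    have h2 : r * ‖deriv (fun z => g (ex z)) z‖ ≤ r * (1 / r) :=
      mul_le_mul_of_nonneg_left h hr.le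
    rwa [mul_one_div_cancel hr.ne'] at h2
  by_contra hcon
  push Not at hcon
  set D := ‖deriv (fun z => g (ex z)) z‖ with hD
  have hD0 : 0 < D := by
    by_contra h0
    have h1 : D = 0 := le_antisymm (not_lt.mp h0) (norm_nonneg _)
    rw [h1, mul_zero] at hcon
    linarith
  have h1 : 1 / D < z.im := by rwa [div_lt_iff₀ hD0]
  obtain ⟨r, hr1, hr2⟩ := exists_between h1
  have h2 : 0 < 1 / D := by positivity
  have h3 := key r (h2.trans hr1) hr2
  have h4 : 1 < r * D := by rwa [div_lt_iff₀ hD0] at hr1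
  linarith

/-- the average over the dyadic interval, at the height `s` -/
noncomputable def av (g : ℂ → ℂ) (s : ℝ) (k : ℕ) (j : ℤ) : ℂ :=
  2 ^ k * ∫ t in ((j : ℝ) / 2 ^ k)..((j + 1 : ℝ) / 2 ^ k), g (ex (t + s * Complex.I))

private theorem X3_line_im {s : ℝ} (t : ℝ) : ((t : ℂ) + s * Complex.I).im = s := by simp

private theorem X3_line_cont {g : ℂ → ℂ} (hg : BHd g) {s : ℝ} (hs : 0 < s) :
    Continuous fun t : ℝ => g (ex (t + s * Complex.I)) := by
  have h := (gex_hol hg).continuousOn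
  refine h.comp_continuous (by fun_prop) fun t => ?_
  simp only [mem_ofPred_eq, X3_line_im]
  exact hs

/-- PROOF. `t ↦ g (ex (t + s i))` is continuous, so the integrals can be added
(`intervalIntegral.integral_add_adjacent_intervals`), and bounded by `1`. -/
theorem av_Mg {g : ℂ → ℂ} (hg : BHd g) {s : ℝ} (hs : 0 < s) : Mg (av g s) := by
  have hc := X3_line_cont hg hs
  constructor
  · intro k j
    unfold av
    have e0 : (((2 * j : ℤ) : ℝ)) / 2 ^ (k + 1) = (j : ℝ) / 2 ^ k := by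
      push_cast
      rw [pow_succ]
      field_simp
    have e1 : (((2 * j + 1 : ℤ) : ℝ) + 1) / 2 ^ (k + 1) = ((j : ℝ) + 1) / 2 ^ k := by
      push_cast
      rw [pow_succ]
      field_simp
      ring
    have e2 : (((2 * j : ℤ) : ℝ) + 1) / 2 ^ (k + 1) = (((2 * j + 1 : ℤ) : ℝ)) / 2 ^ (k + 1) := by
      push_cast
      rfl
    have h := intervalIntegral.integral_add_adjacent_intervals
      (μ := volume) (hc.intervalIntegrable ((j : ℝ) / 2 ^ k) (((2 * j + 1 : ℤ) : ℝ) / 2 ^ (k + 1)))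
      (hc.intervalIntegrable (((2 * j + 1 : ℤ) : ℝ) / 2 ^ (k + 1)) (((j : ℝ) + 1) / 2 ^ k))
    rw [e0, e1, e2, ← h, pow_succ]
    ring
  · intro k j
    unfold av
    have h := intervalIntegral.norm_integral_le_of_norm_le_const
      (f := fun t : ℝ => g (ex (t + s * Complex.I))) (C := 1)
      (a := (j : ℝ) / 2 ^ k) (b := ((j : ℝ) + 1) / 2 ^ k) (fun t _ =>
        hg.le _ (ex_mem (by rw [X3_line_im]; exact hs)))
    have e : |((j : ℝ) + 1) / 2 ^ k - (j : ℝ) / 2 ^ k| = 1 / 2 ^ k := by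
      rw [← sub_div, add_sub_cancel_left, abs_of_pos (by positivity)]
    rw [e, one_mul] at h
    rw [norm_mul, norm_pow, Complex.norm_ofNat]
    calc (2 : ℝ) ^ k * _ ≤ 2 ^ k * (1 / 2 ^ k) := mul_le_mul_of_nonneg_left h (by positivity)
      _ = 1 := mul_one_div_cancel (by positivity)

/-- PROOF. `ex_int`; the substitution `t ↦ t + 1` (`intervalIntegral.integral_comp_add_right`). -/
theorem av_per (g : ℂ → ℂ) (s : ℝ) (k : ℕ) (j : ℤ) : av g s k (j + 2 ^ k) = av g s k j := by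
  unfold av
  congr 1
  have e0 : (((j + 2 ^ k : ℤ) : ℝ)) / 2 ^ k = (j : ℝ) / 2 ^ k + 1 := by
    push_cast
    field_simp
  have e1 : (((j + 2 ^ k : ℤ) : ℝ) + 1) / 2 ^ k = ((j : ℝ) + 1) / 2 ^ k + 1 := by
    push_cast
    field_simp
    ring
  rw [e0, e1, ← intervalIntegral.integral_comp_add_right
    (fun t : ℝ => g (ex (t + s * Complex.I)))]
  refine intervalIntegral.integral_congr fun t _ => ?_
  have h := ex_int ((t : ℂ) + s * Complex.I) 1
  have h2 : (((t + 1 : ℝ) : ℂ) + s * Complex.I) = (t : ℂ) + s * Complex.I + ((1 : ℤ) : ℂ) := by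
    push_cast
    ring
  simp only [h2, h]

/-- PROOF. The integral over the interval is the average times the length. -/
theorem av_int (g : ℂ → ℂ) {s : ℝ} (k : ℕ) (j : ℤ) :
    ∫ t in ((j : ℝ) / 2 ^ k)..((j + 1 : ℝ) / 2 ^ k), g (ex (t + s * Complex.I)) =
      ((2 : ℂ) ^ k)⁻¹ * av g s k j := by
  unfold av
  rw [← mul_assoc, inv_mul_cancel₀ (pow_ne_zero k two_ne_zero), one_mul]

private theorem X3_sq (ξ τ : ℝ) : ‖1 - ex (ξ + τ * Complex.I)‖ ^ 2 =
    (1 - Real.exp (-(2 * Real.pi * τ))) ^ 2 +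
      4 * Real.exp (-(2 * Real.pi * τ)) * Real.sin (Real.pi * ξ) ^ 2 := by
  have e : (2 * Real.pi * Complex.I * ((ξ : ℂ) + τ * Complex.I)) =
      ((-(2 * Real.pi * τ) : ℝ) : ℂ) + ((2 * (Real.pi * ξ) : ℝ) : ℂ) * Complex.I := by
    push_cast
    linear_combination (2 * Real.pi * τ : ℂ) * Complex.I_mul_I
  have hre : (ex (ξ + τ * Complex.I)).re =
      Real.exp (-(2 * Real.pi * τ)) * Real.cos (2 * (Real.pi * ξ)) := by
    unfold ex
    rw [e, Complex.exp_re]
    simp
  have him : (ex (ξ + τ * Complex.I)).im =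
      Real.exp (-(2 * Real.pi * τ)) * Real.sin (2 * (Real.pi * ξ)) := by
    unfold ex
    rw [e, Complex.exp_im]
    simp
  rw [Complex.sq_norm, Complex.normSq_apply, Complex.sub_re, Complex.sub_im, Complex.one_re,
    Complex.one_im, hre, him, Real.sin_sq_eq_half_sub]
  have := Real.sin_sq_add_cos_sq (2 * (Real.pi * ξ))
  linear_combination (Real.exp (-(2 * Real.pi * τ))) ^ 2 * this

private theorem X3_sin {ξ : ℝ} (h : |ξ| ≤ 3 / 4) : 2 / 3 * |ξ| ≤ |Real.sin (Real.pi * ξ)| := by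
  have hp := Real.pi_pos
  have hs : |Real.sin (Real.pi * ξ)| = |Real.sin (Real.pi * |ξ|)| := by
    rcases abs_cases ξ with ⟨h1, _⟩ | ⟨h1, _⟩
    · rw [h1]
    · rw [h1, mul_neg, Real.sin_neg, abs_neg]
  rw [hs]
  have h0 := abs_nonneg ξ
  rcases le_total |ξ| (1 / 2) with h1 | h1
  · have h2 := Real.mul_abs_le_abs_sin (x := Real.pi * |ξ|) (by
      rw [abs_of_nonneg (by positivity)]
      nlinarith)
    rw [abs_of_nonneg (by positivity : 0 ≤ Real.pi * |ξ|)] at h2
    have h3 : 2 / Real.pi * (Real.pi * |ξ|) = 2 * |ξ| := by field_simp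
    rw [h3] at h2
    linarith
  · have e : Real.sin (Real.pi * |ξ|) = Real.sin (Real.pi * (1 - |ξ|)) := by
      rw [← Real.sin_pi_sub]
      congr 1
      ring
    have hx : 0 ≤ 1 - |ξ| := by linarith
    have h2 := Real.mul_abs_le_abs_sin (x := Real.pi * (1 - |ξ|)) (by
      rw [abs_of_nonneg (by positivity)]
      nlinarith)
    rw [abs_of_nonneg (by positivity : 0 ≤ Real.pi * (1 - |ξ|))] at h2
    have h3 : 2 / Real.pi * (Real.pi * (1 - |ξ|)) = 2 * (1 - |ξ|) := by field_simp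
    rw [h3] at h2
    rw [e]
    linarith

/-- Lower bound.
PROOF. `|1 - r e^(iθ)|² = (1 - r)² + 4 r sin²(θ / 2)` with `r = e^(-2πτ)`, `θ = 2πξ`. For `τ ≤ 2`: `r ≥ e^(-4π)`,
`1 - r ≥ c τ` (convexity of the exponential: `1 - e^(-x) ≥ x (1 - e^(-4π)) / (4π)` for `0 ≤ x ≤ 4π`), and
`|sin(πξ)| ≥ c |ξ|` for `|ξ| ≤ 3 / 4` (`|ξ| ≤ 1/2`: `Real.mul_abs_le_abs_sin` or `Real.mul_le_sin`; `1/2 ≤ |ξ| ≤ 3/4`:
`sin ≥ √2 / 2`). -/
theorem ex_lb : ∃ c : ℝ, 0 < c ∧ ∀ ξ τ : ℝ, |ξ| ≤ 3 / 4 → 0 ≤ τ → τ ≤ 2 →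
    c * (τ + |ξ|) ≤ ‖1 - ex (ξ + τ * Complex.I)‖ := by
  refine ⟨Real.exp (-(2 * Real.pi)) / 2, by positivity, ?_⟩
  intro ξ τ hξ h0 h2
  have hp := Real.pi_gt_three
  set E := Real.exp (-(2 * Real.pi)) with hE
  have hE0 : 0 < E := Real.exp_pos _
  have hE1 : E ≤ 1 / 7 := by
    have h := X3_one_sub (x := 2 * Real.pi) (by positivity)
    have h3 : 6 / 7 ≤ 2 * Real.pi / (1 + 2 * Real.pi) := by
      rw [div_le_div_iff₀ (by norm_num) (by positivity)]
      linarith
    linarith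
  have hr : E ^ 2 ≤ Real.exp (-(2 * Real.pi * τ)) := by
    rw [hE, ← Real.exp_nat_mul]
    apply Real.exp_le_exp.mpr
    push_cast
    nlinarith [Real.pi_pos]
  have h1r : E * τ ≤ 1 - Real.exp (-(2 * Real.pi * τ)) := by
    have h := X3_one_sub (x := 2 * Real.pi * τ) (by positivity)
    have h3 : 1 / 7 * τ ≤ 2 * Real.pi * τ / (1 + 2 * Real.pi * τ) := by
      rw [le_div_iff₀ (by positivity)]
      have h5 : 1 + 2 * Real.pi * τ ≤ 1 + 4 * Real.pi := by nlinarith [Real.pi_pos]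
      have h6 : 1 / 7 * τ * (1 + 2 * Real.pi * τ) ≤ 1 / 7 * τ * (1 + 4 * Real.pi) :=
        mul_le_mul_of_nonneg_left h5 (by positivity)
      nlinarith
    have h4 : E * τ ≤ 1 / 7 * τ := mul_le_mul_of_nonneg_right hE1 h0
    linarith
  have hsin := X3_sin hξ
  have ha := abs_nonneg ξ
  have hs2 : (2 / 3 * |ξ|) ^ 2 ≤ Real.sin (Real.pi * ξ) ^ 2 := by
    rw [← sq_abs (Real.sin (Real.pi * ξ))]
    exact pow_le_pow_left₀ (by positivity) hsin 2
  have hsq := X3_sq ξ τ
  have hA : (E * τ) ^ 2 ≤ (1 - Real.exp (-(2 * Real.pi * τ))) ^ 2 :=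
    pow_le_pow_left₀ (by positivity) h1r 2
  have hB : E ^ 2 * (2 / 3 * |ξ|) ^ 2 ≤
      Real.exp (-(2 * Real.pi * τ)) * Real.sin (Real.pi * ξ) ^ 2 :=
    mul_le_mul hr hs2 (by positivity) (Real.exp_pos _).le
  have hfin : (E / 2 * (τ + |ξ|)) ^ 2 ≤ ‖1 - ex (ξ + τ * Complex.I)‖ ^ 2 := by
    rw [hsq]
    have h5 : (E / 2 * (τ + |ξ|)) ^ 2 ≤ (E * τ) ^ 2 + 4 * (E ^ 2 * (2 / 3 * |ξ|) ^ 2) := by
      nlinarith [mul_nonneg (sq_nonneg E) (sq_nonneg (τ - |ξ|)), mul_nonneg (sq_nonneg E)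
        (sq_nonneg τ), mul_nonneg (sq_nonneg E) (sq_nonneg |ξ|)]
    linarith
  exact le_of_sq_le_sq hfin (norm_nonneg _)

/-- Upper bound.
PROOF. `|1 - e^u| ≤ |u|` for `Re u ≤ 0` (mean value inequality, `‖exp‖ ≤ 1` there), `|u| = 2π |z|`. -/
theorem ex_ub {z : ℂ} (hz : 0 ≤ z.im) : ‖1 - ex z‖ ≤ 2 * Real.pi * ‖z‖ := by
  have h := X3_exp_lip (u := 0) (v := 2 * Real.pi * Complex.I * z) (by simp) (by
    have := Real.pi_pos
    simp
    positivity)
  rw [Complex.exp_zero, zero_sub, norm_neg] at h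
  refine h.trans (le_of_eq ?_)
  rw [norm_mul, norm_mul, norm_mul, Complex.norm_I, Complex.norm_real, Complex.norm_ofNat,
    Real.norm_eq_abs, abs_of_pos Real.pi_pos, mul_one]

/-- the Poisson kernel -/
noncomputable def Pn (h s : ℝ) : ℝ :=
  (1 - Real.exp (-(4 * Real.pi * h))) / ‖1 - ex (s + h * Complex.I)‖ ^ 2

/-- PROOF. `h > 0`. -/
theorem Pn_nonneg {h : ℝ} (hh : 0 < h) (s : ℝ) : 0 ≤ Pn h s := by
  unfold Pn
  have h1 : Real.exp (-(4 * Real.pi * h)) ≤ 1 := by
    rw [Real.exp_le_one_iff]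
    have := Real.pi_pos
    have : 0 ≤ 4 * Real.pi * h := by positivity
    linarith
  have h2 : 0 ≤ 1 - Real.exp (-(4 * Real.pi * h)) := by linarith
  positivity

private theorem X3_D_lb {h : ℝ} (hh : 0 < h) (s : ℝ) :
    2 * Real.pi * h / (1 + 2 * Real.pi * h) ≤ ‖1 - ex (s + h * Complex.I)‖ := by
  have h1 := X3_one_sub (x := 2 * Real.pi * h) (by have := Real.pi_pos; positivity)
  have h2 : ‖ex (s + h * Complex.I)‖ = Real.exp (-(2 * Real.pi * h)) := by
    rw [ex_norm, X3_line_im]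
  have h3 : ‖(1 : ℂ)‖ - ‖ex (s + h * Complex.I)‖ ≤ ‖1 - ex (s + h * Complex.I)‖ :=
    norm_sub_norm_le _ _
  rw [norm_one, h2] at h3
  linarith

private theorem X3_D_pos {h : ℝ} (hh : 0 < h) (s : ℝ) : 0 < ‖1 - ex (s + h * Complex.I)‖ :=
  lt_of_lt_of_le (by have := Real.pi_pos; positivity) (X3_D_lb hh s)

/-- PROOF. The denominator is not `0`, as `‖ex (s + h i)‖ < 1`. -/
theorem Pn_cont {h : ℝ} (hh : 0 < h) : Continuous (Pn h) := by
  unfold Pn
  refine Continuous.div continuous_const ?_ fun s => (pow_pos (X3_D_pos hh s) 2).ne'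
  have := X3_ex_cont
  fun_prop

/-- The Poisson formula.
PROOF. Let `R = e^(-2πs) < 1`, `w = ex (x + (s + h) i)`, `|w| = R e^(-2πh) < R`. The function
`F ζ = g ζ (R² - |w|²) / (R² - conj w ζ)` is holomorphic in `ball 0 1'` for a slightly larger disc than `closedBall 0 R`
(`|conj w ζ| < R²` for `|ζ| ≤ R`), and `F w = g w`. Cauchy's formula on the circle of radius `R`
(`DiffContOnCl.circleIntegral_sub_inv_smul` or `Complex.circleIntegral_sub_inv_smul_of_differentiable_on_off_countable`):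
`g w = (2πi)⁻¹ ∮ F ζ / (ζ - w) dζ`, `ζ = R e^(iθ) = ex (t + s i)`, `θ = 2πt`, `dζ = 2πi ζ dt`:
`g w = ∫_0^1 g(ζ) ζ (R² - |w|²) / ((R² - conj w ζ) (ζ - w)) dt`, and `R² - conj w ζ = ζ (conj ζ - conj w)`, so the
integrand is `g(ζ) (R² - |w|²) / |ζ - w|²`, which is `g(ζ) Pn h (x - t)`: divide by `R²`:
`|1 - w / ζ|² = |1 - ex (x - t + h i)|²`. The integrand has the period `1`, so the integral over `[0, 1]` is the integral
over `[a, a + 1]` (`Function.Periodic.intervalIntegral_add_eq`). -/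
theorem poisson {g : ℂ → ℂ} (hg : BHd g) {s h : ℝ} (hs : 0 < s) (hh : 0 < h) (x a : ℝ) :
    g (ex (x + (s + h) * Complex.I)) =
      ∫ t in a..(a + 1), (Pn h (x - t) : ℂ) * g (ex (t + s * Complex.I)) := by
  have hp := Real.pi_pos
  set R := Real.exp (-(2 * Real.pi * s)) with hR
  have hR0 : 0 < R := Real.exp_pos _
  have hR1 : R < 1 := by
    rw [hR, Real.exp_lt_one_iff]
    have : 0 < 2 * Real.pi * s := by positivity
    linarith
  set w := ex (x + (s + h) * Complex.I) with hw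
  have hwn : ‖w‖ = R * Real.exp (-(2 * Real.pi * h)) := by
    rw [hw, ex_norm, hR, ← Real.exp_add]
    congr 1
    simp
    ring
  have hwR : w ∈ ball (0 : ℂ) R := by
    rw [mem_ball_zero_iff, hwn]
    have h1 : Real.exp (-(2 * Real.pi * h)) < 1 := by
      rw [Real.exp_lt_one_iff]
      have : 0 < 2 * Real.pi * h := by positivity
      linarith
    nlinarith
  have hd : DiffContOnCl ℂ g (ball 0 R) :=
    hg.hol.diffContOnCl_ball (closedBall_subset_ball hR1)
  have h1 := hd.circleAverage_poissonKernel_smul' hwR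
  rw [Real.circleAverage_def] at h1
  have hnorm : ∀ t : ℝ, ‖ex (t + s * Complex.I)‖ = R := fun t => by
    rw [ex_norm, X3_line_im]
  have hcm : ∀ t : ℝ, circleMap 0 R (2 * Real.pi * t) = ex (t + s * Complex.I) := by
    intro t
    unfold circleMap ex
    rw [hR, zero_add, Complex.ofReal_exp, ← Complex.exp_add]
    congr 1
    push_cast
    linear_combination (-(2 * Real.pi * s : ℂ)) * Complex.I_mul_I
  have hprod : ∀ t : ℝ, w = ex (t + s * Complex.I) * ex ((x - t : ℝ) + h * Complex.I) := by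
    intro t
    rw [hw]
    unfold ex
    rw [← Complex.exp_add]
    congr 1
    push_cast
    ring
  have hpt : ∀ t : ℝ, (‖circleMap 0 R (2 * Real.pi * t) - 0‖ ^ 2 - ‖w - 0‖ ^ 2) /
      ‖(circleMap 0 R (2 * Real.pi * t) - 0) - (w - 0)‖ ^ 2 = Pn h (x - t) := by
    intro t
    rw [sub_zero, sub_zero, hcm, hnorm, hwn]
    have h2 : ex (t + s * Complex.I) - w =
        ex (t + s * Complex.I) * (1 - ex ((x - t : ℝ) + h * Complex.I)) := by
      rw [mul_sub, mul_one, ← hprod]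
    rw [h2, norm_mul, hnorm]
    unfold Pn
    have h3 : Real.exp (-(4 * Real.pi * h)) = Real.exp (-(2 * Real.pi * h)) ^ 2 := by
      rw [← Real.exp_nat_mul]
      congr 1
      push_cast
      ring
    have h4 := X3_D_pos hh (x - t)
    rw [h3]
    field_simp
  have h5 := intervalIntegral.integral_comp_mul_left (a := 0) (b := 1)
    (fun θ : ℝ => ((‖circleMap 0 R θ - 0‖ ^ 2 - ‖w - 0‖ ^ 2) /
      ‖(circleMap 0 R θ - 0) - (w - 0)‖ ^ 2) • g (circleMap 0 R θ)) (c := 2 * Real.pi)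
    (by positivity)
  rw [mul_zero, mul_one] at h5
  have hper : Function.Periodic
      (fun t : ℝ => (Pn h (x - t) : ℂ) * g (ex (t + s * Complex.I))) 1 := by
    intro t
    have e1 : (((t + 1 : ℝ) : ℂ) + s * Complex.I) = (t : ℂ) + s * Complex.I + ((1 : ℤ) : ℂ) := by
      push_cast
      ring
    have e2 : ex (((x - t : ℝ) : ℂ) + h * Complex.I) =
        ex (((x - (t + 1) : ℝ) : ℂ) + h * Complex.I) := by
      rw [← ex_int (((x - (t + 1) : ℝ) : ℂ) + h * Complex.I) 1]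
      congr 1
      push_cast
      ring
    simp only [e1, ex_int, Pn, e2]
  rw [hper.intervalIntegral_add_eq a 0, zero_add, ← h1, ← h5]
  refine intervalIntegral.integral_congr fun t _ => ?_
  beta_reduce
  rw [hpt t, hcm t, Complex.real_smul]

/-- PROOF. `poisson` for `g = 1`. -/
theorem Pn_int {h : ℝ} (hh : 0 < h) (x a : ℝ) : ∫ t in a..(a + 1), Pn h (x - t) = 1 := by
  have hg : BHd (fun _ => 1) := ⟨differentiableOn_const _, fun _ _ => by simp⟩
  have h1 := poisson hg (s := 1) one_pos hh x a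
  simp only [mul_one] at h1
  rw [intervalIntegral.integral_ofReal] at h1
  exact_mod_cast h1.symm

/-- PROOF. `1 - e^(-4πh) ≤ 4πh`, `ex_lb`. -/
theorem Pn_le : ∃ C : ℝ, 0 < C ∧ ∀ h s : ℝ, 0 < h → h ≤ 1 → |s| ≤ 3 / 4 → s ≠ 0 →
    Pn h s ≤ C * h / s ^ 2 := by
  obtain ⟨c, hc, hlb⟩ := ex_lb
  refine ⟨4 * Real.pi / c ^ 2, by have := Real.pi_pos; positivity, ?_⟩
  intro h s hh h1 hs hs0
  have hp := Real.pi_pos
  have h2 := hlb s h hs hh.le (by linarith)
  have h3 : c * |s| ≤ ‖1 - ex (s + h * Complex.I)‖ := by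
    refine le_trans ?_ h2
    nlinarith
  have h4 : (c * |s|) ^ 2 ≤ ‖1 - ex (s + h * Complex.I)‖ ^ 2 :=
    pow_le_pow_left₀ (by positivity) h3 2
  rw [mul_pow, sq_abs] at h4
  have h5 : 1 - Real.exp (-(4 * Real.pi * h)) ≤ 4 * Real.pi * h := by
    have := Real.add_one_le_exp (-(4 * Real.pi * h))
    linarith
  have hs2 : 0 < s ^ 2 := by positivity
  unfold Pn
  calc (1 - Real.exp (-(4 * Real.pi * h))) / ‖1 - ex (s + h * Complex.I)‖ ^ 2
      ≤ (4 * Real.pi * h) / (c ^ 2 * s ^ 2) :=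
        div_le_div₀ (by positivity) h5 (by positivity) h4
    _ = 4 * Real.pi / c ^ 2 * h / s ^ 2 := by field_simp

/-- The variation of the kernel.
PROOF. Let `D(s) = |1 - ex (s + h i)|`. `|D(s) - D(s')| ≤ |ex (s + h i) - ex (s' + h i)| ≤ 2π |s - s'|`, and
`D ≥ 1 - e^(-2πh) ≥ c h` for `h ≤ 1`. `Pn(s') - Pn(s) = Pn(s) (D(s)² - D(s')²) / D(s')²`, and
`|D(s)² - D(s')²| / D(s')² = |r - 1| (r + 1)`, `r = D(s) / D(s')`, `|r - 1| ≤ 2π |s - s'| / (c h) ≤ 2π / c`. -/
theorem Pn_var : ∃ C : ℝ, 0 < C ∧ ∀ h s s' : ℝ, 0 < h → h ≤ 1 → |s - s'| ≤ h →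
    |Pn h s' - Pn h s| ≤ C * (|s - s'| / h) * Pn h s := by
  refine ⟨(1 + 2 * Real.pi) * (3 + 2 * Real.pi), by have := Real.pi_pos; positivity, ?_⟩
  intro h s s' hh h1 hss
  have hp := Real.pi_pos
  set D := ‖1 - ex (s + h * Complex.I)‖ with hD
  set D' := ‖1 - ex (s' + h * Complex.I)‖ with hD'
  have hD0 : 0 < D := X3_D_pos hh s
  have hD0' : 0 < D' := X3_D_pos hh s'
  have hdiff : |D - D'| ≤ 2 * Real.pi * |s - s'| := by
    have h2 : |D - D'| ≤ ‖(1 - ex (s + h * Complex.I)) - (1 - ex (s' + h * Complex.I))‖ :=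
      abs_norm_sub_norm_le _ _
    have h3 : (1 - ex (s + h * Complex.I)) - (1 - ex (s' + h * Complex.I)) =
        Complex.exp (2 * Real.pi * Complex.I * (s' + h * Complex.I)) -
          Complex.exp (2 * Real.pi * Complex.I * (s + h * Complex.I)) := by
      unfold ex
      ring
    have h4 := X3_exp_lip (u := 2 * Real.pi * Complex.I * (s' + h * Complex.I))
      (v := 2 * Real.pi * Complex.I * (s + h * Complex.I)) (by
        have : 0 ≤ 2 * Real.pi * h := by positivity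
        simp
        linarith) (by
        have : 0 ≤ 2 * Real.pi * h := by positivity
        simp
        linarith)
    rw [h3] at h2
    refine h2.trans (h4.trans (le_of_eq ?_))
    have h5 : 2 * Real.pi * Complex.I * ((s' : ℂ) + h * Complex.I) -
        2 * Real.pi * Complex.I * (s + h * Complex.I) =
        2 * Real.pi * Complex.I * ((s' - s : ℝ) : ℂ) := by
      push_cast
      ring
    rw [h5, norm_mul, norm_mul, norm_mul, Complex.norm_I, Complex.norm_real, Complex.norm_real,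
      Complex.norm_ofNat, Real.norm_eq_abs, Real.norm_eq_abs, abs_of_pos Real.pi_pos, mul_one,
      abs_sub_comm]
  have hlb : 2 * Real.pi / (1 + 2 * Real.pi) * h ≤ D' := by
    refine le_trans ?_ (X3_D_lb hh s')
    rw [div_mul_eq_mul_div]
    refine div_le_div_of_nonneg_left (by positivity) (by positivity) ?_
    nlinarith
  set q := |s - s'| / h with hq
  have hq0 : 0 ≤ q := by positivity
  have hq1 : q ≤ 1 := by rw [hq, div_le_one hh]; exact hss
  have hr : |D / D' - 1| ≤ (1 + 2 * Real.pi) * q := by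
    have e : D / D' - 1 = (D - D') / D' := by field_simp
    rw [e, abs_div, abs_of_pos hD0', div_le_iff₀ hD0']
    calc |D - D'| ≤ 2 * Real.pi * |s - s'| := hdiff
      _ = (1 + 2 * Real.pi) * q * (2 * Real.pi / (1 + 2 * Real.pi) * h) := by
          rw [hq]
          field_simp
      _ ≤ (1 + 2 * Real.pi) * q * D' := mul_le_mul_of_nonneg_left hlb (by positivity)
  have hr2 : |D / D' + 1| ≤ 3 + 2 * Real.pi := by
    have e : D / D' + 1 = (D / D' - 1) + 2 := by ring
    rw [e]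
    refine (abs_add_le _ _).trans ?_
    have h6 : (1 + 2 * Real.pi) * q ≤ 1 + 2 * Real.pi :=
      mul_le_of_le_one_right (by positivity) hq1
    have h7 : |(2 : ℝ)| = 2 := abs_two
    rw [h7]
    linarith
  have hP := Pn_nonneg hh s
  have e : Pn h s' - Pn h s = Pn h s * ((D / D' - 1) * (D / D' + 1)) := by
    unfold Pn
    rw [← hD, ← hD']
    field_simp
    ring
  rw [e, abs_mul, abs_mul, abs_of_nonneg hP]
  calc Pn h s * (|D / D' - 1| * |D / D' + 1|)
      ≤ Pn h s * (((1 + 2 * Real.pi) * q) * (3 + 2 * Real.pi)) := by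
        refine mul_le_mul_of_nonneg_left ?_ hP
        exact mul_le_mul hr hr2 (abs_nonneg _) (by positivity)
    _ = (1 + 2 * Real.pi) * (3 + 2 * Real.pi) * q * Pn h s := by ring

end Pool.Agent.MPca0fc2.FD
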