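import Pool.Agent.Lib.MP_ca0fc2_an.FD.X3

/-! Where the averages are almost constant, the function is close to the average. -/

set_option autoImplicit false

open Metric Set MeasureTheory Filter Topology

namespace Pool.Agent.MPca0fc2.FD

/-- One interval near the point.
PROOF. On `[a, b]`, `b = a + lam`, with the point `t₀ = a`: `∫ (G - c) Pn(x - t) = Pn(x - a) ∫ (G - c) +
∫ (G - c) (Pn(x - t) - Pn(x - a))`, where `|Pn(x - t) - Pn(x - a)| ≤ C (lam / h) Pn(x - t)` (`Pn_var`), `‖G - c‖ ≤ 2`; and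
`Pn(x - a) lam ≤ ∫ Pn(x - t) (1 + C lam / h)`. So with `‖∫ (G - c)‖ ≤ η lam`:
the norm is at most `(η (1 + C lam / h) + 2 C lam / h) ∫ Pn(x - t)`. (`C` is the constant of `Pn_var`, `lam ≤ h`.) -/
theorem near_int : ∃ C : ℝ, 0 < C ∧ ∀ (G : ℝ → ℂ) (c : ℂ) (x a lam h η : ℝ), Continuous G →
    (∀ t, ‖G t‖ ≤ 1) → ‖c‖ ≤ 1 → 0 < lam → lam ≤ h → h ≤ 1 → 0 ≤ η →
    ‖∫ t in a..(a + lam), (G t - c)‖ ≤ η * lam →
    ‖∫ t in a..(a + lam), (Pn h (x - t) : ℂ) * (G t - c)‖ ≤
      (η + C * (1 + η) * (lam / h)) * ∫ t in a..(a + lam), Pn h (x - t) := by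
  obtain ⟨C₀, hC₀, hvar⟩ := Pn_var
  refine ⟨2 * C₀, by positivity, ?_⟩
  intro G c x a lam h η hG hG1 hc hlam hlh hh1 hη hint
  have hh : 0 < h := hlam.trans_le hlh
  have hPc : Continuous fun t : ℝ => Pn h (x - t) := (Pn_cont hh).comp (continuous_const.sub continuous_id)
  have hPn : ∀ t : ℝ, 0 ≤ Pn h (x - t) := fun t => Pn_nonneg hh _
  have hv : ∀ t ∈ Icc a (a + lam), |Pn h (x - a) - Pn h (x - t)| ≤ C₀ * (lam / h) * Pn h (x - t) := by
    intro t ht
    have h1 : |(x - t) - (x - a)| ≤ lam := by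
      rw [abs_le]; constructor <;> [linarith [ht.2]; linarith [ht.1]]
    have h2 := hvar h (x - t) (x - a) hh hh1 (h1.trans hlh)
    refine h2.trans ?_
    refine mul_le_mul_of_nonneg_right ?_ (hPn t)
    refine mul_le_mul_of_nonneg_left ?_ hC₀.le
    exact div_le_div_of_nonneg_right h1 hh.le
  set I : ℝ := ∫ t in a..(a + lam), Pn h (x - t) with hI
  have hle : a ≤ a + lam := by linarith
  have hI0 : 0 ≤ I := intervalIntegral.integral_nonneg hle fun t _ => hPn t
  -- the first piece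
  have e1 : Pn h (x - a) * lam ≤ (1 + C₀ * (lam / h)) * I := by
    have h1 : Pn h (x - a) * lam = ∫ t in a..(a + lam), Pn h (x - a) := by
      rw [intervalIntegral.integral_const, smul_eq_mul]; ring
    have h2 : (1 + C₀ * (lam / h)) * I = ∫ t in a..(a + lam), (1 + C₀ * (lam / h)) * Pn h (x - t) := by
      rw [intervalIntegral.integral_const_mul]
    rw [h1, h2]
    refine intervalIntegral.integral_mono_on hle (continuous_const.intervalIntegrable _ _)
      ((continuous_const.mul hPc).intervalIntegrable _ _) fun t ht => ?_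
    have h3 := (abs_le.1 (hv t ht)).2
    linarith
  have e2 : ‖∫ t in a..(a + lam), (Pn h (x - a) : ℂ) * (G t - c)‖ ≤ η * ((1 + C₀ * (lam / h)) * I) := by
    rw [intervalIntegral.integral_const_mul, norm_mul, Complex.norm_real, Real.norm_eq_abs,
      abs_of_nonneg (hPn a)]
    calc Pn h (x - a) * ‖∫ t in a..(a + lam), (G t - c)‖ ≤ Pn h (x - a) * (η * lam) :=
          mul_le_mul_of_nonneg_left hint (hPn a)
      _ = η * (Pn h (x - a) * lam) := by ring
      _ ≤ _ := mul_le_mul_of_nonneg_left e1 hη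
  have hcG : Continuous fun t : ℝ => G t - c := hG.sub continuous_const
  have hcP : Continuous fun t : ℝ => (Pn h (x - t) : ℂ) := Complex.continuous_ofReal.comp hPc
  have e3 : ‖∫ t in a..(a + lam), ((Pn h (x - t) : ℂ) - (Pn h (x - a) : ℂ)) * (G t - c)‖ ≤
      2 * (C₀ * (lam / h)) * I := by
    have h2 : 2 * (C₀ * (lam / h)) * I = ∫ t in a..(a + lam), 2 * (C₀ * (lam / h)) * Pn h (x - t) := by
      rw [intervalIntegral.integral_const_mul]
    rw [h2]
    refine intervalIntegral.norm_integral_le_of_norm_le hle ?_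
      ((continuous_const.mul hPc).intervalIntegrable _ _)
    refine Eventually.of_forall fun t ht => ?_
    have ht' : t ∈ Icc a (a + lam) := ⟨ht.1.le, ht.2⟩
    rw [norm_mul]
    have h4 : ‖(Pn h (x - t) : ℂ) - (Pn h (x - a) : ℂ)‖ ≤ C₀ * (lam / h) * Pn h (x - t) := by
      rw [← Complex.ofReal_sub, Complex.norm_real, Real.norm_eq_abs, abs_sub_comm]
      exact hv t ht'
    have h5 : ‖G t - c‖ ≤ 2 := (norm_sub_le _ _).trans (by linarith [hG1 t])
    have h6 : 0 ≤ C₀ * (lam / h) * Pn h (x - t) := mul_nonneg (by positivity) (hPn t)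
    calc ‖(Pn h (x - t) : ℂ) - (Pn h (x - a) : ℂ)‖ * ‖G t - c‖ ≤ (C₀ * (lam / h) * Pn h (x - t)) * 2 :=
          mul_le_mul h4 h5 (norm_nonneg _) h6
      _ = _ := by ring
  have e4 : ∫ t in a..(a + lam), (Pn h (x - t) : ℂ) * (G t - c) =
      (∫ t in a..(a + lam), (Pn h (x - a) : ℂ) * (G t - c)) +
      ∫ t in a..(a + lam), ((Pn h (x - t) : ℂ) - (Pn h (x - a) : ℂ)) * (G t - c) := by
    have i1 : IntervalIntegrable (fun t : ℝ => (Pn h (x - a) : ℂ) * (G t - c)) volume a (a + lam) :=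
      (continuous_const.mul hcG).intervalIntegrable _ _
    have i2 : IntervalIntegrable (fun t : ℝ => ((Pn h (x - t) : ℂ) - (Pn h (x - a) : ℂ)) * (G t - c))
        volume a (a + lam) := ((hcP.sub continuous_const).mul hcG).intervalIntegrable _ _
    rw [← intervalIntegral.integral_add i1 i2]
    refine intervalIntegral.integral_congr fun t _ => ?_
    ring
  rw [e4]
  refine (norm_add_le _ _).trans ((add_le_add e2 e3).trans ?_)
  have h7 : 0 ≤ C₀ * (lam / h) * I * η := by positivity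
  nlinarith

/-- The tail of the kernel.
PROOF. `Pn_le`: for `t` in the interval `[a, b]`, `D ≤ |x - t| ≤ 3 / 4`, `Pn h (x - t) ≤ C h / (x - t)²`. The interval may lie on one side of `x`;
`∫ C h / (x - t)² dt ≤ C h / D` on each side. Stated for a finite union of grid intervals on one side or both sides of
`x`: the set `T = {t ∈ [a, a + 1] | D ≤ |x - t|}`, `a ≤ x ≤ a + 1`, all `|x - t| ≤ 3 / 4` on `[a, a + 1]`:
`∫_T Pn h (x - t) dt ≤ 2 C h / D`. -/
theorem tail_int : ∃ C : ℝ, 0 < C ∧ ∀ x a h D : ℝ, 0 < h → h ≤ 1 → 0 < D → |x - a| ≤ 3 / 4 →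
    |x - (a + 1)| ≤ 3 / 4 →
    ∫ t in {t : ℝ | t ∈ Icc a (a + 1) ∧ D ≤ |x - t|}, Pn h (x - t) ≤ C * h / D := by
  obtain ⟨C₁, hC₁, hle⟩ := Pn_le
  refine ⟨2 * C₁, by positivity, ?_⟩
  intro x a h D hh hh1 hD hxa hxb
  set χ : ℝ → ℝ := (Ici D).indicator fun u => u ^ (-2 : ℝ) with hχ
  have hio : IntegrableOn (fun u : ℝ => u ^ (-2 : ℝ)) (Ici D) :=
    (integrableOn_Ici_iff_integrableOn_Ioi).2 (integrableOn_Ioi_rpow_of_lt (by norm_num) hD)
  have hχi : Integrable χ := (integrable_indicator_iff measurableSet_Ici).2 hio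
  have hχv : ∫ u, χ u = D⁻¹ := by
    rw [hχ, integral_indicator measurableSet_Ici, integral_Ici_eq_integral_Ioi,
      integral_Ioi_rpow_of_lt (by norm_num) hD]
    have : (-2 : ℝ) + 1 = -1 := by norm_num
    rw [this, Real.rpow_neg_one]
    ring
  have hχ0 : ∀ u, 0 ≤ χ u := by
    intro u
    rw [hχ]
    refine Set.indicator_nonneg (fun u hu => ?_) u
    exact Real.rpow_nonneg (hD.le.trans hu) _
  have hTm : MeasurableSet {t : ℝ | t ∈ Icc a (a + 1) ∧ D ≤ |x - t|} := by
    have h1 : IsClosed {t : ℝ | D ≤ |x - t|} :=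
      isClosed_le continuous_const (continuous_abs.comp (continuous_const.sub continuous_id))
    exact (isClosed_Icc.inter h1).measurableSet
  have hb : Integrable fun t : ℝ => C₁ * h * (χ (x - t) + χ (t - x)) := by
    refine Integrable.const_mul (Integrable.add ?_ ?_) _
    · exact hχi.comp_sub_left x
    · exact hχi.comp_sub_right x
  rw [← integral_indicator hTm]
  refine (integral_mono_of_nonneg (Eventually.of_forall fun t => ?_) hb
    (Eventually.of_forall fun t => ?_)).trans (le_of_eq ?_)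
  · exact Set.indicator_nonneg (fun t _ => Pn_nonneg hh _) t
  · show Set.indicator _ _ t ≤ C₁ * h * (χ (x - t) + χ (t - x))
    by_cases ht : t ∈ {t : ℝ | t ∈ Icc a (a + 1) ∧ D ≤ |x - t|}
    · rw [Set.indicator_of_mem ht]
      obtain ⟨⟨h1, h2⟩, h3⟩ := ht
      have h4 : |x - t| ≤ 3 / 4 := by
        rw [abs_le] at hxa hxb ⊢
        constructor <;> linarith [hxa.1, hxa.2, hxb.1, hxb.2]
      have h5 : x - t ≠ 0 := by
        intro h0
        rw [h0, abs_zero] at h3
        linarith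
      have h6 := hle h (x - t) hh hh1 h4 h5
      refine h6.trans ?_
      rw [mul_div_assoc, mul_assoc, div_eq_mul_inv]
      refine mul_le_mul_of_nonneg_left (mul_le_mul_of_nonneg_left ?_ hh.le) hC₁.le
      rcases le_or_gt 0 (x - t) with h7 | h7
      · rw [abs_of_nonneg h7] at h3
        have h8 : χ (x - t) = ((x - t) ^ 2)⁻¹ := by
          rw [hχ, Set.indicator_of_mem (show x - t ∈ Ici D from h3), Real.rpow_neg h7]
          norm_num
        rw [← h8]
        linarith [hχ0 (t - x)]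
      · rw [abs_of_neg h7] at h3
        have h8 : χ (t - x) = ((x - t) ^ 2)⁻¹ := by
          rw [hχ, Set.indicator_of_mem (show t - x ∈ Ici D by rw [mem_Ici]; linarith),
            Real.rpow_neg (by linarith)]
          have : (x - t) ^ 2 = (t - x) ^ 2 := by ring
          rw [this]
          norm_num
        rw [← h8]
        linarith [hχ0 (x - t)]
    · rw [Set.indicator_of_notMem ht]
      have := hχ0 (x - t)
      have := hχ0 (t - x)
      positivity
  · rw [integral_const_mul, integral_add (hχi.comp_sub_left x) (hχi.comp_sub_right x),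
      integral_sub_left_eq_self χ volume x, integral_sub_right_eq_self χ x, hχv]
    field_simp
    ring

/-- The function is close to the average, where the averages are almost constant.
PROOF. Let `lam = 2^-(k+M)` and `a = p lam`, `p = ⌊(x - 1/2) / lam⌋`, `x = z.re`, so `a ≤ x - 1/2 < a + lam` and, for `M ≥ 2`,
`|x - t| ≤ 3 / 4` on `[a, a + 1]`. Let `h = z.im - s ≥ 2^-k / 8` (`s ≤ 2^-k / 8`), `h ≤ 1`, `c = av g s k j`. By `poisson` and `Pn_int`,
`g (ex z) - c = ∫_a^(a+1) Pn h (x - t) (G t - c) dt`, `G t = g (ex (t + s i))`. Split `[a, a + 1]` in the intervals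
`I_i = [i lam, (i + 1) lam]`, `p ≤ i < p + 2^(k+M)`. If `|i - 2^M j| ≤ W`: by `¬ rd` and `av_int`,
`‖∫_(I_i) (G - c)‖ = lam ‖av g s (k+M) i - c‖ ≤ (ε/2) lam`, so `near_int` with `η = ε/2` bounds the integral over `I_i` by
`(ε/2 + C₁ (1 + ε/2) lam / h) ∫_(I_i) Pn`, `lam / h ≤ 8 2^-M`. Sum over these `i`: at most `ε/2 + 8 C₁ (1 + ε/2) 2^-M`. If
`|i - 2^M j| > W`, then for `t ∈ I_i`: `|t - j 2^-k| ≥ W lam`, `|x - t| ≥ W lam - 2 2^-k = (W 2^-M - 2) 2^-k =: D`, so these
intervals are contained in the set of `tail_int`: their sum is at most `2 C₂ h / D ≤ 2 C₂ / (W 2^-M - 2)`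
(`h ≤ 2^-k`). With `W = 4^M`, `M` large: `8 C₁ (1 + ε/2) 2^-M + 2 C₂ / (2^M - 2) ≤ ε / 2`. -/
theorem close {ε : ℝ} (hε : 0 < ε) : ∃ M W : ℕ, ∀ (g : ℂ → ℂ), BHd g → ∀ (k : ℕ) (s : ℝ), 0 < s →
    s ≤ 1 / (8 * 2 ^ k) → ∀ j : ℤ, ¬ rd (av g s) M W (ε / 2) k j → ∀ z : ℂ,
    |z.re - j / 2 ^ k| ≤ 2 / 2 ^ k → 1 / (4 * 2 ^ k) ≤ z.im → z.im ≤ 1 / 2 ^ k →
    ‖g (ex z) - av g s k j‖ ≤ ε := by
  obtain ⟨C₁, hC₁, hnear⟩ := near_int
  obtain ⟨C₂, hC₂, htail⟩ := tail_int
  obtain ⟨M₀, hM₀⟩ := pow_unbounded_of_one_lt ((8 * C₁ * (1 + ε / 2) + 4 * C₂) / (ε / 2)) (one_lt_two (α := ℝ))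
  set M : ℕ := M₀ + 3 with hM
  refine ⟨M, 4 ^ M, ?_⟩
  intro g hg k s hs hsk j hrd z hzre hzim1 hzim2
  -- notation
  have hM8 : (8 : ℝ) ≤ 2 ^ M := by
    rw [hM, pow_add]
    have : (1 : ℝ) ≤ 2 ^ M₀ := one_le_pow₀ (by norm_num)
    norm_num
    linarith
  have hMbig : 8 * C₁ * (1 + ε / 2) + 4 * C₂ ≤ ε / 2 * 2 ^ M := by
    have h1 : (2 : ℝ) ^ M₀ ≤ 2 ^ M := pow_le_pow_right₀ (by norm_num) (by omega)
    rw [div_lt_iff₀ (by positivity)] at hM₀
    nlinarith
  have hK : (1 : ℝ) ≤ 2 ^ k := one_le_pow₀ (by norm_num)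
  have hK0 : (0 : ℝ) < 2 ^ k := by positivity
  have hM0 : (0 : ℝ) < 2 ^ M := by positivity
  set n : ℕ := k + M with hn
  have hN : (2 : ℝ) ^ n = 2 ^ k * 2 ^ M := by rw [hn, pow_add]
  have hN0 : (0 : ℝ) < 2 ^ n := by positivity
  set lam : ℝ := 1 / 2 ^ n with hlam
  have hlam0 : 0 < lam := by positivity
  set x : ℝ := z.re with hx
  set h : ℝ := z.im - s with hh
  have hh8 : 1 / (8 * 2 ^ k) ≤ h := by
    have : (1 : ℝ) / (4 * 2 ^ k) = 1 / (8 * 2 ^ k) + 1 / (8 * 2 ^ k) := by field_simp; norm_num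
    rw [hh]; linarith
  have hh0 : 0 < h := lt_of_lt_of_le (by positivity) hh8
  have hhk : h ≤ 1 / 2 ^ k := by rw [hh]; linarith
  have hh1 : h ≤ 1 := hhk.trans (by rw [div_le_one hK0]; exact hK)
  have hlamM : lam = 1 / 2 ^ k * (1 / 2 ^ M) := by rw [hlam, hN]; field_simp
  have hM8' : (1 : ℝ) / 2 ^ M ≤ 1 / 8 := one_div_le_one_div_of_le (by norm_num) hM8
  have hlamh : lam ≤ h := by
    refine le_trans ?_ hh8
    have : (1 : ℝ) / (8 * 2 ^ k) = 1 / 2 ^ k * (1 / 8) := by field_simp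
    rw [hlamM, this]
    exact mul_le_mul_of_nonneg_left hM8' (by positivity)
  have hlam4 : lam ≤ 1 / 4 := by
    rw [hlamM]
    have h1 : (1 : ℝ) / 2 ^ k ≤ 1 := by rw [div_le_one hK0]; exact hK
    calc (1 : ℝ) / 2 ^ k * (1 / 2 ^ M) ≤ 1 * (1 / 8) := mul_le_mul h1 hM8' (by positivity) (by norm_num)
      _ ≤ 1 / 4 := by norm_num
  have hlamh' : lam / h ≤ 8 * (1 / 2 ^ M) := by
    rw [div_le_iff₀ hh0, hlamM]
    have h1 : (1 : ℝ) / 2 ^ k ≤ 8 * h := by
      have : (1 : ℝ) / 2 ^ k = 8 * (1 / (8 * 2 ^ k)) := by field_simp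
      rw [this]; linarith
    have h2 : (0 : ℝ) ≤ 1 / 2 ^ M := by positivity
    nlinarith
  set p : ℤ := ⌊(x - 1 / 2) * 2 ^ n⌋ with hp
  set A : ℕ → ℝ := fun q => ((p : ℝ) + q) / 2 ^ n with hA
  have hA0 : A 0 = p / 2 ^ n := by simp [hA]
  have hA1 : A (2 ^ n) = A 0 + 1 := by
    simp only [hA]
    push_cast
    field_simp
    ring
  have hAs : ∀ q, A (q + 1) = A q + lam := by
    intro q
    simp only [hA, hlam]
    push_cast
    field_simp
    ring
  have ha1 : A 0 ≤ x - 1 / 2 := by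
    rw [hA0, div_le_iff₀ hN0]
    exact Int.floor_le _
  have ha2 : x - 1 / 2 < A 0 + lam := by
    rw [hA0, hlam, ← add_div, lt_div_iff₀ hN0]
    exact Int.lt_floor_add_one _
  have hxa : |x - A 0| ≤ 3 / 4 := by
    rw [abs_le]; constructor <;> linarith
  have hxb : |x - (A 0 + 1)| ≤ 3 / 4 := by
    rw [abs_le]; constructor <;> linarith
  -- the function
  set G : ℝ → ℂ := fun t => g (ex (t + s * Complex.I)) with hG
  set c : ℂ := av g s k j with hc
  have him : ∀ t : ℝ, ((t : ℂ) + s * Complex.I).im = s := by intro t; simp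
  have hGc : Continuous G := by
    have h1 : ContinuousOn (fun z => g (ex z)) {z : ℂ | 0 < z.im} := (gex_hol hg).continuousOn
    refine h1.comp_continuous (by fun_prop) fun t => ?_
    show 0 < ((t : ℂ) + s * Complex.I).im
    rw [him]; exact hs
  have hG1 : ∀ t, ‖G t‖ ≤ 1 := fun t => hg.le _ (ex_mem (by rw [him]; exact hs))
  have hc1 : ‖c‖ ≤ 1 := (av_Mg hg hs).le k j
  have hPc : Continuous fun t : ℝ => Pn h (x - t) := (Pn_cont hh0).comp (continuous_const.sub continuous_id)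
  have hPn : ∀ t : ℝ, 0 ≤ Pn h (x - t) := fun t => Pn_nonneg hh0 _
  have hcP : Continuous fun t : ℝ => (Pn h (x - t) : ℂ) := Complex.continuous_ofReal.comp hPc
  have hcG : Continuous fun t : ℝ => G t - c := hGc.sub continuous_const
  have hF : Continuous fun t : ℝ => (Pn h (x - t) : ℂ) * (G t - c) := hcP.mul hcG
  -- the Poisson formula
  have hz : g (ex z) - c = ∫ t in (A 0)..(A 0 + 1), (Pn h (x - t) : ℂ) * (G t - c) := by
    have h1 : z = (x : ℂ) + ((s : ℂ) + (h : ℂ)) * Complex.I := by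
      apply Complex.ext
      · simp [hx]
      · simp [hh]
    have h2 := poisson hg hs hh0 x (A 0)
    have h3 := Pn_int hh0 x (A 0)
    have h4 : (∫ t in (A 0)..(A 0 + 1), (Pn h (x - t) : ℂ)) = 1 := by
      rw [intervalIntegral.integral_ofReal, h3]; simp
    have h5 : ∫ t in (A 0)..(A 0 + 1), (Pn h (x - t) : ℂ) * (G t - c) =
        (∫ t in (A 0)..(A 0 + 1), (Pn h (x - t) : ℂ) * G t) -
        (∫ t in (A 0)..(A 0 + 1), (Pn h (x - t) : ℂ)) * c := by
      have i1 : IntervalIntegrable (fun t : ℝ => (Pn h (x - t) : ℂ) * G t) volume (A 0) (A 0 + 1) :=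
        (hcP.mul hGc).intervalIntegrable _ _
      have i2 : IntervalIntegrable (fun t : ℝ => (Pn h (x - t) : ℂ) * c) volume (A 0) (A 0 + 1) :=
        (hcP.mul continuous_const).intervalIntegrable _ _
      rw [← intervalIntegral.integral_mul_const, ← intervalIntegral.integral_sub i1 i2]
      refine intervalIntegral.integral_congr fun t _ => ?_
      ring
    rw [h5, h4, one_mul, h1, h2]
  -- the set of the far points
  set D : ℝ := (2 ^ M - 2) / 2 ^ k with hD
  have hD0 : 0 < D := by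
    rw [hD]; exact div_pos (by linarith) hK0
  set T : Set ℝ := {t : ℝ | D ≤ |x - t|} with hT
  have hTc : IsClosed T :=
    isClosed_le continuous_const (continuous_abs.comp (continuous_const.sub continuous_id))
  have hTm : MeasurableSet T := hTc.measurableSet
  set Q : ℝ → ℝ := T.indicator fun t => Pn h (x - t) with hQ
  have hQi : ∀ u v : ℝ, IntervalIntegrable Q volume u v := by
    intro u v
    rw [intervalIntegrable_iff]
    have := (hPc.intervalIntegrable (μ := volume) u v)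
    rw [intervalIntegrable_iff] at this
    exact this.indicator hTm
  have hQ0 : ∀ t, 0 ≤ Q t := fun t => Set.indicator_nonneg (fun t _ => hPn t) t
  set B : ℝ := ε / 2 + C₁ * (1 + ε / 2) * (8 * (1 / 2 ^ M)) with hB
  have hB0 : 0 ≤ B := by positivity
  -- one interval
  have hone : ∀ q : ℕ, ‖∫ t in (A q)..(A (q + 1)), (Pn h (x - t) : ℂ) * (G t - c)‖ ≤
      B * (∫ t in (A q)..(A (q + 1)), Pn h (x - t)) + 2 * ∫ t in (A q)..(A (q + 1)), Q t := by
    intro q
    have hle : A q ≤ A (q + 1) := by rw [hAs]; linarith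
    have hI0 : 0 ≤ ∫ t in (A q)..(A (q + 1)), Pn h (x - t) :=
      intervalIntegral.integral_nonneg hle fun t _ => hPn t
    have hQI0 : 0 ≤ ∫ t in (A q)..(A (q + 1)), Q t :=
      intervalIntegral.integral_nonneg hle fun t _ => hQ0 t
    by_cases hi : |(p + q) - 2 ^ M * j| ≤ ((4 ^ M : ℕ) : ℤ)
    · have h1 : ‖av g s (k + M) (p + q) - c‖ ≤ ε / 2 := by
        by_contra hcon
        exact hrd ⟨p + q, hi, not_le.1 hcon⟩
      have h2 : ‖∫ t in (A q)..(A q + lam), (G t - c)‖ ≤ ε / 2 * lam := by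
        have h3 := av_int g (s := s) n (p + q)
        have h4 : ((((p + q : ℤ) : ℝ)) / 2 ^ n) = A q := by simp [hA]
        have h5 : ((((p + q : ℤ) : ℝ) + 1) / 2 ^ n) = A q + lam := by
          rw [← hAs]; simp only [hA]; push_cast; ring
        rw [h4, h5] at h3
        rw [intervalIntegral.integral_sub (hGc.intervalIntegrable _ _)
          (continuous_const.intervalIntegrable _ _), intervalIntegral.integral_const]
        have h6 : ∫ t in (A q)..(A q + lam), G t = ((2 : ℂ) ^ n)⁻¹ * av g s n (p + q) := h3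
        rw [h6]
        have h7 : (A q + lam - A q) • c = ((2 : ℂ) ^ n)⁻¹ * c := by
          have : A q + lam - A q = lam := by ring
          rw [this, hlam, Complex.real_smul]
          push_cast
          ring
        rw [h7, ← mul_sub, norm_mul]
        have h8 : ‖((2 : ℂ) ^ n)⁻¹‖ = lam := by
          rw [norm_inv, norm_pow, hlam]; simp
        rw [h8, mul_comm]
        exact mul_le_mul_of_nonneg_right h1 hlam0.le
      have h9 := hnear G c x (A q) lam h (ε / 2) hGc hG1 hc1 hlam0 hlamh hh1 (by positivity) h2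
      rw [← hAs] at h9
      refine h9.trans ?_
      have h10 : ε / 2 + C₁ * (1 + ε / 2) * (lam / h) ≤ B := by
        rw [hB]
        have : C₁ * (1 + ε / 2) * (lam / h) ≤ C₁ * (1 + ε / 2) * (8 * (1 / 2 ^ M)) :=
          mul_le_mul_of_nonneg_left hlamh' (by positivity)
        linarith
      have h11 := mul_le_mul_of_nonneg_right h10 hI0
      linarith
    · have hfar : ∀ t ∈ Icc (A q) (A (q + 1)), t ∈ T := by
        intro t ht
        show D ≤ |x - t|
        have hjk : (j : ℝ) / 2 ^ k = (2 ^ M * j : ℝ) / 2 ^ n := by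
          rw [hN]; field_simp
        have hWn : (2 : ℝ) ^ M / 2 ^ k = (4 : ℝ) ^ M / 2 ^ n := by
          rw [hN]
          have : (4 : ℝ) ^ M = 2 ^ M * 2 ^ M := by rw [← mul_pow]; norm_num
          rw [this]
          field_simp
        have hmain : (2 : ℝ) ^ M / 2 ^ k ≤ |t - (j : ℝ) / 2 ^ k| := by
          have hqi : ((4 ^ M : ℕ) : ℤ) < |(p + q) - 2 ^ M * j| := not_le.1 hi
          rcases le_or_gt 0 ((p + q) - 2 ^ M * j) with h1 | h1
          · rw [abs_of_nonneg h1] at hqi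
            have h2 : ((4 : ℝ) ^ M) ≤ (p + q : ℝ) - 2 ^ M * j := by
              have := (Int.cast_lt (R := ℝ)).2 hqi
              push_cast at this
              exact this.le
            have h3 : (4 : ℝ) ^ M / 2 ^ n ≤ t - (j : ℝ) / 2 ^ k := by
              rw [hjk]
              have h4 : A q ≤ t := ht.1
              have h5 : (4 : ℝ) ^ M / 2 ^ n ≤ ((p + q : ℝ) - 2 ^ M * j) / 2 ^ n :=
                div_le_div_of_nonneg_right h2 hN0.le
              rw [sub_div] at h5
              simp only [hA] at h4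
              linarith
            rw [hWn]
            exact h3.trans (le_abs_self _)
          · rw [abs_of_neg h1] at hqi
            have h2 : ((4 : ℝ) ^ M) ≤ 2 ^ M * j - (p + q + 1 : ℝ) := by
              have h3 : ((4 ^ M : ℕ) : ℤ) ≤ 2 ^ M * j - (p + q + 1) := by omega
              have := (Int.cast_le (R := ℝ)).2 h3
              push_cast at this
              exact this
            have h3 : (4 : ℝ) ^ M / 2 ^ n ≤ -(t - (j : ℝ) / 2 ^ k) := by
              rw [hjk]
              have h4 : t ≤ A (q + 1) := ht.2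
              have h5 : (4 : ℝ) ^ M / 2 ^ n ≤ (2 ^ M * j - (p + q + 1 : ℝ)) / 2 ^ n :=
                div_le_div_of_nonneg_right h2 hN0.le
              rw [sub_div] at h5
              simp only [hA] at h4
              push_cast at h4
              have h6 : ((p : ℝ) + (q + 1)) / 2 ^ n = (p + q + 1 : ℝ) / 2 ^ n := by ring_nf
              rw [h6] at h4
              linarith
            rw [hWn]
            exact h3.trans (neg_le_abs _)
        have h7 : |t - (j : ℝ) / 2 ^ k| ≤ |x - t| + |x - (j : ℝ) / 2 ^ k| := by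
          have : t - (j : ℝ) / 2 ^ k = (x - (j : ℝ) / 2 ^ k) - (x - t) := by ring
          rw [this]
          exact (abs_sub _ _).trans (by rw [add_comm])
        have h8 : D = 2 ^ M / 2 ^ k - 2 / 2 ^ k := by rw [hD, sub_div]
        rw [h8]
        linarith
      have h2 : ∫ t in (A q)..(A (q + 1)), Q t = ∫ t in (A q)..(A (q + 1)), Pn h (x - t) := by
        refine intervalIntegral.integral_congr fun t ht => ?_
        rw [uIcc_of_le hle] at ht
        rw [hQ, Set.indicator_of_mem (hfar t ht)]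
      have h3 : ‖∫ t in (A q)..(A (q + 1)), (Pn h (x - t) : ℂ) * (G t - c)‖ ≤
          2 * ∫ t in (A q)..(A (q + 1)), Pn h (x - t) := by
        rw [← intervalIntegral.integral_const_mul]
        refine intervalIntegral.norm_integral_le_of_norm_le hle ?_
          ((continuous_const.mul hPc).intervalIntegrable _ _)
        refine Eventually.of_forall fun t _ => ?_
        rw [norm_mul, Complex.norm_real, Real.norm_eq_abs, abs_of_nonneg (hPn t), mul_comm]
        refine mul_le_mul_of_nonneg_right ?_ (hPn t)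
        exact (norm_sub_le _ _).trans (by linarith [hG1 t])
      rw [h2]
      have h4 : 0 ≤ B * ∫ t in (A q)..(A (q + 1)), Pn h (x - t) := mul_nonneg hB0 hI0
      linarith
  -- the sum
  have hsum1 : ∑ q ∈ Finset.range (2 ^ n), ∫ t in (A q)..(A (q + 1)), (Pn h (x - t) : ℂ) * (G t - c) =
      ∫ t in (A 0)..(A 0 + 1), (Pn h (x - t) : ℂ) * (G t - c) := by
    rw [← hA1]
    exact intervalIntegral.sum_integral_adjacent_intervals fun q _ => hF.intervalIntegrable _ _
  have hsum2 : ∑ q ∈ Finset.range (2 ^ n), ∫ t in (A q)..(A (q + 1)), Pn h (x - t) = 1 := by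
    rw [← Pn_int hh0 x (A 0), ← hA1]
    exact intervalIntegral.sum_integral_adjacent_intervals fun q _ => hPc.intervalIntegrable _ _
  have hsum3 : ∑ q ∈ Finset.range (2 ^ n), ∫ t in (A q)..(A (q + 1)), Q t =
      ∫ t in {t : ℝ | t ∈ Icc (A 0) (A 0 + 1) ∧ D ≤ |x - t|}, Pn h (x - t) := by
    rw [intervalIntegral.sum_integral_adjacent_intervals fun q _ => hQi _ _, hA1,
      intervalIntegral.integral_of_le (by linarith), ← integral_Icc_eq_integral_Ioc, hQ,
      setIntegral_indicator hTm]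
    rfl
  have htl := htail x (A 0) h D hh0 hh1 hD0 hxa hxb
  have htl2 : C₂ * h / D ≤ 2 * C₂ * (1 / 2 ^ M) := by
    have h1 : (2 : ℝ) ^ M / 2 * (1 / 2 ^ k) ≤ D := by
      rw [hD, div_eq_mul_one_div ((2 : ℝ) ^ M - 2)]
      refine mul_le_mul_of_nonneg_right ?_ (by positivity)
      linarith
    have h2 : (1 : ℝ) / 2 ^ k ≤ 2 * (1 / 2 ^ M) * D := by
      have h3 : (2 : ℝ) * (1 / 2 ^ M) * (2 ^ M / 2 * (1 / 2 ^ k)) = 1 / 2 ^ k := by field_simp
      rw [← h3]
      exact mul_le_mul_of_nonneg_left h1 (by positivity)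
    rw [div_le_iff₀ hD0]
    calc C₂ * h ≤ C₂ * (1 / 2 ^ k) := mul_le_mul_of_nonneg_left hhk hC₂.le
      _ ≤ C₂ * (2 * (1 / 2 ^ M) * D) := mul_le_mul_of_nonneg_left h2 hC₂.le
      _ = _ := by ring
  have hfin : ‖g (ex z) - c‖ ≤ B * 1 + 2 * (2 * C₂ * (1 / 2 ^ M)) := by
    rw [hz, ← hsum1]
    refine (norm_sum_le _ _).trans ((Finset.sum_le_sum fun q _ => hone q).trans ?_)
    rw [Finset.sum_add_distrib, ← Finset.mul_sum, ← Finset.mul_sum, hsum2, hsum3]
    have := htl.trans htl2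
    linarith
  refine hfin.trans ?_
  have h1 : (8 * C₁ * (1 + ε / 2) + 4 * C₂) * (1 / 2 ^ M) ≤ ε / 2 := by
    have h2 := mul_le_mul_of_nonneg_right hMbig (show (0 : ℝ) ≤ 1 / 2 ^ M by positivity)
    have h3 : ε / 2 * 2 ^ M * (1 / 2 ^ M) = ε / 2 := by field_simp
    rw [h3] at h2
    exact h2
  rw [hB]
  nlinarith

end Pool.Agent.MPca0fc2.FD
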