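import Mathlib

/-! A smooth partition of unity on the upper half plane, subordinate to dyadic squares. -/

set_option autoImplicit false

open Metric Set MeasureTheory Filter Topology

namespace Pool.Agent.MPca0fc2.FD

/-- a smooth step from `0` (at `1 / 2`) to `1` (at `1`) -/
noncomputable def St (y : ℝ) : ℝ := Real.smoothTransition (2 * y - 1)

/-- PROOF. `Real.smoothTransition`. -/
theorem St_prop : ContDiff ℝ 2 St ∧ (∀ y, 0 ≤ St y ∧ St y ≤ 1) ∧ (∀ y, y ≤ 1 / 2 → St y = 0) ∧
    (∀ y, 1 ≤ y → St y = 1) ∧ Monotone St := by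
  have hlin : ContDiff ℝ 2 (fun y : ℝ => 2 * y - 1) :=
    (contDiff_const.mul contDiff_id).sub contDiff_const
  refine ⟨?_, ?_, ?_, ?_, ?_⟩
  · exact (Real.smoothTransition.contDiff (n := 2)).comp hlin
  · intro y
    exact ⟨Real.smoothTransition.nonneg _, Real.smoothTransition.le_one _⟩
  · intro y hy
    exact Real.smoothTransition.zero_of_nonpos (by linarith)
  · intro y hy
    exact Real.smoothTransition.one_of_one_le (by linarith)
  · intro a b hab
    exact Real.smoothTransition.monotone (by linarith)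

theorem X5_st_deriv : ∃ C : ℝ, 0 < C ∧ ∀ y : ℝ, |deriv Real.smoothTransition y| ≤ C ∧
    (y ≤ 0 → deriv Real.smoothTransition y = 0) ∧
    (1 ≤ y → deriv Real.smoothTransition y = 0) := by
  have hcont : Continuous (deriv Real.smoothTransition) :=
    (Real.smoothTransition.contDiff (n := 1)).continuous_deriv le_rfl
  have h0 : ∀ y : ℝ, y ≤ 0 → deriv Real.smoothTransition y = 0 := by
    intro y hy
    have hmin : IsLocalMin Real.smoothTransition y := by
      apply Filter.Eventually.of_forall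
      intro t
      rw [Real.smoothTransition.zero_of_nonpos hy]
      exact Real.smoothTransition.nonneg t
    exact hmin.deriv_eq_zero
  have h1 : ∀ y : ℝ, 1 ≤ y → deriv Real.smoothTransition y = 0 := by
    intro y hy
    have hmax : IsLocalMax Real.smoothTransition y := by
      apply Filter.Eventually.of_forall
      intro t
      rw [Real.smoothTransition.one_of_one_le hy]
      exact Real.smoothTransition.le_one t
    exact hmax.deriv_eq_zero
  obtain ⟨C, hC⟩ := (isCompact_Icc (a := (0 : ℝ)) (b := 1)).exists_bound_of_continuousOn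
    hcont.continuousOn
  refine ⟨|C| + 1, by positivity, ?_⟩
  intro y
  refine ⟨?_, h0 y, h1 y⟩
  rcases le_or_gt y 0 with hy | hy
  · rw [h0 y hy, abs_zero]
    positivity
  · rcases le_or_gt 1 y with hy1 | hy1
    · rw [h1 y hy1, abs_zero]
      positivity
    · have h2 := hC y ⟨hy.le, hy1.le⟩
      rw [Real.norm_eq_abs] at h2
      have h3 := le_abs_self C
      linarith

theorem X5_hasDeriv_s (y : ℝ) :
    HasDerivAt Real.smoothTransition (deriv Real.smoothTransition y) y :=
  (((Real.smoothTransition.contDiff (n := 1)).differentiable one_ne_zero) y).hasDerivAt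

theorem X5_hasDeriv_St (y : ℝ) :
    HasDerivAt St (2 * deriv Real.smoothTransition (2 * y - 1)) y := by
  have h1 : HasDerivAt (fun t : ℝ => 2 * t - 1) 2 y := by
    have h2 := ((hasDerivAt_id y).const_mul 2).sub_const 1
    rw [mul_one] at h2
    exact h2
  have h3 := (X5_hasDeriv_s (2 * y - 1)).comp y h1
  rw [mul_comm] at h3
  exact h3

/-- PROOF. The derivative of `St` is continuous and vanishes outside `[1 / 2, 1]`, where it is bounded. (At `1 / 2` and
`1` it vanishes by continuity.) -/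
theorem St_deriv : ∃ C : ℝ, 0 < C ∧ ∀ y : ℝ, |deriv St y| ≤ C ∧ (y ≤ 1 / 2 → deriv St y = 0) ∧
    (1 ≤ y → deriv St y = 0) := by
  obtain ⟨C, hC, h⟩ := X5_st_deriv
  refine ⟨2 * C, by positivity, ?_⟩
  intro y
  rw [(X5_hasDeriv_St y).deriv]
  obtain ⟨h1, h2, h3⟩ := h (2 * y - 1)
  refine ⟨?_, ?_, ?_⟩
  · rw [abs_mul, abs_two]
    linarith
  · intro hy
    rw [h2 (by linarith), mul_zero]
  · intro hy
    rw [h3 (by linarith), mul_zero]

/-- the vertical function of the level `k` -/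
noncomputable def al (k : ℕ) (y : ℝ) : ℝ := St (2 ^ (k + 1) * y) - St (2 ^ k * y)

/-- the horizontal function -/
noncomputable def be (t : ℝ) : ℝ :=
  Real.smoothTransition (t + 1 / 2) - Real.smoothTransition (t - 1 / 2)

/-- the bump function of the square `(k, j)` -/
noncomputable def psi (k : ℕ) (j : ℤ) (z : ℂ) : ℝ := al k z.im * be (2 ^ k * z.re - j)

/-- the enlarged square -/
def Tst (k : ℕ) (j : ℤ) : Set ℂ :=
  {z | 1 / (4 * 2 ^ k) ≤ z.im ∧ z.im ≤ 1 / 2 ^ k ∧ -(1 / 2) ≤ 2 ^ k * z.re - j ∧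
    2 ^ k * z.re - j ≤ 3 / 2}

/-- PROOF. Compositions and products of smooth functions (`St_prop`, `Real.smoothTransition.contDiff`, real linear
maps `re`, `im`). -/
theorem psi_c2 (k : ℕ) (j : ℤ) : ContDiff ℝ 2 (psi k j) := by
  have him : ContDiff ℝ 2 (fun z : ℂ => z.im) := Complex.imCLM.contDiff
  have hre : ContDiff ℝ 2 (fun z : ℂ => z.re) := Complex.reCLM.contDiff
  have h1 : ContDiff ℝ 2 (fun z : ℂ => al k z.im) := by
    show ContDiff ℝ 2 (fun z : ℂ => St (2 ^ (k + 1) * z.im) - St (2 ^ k * z.im))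
    exact (St_prop.1.comp (contDiff_const.mul him)).sub (St_prop.1.comp (contDiff_const.mul him))
  have h2 : ContDiff ℝ 2 (fun z : ℂ => be (2 ^ k * z.re - j)) := by
    show ContDiff ℝ 2 (fun z : ℂ => Real.smoothTransition ((2 ^ k * z.re - j) + 1 / 2) -
      Real.smoothTransition ((2 ^ k * z.re - j) - 1 / 2))
    have h3 : ContDiff ℝ 2 (fun z : ℂ => 2 ^ k * z.re - (j : ℝ)) :=
      (contDiff_const.mul hre).sub contDiff_const
    exact ((Real.smoothTransition.contDiff (n := 2)).comp (h3.add contDiff_const)).sub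
      ((Real.smoothTransition.contDiff (n := 2)).comp (h3.sub contDiff_const))
  exact h1.mul h2

theorem X5_al_abs (k : ℕ) (y : ℝ) : |al k y| ≤ 1 := by
  unfold al
  have h1 := St_prop.2.1 (2 ^ (k + 1) * y)
  have h2 := St_prop.2.1 (2 ^ k * y)
  rw [abs_le]
  constructor <;> linarith [h1.1, h1.2, h2.1, h2.2]

theorem X5_be_mem (t : ℝ) : 0 ≤ be t ∧ be t ≤ 1 := by
  unfold be
  have h1 := Real.smoothTransition.nonneg (t - 1 / 2)
  have h2 := Real.smoothTransition.le_one (t + 1 / 2)
  have h3 : Real.smoothTransition (t - 1 / 2) ≤ Real.smoothTransition (t + 1 / 2) :=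
    Real.smoothTransition.monotone (by linarith)
  constructor <;> linarith

/-- PROOF. `St` is monotone, `smoothTransition` is monotone; values in `[0, 1]`. -/
theorem psi_mem (k : ℕ) (j : ℤ) {z : ℂ} (hz : 0 ≤ z.im) : 0 ≤ psi k j z ∧ psi k j z ≤ 1 := by
  have h1 : 0 ≤ al k z.im := by
    unfold al
    have h2 : St (2 ^ k * z.im) ≤ St (2 ^ (k + 1) * z.im) := by
      apply St_prop.2.2.2.2
      apply mul_le_mul_of_nonneg_right _ hz
      exact pow_le_pow_right₀ (by norm_num) (Nat.le_succ k)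
    linarith
  have h2 : al k z.im ≤ 1 := (abs_le.mp (X5_al_abs k z.im)).2
  obtain ⟨h3, h4⟩ := X5_be_mem (2 ^ k * z.re - j)
  exact ⟨mul_nonneg h1 h3, mul_le_one₀ h2 h3 h4⟩

theorem X5_zero (k : ℕ) (j : ℤ) {z : ℂ} (hz : z ∉ Tst k j) : psi k j z = 0 := by
  have hp : (0 : ℝ) < 2 ^ k := by positivity
  unfold psi
  by_cases h1 : 1 / (4 * 2 ^ k) ≤ z.im
  · by_cases h2 : z.im ≤ 1 / 2 ^ k
    · by_cases h3 : -(1 / 2) ≤ 2 ^ k * z.re - (j : ℝ)
      · by_cases h4 : 2 ^ k * z.re - (j : ℝ) ≤ 3 / 2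
        · exact absurd ⟨h1, h2, h3, h4⟩ hz
        · push Not at h4
          have h5 : be (2 ^ k * z.re - j) = 0 := by
            unfold be
            rw [Real.smoothTransition.one_of_one_le (by linarith),
              Real.smoothTransition.one_of_one_le (by linarith), sub_self]
          rw [h5, mul_zero]
      · push Not at h3
        have h5 : be (2 ^ k * z.re - j) = 0 := by
          unfold be
          rw [Real.smoothTransition.zero_of_nonpos (by linarith),
            Real.smoothTransition.zero_of_nonpos (by linarith), sub_self]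
        rw [h5, mul_zero]
    · push Not at h2
      rw [div_lt_iff₀ hp] at h2
      have h5 : al k z.im = 0 := by
        unfold al
        rw [St_prop.2.2.2.1 _ (by rw [pow_succ]; nlinarith), St_prop.2.2.2.1 _ (by linarith),
          sub_self]
      rw [h5, zero_mul]
  · push Not at h1
    rw [lt_div_iff₀ (by positivity)] at h1
    have h5 : al k z.im = 0 := by
      unfold al
      rw [St_prop.2.2.1 _ (by rw [pow_succ]; nlinarith), St_prop.2.2.1 _ (by nlinarith), sub_self]
    rw [h5, zero_mul]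

theorem X5_closed (k : ℕ) (j : ℤ) : IsClosed (Tst k j) := by
  have him : Continuous (fun z : ℂ => z.im) := Complex.continuous_im
  have hre : Continuous (fun z : ℂ => 2 ^ k * z.re - (j : ℝ)) :=
    (continuous_const.mul Complex.continuous_re).sub continuous_const
  exact (isClosed_le continuous_const him).inter ((isClosed_le him continuous_const).inter
    ((isClosed_le continuous_const hre).inter (isClosed_le hre continuous_const)))

/-- PROOF. Outside of `Tst k j` one of the two factors vanishes in a neighbourhood (the complement of `Tst` is open,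
and on it: `y < 2^-k / 4` (both terms of `al` are `0`), or `y > 2^-k` (both are `1`), or `2^k x - j < -1/2`, or `> 3/2`:
the two terms of `be` are both `0` or both `1`). -/
theorem psi_supp (k : ℕ) (j : ℤ) {z : ℂ} (hz : z ∉ Tst k j) : psi k j z = 0 ∧ fderiv ℝ (psi k j) z = 0 := by
  refine ⟨X5_zero k j hz, ?_⟩
  have h1 : psi k j =ᶠ[𝓝 z] (fun _ => (0 : ℝ)) := by
    have h2 : (Tst k j)ᶜ ∈ 𝓝 z := (X5_closed k j).isOpen_compl.mem_nhds hz
    filter_upwards [h2] with w hw
    exact X5_zero k j hw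
  rw [h1.fderiv_eq, fderiv_fun_const]
  rfl

/-- PROOF. `St_deriv`, the same for `smoothTransition`; chain rule: the derivative of `al k` is at most
`C 2^(k+1) + C 2^k`, and the derivative of the second factor is at most `C 2^k`. -/
theorem psi_fderiv : ∃ C : ℝ, 0 < C ∧ ∀ (k : ℕ) (j : ℤ) (z : ℂ), ‖fderiv ℝ (psi k j) z‖ ≤ C * 2 ^ k := by
  obtain ⟨C, hC, hSt⟩ := St_deriv
  obtain ⟨D, hD, hs⟩ := X5_st_deriv
  refine ⟨3 * C + 2 * D, by positivity, ?_⟩
  intro k j z
  have hp : (0 : ℝ) < 2 ^ k := by positivity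
  have dSt : ∀ y : ℝ, HasDerivAt St (deriv St y) y := by
    intro y
    have h := X5_hasDeriv_St y
    rw [h.deriv]
    exact h
  -- the vertical factor
  have h1 : HasDerivAt (al k) (deriv St (2 ^ (k + 1) * z.im) * 2 ^ (k + 1) -
      deriv St (2 ^ k * z.im) * 2 ^ k) z.im := by
    have e1 : ∀ c : ℝ, HasDerivAt (fun y : ℝ => c * y) c z.im := by
      intro c
      have h2 := (hasDerivAt_id z.im).const_mul c
      rw [mul_one] at h2
      exact h2
    exact ((dSt (2 ^ (k + 1) * z.im)).comp z.im (e1 (2 ^ (k + 1)))).sub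
      ((dSt (2 ^ k * z.im)).comp z.im (e1 (2 ^ k)))
  have h1' : HasFDerivAt (fun w : ℂ => al k w.im) ((deriv St (2 ^ (k + 1) * z.im) * 2 ^ (k + 1) -
      deriv St (2 ^ k * z.im) * 2 ^ k) • Complex.imCLM) z :=
    h1.comp_hasFDerivAt z (Complex.imCLM.hasFDerivAt)
  have b1 : |deriv St (2 ^ (k + 1) * z.im) * 2 ^ (k + 1) - deriv St (2 ^ k * z.im) * 2 ^ k| ≤
      3 * C * 2 ^ k := by
    refine (abs_sub _ _).trans ?_
    rw [abs_mul, abs_mul, abs_of_pos hp, abs_of_pos (by positivity : (0 : ℝ) < 2 ^ (k + 1))]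
    have h2 := (hSt (2 ^ (k + 1) * z.im)).1
    have h3 := (hSt (2 ^ k * z.im)).1
    have h4 : |deriv St (2 ^ (k + 1) * z.im)| * 2 ^ (k + 1) ≤ C * 2 ^ (k + 1) :=
      mul_le_mul_of_nonneg_right h2 (by positivity)
    have h5 : |deriv St (2 ^ k * z.im)| * 2 ^ k ≤ C * 2 ^ k :=
      mul_le_mul_of_nonneg_right h3 hp.le
    have h6 : C * 2 ^ (k + 1) + C * 2 ^ k = 3 * C * 2 ^ k := by
      rw [pow_succ]
      ring
    linarith
  -- the horizontal factor
  have h2 : HasDerivAt be (deriv Real.smoothTransition (2 ^ k * z.re - j + 1 / 2) -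
      deriv Real.smoothTransition (2 ^ k * z.re - j - 1 / 2)) (2 ^ k * z.re - j) := by
    have e1 : HasDerivAt (fun y : ℝ => y + 1 / 2) 1 (2 ^ k * z.re - (j : ℝ)) :=
      (hasDerivAt_id _).add_const (1 / 2)
    have e2 : HasDerivAt (fun y : ℝ => Real.smoothTransition (y + 1 / 2))
        (deriv Real.smoothTransition (2 ^ k * z.re - j + 1 / 2) * 1) (2 ^ k * z.re - (j : ℝ)) :=
      HasDerivAt.comp (h := fun y : ℝ => y + 1 / 2) _ (X5_hasDeriv_s (2 ^ k * z.re - j + 1 / 2)) e1
    have e3 : HasDerivAt (fun y : ℝ => y - 1 / 2) 1 (2 ^ k * z.re - (j : ℝ)) :=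
      (hasDerivAt_id _).sub_const (1 / 2)
    have e4 : HasDerivAt (fun y : ℝ => Real.smoothTransition (y - 1 / 2))
        (deriv Real.smoothTransition (2 ^ k * z.re - j - 1 / 2) * 1) (2 ^ k * z.re - (j : ℝ)) :=
      HasDerivAt.comp (h := fun y : ℝ => y - 1 / 2) _ (X5_hasDeriv_s (2 ^ k * z.re - j - 1 / 2)) e3
    rw [mul_one] at e2 e4
    exact e2.sub e4
  have h2b : HasFDerivAt (fun w : ℂ => 2 ^ k * w.re - (j : ℝ)) ((2 ^ k : ℝ) • Complex.reCLM) z := by
    have e1 : HasFDerivAt (fun w : ℂ => w.re) Complex.reCLM z := Complex.reCLM.hasFDerivAt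
    exact (e1.const_mul (2 ^ k)).sub_const _
  have h2' : HasFDerivAt (fun w : ℂ => be (2 ^ k * w.re - j))
      ((deriv Real.smoothTransition (2 ^ k * z.re - j + 1 / 2) -
      deriv Real.smoothTransition (2 ^ k * z.re - j - 1 / 2)) • ((2 ^ k : ℝ) • Complex.reCLM)) z :=
    HasDerivAt.comp_hasFDerivAt (f := fun w : ℂ => 2 ^ k * w.re - (j : ℝ)) z h2 h2b
  have b2 : |deriv Real.smoothTransition (2 ^ k * z.re - j + 1 / 2) -
      deriv Real.smoothTransition (2 ^ k * z.re - j - 1 / 2)| ≤ 2 * D := by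
    refine (abs_sub _ _).trans ?_
    have h3 := (hs (2 ^ k * z.re - j + 1 / 2)).1
    have h4 := (hs (2 ^ k * z.re - j - 1 / 2)).1
    linarith
  have h3 : HasFDerivAt (psi k j) _ z := h1'.mul h2'
  rw [h3.fderiv]
  refine (norm_add_le _ _).trans ?_
  rw [norm_smul, norm_smul, norm_smul, norm_smul, norm_smul, Complex.imCLM_norm,
    Complex.reCLM_norm, Real.norm_eq_abs, Real.norm_eq_abs, Real.norm_eq_abs, Real.norm_eq_abs,
    Real.norm_eq_abs, mul_one, mul_one, abs_of_pos hp]
  have c1 := X5_al_abs k z.im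
  have c2 : |be (2 ^ k * z.re - j)| ≤ 1 := by
    obtain ⟨c3, c4⟩ := X5_be_mem (2 ^ k * z.re - j)
    rw [abs_of_nonneg c3]
    exact c4
  have d1 : |al k z.im| * (|deriv Real.smoothTransition (2 ^ k * z.re - j + 1 / 2) -
      deriv Real.smoothTransition (2 ^ k * z.re - j - 1 / 2)| * 2 ^ k) ≤ 1 * (2 * D * 2 ^ k) := by
    apply mul_le_mul c1 _ (by positivity) (by norm_num)
    exact mul_le_mul_of_nonneg_right b2 hp.le
  have d2 : |be (2 ^ k * z.re - j)| * |deriv St (2 ^ (k + 1) * z.im) * 2 ^ (k + 1) -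
      deriv St (2 ^ k * z.im) * 2 ^ k| ≤ 1 * (3 * C * 2 ^ k) :=
    mul_le_mul c2 b1 (abs_nonneg _) (by norm_num)
  calc _ ≤ 1 * (2 * D * 2 ^ k) + 1 * (3 * C * 2 ^ k) := add_le_add d1 d2
    _ = (3 * C + 2 * D) * 2 ^ k := by ring

theorem X5_tele (f : ℤ → ℝ) (a : ℤ) : ∀ b : ℤ, a ≤ b →
    ∑ j ∈ Finset.Ico a b, (f j - f (j + 1)) = f a - f b := by
  intro b hb
  induction b, hb using Int.le_induction with
  | base => rw [Finset.Ico_self, Finset.sum_empty, sub_self]
  | succ b hb ih =>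
    have h1 : Finset.Ico a (b + 1) = insert b (Finset.Ico a b) := by
      ext t
      simp only [Finset.mem_Ico, Finset.mem_insert]
      omega
    rw [h1, Finset.sum_insert (by simp), ih]
    ring

theorem X5_be_sum (t : ℝ) (J : ℤ) (hJ : 0 ≤ J) (ht : |t| ≤ J - 1 / 2) :
    ∑ j ∈ Finset.Icc (-J) J, be (t - j) = 1 := by
  have h1 : Finset.Icc (-J) J = Finset.Ico (-J) (J + 1) := by
    ext x
    simp only [Finset.mem_Ico, Finset.mem_Icc]
    omega
  rw [abs_le] at ht
  have h2 := X5_tele (fun j => Real.smoothTransition (t - j + 1 / 2)) (-J) (J + 1) (by omega)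
  rw [h1]
  have h3 : ∑ j ∈ Finset.Ico (-J) (J + 1), be (t - j) = ∑ j ∈ Finset.Ico (-J) (J + 1),
      ((fun j : ℤ => Real.smoothTransition (t - j + 1 / 2)) j -
        (fun j : ℤ => Real.smoothTransition (t - j + 1 / 2)) (j + 1)) := by
    apply Finset.sum_congr rfl
    intro j _
    show Real.smoothTransition (t - j + 1 / 2) - Real.smoothTransition (t - j - 1 / 2) =
      Real.smoothTransition (t - j + 1 / 2) - Real.smoothTransition (t - ((j + 1 : ℤ) : ℝ) + 1 / 2)
    have h4 : t - ((j + 1 : ℤ) : ℝ) + 1 / 2 = t - j - 1 / 2 := by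
      push_cast
      ring
    rw [h4]
  rw [h3, h2]
  show Real.smoothTransition (t - ((-J : ℤ) : ℝ) + 1 / 2) -
    Real.smoothTransition (t - ((J + 1 : ℤ) : ℝ) + 1 / 2) = 1
  rw [Real.smoothTransition.one_of_one_le (by push_cast; linarith),
    Real.smoothTransition.zero_of_nonpos (by push_cast; linarith), sub_zero]

/-- The partition of unity.
PROOF. `∑_j be (t - j)` over `-J ≤ j ≤ J` telescopes: `be (t - j) = s (t - j + 1/2) - s (t - j - 1/2)` with
`s = smoothTransition`, so the sum is `s (t + J + 1/2) - s (t - J - 1/2)`, equal to `1` if `|t| ≤ J - 1/2`... here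
`t = 2^k x`, `|t| ≤ 2^(k+1) ≤ 2^(K+1) ≤ J - 1/2`, `J = 2^(K+2)`. And `∑_(k ≤ K) al k y` telescopes to
`St (2^(K+1) y) - St y = 1 - St y` for `2^(K+1) y ≥ 1`. -/
theorem psi_sum (K : ℕ) {z : ℂ} (hx : |z.re| ≤ 2) (hy : 1 / 2 ^ (K + 1) ≤ z.im) :
    St z.im + ∑ k ∈ Finset.range (K + 1), ∑ j ∈ Finset.Icc (-(2 ^ (K + 2) : ℤ)) (2 ^ (K + 2)),
      psi k j z = 1 := by
  have h1 : ∀ k ∈ Finset.range (K + 1), ∑ j ∈ Finset.Icc (-(2 ^ (K + 2) : ℤ)) (2 ^ (K + 2)),
      psi k j z = St (2 ^ (k + 1) * z.im) - St (2 ^ k * z.im) := by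
    intro k hk
    rw [Finset.mem_range] at hk
    have h2 : ∀ j ∈ Finset.Icc (-(2 ^ (K + 2) : ℤ)) (2 ^ (K + 2)),
        psi k j z = al k z.im * be (2 ^ k * z.re - j) := fun j _ => rfl
    rw [Finset.sum_congr rfl h2, ← Finset.mul_sum, X5_be_sum, mul_one]
    · rfl
    · positivity
    · rw [abs_mul, abs_of_pos (by positivity : (0 : ℝ) < 2 ^ k)]
      have h3 : (2 : ℝ) ^ k ≤ 2 ^ K := pow_le_pow_right₀ (by norm_num) (by omega)
      have h4 : (1 : ℝ) ≤ 2 ^ K := one_le_pow₀ (by norm_num)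
      have h5 : (2 : ℝ) ^ k * |z.re| ≤ 2 ^ K * 2 :=
        mul_le_mul h3 hx (abs_nonneg _) (by positivity)
      push_cast
      rw [pow_add]
      nlinarith
  rw [Finset.sum_congr rfl h1, Finset.sum_range_sub (fun k => St (2 ^ k * z.im))]
  have h2 : St (2 ^ (K + 1) * z.im) = 1 := by
    apply St_prop.2.2.2.1
    rw [div_le_iff₀ (by positivity)] at hy
    linarith
  show St z.im + (St (2 ^ (K + 1) * z.im) - St (2 ^ 0 * z.im)) = 1
  rw [h2, pow_zero, one_mul]
  ring

open Classical in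
/-- PROOF. For each `k` there are at most `3` values of `j` (integers in an interval of length `2`), and at most `3`
values of `k` (`2^-k / 4 ≤ y ≤ 2^-k`). -/
theorem Tst_card (K : ℕ) (J : ℤ) (z : ℂ) :
    (((Finset.range (K + 1)) ×ˢ (Finset.Icc (-J) J)).filter
      (fun p : ℕ × ℤ => z ∈ Tst p.1 p.2)).card ≤ 9 := by
  rcases Finset.eq_empty_or_nonempty (((Finset.range (K + 1)) ×ˢ (Finset.Icc (-J) J)).filter
      (fun p : ℕ × ℤ => z ∈ Tst p.1 p.2)) with he | hne
  · rw [he, Finset.card_empty]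
    norm_num
  · obtain ⟨p0, hp0, hmin⟩ := Finset.exists_min_image _ (fun p : ℕ × ℤ => p.1) hne
    have hz0 := (Finset.mem_filter.mp hp0).2
    let c : ℕ → ℤ := fun k => ⌈2 ^ k * z.re - 3 / 2⌉
    have hsub : (((Finset.range (K + 1)) ×ˢ (Finset.Icc (-J) J)).filter
        (fun p : ℕ × ℤ => z ∈ Tst p.1 p.2)) ⊆ (Finset.Icc p0.1 (p0.1 + 2)).biUnion
          (fun k => (Finset.Icc (c k) (c k + 2)).image (fun j => (k, j))) := by
      intro p hp
      have hzp := (Finset.mem_filter.mp hp).2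
      rw [Finset.mem_biUnion]
      refine ⟨p.1, ?_, ?_⟩
      · rw [Finset.mem_Icc]
        refine ⟨hmin p hp, ?_⟩
        have h1 := hz0.1
        have h2 := hzp.2.1
        have h3 : 1 / (4 * (2 : ℝ) ^ p0.1) ≤ 1 / 2 ^ p.1 := h1.trans h2
        rw [one_div_le_one_div (by positivity) (by positivity)] at h3
        have h4 : (4 : ℝ) * 2 ^ p0.1 = 2 ^ (p0.1 + 2) := by
          rw [pow_add]
          ring
        rw [h4] at h3
        exact (pow_le_pow_iff_right₀ (by norm_num : (1 : ℝ) < 2)).mp h3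
      · rw [Finset.mem_image]
        refine ⟨p.2, ?_, rfl⟩
        rw [Finset.mem_Icc]
        have h1 := hzp.2.2.1
        have h2 := hzp.2.2.2
        constructor
        · apply Int.ceil_le.mpr
          linarith
        · have h3 := Int.le_ceil (2 ^ p.1 * z.re - 3 / 2)
          have h4 : ((p.2 : ℤ) : ℝ) ≤ ((c p.1 + 2 : ℤ) : ℝ) := by
            push_cast
            show (p.2 : ℝ) ≤ (⌈2 ^ p.1 * z.re - 3 / 2⌉ : ℝ) + 2
            linarith
          exact_mod_cast h4
    refine (Finset.card_le_card hsub).trans ?_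
    refine (Finset.card_biUnion_le_card_mul _ _ 3 ?_).trans ?_
    · intro k _
      refine Finset.card_image_le.trans ?_
      rw [Int.card_Icc]
      omega
    · rw [Nat.card_Icc]
      omega

end Pool.Agent.MPca0fc2.FD
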