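import Pool.Agent.Lib.MP_ca0fc2_an.FD.X4
import Pool.Agent.Lib.MP_ca0fc2_an.FD.X5

/-! The approximating function, in the coordinates of the exponential map. -/

set_option autoImplicit false

open Metric Set MeasureTheory Filter Topology

namespace Pool.Agent.MPca0fc2.FD

open Classical in
/-- the value on the square `(k, j)`: the function itself if the oscillation is large, and otherwise the constant given
by the hysteresis -/
noncomputable def vl (X : ℕ → ℤ → ℂ) (M W : ℕ) (ε : ℝ) (g : ℂ → ℂ) (k : ℕ) (j : ℤ) (z : ℂ) : ℂ :=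
  if rd X M W (ε / 2) k j then g (ex z) else hb X ε k j

/-- the approximating function -/
noncomputable def Fp (X : ℕ → ℤ → ℂ) (M W : ℕ) (ε : ℝ) (g : ℂ → ℂ) (K : ℕ) (z : ℂ) : ℂ :=
  (St z.im : ℂ) * g (ex z) + ∑ k ∈ Finset.range (K + 1),
    ∑ j ∈ Finset.Icc (-(2 ^ (K + 2) : ℤ)) (2 ^ (K + 2)), (psi k j z : ℂ) * vl X M W ε g k j z

/-- the strip -/
def Sp (K : ℕ) : Set ℂ := {z | 1 / 2 ^ (K + 1) < z.im ∧ |z.re| < 2}

/-- the hypotheses: `M`, `W` are the numbers of `close` -/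
structure Cl (g : ℂ → ℂ) (M W : ℕ) (ε : ℝ) (K : ℕ) (s : ℝ) : Prop where
  bh : BHd g
  ε0 : 0 < ε
  s0 : 0 < s
  s1 : s ≤ 1 / (8 * 2 ^ K)
  cl : ∀ k : ℕ, k ≤ K → ∀ j : ℤ, ¬ rd (av g s) M W (ε / 2) k j → ∀ z : ℂ,
    |z.re - j / 2 ^ k| ≤ 2 / 2 ^ k → 1 / (4 * 2 ^ k) ≤ z.im → z.im ≤ 1 / 2 ^ k →
    ‖g (ex z) - av g s k j‖ ≤ ε

variable {g : ℂ → ℂ} {M W K : ℕ} {ε s : ℝ}

private theorem X6_gex_cd {g : ℂ → ℂ} (hg : BHd g) :
    ContDiffOn ℝ 2 (fun z => g (ex z)) {z : ℂ | 0 < z.im} := by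
  have ho : IsOpen {z : ℂ | 0 < z.im} := isOpen_lt continuous_const Complex.continuous_im
  exact ((gex_hol hg).contDiffOn ho).restrict_scalars ℝ

private theorem X6_Sp_open (K : ℕ) : IsOpen (Sp K) := by
  have h1 : IsOpen {z : ℂ | 1 / 2 ^ (K + 1) < z.im} := isOpen_lt continuous_const Complex.continuous_im
  have h2 : IsOpen {z : ℂ | |z.re| < 2} :=
    isOpen_lt (continuous_abs.comp Complex.continuous_re) continuous_const
  exact h1.inter h2

private theorem X6_Sp_pos {K : ℕ} {z : ℂ} (hz : z ∈ Sp K) : 0 < z.im := by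
  have : (0 : ℝ) < 1 / 2 ^ (K + 1) := by positivity
  exact this.trans hz.1

private theorem X6_vl_pos {X : ℕ → ℤ → ℂ} {g : ℂ → ℂ} {k : ℕ} {j : ℤ}
    (h : rd X M W (ε / 2) k j) : vl X M W ε g k j = fun z => g (ex z) := by
  funext z
  unfold vl
  rw [if_pos h]

private theorem X6_vl_neg {X : ℕ → ℤ → ℂ} {g : ℂ → ℂ} {k : ℕ} {j : ℤ}
    (h : ¬ rd X M W (ε / 2) k j) : vl X M W ε g k j = fun _ => hb X ε k j := by
  funext z
  unfold vl
  rw [if_neg h]

private theorem X6_vl_cd (X : ℕ → ℤ → ℂ) (M W : ℕ) (ε : ℝ) {g : ℂ → ℂ} (hg : BHd g) (K k : ℕ)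
    (j : ℤ) : ContDiffOn ℝ 2 (vl X M W ε g k j) (Sp K) := by
  by_cases h : rd X M W (ε / 2) k j
  · rw [X6_vl_pos h]
    exact (X6_gex_cd hg).mono (fun z hz => X6_Sp_pos hz)
  · rw [X6_vl_neg h]
    exact contDiffOn_const

private theorem X6_St_cd : ContDiff ℝ 2 (fun z : ℂ => (St z.im : ℂ)) :=
  Complex.ofRealCLM.contDiff.comp (St_prop.1.comp Complex.imCLM.contDiff)

private theorem X6_psi_cd (k : ℕ) (j : ℤ) : ContDiff ℝ 2 (fun z : ℂ => (psi k j z : ℂ)) :=
  Complex.ofRealCLM.contDiff.comp (psi_c2 k j)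

private theorem X6_rd_per {X : ℕ → ℤ → ℂ} (hX : ∀ k j, X k (j + 2 ^ k) = X k j) (M W : ℕ) (η : ℝ)
    (k : ℕ) (j : ℤ) : rd X M W η k (j + 2 ^ k) ↔ rd X M W η k j := by
  unfold rd
  constructor
  · rintro ⟨i, h1, h2⟩
    refine ⟨i - 2 ^ (k + M), ?_, ?_⟩
    · have : i - 2 ^ (k + M) - 2 ^ M * j = i - 2 ^ M * (j + 2 ^ k) := by
        rw [pow_add]; ring
      rw [this]
      exact h1
    · have h3 := hX (k + M) (i - 2 ^ (k + M))
      rw [sub_add_cancel] at h3
      rw [← h3, ← hX k j]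
      exact h2
  · rintro ⟨i, h1, h2⟩
    refine ⟨i + 2 ^ (k + M), ?_, ?_⟩
    · have : i + 2 ^ (k + M) - 2 ^ M * (j + 2 ^ k) = i - 2 ^ M * j := by
        rw [pow_add]; ring
      rw [this]
      exact h1
    · rw [hX, hX]
      exact h2

/-- distance conditions -/
private theorem X6_Tst_dist {k : ℕ} {j : ℤ} {z : ℂ} (h : z ∈ Tst k j) :
    |z.re - j / 2 ^ k| ≤ 2 / 2 ^ k := by
  obtain ⟨-, -, h3, h4⟩ := h
  have hp : (0 : ℝ) < 2 ^ k := by positivity
  have h5 : z.re - j / 2 ^ k = (2 ^ k * z.re - j) / 2 ^ k := by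
    field_simp
  rw [h5, abs_div, abs_of_pos hp]
  gcongr
  rw [abs_le]
  constructor <;> linarith

/-- PROOF. `close`: `s ≤ 1 / (8 2^K) ≤ 1 / (8 2^k)`. -/
theorem Cl_of (ε : ℝ) (hε : 0 < ε) : ∃ M W : ℕ, ∀ g : ℂ → ℂ, BHd g → ∀ K : ℕ,
    Cl g M W ε K (1 / (8 * 2 ^ K)) := by
  obtain ⟨M, W, H⟩ := close hε
  refine ⟨M, W, fun g hg K => ⟨hg, hε, by positivity, le_refl _, ?_⟩⟩
  intro k hk j hr z h1 h2 h3
  refine H g hg k _ (by positivity) ?_ j hr z h1 h2 h3
  have : (2 : ℝ) ^ k ≤ 2 ^ K := pow_le_pow_right₀ (by norm_num) hk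
  gcongr

/-- PROOF. `av_Mg`. -/
theorem Cl_Mg (h : Cl g M W ε K s) : Mg (av g s) := by
  exact av_Mg h.bh h.s0

/-- PROOF. Sums and products of `C²` functions: `St`, `psi_c2`, `z ↦ g (ex z)` is holomorphic on `{0 < z.im}`, so `C²`
(`DifferentiableOn.contDiffOn` for open subsets of `ℂ`, restrict scalars); `hb` is constant in `z`. -/
theorem Fp_c2 (h : Cl g M W ε K s) : ContDiffOn ℝ 2 (Fp (av g s) M W ε g K) (Sp K) := by
  unfold Fp
  refine ContDiffOn.add ?_ ?_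
  · exact X6_St_cd.contDiffOn.mul ((X6_gex_cd h.bh).mono (fun z hz => X6_Sp_pos hz))
  · refine ContDiffOn.sum fun k _ => ContDiffOn.sum fun j _ => ?_
    exact (X6_psi_cd k j).contDiffOn.mul (X6_vl_cd _ _ _ _ h.bh _ _ _)

/-- The function is close to `g`.
PROOF. By `psi_sum`, `Fp z - g (ex z) = ∑ psi (vl - g (ex z))`. For the terms with `psi k j z ≠ 0`: `z ∈ Tst k j`
(`psi_supp`); if `rd`, the term is `0`; otherwise `‖hb - g (ex z)‖ ≤ ‖hb - av‖ + ‖av - g (ex z)‖ ≤ ε + ε` (`hb_near`, `cl`: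
`z ∈ Tst k j` implies `|z.re - j 2^-k| ≤ (3/2) 2^-k`). The sum of the `psi` is at most `1` (`psi_mem`, `St ≥ 0`). -/
theorem Fp_near (h : Cl g M W ε K s) {z : ℂ} (hz : z ∈ Sp K) :
    ‖Fp (av g s) M W ε g K z - g (ex z)‖ ≤ 2 * ε := by
  have hy := X6_Sp_pos hz
  have hs := psi_sum K (le_of_lt hz.2) (le_of_lt hz.1)
  have hsC : (St z.im : ℂ) + ∑ k ∈ Finset.range (K + 1),
      ∑ j ∈ Finset.Icc (-(2 ^ (K + 2) : ℤ)) (2 ^ (K + 2)), (psi k j z : ℂ) = 1 := by
    exact_mod_cast congrArg (fun t : ℝ => (t : ℂ)) hs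
  have h1 : Fp (av g s) M W ε g K z - g (ex z) = ∑ k ∈ Finset.range (K + 1),
      ∑ j ∈ Finset.Icc (-(2 ^ (K + 2) : ℤ)) (2 ^ (K + 2)),
        (psi k j z : ℂ) * (vl (av g s) M W ε g k j z - g (ex z)) := by
    have hV : ∑ k ∈ Finset.range (K + 1),
      ∑ j ∈ Finset.Icc (-(2 ^ (K + 2) : ℤ)) (2 ^ (K + 2)),
        (psi k j z : ℂ) * (vl (av g s) M W ε g k j z - g (ex z)) =
        (∑ k ∈ Finset.range (K + 1), ∑ j ∈ Finset.Icc (-(2 ^ (K + 2) : ℤ)) (2 ^ (K + 2)),
          (psi k j z : ℂ) * vl (av g s) M W ε g k j z) -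
        (∑ k ∈ Finset.range (K + 1), ∑ j ∈ Finset.Icc (-(2 ^ (K + 2) : ℤ)) (2 ^ (K + 2)),
          (psi k j z : ℂ)) * g (ex z) := by
      simp only [mul_sub, Finset.sum_sub_distrib, Finset.sum_mul]
    rw [hV]
    unfold Fp
    linear_combination (g (ex z)) * hsC
  rw [h1]
  have hterm : ∀ k ∈ Finset.range (K + 1), ∀ j : ℤ,
      ‖(psi k j z : ℂ) * (vl (av g s) M W ε g k j z - g (ex z))‖ ≤ psi k j z * (2 * ε) := by
    intro k hk j
    have hk' : k ≤ K := Nat.lt_succ_iff.mp (Finset.mem_range.mp hk)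
    rw [norm_mul, Complex.norm_real, Real.norm_of_nonneg (psi_mem k j hy.le).1]
    by_cases hT : z ∈ Tst k j
    · refine mul_le_mul_of_nonneg_left ?_ (psi_mem k j hy.le).1
      by_cases hr : rd (av g s) M W (ε / 2) k j
      · rw [X6_vl_pos hr]
        simp only [sub_self, norm_zero]
        linarith [h.ε0]
      · rw [X6_vl_neg hr]
        have h3 := hb_near (X := av g s) h.ε0.le k j
        have h4 := h.cl k hk' j hr z (X6_Tst_dist hT) hT.1 hT.2.1
        have h5 : hb (av g s) ε k j - g (ex z) = -(av g s k j - hb (av g s) ε k j) -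
            (g (ex z) - av g s k j) := by ring
        show ‖hb (av g s) ε k j - g (ex z)‖ ≤ 2 * ε
        rw [h5]
        refine (norm_sub_le _ _).trans ?_
        rw [norm_neg]
        linarith
    · rw [(psi_supp k j hT).1]
      simp
  calc ‖∑ k ∈ Finset.range (K + 1),
      ∑ j ∈ Finset.Icc (-(2 ^ (K + 2) : ℤ)) (2 ^ (K + 2)),
        (psi k j z : ℂ) * (vl (av g s) M W ε g k j z - g (ex z))‖
      ≤ ∑ k ∈ Finset.range (K + 1),
      ∑ j ∈ Finset.Icc (-(2 ^ (K + 2) : ℤ)) (2 ^ (K + 2)), psi k j z * (2 * ε) := by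
        refine norm_sum_le_of_le _ fun k hk => norm_sum_le_of_le _ fun j _ => hterm k hk j
    _ = (1 - St z.im) * (2 * ε) := by
        simp only [← Finset.sum_mul]
        congr 1
        linarith
    _ ≤ 1 * (2 * ε) := by
        refine mul_le_mul_of_nonneg_right ?_ (by linarith [h.ε0])
        linarith [(St_prop.2.1 z.im).1]
    _ = 2 * ε := one_mul _

/-- PROOF. For `z.im ≥ 1`: `St z.im = 1`, and `z ∉ Tst k j` unless `k = 0`, `z.im = 1`; `psi k j z = 0` because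
`al k y = 1 - 1 = 0` for `y ≥ 2^-k`. -/
theorem Fp_top (X : ℕ → ℤ → ℂ) (M W : ℕ) (ε : ℝ) (g : ℂ → ℂ) (K : ℕ) {z : ℂ} (hz : 1 ≤ z.im) :
    Fp X M W ε g K z = g (ex z) := by
  have h1 : St z.im = 1 := St_prop.2.2.2.1 _ hz
  have h2 : ∀ (k : ℕ) (j : ℤ), psi k j z = 0 := by
    intro k j
    unfold psi al
    have hk : (1 : ℝ) ≤ 2 ^ k := one_le_pow₀ (by norm_num)
    have hk1 : (1 : ℝ) ≤ 2 ^ (k + 1) := one_le_pow₀ (by norm_num)
    rw [St_prop.2.2.2.1 _ (by nlinarith), St_prop.2.2.2.1 _ (by nlinarith), sub_self, zero_mul]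
  unfold Fp
  rw [h1]
  simp [h2]

/-- The periodicity.
PROOF. `psi k j (z + 1) = psi k (j - 2^k) z` (`2^k (x + 1) - j = 2^k x - (j - 2^k)`), `vl .. k j (z + 1) = vl .. k (j - 2^k) z`
(`ex_int`, `hb_per`, and `rd` is periodic as in `act_per`; here `X = av g s` with `av_per`). The terms with
`psi k j z ≠ 0`, for `|z.re| < 1`, have `|j| ≤ 2^k + 2 ≤ 2^(K+2)` and also `|j + 2^k| ≤ 2^(k+1) + 2 ≤ 2^(K+2)`.. (for
`K = 0`, `k = 0`: `j - 1/2 ≤ .. `: from `-1/2 ≤ 2^k x - j ≤ 3/2` and `|x| < 1` one gets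
`-2^k - 3/2 < j < 2^k + 1/2`, so `|j| ≤ 2^k + 1`, `|j + 2^k| ≤ 2^(k+1) + 1`; `2^(K+1) + 1 ≤ 2^(K+2)`). So both sums are
the sums over all integers with `psi ≠ 0`. -/
theorem Fp_per (h : Cl g M W ε K s) {z : ℂ} (hz : |z.re| < 1) (hz1 : |z.re + 1| < 2) (hy : 0 < z.im) :
    Fp (av g s) M W ε g K (z + 1) = Fp (av g s) M W ε g K z := by
  have hper := av_per g s
  have hex : ex (z + 1) = ex z := by
    have := ex_int z 1
    simpa using this
  have hpsi : ∀ (k : ℕ) (j : ℤ), psi k j (z + 1) = psi k (j - 2 ^ k) z := by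
    intro k j
    unfold psi
    have h1 : (z + 1).im = z.im := by simp
    have h2 : (z + 1).re = z.re + 1 := by simp
    rw [h1, h2]
    congr 2
    push_cast
    ring
  have hvl : ∀ (k : ℕ) (j : ℤ), vl (av g s) M W ε g k j (z + 1) =
      vl (av g s) M W ε g k (j - 2 ^ k) z := by
    intro k j
    have h1 := X6_rd_per hper M W (ε / 2) k (j - 2 ^ k)
    rw [sub_add_cancel] at h1
    have h2 := hb_per (ε := ε) hper k (j - 2 ^ k)
    rw [sub_add_cancel] at h2
    by_cases hr : rd (av g s) M W (ε / 2) k j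
    · rw [X6_vl_pos hr, X6_vl_pos (h1.mp hr)]
      simp only [hex]
    · rw [X6_vl_neg hr, X6_vl_neg (fun hh => hr (h1.mpr hh))]
      exact h2
  unfold Fp
  have him : (z + 1).im = z.im := by simp
  rw [him, hex]
  congr 1
  refine Finset.sum_congr rfl fun k hk => ?_
  have hk' : k ≤ K := Nat.lt_succ_iff.mp (Finset.mem_range.mp hk)
  set F : ℤ → ℂ := fun i => (psi k i z : ℂ) * vl (av g s) M W ε g k i z with hF
  have h3 : ∀ j : ℤ, (psi k j (z + 1) : ℂ) * vl (av g s) M W ε g k j (z + 1) = F (j - 2 ^ k) := by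
    intro j
    rw [hpsi, hvl]
  have hJk : (2 : ℤ) ^ k ≤ 2 ^ K := pow_le_pow_right₀ (by norm_num) hk'
  have hk1 : (1 : ℤ) ≤ 2 ^ k := one_le_pow₀ (by norm_num)
  have hJ : (2 : ℤ) ^ (K + 2) = 4 * 2 ^ K := by rw [pow_add]; ring
  have hJkR : (2 : ℝ) ^ k ≤ 2 ^ K := pow_le_pow_right₀ (by norm_num) hk'
  have hk1R : (1 : ℝ) ≤ 2 ^ k := one_le_pow₀ (by norm_num)
  obtain ⟨hx1, hx2⟩ := abs_lt.mp hz
  have hF1 : ∀ i : ℤ, (2 : ℤ) ^ (K + 2) - 2 ^ k < i → F i = 0 := by
    intro i hi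
    have : z ∉ Tst k i := by
      intro hT
      have h5 := hT.2.2.1
      have hi2 : ((2 : ℤ) ^ (K + 2) - 2 ^ k : ℤ) + 1 ≤ i := hi
      have hi3 : ((4 : ℝ) * 2 ^ K - 2 ^ k) + 1 ≤ i := by
        rw [hJ] at hi2
        exact_mod_cast hi2
      nlinarith
    rw [hF]
    simp only
    rw [(psi_supp k i this).1]
    simp
  have hF2 : ∀ i : ℤ, i < -(2 : ℤ) ^ (K + 2) → F i = 0 := by
    intro i hi
    have : z ∉ Tst k i := by
      intro hT
      have h5 := hT.2.2.2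
      have hi2 : i + 1 ≤ -(2 : ℤ) ^ (K + 2) := hi
      have hi3 : (i : ℝ) + 1 ≤ -(4 * 2 ^ K) := by
        rw [hJ] at hi2
        exact_mod_cast hi2
      nlinarith
    rw [hF]
    simp only
    rw [(psi_supp k i this).1]
    simp
  have hA : ∑ j ∈ Finset.Icc (-(2 ^ (K + 2) : ℤ)) (2 ^ (K + 2)), F j =
      ∑ j ∈ Finset.Icc (-(2 ^ (K + 2) : ℤ)) (2 ^ (K + 2) - 2 ^ k), F j := by
    symm
    refine Finset.sum_subset ?_ ?_
    · exact Finset.Icc_subset_Icc_right (by linarith)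
    · intro i hi hni
      refine hF1 i ?_
      rw [Finset.mem_Icc] at hi hni
      by_contra hc
      exact hni ⟨hi.1, not_lt.mp hc⟩
  have hB : ∑ j ∈ Finset.Icc (-(2 ^ (K + 2) : ℤ)) (2 ^ (K + 2)), F (j - 2 ^ k) =
      ∑ j ∈ Finset.Icc (-(2 ^ (K + 2) : ℤ)) (2 ^ (K + 2) - 2 ^ k), F j := by
    have hB1 : ∑ j ∈ Finset.Icc (-(2 ^ (K + 2) : ℤ)) (2 ^ (K + 2)), F (j - 2 ^ k) =
        ∑ j ∈ Finset.Icc (-(2 ^ (K + 2) : ℤ) - 2 ^ k) (2 ^ (K + 2) - 2 ^ k), F j := by
      refine Finset.sum_bij (fun j _ => j - 2 ^ k) ?_ ?_ ?_ ?_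
      · intro j hj
        rw [Finset.mem_Icc] at hj ⊢
        constructor <;> linarith [hj.1, hj.2]
      · intro a _ b _ hab
        exact sub_left_injective hab
      · intro b hb
        rw [Finset.mem_Icc] at hb
        refine ⟨b + 2 ^ k, ?_, by ring⟩
        rw [Finset.mem_Icc]
        constructor <;> linarith [hb.1, hb.2]
      · intro a _
        rfl
    rw [hB1]
    symm
    refine Finset.sum_subset ?_ ?_
    · exact Finset.Icc_subset_Icc_left (by linarith)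
    · intro i hi hni
      refine hF2 i ?_
      rw [Finset.mem_Icc] at hi hni
      by_contra hc
      exact hni ⟨not_lt.mp hc, hi.2⟩
  rw [hA, ← hB]
  exact Finset.sum_congr rfl fun j _ => h3 j

/-- The derivative.
PROOF. At `z ∈ Sp K` (open), with `G z = g (ex z)`: product rule; `vl` is either `G` or constant near `z`. Since
`St + ∑ psi = 1` near `z` (`psi_sum` on the open set `Sp K`), `dSt + ∑ dpsi = 0`, so for any `w : ℂ`:
`dFp = dSt (G - w) + St dG + ∑ [dpsi (vl - w) + psi dvl]`. -/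
theorem Fp_fderiv (h : Cl g M W ε K s) {z : ℂ} (hz : z ∈ Sp K) (w : ℂ) (X : ℂ) :
    fderiv ℝ (Fp (av g s) M W ε g K) z X =
      (deriv St z.im * X.im : ℝ) * (g (ex z) - w) + (St z.im : ℂ) * (deriv (fun z => g (ex z)) z * X) +
      ∑ k ∈ Finset.range (K + 1), ∑ j ∈ Finset.Icc (-(2 ^ (K + 2) : ℤ)) (2 ^ (K + 2)),
        ((fderiv ℝ (psi k j) z X : ℝ) * (vl (av g s) M W ε g k j z - w) +
          (psi k j z : ℂ) * fderiv ℝ (vl (av g s) M W ε g k j) z X) := by
  have hy := X6_Sp_pos hz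
  have ho : Sp K ∈ 𝓝 z := (X6_Sp_open K).mem_nhds hz
  have hoG : {z : ℂ | 0 < z.im} ∈ 𝓝 z :=
    (isOpen_lt continuous_const Complex.continuous_im).mem_nhds hy
  -- the derivatives of the pieces
  have hG : HasFDerivAt (fun z => g (ex z))
      ((ContinuousLinearMap.toSpanSingleton ℂ (deriv (fun z => g (ex z)) z)).restrictScalars ℝ) z := by
    have h1 : DifferentiableAt ℂ (fun z => g (ex z)) z := (gex_hol h.bh).differentiableAt hoG
    exact h1.hasDerivAt.hasFDerivAt.restrictScalars ℝ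
  have hS1 : HasDerivAt St (deriv St z.im) z.im :=
    ((St_prop.1.differentiable (by norm_num)) z.im).hasDerivAt
  have hS : HasFDerivAt (fun z : ℂ => (St z.im : ℂ))
      (Complex.ofRealCLM.comp (deriv St z.im • Complex.imCLM)) z := by
    have h1 : HasFDerivAt (fun z : ℂ => St z.im) (deriv St z.im • Complex.imCLM) z :=
      hS1.comp_hasFDerivAt z Complex.imCLM.hasFDerivAt
    exact Complex.ofRealCLM.hasFDerivAt.comp z h1
  have hP : ∀ (k : ℕ) (j : ℤ), HasFDerivAt (fun z : ℂ => (psi k j z : ℂ))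
      (Complex.ofRealCLM.comp (fderiv ℝ (psi k j) z)) z := by
    intro k j
    have h1 : HasFDerivAt (psi k j) (fderiv ℝ (psi k j) z) z :=
      (((psi_c2 k j).differentiable (by norm_num)) z).hasFDerivAt
    exact Complex.ofRealCLM.hasFDerivAt.comp z h1
  have hV : ∀ (k : ℕ) (j : ℤ), HasFDerivAt (vl (av g s) M W ε g k j)
      (fderiv ℝ (vl (av g s) M W ε g k j) z) z := by
    intro k j
    have h1 := X6_vl_cd (av g s) M W ε h.bh K k j
    exact ((h1.differentiableOn (by norm_num)).differentiableAt ho).hasFDerivAt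
  have hF := (hS.mul hG).add (HasFDerivAt.fun_sum (u := Finset.range (K + 1)) fun k _ =>
    HasFDerivAt.fun_sum (u := Finset.Icc (-(2 ^ (K + 2) : ℤ)) (2 ^ (K + 2))) fun j _ => (hP k j).mul (hV k j))
  have hF' : HasFDerivAt (Fp (av g s) M W ε g K) _ z := hF
  rw [hF'.fderiv]
  -- the sum of the partition of unity is constant
  have hU := hS.add (HasFDerivAt.fun_sum (u := Finset.range (K + 1)) fun k _ =>
    HasFDerivAt.fun_sum (u := Finset.Icc (-(2 ^ (K + 2) : ℤ)) (2 ^ (K + 2))) fun j _ => (hP k j))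
  have hU0 : HasFDerivAt ((fun z : ℂ => (St z.im : ℂ)) + fun z : ℂ => ∑ k ∈ Finset.range (K + 1),
      ∑ j ∈ Finset.Icc (-(2 ^ (K + 2) : ℤ)) (2 ^ (K + 2)), (psi k j z : ℂ)) (0 : ℂ →L[ℝ] ℂ) z := by
    refine (hasFDerivAt_const (1 : ℂ) z).congr_of_eventuallyEq ?_
    filter_upwards [ho] with w hw
    have hs := psi_sum K (le_of_lt hw.2) (le_of_lt hw.1)
    show (St w.im : ℂ) + ∑ k ∈ Finset.range (K + 1),
      ∑ j ∈ Finset.Icc (-(2 ^ (K + 2) : ℤ)) (2 ^ (K + 2)), (psi k j w : ℂ) = 1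
    exact_mod_cast congrArg (fun t : ℝ => (t : ℂ)) hs
  have hE := congrArg (fun L : ℂ →L[ℝ] ℂ => L X) (hU.unique hU0)
  simp only [ContinuousLinearMap.add_apply, ContinuousLinearMap.sum_apply,
    ContinuousLinearMap.comp_apply, ContinuousLinearMap.smul_apply, Complex.imCLM_apply,
    Complex.ofRealCLM_apply, ContinuousLinearMap.zero_apply, smul_eq_mul] at hE
  simp only [ContinuousLinearMap.add_apply, ContinuousLinearMap.sum_apply,
    ContinuousLinearMap.comp_apply, ContinuousLinearMap.smul_apply, Complex.imCLM_apply,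
    Complex.ofRealCLM_apply, smul_eq_mul, ContinuousLinearMap.coe_restrictScalars',
    ContinuousLinearMap.toSpanSingleton_apply]
  have hsum : ∑ k ∈ Finset.range (K + 1), ∑ j ∈ Finset.Icc (-(2 ^ (K + 2) : ℤ)) (2 ^ (K + 2)),
        ((fderiv ℝ (psi k j) z X : ℝ) * (vl (av g s) M W ε g k j z - w) +
          (psi k j z : ℂ) * fderiv ℝ (vl (av g s) M W ε g k j) z X) =
      (∑ k ∈ Finset.range (K + 1), ∑ j ∈ Finset.Icc (-(2 ^ (K + 2) : ℤ)) (2 ^ (K + 2)),
        ((psi k j z : ℂ) * fderiv ℝ (vl (av g s) M W ε g k j) z X +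
          vl (av g s) M W ε g k j z * ((fderiv ℝ (psi k j) z X : ℝ) : ℂ))) -
      (∑ k ∈ Finset.range (K + 1), ∑ j ∈ Finset.Icc (-(2 ^ (K + 2) : ℤ)) (2 ^ (K + 2)),
        ((fderiv ℝ (psi k j) z X : ℝ) : ℂ)) * w := by
    simp only [Finset.sum_mul, ← Finset.sum_sub_distrib]
    refine Finset.sum_congr rfl fun k _ => Finset.sum_congr rfl fun j _ => ?_
    ring
  rw [hsum]
  linear_combination w * hE

/-- The general bound of the derivative.
PROOF. `Fp_fderiv` with `w = 0`. `|deriv St y| ≤ C`, and it vanishes for `y ≥ 1`; `y ‖dG‖ ≤ 1` (`gex_deriv`). In the sum only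
the terms with `z ∈ Tst k j` do not vanish (`psi_supp`), at most `9` (`Tst_card`); for them `y ≤ 2^-k`, so
`y ‖dpsi‖ ≤ C` (`psi_fderiv`), `‖vl‖ ≤ 1` (`hb_le`), `y ‖dvl‖ ≤ 1`. Total: `C + 1 + 9 (C' + 1)`. -/
theorem Fp_bound : ∃ C : ℝ, 0 < C ∧ ∀ (g : ℂ → ℂ) (M W K : ℕ) (ε s : ℝ), Cl g M W ε K s → ∀ z ∈ Sp K,
    z.im * ‖fderiv ℝ (Fp (av g s) M W ε g K) z‖ ≤ C := by
  classical
  obtain ⟨C₁, hC₁, hSt⟩ := St_deriv
  obtain ⟨C₂, hC₂, hpsi⟩ := psi_fderiv
  refine ⟨C₁ + 1 + 9 * (C₂ + 1), by positivity, ?_⟩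
  intro g M W K ε s h z hz
  have hy := X6_Sp_pos hz
  have hMg := Cl_Mg h
  have hGd := gex_deriv h.bh hy
  have hG1 : ‖g (ex z)‖ ≤ 1 := h.bh.le _ (ex_mem hy)
  have hmain : ∀ X : ℂ, ‖fderiv ℝ (Fp (av g s) M W ε g K) z X‖ ≤
      (C₁ + 1 + 9 * (C₂ + 1)) / z.im * ‖X‖ := by
    intro X
    rw [Fp_fderiv h hz 0 X]
    have hX : |X.im| ≤ ‖X‖ := Complex.abs_im_le_norm X
    -- first term
    have t1 : ‖((deriv St z.im * X.im : ℝ) : ℂ) * (g (ex z) - 0)‖ ≤ C₁ / z.im * ‖X‖ := by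
      rw [sub_zero, norm_mul, Complex.norm_real, Real.norm_eq_abs, abs_mul]
      have h1 : |deriv St z.im| ≤ C₁ / z.im := by
        rcases le_or_gt 1 z.im with h1 | h1
        · rw [(hSt z.im).2.2 h1, abs_zero]
          positivity
        · rw [le_div_iff₀ hy]
          calc |deriv St z.im| * z.im ≤ C₁ * 1 :=
                mul_le_mul (hSt z.im).1 h1.le hy.le hC₁.le
            _ = C₁ := mul_one _
      calc |deriv St z.im| * |X.im| * ‖g (ex z)‖ ≤ (C₁ / z.im * ‖X‖) * 1 := by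
            refine mul_le_mul ?_ hG1 (norm_nonneg _) (by positivity)
            exact mul_le_mul h1 hX (abs_nonneg _) (by positivity)
        _ = _ := mul_one _
    have t2 : ‖(St z.im : ℂ) * (deriv (fun z => g (ex z)) z * X)‖ ≤ 1 / z.im * ‖X‖ := by
      rw [norm_mul, norm_mul, Complex.norm_real, Real.norm_of_nonneg (St_prop.2.1 _).1]
      have h1 : ‖deriv (fun z => g (ex z)) z‖ ≤ 1 / z.im := by
        rw [le_div_iff₀ hy, mul_comm]
        exact hGd
      calc St z.im * (‖deriv (fun z => g (ex z)) z‖ * ‖X‖) ≤ 1 * (1 / z.im * ‖X‖) := by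
            refine mul_le_mul (St_prop.2.1 _).2 ?_ (by positivity) (by norm_num)
            exact mul_le_mul_of_nonneg_right h1 (norm_nonneg _)
        _ = _ := one_mul _
    have t3 : ∀ (k : ℕ) (j : ℤ), ‖((fderiv ℝ (psi k j) z X : ℝ) : ℂ) *
        (vl (av g s) M W ε g k j z - 0) + (psi k j z : ℂ) * fderiv ℝ (vl (av g s) M W ε g k j) z X‖ ≤
        if z ∈ Tst k j then (C₂ + 1) / z.im * ‖X‖ else 0 := by
      intro k j
      split_ifs with hT
      · have hp : (0 : ℝ) < 2 ^ k := by positivity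
        have hk : (2 : ℝ) ^ k ≤ 1 / z.im := by
          rw [le_div_iff₀ hy]
          have := hT.2.1
          rw [le_div_iff₀ hp] at this
          linarith
        have hv : ‖vl (av g s) M W ε g k j z‖ ≤ 1 := by
          by_cases hr : rd (av g s) M W (ε / 2) k j
          · rw [X6_vl_pos hr]
            exact hG1
          · rw [X6_vl_neg hr]
            exact hb_le hMg k j
        have hdv : ‖fderiv ℝ (vl (av g s) M W ε g k j) z X‖ ≤ 1 / z.im * ‖X‖ := by
          by_cases hr : rd (av g s) M W (ε / 2) k j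
          · rw [X6_vl_pos hr]
            have h1 : DifferentiableAt ℂ (fun z => g (ex z)) z := (gex_hol h.bh).differentiableAt
              ((isOpen_lt continuous_const Complex.continuous_im).mem_nhds hy)
            have h2 : fderiv ℝ (fun z => g (ex z)) z X = X * deriv (fun z => g (ex z)) z := by
              rw [(h1.hasDerivAt.hasFDerivAt.restrictScalars ℝ).fderiv]
              simp
            rw [h2, norm_mul, mul_comm]
            refine mul_le_mul_of_nonneg_right ?_ (norm_nonneg _)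
            rw [le_div_iff₀ hy, mul_comm]
            exact hGd
          · rw [X6_vl_neg hr]
            simp only [fderiv_fun_const, Pi.zero_apply, ContinuousLinearMap.zero_apply, norm_zero]
            positivity
        have hdp : ‖((fderiv ℝ (psi k j) z X : ℝ) : ℂ)‖ ≤ C₂ / z.im * ‖X‖ := by
          rw [Complex.norm_real]
          refine ((fderiv ℝ (psi k j) z).le_opNorm X).trans ?_
          refine mul_le_mul_of_nonneg_right ?_ (norm_nonneg _)
          refine (hpsi k j z).trans ?_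
          calc C₂ * 2 ^ k ≤ C₂ * (1 / z.im) := mul_le_mul_of_nonneg_left hk hC₂.le
            _ = C₂ / z.im := by ring
        refine (norm_add_le _ _).trans ?_
        rw [sub_zero, norm_mul, norm_mul, Complex.norm_real (psi k j z),
          Real.norm_of_nonneg (psi_mem k j hy.le).1]
        have e1 : ‖((fderiv ℝ (psi k j) z X : ℝ) : ℂ)‖ * ‖vl (av g s) M W ε g k j z‖ ≤
            C₂ / z.im * ‖X‖ * 1 := mul_le_mul hdp hv (norm_nonneg _) (by positivity)
        have e2 : psi k j z * ‖fderiv ℝ (vl (av g s) M W ε g k j) z X‖ ≤ 1 * (1 / z.im * ‖X‖) :=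
          mul_le_mul (psi_mem k j hy.le).2 hdv (norm_nonneg _) (by norm_num)
        calc _ ≤ C₂ / z.im * ‖X‖ * 1 + 1 * (1 / z.im * ‖X‖) := add_le_add e1 e2
          _ = (C₂ + 1) / z.im * ‖X‖ := by ring
      · rw [(psi_supp k j hT).1, (psi_supp k j hT).2]
        simp
    have t4 : ‖∑ k ∈ Finset.range (K + 1), ∑ j ∈ Finset.Icc (-(2 ^ (K + 2) : ℤ)) (2 ^ (K + 2)),
        (((fderiv ℝ (psi k j) z X : ℝ) : ℂ) * (vl (av g s) M W ε g k j z - 0) +
          (psi k j z : ℂ) * fderiv ℝ (vl (av g s) M W ε g k j) z X)‖ ≤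
        9 * ((C₂ + 1) / z.im * ‖X‖) := by
      have h1 := norm_sum_le_of_le (Finset.range (K + 1)) fun k _ => norm_sum_le_of_le
        (Finset.Icc (-(2 ^ (K + 2) : ℤ)) (2 ^ (K + 2))) fun j _ => t3 k j
      refine h1.trans ?_
      rw [← Finset.sum_product', ← Finset.sum_filter, Finset.sum_const, nsmul_eq_mul]
      refine mul_le_mul_of_nonneg_right ?_ (by positivity)
      exact_mod_cast Tst_card K (2 ^ (K + 2)) z
    calc _ ≤ C₁ / z.im * ‖X‖ + 1 / z.im * ‖X‖ + 9 * ((C₂ + 1) / z.im * ‖X‖) := by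
          refine (norm_add_le _ _).trans (add_le_add ((norm_add_le _ _).trans (add_le_add t1 t2)) t4)
      _ = _ := by ring
  have h2 : ‖fderiv ℝ (Fp (av g s) M W ε g K) z‖ ≤ (C₁ + 1 + 9 * (C₂ + 1)) / z.im :=
    ContinuousLinearMap.opNorm_le_bound _ (by positivity) hmain
  rw [le_div_iff₀ hy] at h2
  linarith

/-- The derivative vanishes away from the active squares.
PROOF. Let `z ∈ Sp K`, `z.im ≤ 1/2`, `|z.re| ≤ 1`, `dFp z ≠ 0`, and suppose that the conclusion fails. Let `T` be the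
set of the `(k, j)`, `k ≤ K`, `|j| ≤ 2^(K+2)`, with `z ∈ Tst k j` and (`psi k j z ≠ 0` or `dpsi k j z ≠ 0`). For `(k, j) ∈ T`
we have `2^-k / 4 ≤ y ≤ 2^-k` and `-1/2 ≤ 2^k x - j ≤ 3/2`, so `(k, j)` and its neighbours `(k, j ± 1)`, `(k, j - 2)`, and its
parent satisfy the distance conditions of the conclusion; so none of `(k, j)`, `(k, j - 1)`, .. is active.
So `vl k j z = hb k j` and `dvl = 0` for `(k, j) ∈ T` (not `rd`). CLAIM: all the values `hb k j`, `(k, j) ∈ T`, are the same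
number `w`. Then `Fp_fderiv` with this `w` gives `dFp = 0` (`deriv St y = 0`, `St y = 0` for `y ≤ 1/2`), a contradiction.
Proof of the claim. Same level `k`: the values of `j` with `(k, j) ∈ T` are among three consecutive integers
`j₁, j₁ + 1, j₁ + 2` with `j ∈ [2^k x - 3/2, 2^k x + 1/2]`, and `hb k (j + 1) = hb k j` for `j` in this range, since
`(k, j)` is not active (the definition of `act`). Two levels: if `(k, j), (k', j') ∈ T`, `k < k'`, then `k' ≤ k + 2`; if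
`k' = k + 2` then `y = 2^-k'` .. precisely `2^-k / 4 ≤ y ≤ 2^-k' = 2^-k / 4`, so `y = 2^-k / 4 = 2^-k'`, but there
`al k y`, `al k' y` and their derivatives vanish (`St` is flat at the ends `1/2`, `1`), which contradicts the definition
of `T`. So `k' = k + 1`. `2^-k / 4 ≤ y ≤ 2^-k / 2`. Let `j'' = ⌊2^(k+1) x⌋`: it is in the range of the level `k + 1`, so
`hb (k+1) j' = hb (k+1) j''`, and `hb (k+1) j'' = hb k (j'' / 2)` since `chg (k+1) j'' = 0` (`(k+1, j'')` is not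
active: it satisfies the distance conditions), and `j'' / 2 = ⌊2^k x⌋` is in the range of the level `k`, so
`hb k (j'' / 2) = hb k j`. (Range of the level `k`: all the integers `j` with `-1/2 ≤ 2^k x - j ≤ 3/2` are at a distance at
most `2` from each other and `|x - j 2^-k| ≤ (3/2) 2^-k`.) -/
theorem Fp_active (h : Cl g M W ε K s) {z : ℂ} (hz : z ∈ Sp K) (hy : z.im ≤ 1 / 2) (hx : |z.re| ≤ 1)
    (hd : fderiv ℝ (Fp (av g s) M W ε g K) z ≠ 0) :
    ∃ (k : ℕ) (j : ℤ), k ≤ K ∧ act (av g s) M W (ε / 2) ε k j ∧ |z.re - j / 2 ^ k| ≤ 4 / 2 ^ k ∧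
      1 / (4 * 2 ^ k) ≤ z.im ∧ z.im ≤ 2 / 2 ^ k := by
  classical
  by_contra hcon
  push Not at hcon
  have hy0 := X6_Sp_pos hz
  -- nothing is active
  have hna : ∀ (k : ℕ) (j : ℤ), k ≤ K → |z.re - j / 2 ^ k| ≤ 4 / 2 ^ k → 1 / (4 * 2 ^ k) ≤ z.im →
      z.im ≤ 2 / 2 ^ k → ¬ rd (av g s) M W (ε / 2) k j ∧
        hb (av g s) ε k (j + 1) = hb (av g s) ε k j ∧ chg (av g s) ε k j = 0 := by
    intro k j hk h1 h2 h3
    have h4 : ¬ act (av g s) M W (ε / 2) ε k j := by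
      intro h5
      exact absurd h3 (not_le.mpr (hcon k j hk h5 h1 h2))
    unfold act at h4
    push Not at h4
    exact h4
  -- the integer parts
  set J : ℕ → ℤ := fun k => ⌊(2 : ℝ) ^ k * z.re⌋ with hJ
  have hJ1 : ∀ k, (J k : ℝ) ≤ 2 ^ k * z.re := fun k => Int.floor_le _
  have hJ2 : ∀ k, (2 : ℝ) ^ k * z.re < J k + 1 := fun k => Int.lt_floor_add_one _
  have hdist : ∀ (k : ℕ) (i : ℤ), |(2 : ℝ) ^ k * z.re - i| ≤ 4 → |z.re - i / 2 ^ k| ≤ 4 / 2 ^ k := by
    intro k i hi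
    have hp : (0 : ℝ) < 2 ^ k := by positivity
    have h5 : z.re - i / 2 ^ k = (2 ^ k * z.re - i) / 2 ^ k := by
      field_simp
    rw [h5, abs_div, abs_of_pos hp]
    gcongr
  -- two consecutive levels
  have hstep : ∀ k : ℕ, k + 1 ≤ K → 1 / (4 * 2 ^ (k + 1)) ≤ z.im → z.im ≤ 2 / 2 ^ (k + 1) →
      hb (av g s) ε (k + 1) (J (k + 1)) = hb (av g s) ε k (J k) := by
    intro k hk h1 h2
    have h3 := (hna (k + 1) (J (k + 1)) hk (hdist _ _ (by
      rw [abs_le]
      constructor <;> linarith [hJ1 (k + 1), hJ2 (k + 1)])) h1 h2).2.2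
    have h4 : J (k + 1) / 2 = J k := by
      rw [hJ]
      simp only
      have h5 : (2 : ℝ) ^ (k + 1) * z.re = (2 ^ k * z.re) * 2 := by rw [pow_succ]; ring
      rw [h5]
      set u : ℝ := 2 ^ k * z.re with hu
      have h6 : (⌊u⌋ : ℝ) ≤ u := Int.floor_le _
      have h7 : u < ⌊u⌋ + 1 := Int.lt_floor_add_one _
      have h8 : 2 * ⌊u⌋ ≤ ⌊u * 2⌋ := by
        rw [Int.le_floor]
        push_cast
        linarith
      have h9 : ⌊u * 2⌋ < 2 * ⌊u⌋ + 2 := by
        rw [Int.floor_lt]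
        push_cast
        linarith
      omega
    have h3' : (if hb (av g s) ε (k + 1) (J (k + 1)) = hb (av g s) ε k (J (k + 1) / 2) then (0 : ℝ)
        else 1) = 0 := by
      have h5 := h3
      simp only [chg] at h5
      exact h5
    rw [h4] at h3'
    by_contra hne
    rw [if_neg hne] at h3'
    exact one_ne_zero h3'
  have hlev : ∀ (k k' : ℕ), k ≤ k' → k' ≤ K → 1 / (4 * 2 ^ k) ≤ z.im → z.im ≤ 1 / 2 ^ k' →
      hb (av g s) ε k' (J k') = hb (av g s) ε k (J k) := by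
    intro k k' hkk
    induction k', hkk using Nat.le_induction with
    | base => intros; rfl
    | succ k' hkk ih =>
      intro hK h1 h2
      have h3 : (1 : ℝ) / 2 ^ (k' + 1) ≤ 1 / 2 ^ k' := by
        rw [pow_succ]
        apply one_div_le_one_div_of_le (by positivity)
        nlinarith [pow_pos (by norm_num : (0 : ℝ) < 2) k']
      have h4 : (1 : ℝ) / (4 * 2 ^ (k' + 1)) ≤ 1 / (4 * 2 ^ k) := by
        apply one_div_le_one_div_of_le (by positivity)
        have : (2 : ℝ) ^ k ≤ 2 ^ (k' + 1) := pow_le_pow_right₀ (by norm_num) (by omega)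
        linarith
      have h5 : (1 : ℝ) / 2 ^ (k' + 1) ≤ 2 / 2 ^ (k' + 1) := by
        gcongr
        norm_num
      rw [hstep k' hK (h4.trans h1) (h2.trans h5)]
      exact ih (by omega) h1 (h2.trans h3)
  -- one level
  have hone : ∀ (k : ℕ) (j : ℤ), k ≤ K → z ∈ Tst k j →
      ¬ rd (av g s) M W (ε / 2) k j ∧ hb (av g s) ε k j = hb (av g s) ε k (J k) := by
    intro k j hk hT
    have hp : (0 : ℝ) < 2 ^ k := by positivity
    have hT2 : z.im ≤ 2 / 2 ^ k := by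
      refine hT.2.1.trans ?_
      gcongr
      norm_num
    have ha := hT.2.2.1
    have hb' := hT.2.2.2
    refine ⟨(hna k j hk (hdist _ _ (by rw [abs_le]; constructor <;> linarith)) hT.1 hT2).1, ?_⟩
    have h1 := (hna k (J k) hk (hdist _ _ (by
      rw [abs_le]
      constructor <;> linarith [hJ1 k, hJ2 k])) hT.1 hT2).2.1
    have h2 := (hna k (J k - 1) hk (hdist _ _ (by
      push_cast
      rw [abs_le]
      constructor <;> linarith [hJ1 k, hJ2 k])) hT.1 hT2).2.1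
    rw [sub_add_cancel] at h2
    have h3 : j < J k + 2 := by
      have : (j : ℝ) < J k + 2 := by linarith [hJ2 k]
      exact_mod_cast this
    have h4 : J k - 2 < j := by
      have : (J k : ℝ) - 2 < j := by linarith [hJ1 k]
      exact_mod_cast this
    have h5 : j = J k - 1 ∨ j = J k ∨ j = J k + 1 := by omega
    rcases h5 with h5 | h5 | h5
    · rw [h5]; exact h2.symm
    · rw [h5]
    · rw [h5]; exact h1
  -- the common value
  obtain ⟨w, hw⟩ : ∃ w : ℂ, ∀ (k : ℕ) (j : ℤ), k ≤ K → z ∈ Tst k j → hb (av g s) ε k j = w := by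
    by_cases hex : ∃ k : ℕ, k ≤ K ∧ 1 / (4 * 2 ^ k) ≤ z.im ∧ z.im ≤ 1 / 2 ^ k
    · obtain ⟨k₀, hk₀, ha, hb'⟩ := hex
      refine ⟨hb (av g s) ε k₀ (J k₀), fun k j hk hT => ?_⟩
      rw [(hone k j hk hT).2]
      rcases le_total k k₀ with hle | hle
      · exact (hlev k k₀ hle hk₀ hT.1 hb').symm
      · exact hlev k₀ k hle hk ha hT.2.1
    · refine ⟨0, fun k j hk hT => ?_⟩
      exact absurd ⟨k, hk, hT.1, hT.2.1⟩ hex
  refine hd ?_
  ext X
  rw [Fp_fderiv h hz w X, ContinuousLinearMap.zero_apply]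
  obtain ⟨C₁, hC₁, hSt⟩ := St_deriv
  rw [(hSt z.im).2.1 hy, St_prop.2.2.1 _ hy]
  rw [Finset.sum_eq_zero]
  · simp
  · intro k hk
    have hk' : k ≤ K := Nat.lt_succ_iff.mp (Finset.mem_range.mp hk)
    refine Finset.sum_eq_zero fun j _ => ?_
    by_cases hT : z ∈ Tst k j
    · have h1 := hone k j hk' hT
      rw [X6_vl_neg h1.1]
      simp only [fderiv_fun_const, Pi.zero_apply, ContinuousLinearMap.zero_apply]
      rw [hw k j hk' hT]
      simp
    · rw [(psi_supp k j hT).1, (psi_supp k j hT).2]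
      simp

end Pool.Agent.MPca0fc2.FD
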