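import Pool.Agent.Lib.MP_ca0fc2_an.FD.X3
import Pool.Agent.Lib.MP_ca0fc2_an.Mg.G045

/-! The points of the disc which correspond to dyadic intervals; bounds of the invariant kernel. -/

set_option autoImplicit false

open Metric Set MeasureTheory Filter Topology

namespace Pool.Agent.MPca0fc2.FD

/-- the point of the dyadic interval -/
noncomputable def pt (k : ℕ) (j : ℤ) : ℂ := ex ((j / 2 ^ k : ℝ) + (1 / 2 ^ k : ℝ) * Complex.I)

private theorem X7_norm (k : ℕ) (j : ℤ) :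
    ‖pt k j‖ = Real.exp (-(2 * Real.pi * (1 / 2 ^ k))) := by
  unfold pt
  rw [ex_norm]
  congr 3
  simp only [Complex.add_im, Complex.ofReal_im, Complex.mul_im, Complex.ofReal_re, Complex.I_im,
    Complex.I_re, mul_one, mul_zero, add_zero, zero_add]

private theorem X7_sq (t : ℝ) : Real.exp (-(2 * Real.pi * t)) ^ 2 = Real.exp (-(4 * Real.pi * t)) := by
  rw [← Real.exp_nat_mul]
  congr 1
  push_cast
  ring

private theorem X7_one_sub_le (t : ℝ) : 1 - Real.exp (-t) ≤ t := by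
  have := Real.add_one_le_exp (-t)
  linarith

private theorem X7_one_sub_ge {t : ℝ} (ht : 0 ≤ t) : t / (1 + t) ≤ 1 - Real.exp (-t) := by
  have h1 : 1 + t ≤ Real.exp t := by
    have := Real.add_one_le_exp t
    linarith
  have h2 : 0 < 1 + t := by linarith
  have h3 : Real.exp (-t) ≤ 1 / (1 + t) := by
    rw [Real.exp_neg, inv_eq_one_div]
    exact one_div_le_one_div_of_le h2 h1
  have h4 : t / (1 + t) = 1 - 1 / (1 + t) := by
    field_simp
    ring
  rw [h4]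
  linarith

/-- PROOF. `ex_norm`: `‖pt‖ = e^(-2π 2^-k)`; `1 - e^(-t) ≤ t`. -/
theorem pt_norm (k : ℕ) (j : ℤ) : ‖pt k j‖ < 1 ∧ 1 - ‖pt k j‖ ^ 2 ≤ 4 * Real.pi / 2 ^ k := by
  constructor
  · rw [X7_norm, Real.exp_lt_one_iff]
    have : 0 < 2 * Real.pi * (1 / 2 ^ k : ℝ) := by positivity
    linarith
  · rw [X7_norm, X7_sq]
    have := X7_one_sub_le (4 * Real.pi * (1 / 2 ^ k))
    calc _ ≤ 4 * Real.pi * (1 / 2 ^ k) := this
      _ = _ := by ring

/-- PROOF. `ex_int`. -/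
theorem pt_per (k : ℕ) (j : ℤ) : pt k (j + 2 ^ k) = pt k j := by
  unfold pt
  rw [← ex_int (((j / 2 ^ k : ℝ) : ℂ) + ((1 / 2 ^ k : ℝ) : ℂ) * Complex.I) 1]
  congr 1
  have h : (((j + 2 ^ k : ℤ) : ℝ) / 2 ^ k) = (j : ℝ) / 2 ^ k + 1 := by
    push_cast
    field_simp
  rw [h]
  push_cast
  ring

private theorem X7_conj (k : ℕ) (j : ℤ) (z : ℂ) :
    (starRingEnd ℂ) (pt k j) * ex z =
      ex (((z.re - j / 2 ^ k : ℝ) : ℂ) + ((z.im + 1 / 2 ^ k : ℝ) : ℂ) * Complex.I) := by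
  unfold pt ex
  rw [← Complex.exp_conj, ← Complex.exp_add]
  congr 1
  have hz : z = (z.re : ℂ) + (z.im : ℂ) * Complex.I := (Complex.re_add_im z).symm
  conv_lhs => rw [hz]
  simp only [map_mul, map_add, Complex.conj_I, Complex.conj_ofReal, map_ofNat]
  push_cast
  ring

private theorem X7_pos (k : ℕ) (j : ℤ) {x : ℂ} (hx : ‖x‖ < 1) :
    0 < ‖1 - (starRingEnd ℂ) (pt k j) * x‖ := by
  have h1 : ‖(starRingEnd ℂ) (pt k j) * x‖ < 1 := by
    rw [norm_mul, Complex.norm_conj]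
    have := (pt_norm k j).1
    have h0 := norm_nonneg (pt k j)
    have h2 := norm_nonneg x
    nlinarith
  have h2 := norm_sub_norm_le (1 : ℂ) ((starRingEnd ℂ) (pt k j) * x)
  rw [norm_one] at h2
  linarith

/-- The kernel at a close point.
PROOF. With `c = j 2^-k + 2^-k i`: `conj (pt k j) * ex z = ex (z - conj c)` (`conj (exp (2πi c)) = exp (-2πi conj c)`), so
`‖1 - conj (pt) ex z‖ ≤ 2π |z - conj c| ≤ 2π (4 + 3) 2^-k` (`ex_ub`), `1 - ‖ex z‖² = 1 - e^(-4πy) ≥ c₀ 2^-k` for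
`y ≥ 2^-k / 4` (`1 - e^(-x) ≥ x / 2` for `0 ≤ x ≤ 1`, and `≥ 1/2` for `x ≥ 1`), `1 - ‖pt‖² ≥ c₀ 2^-k`. -/
theorem JJ_low : ∃ c : ℝ, 0 < c ∧ ∀ (k : ℕ) (j : ℤ) (z : ℂ), |z.re - j / 2 ^ k| ≤ 4 / 2 ^ k →
    1 / (4 * 2 ^ k) ≤ z.im → z.im ≤ 2 / 2 ^ k → c ≤ JJ (ex z) (pt k j) := by
  have hpi := Real.pi_pos
  refine ⟨(Real.pi / (1 + Real.pi)) ^ 2 / (14 * Real.pi) ^ 2, by positivity, ?_⟩
  intro k j z h1 h2 h3
  have hk : (0 : ℝ) < 2 ^ k := by positivity
  have hk1 : (1 : ℝ) ≤ 2 ^ k := one_le_pow₀ (by norm_num)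
  set h : ℝ := 1 / 2 ^ k with hh
  have hpos : 0 < h := by positivity
  have hle : h ≤ 1 := by
    rw [hh, div_le_one hk]
    exact hk1
  have e1 : (4 : ℝ) / 2 ^ k = 4 * h := by rw [hh]; ring
  have e2 : 1 / (4 * 2 ^ k) = h / 4 := by rw [hh]; field_simp
  have e3 : (2 : ℝ) / 2 ^ k = 2 * h := by rw [hh]; ring
  rw [e1] at h1
  rw [e2] at h2
  rw [e3] at h3
  have hy : 0 < z.im := by linarith
  -- the lower bound of 1 - e^(-t)
  have key : ∀ t : ℝ, Real.pi * h ≤ t → Real.pi / (1 + Real.pi) * h ≤ 1 - Real.exp (-t) := by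
    intro t ht
    have a1 := X7_one_sub_ge (t := Real.pi * h) (by positivity)
    have a2 : Real.exp (-t) ≤ Real.exp (-(Real.pi * h)) := by
      apply Real.exp_le_exp.2
      linarith
    have a3 : Real.pi / (1 + Real.pi) * h ≤ Real.pi * h / (1 + Real.pi * h) := by
      rw [div_mul_eq_mul_div]
      apply div_le_div_of_nonneg_left (by positivity) (by positivity)
      nlinarith
    linarith
  have b1 : Real.pi / (1 + Real.pi) * h ≤ 1 - ‖ex z‖ ^ 2 := by
    rw [ex_norm, X7_sq]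
    apply key
    nlinarith
  have b2 : Real.pi / (1 + Real.pi) * h ≤ 1 - ‖pt k j‖ ^ 2 := by
    rw [X7_norm, X7_sq]
    apply key
    nlinarith
  have b3 : ‖1 - (starRingEnd ℂ) (pt k j) * ex z‖ ≤ 14 * Real.pi * h := by
    rw [X7_conj]
    have him : (((z.re - j / 2 ^ k : ℝ) : ℂ) + ((z.im + 1 / 2 ^ k : ℝ) : ℂ) * Complex.I).im =
        z.im + h := by
      simp only [Complex.add_im, Complex.ofReal_im, Complex.mul_im, Complex.ofReal_re, Complex.I_im,
        Complex.I_re, mul_one, mul_zero, add_zero, zero_add, hh]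
    have c1 := ex_ub (z := ((z.re - j / 2 ^ k : ℝ) : ℂ) + ((z.im + 1 / 2 ^ k : ℝ) : ℂ) * Complex.I)
      (by rw [him]; linarith)
    have c2 : ‖((z.re - j / 2 ^ k : ℝ) : ℂ) + ((z.im + 1 / 2 ^ k : ℝ) : ℂ) * Complex.I‖ ≤ 7 * h := by
      refine (norm_add_le _ _).trans ?_
      rw [norm_mul, Complex.norm_I, mul_one, Complex.norm_real, Complex.norm_real,
        Real.norm_eq_abs, Real.norm_eq_abs, ← hh, abs_of_pos (show 0 < z.im + h by linarith)]
      linarith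
    calc _ ≤ _ := c1
      _ ≤ 2 * Real.pi * (7 * h) := by gcongr
      _ = _ := by ring
  have hx1 : ‖ex z‖ < 1 := by
    have := ex_mem hy
    rwa [mem_ball_zero_iff] at this
  have b4 := X7_pos k j hx1
  unfold JJ
  rw [div_le_div_iff₀ (by positivity) (by positivity)]
  have d1 : (Real.pi / (1 + Real.pi) * h) * (Real.pi / (1 + Real.pi) * h) ≤
      (1 - ‖ex z‖ ^ 2) * (1 - ‖pt k j‖ ^ 2) := by
    apply mul_le_mul b1 b2 (by positivity)
    exact le_trans (by positivity) b1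
  have d2 : ‖1 - (starRingEnd ℂ) (pt k j) * ex z‖ ^ 2 ≤ (14 * Real.pi * h) ^ 2 := by
    gcongr
  calc (Real.pi / (1 + Real.pi)) ^ 2 * ‖1 - (starRingEnd ℂ) (pt k j) * ex z‖ ^ 2
      ≤ (Real.pi / (1 + Real.pi)) ^ 2 * (14 * Real.pi * h) ^ 2 := by gcongr
    _ = (Real.pi / (1 + Real.pi) * h) * (Real.pi / (1 + Real.pi) * h) * (14 * Real.pi) ^ 2 := by ring
    _ ≤ _ := by gcongr

/-- The kernel at a general point of the disc.
PROOF. `x = ex z` with `z.im > 0` (`x ≠ 0`; `z = log x / (2πi)`), `c = j 2^-k + 2^-k i`,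
`‖1 - conj (pt) x‖ = ‖1 - ex (z - conj c)‖`, `z - conj c = (z.re - j 2^-k) + (z.im + 2^-k) i`. Let `ξ = z.re - j 2^-k - m`,
`m` an integer with `|ξ| ≤ 1/2`. If `z.im ≤ 1` then `ex_lb` gives `‖1 - ..‖ ≥ c₀ (z.im + 2^-k + |ξ|)`, and
`1 - |x|² ≤ 4π z.im`, `1 - ‖pt‖² ≤ 4π 2^-k`. -/
theorem JJ_upp : ∃ C : ℝ, 0 < C ∧ ∀ (k : ℕ) (j m : ℤ) (z : ℂ), 0 < z.im → z.im ≤ 1 →
    |z.re - j / 2 ^ k - m| ≤ 1 / 2 →
    JJ (ex z) (pt k j) ≤ C * (z.im * (1 / 2 ^ k)) / (z.im + 1 / 2 ^ k + |z.re - j / 2 ^ k - m|) ^ 2 := by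
  have hpi := Real.pi_pos
  obtain ⟨c, hc, hlb⟩ := ex_lb
  refine ⟨(4 * Real.pi) ^ 2 / c ^ 2, by positivity, ?_⟩
  intro k j m z hy hy1 hm
  have hk : (0 : ℝ) < 2 ^ k := by positivity
  have hk1 : (1 : ℝ) ≤ 2 ^ k := one_le_pow₀ (by norm_num)
  set h : ℝ := 1 / 2 ^ k with hh
  have hpos : 0 < h := by positivity
  have hle : h ≤ 1 := by
    rw [hh, div_le_one hk]
    exact hk1
  set ξ : ℝ := z.re - j / 2 ^ k - m with hξ
  have a1 : c * (z.im + h + |ξ|) ≤ ‖1 - (starRingEnd ℂ) (pt k j) * ex z‖ := by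
    rw [X7_conj]
    have e : ((z.re - j / 2 ^ k : ℝ) : ℂ) + ((z.im + 1 / 2 ^ k : ℝ) : ℂ) * Complex.I =
        ((ξ : ℂ) + ((z.im + h : ℝ) : ℂ) * Complex.I) + (m : ℂ) := by
      rw [hξ, hh]
      push_cast
      ring
    rw [e, ex_int]
    exact hlb ξ (z.im + h) (by linarith) (by linarith) (by linarith)
  have a2 : 1 - ‖ex z‖ ^ 2 ≤ 4 * Real.pi * z.im := by
    rw [ex_norm, X7_sq]
    exact X7_one_sub_le _
  have a3 : 1 - ‖pt k j‖ ^ 2 ≤ 4 * Real.pi * h := by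
    have := (pt_norm k j).2
    calc _ ≤ _ := this
      _ = _ := by rw [hh]; ring
  have a4 : 0 ≤ 1 - ‖pt k j‖ ^ 2 := by
    have := (pt_norm k j).1
    have h0 := norm_nonneg (pt k j)
    nlinarith
  have hv : 0 < z.im + h + |ξ| := by positivity
  unfold JJ
  have hx1 : ‖ex z‖ < 1 := by
    have := ex_mem hy
    rwa [mem_ball_zero_iff] at this
  have b4 := X7_pos k j hx1
  rw [div_le_div_iff₀ (by positivity) (by positivity)]
  calc (1 - ‖ex z‖ ^ 2) * (1 - ‖pt k j‖ ^ 2) * (z.im + h + |ξ|) ^ 2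
      ≤ (4 * Real.pi * z.im) * (4 * Real.pi * h) * (z.im + h + |ξ|) ^ 2 := by gcongr
    _ = (4 * Real.pi) ^ 2 / c ^ 2 * (z.im * h) * (c * (z.im + h + |ξ|)) ^ 2 := by
        field_simp
    _ ≤ _ := by gcongr

/-- Far from the boundary.
PROOF. `‖x‖ ≤ e^(-2π) < 1/2`, so `‖1 - conj η x‖ ≥ 1/2`, `JJ ≤ 4 (1 - ‖pt‖²)`. -/
theorem JJ_in (k : ℕ) (j : ℤ) {z : ℂ} (hz : 1 ≤ z.im) : JJ (ex z) (pt k j) ≤ 16 * Real.pi / 2 ^ k := by
  have hpi := Real.pi_pos
  have hx : ‖ex z‖ ≤ 1 / 2 := by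
    rw [ex_norm, Real.exp_neg, inv_eq_one_div]
    apply one_div_le_one_div_of_le (by norm_num)
    have h1 := Real.add_one_le_exp (2 * Real.pi * z.im)
    have h2 := Real.pi_gt_three
    nlinarith
  have h1 : 1 / 2 ≤ ‖1 - (starRingEnd ℂ) (pt k j) * ex z‖ := by
    have h2 := norm_sub_norm_le (1 : ℂ) ((starRingEnd ℂ) (pt k j) * ex z)
    rw [norm_one, norm_mul, Complex.norm_conj] at h2
    have h3 := (pt_norm k j).1
    have h0 := norm_nonneg (pt k j)
    have h4 := norm_nonneg (ex z)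
    nlinarith
  have h2 := (pt_norm k j).2
  have a4 : 0 ≤ 1 - ‖pt k j‖ ^ 2 := by
    have := (pt_norm k j).1
    have h0 := norm_nonneg (pt k j)
    nlinarith
  unfold JJ
  have hpos : 0 < ‖1 - (starRingEnd ℂ) (pt k j) * ex z‖ := by linarith
  rw [div_le_iff₀ (by positivity)]
  have h3 : (1 / 2 : ℝ) ^ 2 ≤ ‖1 - (starRingEnd ℂ) (pt k j) * ex z‖ ^ 2 := by gcongr
  have h5 : 0 ≤ ‖ex z‖ ^ 2 := by positivity
  calc (1 - ‖ex z‖ ^ 2) * (1 - ‖pt k j‖ ^ 2) ≤ 1 * (4 * Real.pi / 2 ^ k) := by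
        apply mul_le_mul (by linarith) h2 a4 (by norm_num)
    _ = 16 * Real.pi / 2 ^ k * (1 / 2) ^ 2 := by ring
    _ ≤ _ := by gcongr

/-- PROOF. `L ≥ 1` since `v < 4`. Let `m < L` be the largest number with `v ≤ 4 / 2^m` (`m = 0` is one). Then
`4 / 2^(m+1) ≤ v` (if `m + 1 < L` by the choice of `m`, if `m + 1 = L` by `hL`), so `1 / v² ≤ 4^(m+1) / 16 ≤ 4^m`. -/
theorem inv_sq_le {v : ℝ} (hv : 0 < v) (hv3 : v < 4) {L : ℕ} (hL : 4 / 2 ^ L ≤ v) :
    1 / v ^ 2 ≤ ∑ m ∈ Finset.range L, if v ≤ 4 / 2 ^ m then (4 : ℝ) ^ m else 0 := by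
  induction L with
  | zero =>
    norm_num at hL
    linarith
  | succ L ih =>
    rw [Finset.sum_range_succ]
    by_cases h : v ≤ 4 / 2 ^ L
    · rw [if_pos h]
      have h1 : 0 ≤ ∑ m ∈ Finset.range L, (if v ≤ 4 / 2 ^ m then (4 : ℝ) ^ m else 0) := by
        apply Finset.sum_nonneg
        intro m _
        split_ifs <;> positivity
      have h2 : 1 / v ^ 2 ≤ 4 ^ L := by
        have h3 : (4 / 2 ^ (L + 1)) ^ 2 ≤ v ^ 2 := by gcongr
        have h4 : 1 / v ^ 2 ≤ 1 / (4 / 2 ^ (L + 1)) ^ 2 :=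
          one_div_le_one_div_of_le (by positivity) h3
        refine h4.trans ?_
        have h5 : ((4 : ℝ)) ^ L = (2 ^ L) ^ 2 := by
          rw [← pow_mul, mul_comm, pow_mul]
          norm_num
        have h6 : 1 / (4 / 2 ^ (L + 1)) ^ 2 = ((2 : ℝ) ^ L) ^ 2 / 4 := by
          rw [pow_succ 2 L]
          field_simp
          norm_num
        rw [h5, h6]
        have h7 : (0 : ℝ) ≤ (2 ^ L) ^ 2 := by positivity
        linarith
      linarith
    · rw [if_neg h, add_zero]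
      exact ih (le_of_lt (not_le.1 h))

private theorem X7_per {A : ℕ → ℤ → Prop} (hp : ∀ k j, A k (j + 2 ^ k) ↔ A k j) (k : ℕ) (j i : ℤ) :
    A k (j + 2 ^ k * i) ↔ A k j := by
  induction i using Int.induction_on with
  | zero => simp
  | succ i ih =>
    rw [← ih, ← hp k (j + 2 ^ k * i)]
    ring_nf
  | pred i ih =>
    rw [← ih, ← hp k (j + 2 ^ k * (-(i : ℤ) - 1))]
    ring_nf

open Classical in
private theorem X7_card {A : ℕ → ℤ → Prop} (hp : ∀ k j, A k (j + 2 ^ k) ↔ A k j) (k : ℕ) (a b : ℤ) :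
    ((Finset.Ico (0 : ℤ) (2 ^ k)).filter
      (fun j => A k j ∧ ∃ i : ℤ, a ≤ j + 2 ^ k * i ∧ j + 2 ^ k * i < b)).card ≤
    ((Finset.Ico a b).filter (fun t => A k t)).card := by
  refine le_trans (Finset.card_le_card (t := ((Finset.Ico a b).filter (fun t => A k t)).image
    (fun t => t % 2 ^ k)) ?_) Finset.card_image_le
  intro j hj
  rw [Finset.mem_filter, Finset.mem_Ico] at hj
  obtain ⟨⟨h0, h1⟩, hA, i, h2, h3⟩ := hj
  rw [Finset.mem_image]
  refine ⟨j + 2 ^ k * i, ?_, ?_⟩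
  · rw [Finset.mem_filter, Finset.mem_Ico]
    exact ⟨⟨h2, h3⟩, (X7_per hp k j i).2 hA⟩
  · rw [Int.add_mul_emod_self_left]
    exact Int.emod_eq_of_lt h0 h1

open Classical in
private theorem X7_one {A : ℕ → ℤ → Prop} {B : ℝ} (hA : Pk (fun k j => if A k j then 1 else 0) B)
    (hp : ∀ k j, A k (j + 2 ^ k) ↔ A k j) (K m : ℕ) (P : ℤ) :
    ∑ k ∈ Finset.range (K + 1), ∑ j ∈ Finset.Ico (0 : ℤ) (2 ^ k),
      (if m ≤ k ∧ A k j ∧ ∃ i : ℤ, 2 ^ (k - m) * P ≤ j + 2 ^ k * i ∧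
        j + 2 ^ k * i < 2 ^ (k - m) * (P + 1) then (1 : ℝ) / 2 ^ k else 0) ≤ B / 2 ^ m := by
  have hB := Pk_nonneg hA
  have e : ∀ k : ℕ, ∑ j ∈ Finset.Ico (0 : ℤ) (2 ^ k),
      (if m ≤ k ∧ A k j ∧ ∃ i : ℤ, 2 ^ (k - m) * P ≤ j + 2 ^ k * i ∧
        j + 2 ^ k * i < 2 ^ (k - m) * (P + 1) then (1 : ℝ) / 2 ^ k else 0) ≤
      if m ≤ k then (1 / 2 ^ m) * (((2 : ℝ) ^ (k - m))⁻¹ *
        ∑ i ∈ Finset.Ico (2 ^ (k - m) * P) (2 ^ (k - m) * (P + 1)),
          (if A (m + (k - m)) i then (1 : ℝ) else 0)) else 0 := by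
    intro k
    by_cases hk : m ≤ k
    · rw [if_pos hk]
      have h1 : ∑ j ∈ Finset.Ico (0 : ℤ) (2 ^ k),
          (if m ≤ k ∧ A k j ∧ ∃ i : ℤ, 2 ^ (k - m) * P ≤ j + 2 ^ k * i ∧
            j + 2 ^ k * i < 2 ^ (k - m) * (P + 1) then (1 : ℝ) / 2 ^ k else 0) =
          (((Finset.Ico (0 : ℤ) (2 ^ k)).filter
            (fun j => A k j ∧ ∃ i : ℤ, 2 ^ (k - m) * P ≤ j + 2 ^ k * i ∧
              j + 2 ^ k * i < 2 ^ (k - m) * (P + 1))).card : ℝ) * (1 / 2 ^ k) := by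
        rw [← Finset.sum_filter, Finset.sum_const, nsmul_eq_mul]
        congr 3
        ext j
        simp [hk]
      rw [h1]
      have h2 : ∑ i ∈ Finset.Ico (2 ^ (k - m) * P) (2 ^ (k - m) * (P + 1)),
          (if A (m + (k - m)) i then (1 : ℝ) else 0) =
          (((Finset.Ico (2 ^ (k - m) * P) (2 ^ (k - m) * (P + 1))).filter
            (fun t => A k t)).card : ℝ) := by
        rw [Nat.add_sub_cancel' hk, ← Finset.sum_filter, Finset.sum_const, nsmul_eq_mul, mul_one]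
      rw [h2]
      have h3 : (1 : ℝ) / 2 ^ k = 1 / 2 ^ m * (2 ^ (k - m))⁻¹ := by
        rw [← one_div, one_div_mul_one_div, ← pow_add, Nat.add_sub_cancel' hk]
      rw [h3]
      have h4 := X7_card hp k (2 ^ (k - m) * P) (2 ^ (k - m) * (P + 1))
      have h5 : (((Finset.Ico (0 : ℤ) (2 ^ k)).filter
            (fun j => A k j ∧ ∃ i : ℤ, 2 ^ (k - m) * P ≤ j + 2 ^ k * i ∧
              j + 2 ^ k * i < 2 ^ (k - m) * (P + 1))).card : ℝ) ≤
          (((Finset.Ico (2 ^ (k - m) * P) (2 ^ (k - m) * (P + 1))).filter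
            (fun t => A k t)).card : ℝ) := by exact_mod_cast h4
      calc _ ≤ (((Finset.Ico (2 ^ (k - m) * P) (2 ^ (k - m) * (P + 1))).filter
            (fun t => A k t)).card : ℝ) * (1 / 2 ^ m * (2 ^ (k - m))⁻¹) := by gcongr
        _ = _ := by ring
    · rw [if_neg hk]
      apply le_of_eq
      apply Finset.sum_eq_zero
      intro j _
      rw [if_neg]
      tauto
  refine (Finset.sum_le_sum (fun k _ => e k)).trans ?_
  rw [← Finset.sum_filter, ← Finset.mul_sum]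
  have hBm : B / 2 ^ m = 1 / 2 ^ m * B := by ring
  rw [hBm]
  apply mul_le_mul_of_nonneg_left _ (by positivity)
  have h6 := hA m P (K + 1 - m)
  refine le_trans (le_of_eq ?_) h6
  apply Finset.sum_bij (fun k _ => k - m)
  · intro k hk
    rw [Finset.mem_filter, Finset.mem_range] at hk
    rw [Finset.mem_range]
    omega
  · intro k hk k' hk' h
    rw [Finset.mem_filter, Finset.mem_range] at hk hk'
    omega
  · intro l hl
    rw [Finset.mem_range] at hl
    refine ⟨m + l, ?_, by omega⟩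
    rw [Finset.mem_filter, Finset.mem_range]
    omega
  · intro k hk
    rfl

open Classical in
/-- The active points in a sector.
Let `A : ℕ → ℤ → Prop` be periodic (`A k (j + 2^k) ↔ A k j`) with a packing condition.
PROOF. The pairs `(k, j)` in the sum have `m - 2 ≤ k` (`1 / 2^k ≤ 4 / 2^m`) and `j 2^-k` is within `4 2^-m` of `x` modulo `1`. If `m ≤ 2`:
all the pairs, the sum is at most `∑_(k ≤ K) 2^-k #{j : A k j} ≤ B` (the packing condition for `(0, 0)`,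
`Ico 0 (2^k)`), `≤ 4 B / 2^m..`. If `m ≥ 3`: let `m' = m - 2`; `j 2^-k` is in one of the dyadic intervals
`[p 2^-m', (p + 1) 2^-m')`, where `p` is an integer within `2` of `2^m' (x + integer)`: `p ∈ {p₀ - 2, .., p₀ + 2}` modulo
`2^m'`, `p₀ = ⌊2^m' x⌋`. For each of these `5` residues, replace `j` by `j + 2^k i` so that `j ∈ Ico (2^(k-m') p) (2^(k-m') (p+1))` with the
same `A`, and the packing condition for `(m', p)` bounds the sum of `2^-(k-m')` by `B`, so the sum of `2^-k` by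
`B 2^-m' = 4 B 2^-m`. The total is at most `20 B / 2^m`. -/
theorem sector_sum {A : ℕ → ℤ → Prop} {B : ℝ} (hA : Pk (fun k j => if A k j then 1 else 0) B)
    (hp : ∀ k j, A k (j + 2 ^ k) ↔ A k j) (K m : ℕ) (x : ℝ) :
    ∑ k ∈ Finset.range (K + 1), ∑ j ∈ Finset.Ico (0 : ℤ) (2 ^ k),
      (if A k j ∧ 1 / 2 ^ k ≤ (4 : ℝ) / 2 ^ m ∧ ∃ i : ℤ, |x - j / 2 ^ k - i| ≤ 4 / 2 ^ m
        then (1 : ℝ) / 2 ^ k else 0) ≤ 20 * B / 2 ^ m := by
  have hB := Pk_nonneg hA
  have h2m : (0 : ℝ) < 2 ^ m := by positivity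
  rcases Nat.lt_or_ge m 3 with hm | hm
  · -- all the pairs
    have h1 := X7_one hA hp K 0 0
    have h2 : B / 2 ^ 0 ≤ 20 * B / 2 ^ m := by
      rw [pow_zero, div_one, le_div_iff₀ h2m]
      have h3 : (2 : ℝ) ^ m ≤ 2 ^ 2 := pow_le_pow_right₀ (by norm_num) (by omega)
      nlinarith
    refine le_trans ?_ (h1.trans h2)
    apply Finset.sum_le_sum
    intro k _
    apply Finset.sum_le_sum
    intro j hj
    rw [Finset.mem_Ico] at hj
    by_cases h : A k j
    · rw [if_pos (c := 0 ≤ k ∧ A k j ∧ _)]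
      · split_ifs
        · exact le_rfl
        · positivity
      · refine ⟨Nat.zero_le _, h, 0, ?_, ?_⟩
        · simpa using hj.1
        · simpa using hj.2
    · rw [if_neg (by tauto), if_neg (by tauto)]
  · obtain ⟨n, rfl⟩ : ∃ n, m = n + 2 := ⟨m - 2, by omega⟩
    have e4 : (4 : ℝ) / 2 ^ (n + 2) = 1 / 2 ^ n := by
      rw [pow_add]
      field_simp
      norm_num
    rw [e4]
    have hn : (0 : ℝ) < 2 ^ n := by positivity
    set p₀ : ℤ := ⌊2 ^ n * x⌋ with hp₀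
    have key : ∀ k ∈ Finset.range (K + 1), ∀ j ∈ Finset.Ico (0 : ℤ) (2 ^ k),
        (if A k j ∧ 1 / 2 ^ k ≤ (1 : ℝ) / 2 ^ n ∧ ∃ i : ℤ, |x - j / 2 ^ k - i| ≤ 1 / 2 ^ n
          then (1 : ℝ) / 2 ^ k else 0) ≤
        ∑ q ∈ Finset.Icc (p₀ - 1) (p₀ + 1),
          (if n ≤ k ∧ A k j ∧ ∃ i : ℤ, 2 ^ (k - n) * q ≤ j + 2 ^ k * i ∧
            j + 2 ^ k * i < 2 ^ (k - n) * (q + 1) then (1 : ℝ) / 2 ^ k else 0) := by
      intro k _ j hj
      by_cases h : A k j ∧ 1 / 2 ^ k ≤ (1 : ℝ) / 2 ^ n ∧ ∃ i : ℤ, |x - j / 2 ^ k - i| ≤ 1 / 2 ^ n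
      · rw [if_pos h]
        obtain ⟨hAk, hkn, i, hi⟩ := h
        have hnk : n ≤ k := by
          have h5 : (2 : ℝ) ^ n ≤ 2 ^ k := (one_div_le_one_div (by positivity) (by positivity)).1 hkn
          exact (pow_le_pow_iff_right₀ (by norm_num : (1 : ℝ) < 2)).1 h5
        have hk2 : (2 : ℝ) ^ k = 2 ^ (k - n) * 2 ^ n := by
          rw [← pow_add, Nat.sub_add_cancel hnk]
        have hkn0 : (0 : ℝ) < 2 ^ (k - n) := by positivity
        set w : ℝ := 2 ^ n * (j / 2 ^ k + i) with hw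
        have hw1 : |2 ^ n * x - w| ≤ 1 := by
          have : 2 ^ n * x - w = 2 ^ n * (x - j / 2 ^ k - i) := by rw [hw]; ring
          rw [this, abs_mul, abs_of_pos hn]
          calc (2 : ℝ) ^ n * |x - j / 2 ^ k - i| ≤ 2 ^ n * (1 / 2 ^ n) := by gcongr
            _ = 1 := by field_simp
        rw [abs_le] at hw1
        have hq : ⌊w⌋ ∈ Finset.Icc (p₀ - 1) (p₀ + 1) := by
          rw [Finset.mem_Icc]
          have f1 := Int.floor_le w
          have f2 := Int.lt_floor_add_one w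
          have f3 := Int.floor_le (2 ^ n * x)
          have f4 := Int.lt_floor_add_one (2 ^ n * x)
          rw [← hp₀] at f3 f4
          constructor
          · have : ((p₀ : ℤ) : ℝ) - 1 < (⌊w⌋ : ℝ) + 1 := by linarith [hw1.2]
            have h7 : p₀ - 1 < ⌊w⌋ + 1 := by exact_mod_cast this
            omega
          · have : (⌊w⌋ : ℝ) < (p₀ : ℝ) + 1 + 1 := by linarith [hw1.1]
            have h7 : ⌊w⌋ < p₀ + 1 + 1 := by exact_mod_cast this
            omega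
        refine le_trans (le_of_eq ?_) (Finset.single_le_sum
          (f := fun q => if n ≤ k ∧ A k j ∧ ∃ i : ℤ, 2 ^ (k - n) * q ≤ j + 2 ^ k * i ∧
            j + 2 ^ k * i < 2 ^ (k - n) * (q + 1) then (1 : ℝ) / 2 ^ k else 0)
          (fun q _ => by split_ifs <;> positivity) hq)
        rw [if_pos]
        refine ⟨hnk, hAk, i, ?_, ?_⟩
        · have f1 := Int.floor_le w
          have g1 : (2 : ℝ) ^ (k - n) * (⌊w⌋ : ℝ) ≤ j + 2 ^ k * i := by
            calc (2 : ℝ) ^ (k - n) * (⌊w⌋ : ℝ) ≤ 2 ^ (k - n) * w := by gcongr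
              _ = j + 2 ^ k * i := by
                  rw [hw, hk2]
                  field_simp
          exact_mod_cast g1
        · have f2 := Int.lt_floor_add_one w
          have g1 : (j : ℝ) + 2 ^ k * i < 2 ^ (k - n) * ((⌊w⌋ : ℝ) + 1) := by
            calc (j : ℝ) + 2 ^ k * i = 2 ^ (k - n) * w := by
                  rw [hw, hk2]
                  field_simp
              _ < _ := by gcongr
          exact_mod_cast g1
      · rw [if_neg h]
        apply Finset.sum_nonneg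
        intro q _
        split_ifs <;> positivity
    calc _ ≤ ∑ k ∈ Finset.range (K + 1), ∑ j ∈ Finset.Ico (0 : ℤ) (2 ^ k),
          ∑ q ∈ Finset.Icc (p₀ - 1) (p₀ + 1),
            (if n ≤ k ∧ A k j ∧ ∃ i : ℤ, 2 ^ (k - n) * q ≤ j + 2 ^ k * i ∧
              j + 2 ^ k * i < 2 ^ (k - n) * (q + 1) then (1 : ℝ) / 2 ^ k else 0) :=
          Finset.sum_le_sum (fun k hk => Finset.sum_le_sum (fun j hj => key k hk j hj))
      _ = ∑ q ∈ Finset.Icc (p₀ - 1) (p₀ + 1), ∑ k ∈ Finset.range (K + 1),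
          ∑ j ∈ Finset.Ico (0 : ℤ) (2 ^ k),
            (if n ≤ k ∧ A k j ∧ ∃ i : ℤ, 2 ^ (k - n) * q ≤ j + 2 ^ k * i ∧
              j + 2 ^ k * i < 2 ^ (k - n) * (q + 1) then (1 : ℝ) / 2 ^ k else 0) := by
          rw [Finset.sum_comm]
          apply Finset.sum_congr rfl
          intro k _
          rw [Finset.sum_comm]
      _ ≤ ∑ q ∈ Finset.Icc (p₀ - 1) (p₀ + 1), B / 2 ^ n :=
          Finset.sum_le_sum (fun q _ => X7_one hA hp K n q)
      _ ≤ 20 * B / 2 ^ (n + 2) := by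
          rw [Finset.sum_const, nsmul_eq_mul, Int.card_Icc]
          have : (p₀ + 1 + 1 - (p₀ - 1)).toNat = 3 := by
            have : p₀ + 1 + 1 - (p₀ - 1) = 3 := by ring
            rw [this]
            rfl
          rw [this]
          have e5 : 20 * B / 2 ^ (n + 2) = 5 * (B / 2 ^ n) := by
            rw [pow_add]
            ring
          rw [e5]
          have : 0 ≤ B / 2 ^ n := by positivity
          push_cast
          linarith

open Classical in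
/-- The sum of the kernels.
PROOF. If `x = 0`, or `x = ex z` with `z.im ≥ 1`: `JJ ≤ 16π 2^-k` (for `x = 0`, `JJ 0 η = 1 - ‖η‖²`), and the sum of
`2^-k` is at most `20 B` (`sector_sum` with `m = 0`: `|x - j/2^k - i| ≤ 4` for a suitable `i`). Let `x = ex z`,
`0 < y = z.im < 1`. For each `(k, j)` choose the integer `m(k, j)` nearest to `z.re - j 2^-k`, and
`v = y + 2^-k + |z.re - j 2^-k - m(k,j)| ≤ 1 + 1 + 1/2`. `JJ_upp`: `JJ ≤ C y 2^-k / v²`. With `L` such that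
`4 / 2^L ≤ y`, (smallest: `y < 8 / 2^L`), `inv_sq_le` gives
`JJ ≤ C y ∑_(m < L) 4^m [v ≤ 4 / 2^m] 2^-k`, and `v ≤ 4 / 2^m` implies the condition of `sector_sum`. So
`∑ JJ ≤ C y ∑_(m < L) 4^m 20 B / 2^m = 20 C B y ∑_(m < L) 2^m ≤ 20 C B y 2^L ≤ 160 C B`. -/
theorem JJ_sum : ∃ C : ℝ, 0 < C ∧ ∀ (A : ℕ → ℤ → Prop) (B : ℝ),
    Pk (fun k j => if A k j then 1 else 0) B → (∀ k j, A k (j + 2 ^ k) ↔ A k j) → ∀ (K : ℕ) (x : ℂ),
    ‖x‖ < 1 → ∑ k ∈ Finset.range (K + 1), ∑ j ∈ (Finset.Ico (0 : ℤ) (2 ^ k)).filter (fun j => A k j),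
      JJ x (pt k j) ≤ C * B := by
  have hpi := Real.pi_pos
  obtain ⟨C, hC, hJ⟩ := JJ_upp
  refine ⟨160 * C + 16 * Real.pi, by positivity, ?_⟩
  intro A B hA hp K x hx
  have hB := Pk_nonneg hA
  -- the easy case
  have easy : (∀ (k : ℕ) (j : ℤ), JJ x (pt k j) ≤ 16 * Real.pi / 2 ^ k) →
      ∑ k ∈ Finset.range (K + 1), ∑ j ∈ (Finset.Ico (0 : ℤ) (2 ^ k)).filter (fun j => A k j),
        JJ x (pt k j) ≤ (160 * C + 16 * Real.pi) * B := by
    intro h
    have h1 := X7_one hA hp K 0 0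
    rw [pow_zero, div_one] at h1
    have h2 : ∑ k ∈ Finset.range (K + 1),
        ∑ j ∈ (Finset.Ico (0 : ℤ) (2 ^ k)).filter (fun j => A k j), JJ x (pt k j) ≤
        16 * Real.pi * ∑ k ∈ Finset.range (K + 1), ∑ j ∈ Finset.Ico (0 : ℤ) (2 ^ k),
          (if 0 ≤ k ∧ A k j ∧ ∃ i : ℤ, 2 ^ (k - 0) * (0 : ℤ) ≤ j + 2 ^ k * i ∧
            j + 2 ^ k * i < 2 ^ (k - 0) * ((0 : ℤ) + 1) then (1 : ℝ) / 2 ^ k else 0) := by
      rw [Finset.mul_sum]
      apply Finset.sum_le_sum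
      intro k _
      rw [Finset.mul_sum, Finset.sum_filter]
      apply Finset.sum_le_sum
      intro j hj
      rw [Finset.mem_Ico] at hj
      by_cases hAj : A k j
      · rw [if_pos hAj, if_pos]
        · calc _ ≤ _ := h k j
            _ = _ := by ring
        · refine ⟨Nat.zero_le _, hAj, 0, ?_, ?_⟩
          · simpa using hj.1
          · simpa using hj.2
      · rw [if_neg hAj, if_neg (by tauto), mul_zero]
    calc _ ≤ _ := h2
      _ ≤ 16 * Real.pi * B := by gcongr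
      _ ≤ _ := by
        have : 0 ≤ 160 * C * B := by positivity
        linarith
  by_cases hx0 : x = 0
  · apply easy
    intro k j
    have h1 := (pt_norm k j).2
    unfold JJ
    rw [hx0]
    simp only [norm_zero, mul_zero, sub_zero, norm_one, one_pow, div_one]
    have : (1 - (0 : ℝ) ^ 2) * (1 - ‖pt k j‖ ^ 2) = 1 - ‖pt k j‖ ^ 2 := by ring
    rw [this]
    refine h1.trans ?_
    gcongr
    norm_num
  -- coordinates
  obtain ⟨z, hz⟩ : ∃ z : ℂ, ex z = x := by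
    refine ⟨Complex.log x / (2 * Real.pi * Complex.I), ?_⟩
    unfold ex
    rw [mul_div_cancel₀]
    · exact Complex.exp_log hx0
    · simp [Real.pi_ne_zero, Complex.I_ne_zero]
  have hy : 0 < z.im := by
    rw [← hz, ex_norm, Real.exp_lt_one_iff] at hx
    nlinarith
  rcases le_or_gt 1 z.im with hy1 | hy1
  · apply easy
    intro k j
    rw [← hz]
    exact JJ_in k j hy1
  -- the main case
  have hex : ∃ L : ℕ, (4 : ℝ) / 2 ^ L ≤ z.im := by
    obtain ⟨L, hL⟩ := pow_unbounded_of_one_lt (4 / z.im) (by norm_num : (1 : ℝ) < 2)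
    refine ⟨L, ?_⟩
    rw [div_le_iff₀ (by positivity)]
    rw [div_lt_iff₀ hy] at hL
    linarith
  obtain ⟨L, hL, hLmin⟩ : ∃ L : ℕ, (4 : ℝ) / 2 ^ L ≤ z.im ∧ z.im * 2 ^ L ≤ 8 := by
    refine ⟨Nat.find hex, Nat.find_spec hex, ?_⟩
    have h0 : Nat.find hex ≠ 0 := by
      intro h
      have := Nat.find_spec hex
      rw [h] at this
      norm_num at this
      linarith
    obtain ⟨L', hL'⟩ := Nat.exists_eq_succ_of_ne_zero h0
    have h1 := Nat.find_min hex (m := L') (by omega)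
    rw [not_le, lt_div_iff₀ (by positivity)] at h1
    rw [hL', pow_succ]
    linarith
  have hterm : ∀ (k : ℕ) (j : ℤ), JJ x (pt k j) ≤
      C * z.im * ∑ m ∈ Finset.range L, (4 : ℝ) ^ m *
        (if 1 / 2 ^ k ≤ (4 : ℝ) / 2 ^ m ∧ ∃ i : ℤ, |z.re - j / 2 ^ k - i| ≤ 4 / 2 ^ m
          then (1 : ℝ) / 2 ^ k else 0) := by
    intro k j
    have hk : (0 : ℝ) < 2 ^ k := by positivity
    have hk1 : (1 : ℝ) ≤ 2 ^ k := one_le_pow₀ (by norm_num)
    have hle : (1 : ℝ) / 2 ^ k ≤ 1 := by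
      rw [div_le_one hk]
      exact hk1
    set i : ℤ := round (z.re - j / 2 ^ k) with hi
    have hr : |z.re - j / 2 ^ k - i| ≤ 1 / 2 := abs_sub_round _
    have h1 := hJ k j i z hy hy1.le hr
    rw [← hz]
    refine h1.trans ?_
    set v : ℝ := z.im + 1 / 2 ^ k + |z.re - j / 2 ^ k - i| with hv
    have hk0 : (0 : ℝ) < 1 / 2 ^ k := by positivity
    have hv0 : 0 < v := by positivity
    have hv4 : v < 4 := by linarith
    have hab := abs_nonneg (z.re - j / 2 ^ k - i)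
    have h2 := inv_sq_le hv0 hv4 (L := L) (by linarith)
    calc C * (z.im * (1 / 2 ^ k)) / v ^ 2 = C * z.im * (1 / 2 ^ k) * (1 / v ^ 2) := by ring
      _ ≤ C * z.im * (1 / 2 ^ k) * ∑ m ∈ Finset.range L, if v ≤ 4 / 2 ^ m then (4 : ℝ) ^ m else 0 := by
          gcongr
      _ = C * z.im * ∑ m ∈ Finset.range L, (1 / 2 ^ k) * (if v ≤ 4 / 2 ^ m then (4 : ℝ) ^ m else 0) := by
          rw [← Finset.mul_sum]
          ring
      _ ≤ _ := by
          apply mul_le_mul_of_nonneg_left _ (by positivity)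
          apply Finset.sum_le_sum
          intro m _
          by_cases hvm : v ≤ 4 / 2 ^ m
          · rw [if_pos hvm, if_pos]
            · exact le_of_eq (mul_comm _ _)
            · exact ⟨by linarith, i, by linarith⟩
          · rw [if_neg hvm, mul_zero]
            split_ifs <;> positivity
  calc ∑ k ∈ Finset.range (K + 1), ∑ j ∈ (Finset.Ico (0 : ℤ) (2 ^ k)).filter (fun j => A k j),
        JJ x (pt k j)
      ≤ ∑ k ∈ Finset.range (K + 1), ∑ j ∈ (Finset.Ico (0 : ℤ) (2 ^ k)).filter (fun j => A k j),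
        C * z.im * ∑ m ∈ Finset.range L, (4 : ℝ) ^ m *
        (if 1 / 2 ^ k ≤ (4 : ℝ) / 2 ^ m ∧ ∃ i : ℤ, |z.re - j / 2 ^ k - i| ≤ 4 / 2 ^ m
          then (1 : ℝ) / 2 ^ k else 0) :=
        Finset.sum_le_sum (fun k _ => Finset.sum_le_sum (fun j _ => hterm k j))
    _ = C * z.im * ∑ m ∈ Finset.range L, (4 : ℝ) ^ m *
        ∑ k ∈ Finset.range (K + 1), ∑ j ∈ Finset.Ico (0 : ℤ) (2 ^ k),
        (if A k j ∧ 1 / 2 ^ k ≤ (4 : ℝ) / 2 ^ m ∧ ∃ i : ℤ, |z.re - j / 2 ^ k - i| ≤ 4 / 2 ^ m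
          then (1 : ℝ) / 2 ^ k else 0) := by
        simp only [Finset.mul_sum]
        rw [Finset.sum_comm' (t' := Finset.range (K + 1)) (s' := fun _ => Finset.range L)
          (by intro a b; tauto)]
        apply Finset.sum_congr rfl
        intro k _
        rw [Finset.sum_comm]
        apply Finset.sum_congr rfl
        intro m _
        rw [Finset.sum_filter]
        apply Finset.sum_congr rfl
        intro j _
        by_cases hAj : A k j
        · simp [hAj]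
        · simp [hAj]
    _ ≤ C * z.im * ∑ m ∈ Finset.range L, (4 : ℝ) ^ m * (20 * B / 2 ^ m) := by
        apply mul_le_mul_of_nonneg_left _ (by positivity)
        apply Finset.sum_le_sum
        intro m _
        apply mul_le_mul_of_nonneg_left _ (by positivity)
        exact sector_sum hA hp K m z.re
    _ = 20 * B * C * (z.im * ∑ m ∈ Finset.range L, (2 : ℝ) ^ m) := by
        have : ∀ m : ℕ, (4 : ℝ) ^ m * (20 * B / 2 ^ m) = 20 * B * 2 ^ m := by
          intro m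
          have h4 : (4 : ℝ) ^ m = 2 ^ m * 2 ^ m := by
            rw [← mul_pow]
            norm_num
          rw [h4]
          field_simp
        simp only [this, ← Finset.mul_sum]
        ring
    _ ≤ 20 * B * C * 8 := by
        apply mul_le_mul_of_nonneg_left _ (by positivity)
        have h1 : ∑ m ∈ Finset.range L, (2 : ℝ) ^ m = 2 ^ L - 1 := by
          rw [geom_sum_eq (by norm_num)]
          norm_num
        rw [h1]
        nlinarith
    _ ≤ _ := by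
        have : 0 ≤ 16 * Real.pi * B := by positivity
        linarith

end Pool.Agent.MPca0fc2.FD
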