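import Pool.Agent.Lib.MP_ca0fc2_an.FD.X6
import Pool.Agent.Lib.MP_ca0fc2_an.FD.X7

/-! The approximating function on the disc. -/

set_option autoImplicit false

open Metric Set MeasureTheory Filter Topology

namespace Pool.Agent.MPca0fc2.FD

/-- the inverse of the exponential map -/
noncomputable def Lg (x : ℂ) : ℂ := Complex.log x / (2 * Real.pi * Complex.I)

/-- PROOF. `Complex.exp_log`, `Complex.log_re`, `Complex.log_im`, `|arg| ≤ π`: `Lg x = arg x / (2π) - i log ‖x‖ / (2π)`. -/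
theorem Lg_prop {x : ℂ} (hx : x ≠ 0) : ex (Lg x) = x ∧ (Lg x).im = -(Real.log ‖x‖ / (2 * Real.pi)) ∧
    |(Lg x).re| ≤ 1 / 2 := by
  have hc : (2 * Real.pi * Complex.I : ℂ) ≠ 0 := Complex.two_pi_I_ne_zero
  have hpi : (Real.pi : ℝ) ≠ 0 := Real.pi_ne_zero
  have hL : Lg x = ((Complex.arg x / (2 * Real.pi) : ℝ) : ℂ) +
      ((-(Real.log ‖x‖ / (2 * Real.pi)) : ℝ) : ℂ) * Complex.I := by
    unfold Lg
    rw [div_eq_iff hc, Complex.log]
    push_cast
    have h2 : (Real.pi : ℂ) ≠ 0 := by exact_mod_cast hpi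
    field_simp
    ring_nf
    rw [Complex.I_sq]
    ring
  refine ⟨?_, ?_, ?_⟩
  · unfold ex Lg
    rw [mul_div_cancel₀ _ hc, Complex.exp_log hx]
  · rw [hL]
    simp only [Complex.add_im, Complex.mul_im, Complex.ofReal_im, Complex.ofReal_re,
      Complex.I_im, Complex.I_re]
    ring
  · rw [hL]
    have h1 : (((Complex.arg x / (2 * Real.pi) : ℝ) : ℂ) +
      ((-(Real.log ‖x‖ / (2 * Real.pi)) : ℝ) : ℂ) * Complex.I).re =
        Complex.arg x / (2 * Real.pi) := by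
      simp only [Complex.add_re, Complex.mul_re, Complex.ofReal_im, Complex.ofReal_re,
        Complex.I_im, Complex.I_re]
      ring
    rw [h1, abs_div, abs_of_pos (by positivity : (0:ℝ) < 2 * Real.pi),
      div_le_iff₀ (by positivity)]
    have := Complex.abs_arg_le_pi x
    linarith

open Classical in
/-- the function on the disc -/
noncomputable def ph (X : ℕ → ℤ → ℂ) (M W : ℕ) (ε : ℝ) (g : ℂ → ℂ) (K : ℕ) (x : ℂ) : ℂ :=
  if x = 0 then g 0 else Fp X M W ε g K (Lg x)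

variable {g : ℂ → ℂ} {M W K : ℕ} {ε s : ℝ}

/-- PROOF. `‖x‖ < e^(-2π / 2^(K+1))` means `(Lg x).im > 1 / 2^(K+1)`. -/
theorem Lg_mem {x : ℂ} (hx : x ≠ 0) (hx1 : ‖x‖ < Real.exp (-(2 * Real.pi / 2 ^ (K + 1)))) :
    Lg x ∈ Sp K := by
  obtain ⟨-, h2, h3⟩ := Lg_prop hx
  refine ⟨?_, ?_⟩
  · rw [h2]
    have h4 : Real.log ‖x‖ < -(2 * Real.pi / 2 ^ (K + 1)) :=
      (Real.log_lt_iff_lt_exp (norm_pos_iff.2 hx)).2 hx1
    have h5 : 1 / 2 ^ (K + 1) = (2 * Real.pi / 2 ^ (K + 1)) / (2 * Real.pi) := by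
      field_simp
    rw [h5, ← neg_div]
    exact div_lt_div_of_pos_right (by linarith) (by positivity)
  · exact lt_of_le_of_lt h3 (by norm_num)

/-- PROOF. If `‖x‖ < e^(-2π)` and `x ≠ 0` then `(Lg x).im > 1`, `Fp_top`, `ex (Lg x) = x`. -/
theorem ph_in (X : ℕ → ℤ → ℂ) (M W : ℕ) (ε : ℝ) (g : ℂ → ℂ) (K : ℕ) {x : ℂ}
    (hx : ‖x‖ < Real.exp (-(2 * Real.pi))) : ph X M W ε g K x = g x := by
  unfold ph
  split_ifs with h0
  · rw [h0]
  · obtain ⟨h1, h2, -⟩ := Lg_prop h0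
    rw [Fp_top X M W ε g K, h1]
    rw [h2]
    have h4 : Real.log ‖x‖ < -(2 * Real.pi) :=
      (Real.log_lt_iff_lt_exp (norm_pos_iff.2 h0)).2 hx
    rw [← neg_div, le_div_iff₀ (by positivity)]
    linarith

/-- PROOF. `Fp_near`, `Lg_prop`. -/
theorem ph_near (h : Cl g M W ε K s) {x : ℂ} (hx : ‖x‖ < Real.exp (-(2 * Real.pi / 2 ^ (K + 1)))) :
    ‖ph (av g s) M W ε g K x - g x‖ ≤ 2 * ε := by
  unfold ph
  split_ifs with h0
  · rw [h0, sub_self, norm_zero]
    have := h.ε0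
    positivity
  · have h1 := Fp_near h (Lg_mem h0 hx)
    rwa [(Lg_prop h0).1] at h1

private theorem X8_log_neg_of_im_nonneg {x : ℂ} (hr : x.re < 0) (hi : 0 ≤ x.im) :
    Complex.log x = Complex.log (-x) + Real.pi * Complex.I := by
  have hx0 : x ≠ 0 := by
    rintro rfl
    simp at hr
  have h1 : Complex.arg (-x) ≤ 0 := by
    rw [Complex.arg_of_re_nonneg (by simp; linarith)]
    apply Real.arcsin_nonpos.2
    apply div_nonpos_of_nonpos_of_nonneg _ (norm_nonneg _)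
    simpa using hi
  have h2 := Complex.neg_pi_lt_arg (-x)
  have h3 : Complex.exp (Complex.log (-x) + Real.pi * Complex.I) = x := by
    rw [Complex.exp_add, Complex.exp_log (neg_ne_zero.2 hx0), Complex.exp_pi_mul_I]
    ring
  have h4 : (Complex.log (-x) + Real.pi * Complex.I).im = Complex.arg (-x) + Real.pi := by
    simp [Complex.log_im]
  have h5 := Complex.log_exp (x := Complex.log (-x) + Real.pi * Complex.I)
    (by rw [h4]; linarith [Real.pi_pos]) (by rw [h4]; linarith)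
  rw [← h5, h3]

private theorem X8_log_neg_of_im_neg {x : ℂ} (hr : x.re < 0) (hi : x.im < 0) :
    Complex.log x = Complex.log (-x) - Real.pi * Complex.I := by
  have hx0 : x ≠ 0 := by
    rintro rfl
    simp at hr
  have h1 : 0 < Complex.arg (-x) := by
    rw [Complex.arg_of_re_nonneg (by simp; linarith)]
    apply Real.arcsin_pos.2
    apply div_pos _ (norm_pos_iff.2 (neg_ne_zero.2 hx0))
    simpa using hi
  have h2 := Complex.arg_le_pi (-x)
  have h3 : Complex.exp (Complex.log (-x) - Real.pi * Complex.I) = x := by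
    rw [Complex.exp_sub, Complex.exp_log (neg_ne_zero.2 hx0), Complex.exp_pi_mul_I]
    ring
  have h4 : (Complex.log (-x) - Real.pi * Complex.I).im = Complex.arg (-x) - Real.pi := by
    simp [Complex.log_im]
  have h5 := Complex.log_exp (x := Complex.log (-x) - Real.pi * Complex.I)
    (by rw [h4]; linarith) (by rw [h4]; linarith [Real.pi_pos])
  rw [← h5, h3]

private theorem X8_exp_lt : Real.exp (-(2 * Real.pi)) < 1 / 2 := by
  have h1 : (2 : ℝ) < Real.exp (2 * Real.pi) := by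
    have := Real.add_one_le_exp (2 * Real.pi)
    have := Real.pi_gt_three
    linarith
  rw [Real.exp_neg, inv_eq_one_div]
  exact one_div_lt_one_div_of_lt (by norm_num) h1

private theorem X8_exp_le (K : ℕ) : Real.exp (-(2 * Real.pi / 2 ^ (K + 1))) ≤ 1 := by
  apply Real.exp_le_one_iff.2
  have : 0 ≤ 2 * Real.pi / 2 ^ (K + 1) := by positivity
  linarith

/-- Near a point `x₀ ≠ 0` the function is `Fp ∘ L`, where `L` is a holomorphic branch with `L x₀ = Lg x₀`.
PROOF. If `x₀` is not on the negative axis (`x₀ ∈ Complex.slitPlane`): `L = Lg`. If `x₀ < 0`: `L x = Lg (-x) + 1/2`, so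
`L x₀ = Lg x₀` (`log (-r) = log r + iπ`), `Lg x = L x` or `Lg x = L x - 1` for `x` near `x₀` (`Complex.log` of `x` is
`log (-x) + iπ` if `0 ≤ x.im` and `log (-x) - iπ` if `x.im < 0`), and `Fp (L x) = Fp (L x - 1)` by `Fp_per`
(`z = L x - 1`, `z.re` near `-1/2`). The derivative of `L` is `1 / (2πi x)`. -/
theorem ph_branch (h : Cl g M W ε K s) {x₀ : ℂ} (hx : x₀ ≠ 0)
    (hx1 : ‖x₀‖ < Real.exp (-(2 * Real.pi / 2 ^ (K + 1)))) :
    ∃ L : ℂ → ℂ, L x₀ = Lg x₀ ∧ AnalyticAt ℂ L x₀ ∧ deriv L x₀ = 1 / (2 * Real.pi * Complex.I * x₀) ∧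
      ∀ᶠ x in 𝓝 x₀, ph (av g s) M W ε g K x = Fp (av g s) M W ε g K (L x) := by
  have hc : (2 * Real.pi * Complex.I : ℂ) ≠ 0 := Complex.two_pi_I_ne_zero
  have hmem := Lg_mem hx hx1
  by_cases hs : x₀ ∈ Complex.slitPlane
  · refine ⟨Lg, rfl, ?_, ?_, ?_⟩
    · exact (analyticAt_id.clog hs).div analyticAt_const hc
    · have h1 : HasDerivAt Lg (x₀⁻¹ / (2 * Real.pi * Complex.I)) x₀ :=
        (Complex.hasDerivAt_log hs).div_const _
      rw [h1.deriv]
      field_simp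
    · filter_upwards [isOpen_ne.mem_nhds hx] with x hx'
      exact if_neg hx'
  · -- the negative axis
    have hre : x₀.re ≤ 0 := by
      by_contra hcon
      exact hs (Or.inl (not_le.1 hcon))
    have him : x₀.im = 0 := by
      by_contra hcon
      exact hs (Or.inr hcon)
    have hre' : x₀.re < 0 := by
      rcases lt_or_eq_of_le hre with h1 | h1
      · exact h1
      · exact absurd (Complex.ext h1 him) hx
    have hneg : -x₀ ∈ Complex.slitPlane := Or.inl (by simpa using hre')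
    have e1 : ∀ x : ℂ, x.re < 0 → 0 ≤ x.im → Lg x = Lg (-x) + 1 / 2 := by
      intro x h1 h2
      unfold Lg
      rw [X8_log_neg_of_im_nonneg h1 h2]
      have h3 : (Real.pi : ℂ) ≠ 0 := by exact_mod_cast Real.pi_ne_zero
      field_simp
    have e2 : ∀ x : ℂ, x.re < 0 → x.im < 0 → Lg (-x) + 1 / 2 = Lg x + 1 := by
      intro x h1 h2
      unfold Lg
      rw [X8_log_neg_of_im_neg h1 h2]
      have h3 : (Real.pi : ℂ) ≠ 0 := by exact_mod_cast Real.pi_ne_zero
      field_simp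
      ring
    refine ⟨fun x => Lg (-x) + 1 / 2, ?_, ?_, ?_, ?_⟩
    · exact (e1 x₀ hre' him.ge).symm
    · exact ((analyticAt_id.neg.clog hneg).div analyticAt_const hc).add analyticAt_const
    · have h1 : HasDerivAt (fun x : ℂ => Lg (-x) + 1 / 2)
          ((-x₀)⁻¹ * (-1) / (2 * Real.pi * Complex.I)) x₀ := by
        have h2 : HasDerivAt (fun x : ℂ => Complex.log (-x)) ((-x₀)⁻¹ * (-1)) x₀ :=
          (Complex.hasDerivAt_log hneg).comp x₀ (hasDerivAt_neg x₀)
        exact (h2.div_const _).add_const _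
      rw [h1.deriv]
      field_simp
    · have hev1 : ∀ᶠ x in 𝓝 x₀, x.re < 0 :=
        (isOpen_lt Complex.continuous_re continuous_const).mem_nhds hre'
      have hev2 : ∀ᶠ x in 𝓝 x₀, ‖x‖ < Real.exp (-(2 * Real.pi / 2 ^ (K + 1))) :=
        (isOpen_lt continuous_norm continuous_const).mem_nhds hx1
      filter_upwards [hev1, hev2] with x h1 h2
      have hx0 : x ≠ 0 := by
        rintro rfl
        simp at h1
      have h3 : ph (av g s) M W ε g K x = Fp (av g s) M W ε g K (Lg x) := if_neg hx0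
      rw [h3]
      rcases le_or_gt 0 x.im with h4 | h4
      · rw [e1 x h1 h4]
      · rw [e2 x h1 h4]
        obtain ⟨-, h5, h6⟩ := Lg_prop hx0
        have h7 := Lg_mem hx0 h2
        have h8 := abs_le.1 h6
        symm
        apply Fp_per h
        · exact lt_of_le_of_lt h6 (by norm_num)
        · rw [abs_lt]
          constructor <;> linarith [h8.1, h8.2]
        · have h9 : (0:ℝ) < 1 / 2 ^ (K + 1) := by positivity
          exact h9.trans h7.1

private theorem X8_Sp_open : IsOpen (Sp K) := by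
  have h1 : IsOpen {z : ℂ | 1 / 2 ^ (K + 1) < z.im} :=
    isOpen_lt continuous_const Complex.continuous_im
  have h2 : IsOpen {z : ℂ | |z.re| < 2} :=
    isOpen_lt Complex.continuous_re.abs continuous_const
  exact h1.inter h2

/-- PROOF. At `x = 0`: `ph_in`, `g` is holomorphic near `0`. At `x ≠ 0`: `ph_branch`, `Fp_c2`, composition; `Sp K` is
open. -/
theorem ph_c2 (h : Cl g M W ε K s) :
    ContDiffOn ℝ 2 (ph (av g s) M W ε g K) (ball 0 (Real.exp (-(2 * Real.pi / 2 ^ (K + 1))))) := by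
  intro x hx
  rw [mem_ball_zero_iff] at hx
  apply ContDiffAt.contDiffWithinAt
  by_cases h0 : x = 0
  · subst h0
    have h1 : ph (av g s) M W ε g K =ᶠ[𝓝 (0 : ℂ)] g := by
      have : ∀ᶠ x : ℂ in 𝓝 0, ‖x‖ < Real.exp (-(2 * Real.pi)) :=
        (isOpen_lt continuous_norm continuous_const).mem_nhds (by simp [Real.exp_pos])
      filter_upwards [this] with x hx
      exact ph_in _ M W ε g K hx
    refine ContDiffAt.congr_of_eventuallyEq ?_ h1
    have h2 : AnalyticAt ℂ g 0 :=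
      h.bh.hol.analyticAt (isOpen_ball.mem_nhds (mem_ball_self one_pos))
    exact (h2.contDiffAt (n := 2)).restrict_scalars ℝ
  · obtain ⟨L, hL0, hLa, -, hLe⟩ := ph_branch h h0 hx
    refine ContDiffAt.congr_of_eventuallyEq ?_ hLe
    have h1 : ContDiffAt ℝ 2 (Fp (av g s) M W ε g K) (L x) := by
      rw [hL0]
      exact (Fp_c2 h).contDiffAt (X8_Sp_open.mem_nhds (Lg_mem h0 hx))
    exact h1.comp x ((hLa.contDiffAt (n := 2)).restrict_scalars ℝ)

/-- The derivative, near the centre.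
PROOF. `ph = g` near `x` (`ph_in`), and `(1 - ‖x‖) ‖g' x‖ ≤ 1` (Cauchy estimate), `1 - ‖x‖² ≤ 2 (1 - ‖x‖)`. -/
theorem ph_deriv_in (h : Cl g M W ε K s) {x : ℂ} (hx : ‖x‖ < Real.exp (-(2 * Real.pi))) :
    (1 - ‖x‖ ^ 2) * ‖fderiv ℝ (ph (av g s) M W ε g K) x‖ ≤ 2 := by
  have h1 : ph (av g s) M W ε g K =ᶠ[𝓝 x] g := by
    have : ∀ᶠ x : ℂ in 𝓝 x, ‖x‖ < Real.exp (-(2 * Real.pi)) :=
      (isOpen_lt continuous_norm continuous_const).mem_nhds hx
    filter_upwards [this] with x hx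
    exact ph_in _ M W ε g K hx
  have hlt := X8_exp_lt
  have hx2 : ‖x‖ < 1 / 2 := hx.trans hlt
  have hxb : x ∈ ball (0 : ℂ) 1 := by
    rw [mem_ball_zero_iff]
    linarith
  have hd : DifferentiableAt ℂ g x := h.bh.hol.differentiableAt (isOpen_ball.mem_nhds hxb)
  rw [h1.fderiv_eq, hd.fderiv_restrictScalars ℝ, ContinuousLinearMap.norm_restrictScalars,
    ← norm_deriv_eq_norm_fderiv]
  have hsub : closedBall x (1 / 2) ⊆ ball (0 : ℂ) 1 := by
    intro y hy
    rw [mem_closedBall, dist_eq_norm] at hy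
    rw [mem_ball_zero_iff]
    calc ‖y‖ = ‖(y - x) + x‖ := by rw [sub_add_cancel]
      _ ≤ ‖y - x‖ + ‖x‖ := norm_add_le _ _
      _ < 1 := by linarith
  have h2 : ‖deriv g x‖ ≤ 1 / (1 / 2) := by
    apply Complex.norm_deriv_le_of_forall_mem_sphere_norm_le (by norm_num)
    · exact (h.bh.hol.mono hsub).diffContOnCl_ball (subset_refl _)
    · intro z hz
      exact h.bh.le z (hsub (sphere_subset_closedBall hz))
  have h3 : 1 - ‖x‖ ^ 2 ≤ 1 := by
    have := sq_nonneg ‖x‖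
    linarith
  have h4 : 0 ≤ 1 - ‖x‖ ^ 2 := by nlinarith [norm_nonneg x]
  calc (1 - ‖x‖ ^ 2) * ‖deriv g x‖ ≤ 1 * (1 / (1 / 2)) :=
        mul_le_mul h3 h2 (norm_nonneg _) (by norm_num)
    _ = 2 := by norm_num

/-- The derivative, away from the centre.
PROOF. By `ph_branch`, `fderiv ℝ ph x X = fderiv ℝ Fp (Lg x) (X / (2πi x))`, of norm at most
`‖fderiv ℝ Fp (Lg x)‖ ‖X‖ / (2π ‖x‖)`; `1 - ‖x‖² ≤ 4π y`, `y = (Lg x).im` (`‖x‖ = e^(-2πy)`), `1 / ‖x‖ ≤ e^(2π)`. -/
theorem ph_deriv_out (h : Cl g M W ε K s) {x : ℂ} (hx : Real.exp (-(2 * Real.pi)) ≤ ‖x‖)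
    (hx1 : ‖x‖ < Real.exp (-(2 * Real.pi / 2 ^ (K + 1)))) :
    (1 - ‖x‖ ^ 2) * ‖fderiv ℝ (ph (av g s) M W ε g K) x‖ ≤
      2 * Real.exp (2 * Real.pi) * ((Lg x).im * ‖fderiv ℝ (Fp (av g s) M W ε g K) (Lg x)‖) := by
  have hx0 : x ≠ 0 := by
    rintro rfl
    rw [norm_zero] at hx
    exact absurd (Real.exp_pos _) (not_lt.2 hx)
  have hxp : 0 < ‖x‖ := norm_pos_iff.2 hx0
  obtain ⟨L, hL0, hLa, hLd, hLe⟩ := ph_branch h hx0 hx1
  obtain ⟨-, him, -⟩ := Lg_prop hx0
  have hmem := Lg_mem hx0 hx1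
  have hy : 0 < (Lg x).im := by
    have h9 : (0:ℝ) < 1 / 2 ^ (K + 1) := by positivity
    exact h9.trans hmem.1
  have h1 : DifferentiableAt ℝ (Fp (av g s) M W ε g K) (L x) := by
    rw [hL0]
    exact ((Fp_c2 h).contDiffAt (X8_Sp_open.mem_nhds hmem)).differentiableAt (by norm_num)
  have hLdf : DifferentiableAt ℂ L x := hLa.differentiableAt
  have h2 : fderiv ℝ (ph (av g s) M W ε g K) x =
      (fderiv ℝ (Fp (av g s) M W ε g K) (L x)).comp (fderiv ℝ L x) := by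
    have h3 : ph (av g s) M W ε g K =ᶠ[𝓝 x] (Fp (av g s) M W ε g K) ∘ L := hLe
    rw [h3.fderiv_eq]
    exact fderiv_comp x h1 (hLdf.restrictScalars ℝ)
  have h3 : ‖fderiv ℝ L x‖ = 1 / (2 * Real.pi * ‖x‖) := by
    rw [hLdf.fderiv_restrictScalars ℝ, ContinuousLinearMap.norm_restrictScalars,
      ← norm_deriv_eq_norm_fderiv, hLd]
    simp [abs_of_pos Real.pi_pos]
  have h4 : ‖fderiv ℝ (ph (av g s) M W ε g K) x‖ ≤
      ‖fderiv ℝ (Fp (av g s) M W ε g K) (Lg x)‖ * (1 / (2 * Real.pi * ‖x‖)) := by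
    rw [h2, hL0, ← h3]
    exact ContinuousLinearMap.opNorm_comp_le _ _
  have h5 : 1 - ‖x‖ ^ 2 ≤ 4 * Real.pi * (Lg x).im := by
    have h6 : ‖x‖ ^ 2 = Real.exp (-(4 * Real.pi * (Lg x).im)) := by
      rw [him]
      have h7 : -(4 * Real.pi * -(Real.log ‖x‖ / (2 * Real.pi))) = 2 * Real.log ‖x‖ := by
        have := Real.pi_ne_zero
        field_simp
        ring
      rw [h7, two_mul, Real.exp_add, Real.exp_log hxp, sq]
    have h8 := Real.add_one_le_exp (-(4 * Real.pi * (Lg x).im))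
    rw [h6]
    linarith
  have h6 : 1 / ‖x‖ ≤ Real.exp (2 * Real.pi) := by
    rw [div_le_iff₀ hxp]
    calc (1 : ℝ) = Real.exp (2 * Real.pi) * Real.exp (-(2 * Real.pi)) := by
          rw [← Real.exp_add]
          simp
      _ ≤ Real.exp (2 * Real.pi) * ‖x‖ := mul_le_mul_of_nonneg_left hx (Real.exp_pos _).le
  have hD : 0 ≤ ‖fderiv ℝ (Fp (av g s) M W ε g K) (Lg x)‖ := norm_nonneg _
  calc (1 - ‖x‖ ^ 2) * ‖fderiv ℝ (ph (av g s) M W ε g K) x‖
      ≤ (4 * Real.pi * (Lg x).im) *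
        (‖fderiv ℝ (Fp (av g s) M W ε g K) (Lg x)‖ * (1 / (2 * Real.pi * ‖x‖))) := by
        apply mul_le_mul h5 h4 (norm_nonneg _)
        positivity
    _ = 2 * (1 / ‖x‖) * ((Lg x).im * ‖fderiv ℝ (Fp (av g s) M W ε g K) (Lg x)‖) := by
        have := Real.pi_ne_zero
        field_simp
        ring
    _ ≤ 2 * Real.exp (2 * Real.pi) *
        ((Lg x).im * ‖fderiv ℝ (Fp (av g s) M W ε g K) (Lg x)‖) := by
        apply mul_le_mul_of_nonneg_right _ (by positivity)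
        linarith

end Pool.Agent.MPca0fc2.FD
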